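import Mathlib

set_option autoImplicit false

/-!
Definitions for MP_5b422c_co.
-/

namespace Pool.Agent.H15.Def

/-- `β(F)` for a finite graph `F`: the least number of edges of `F` missing from a bipartite
spanning subgraph `H ≤ F`. -/
noncomputable def beta {V : Type} (F : SimpleGraph V) : ℕ :=
  sInf {m | ∃ H : SimpleGraph V, H ≤ F ∧ H.IsBipartite ∧ (F.edgeSet \ H.edgeSet).ncard = m}

/-- `h_G(n) = max {β(G[S]) : |S| = n}`. -/
noncomputable def hG {V : Type} (G : SimpleGraph V) (n : ℕ) : ℕ :=
  sSup {b | ∃ S : Finset V, S.card = n ∧ beta (G.induce (S : Set V)) = b}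

/-- the chromatic number of `G` as a cardinal. -/
noncomputable def chi {V : Type} (G : SimpleGraph V) : Cardinal.{0} :=
  sInf {κ | ∃ C : Type, Nonempty (G.Coloring C) ∧ Cardinal.mk C = κ}

end Pool.Agent.H15.Def
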