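import Mathlib

set_option autoImplicit false

/-!
Helper file for MP_037fd6_co: large subsets of `ω₁`, generalized Specker graphs.
-/

namespace Pool.Agent.H15.Cyc

open Set

section large

variable {J : Type} [LinearOrder J]

def Cl (g : ℕ → J → J) (δ : J) : Prop := (∃ ξ, ξ < δ) ∧ ∀ k, ∀ ξ < δ, g k ξ < δ

/-- stationary sets -/
def Large (S : Set J) : Prop := ∀ g : ℕ → J → J, ∃ δ ∈ S, Cl g δ

theorem Large.unb {S : Set J} (h : Large S) (η : J) : ∃ ξ ∈ S, η < ξ := by
  obtain ⟨δ, hδ, ⟨ξ, hξ⟩, h2⟩ := h (fun _ _ => η)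
  exact ⟨δ, hδ, h2 0 ξ hξ⟩

theorem exists_cl [WellFoundedLT J] (hJ : ∀ γ : J, (Iio γ).Countable)
    (hb : ∀ s : Set J, s.Countable → ∃ η, ∀ x ∈ s, x < η) (g : ℕ → J → J) : ∃ δ, Cl g δ := by
  classical
  have hIic : ∀ γ : J, (Iic γ).Countable := by
    intro γ
    have : Iic γ = insert γ (Iio γ) := by
      ext β
      simp [le_iff_eq_or_lt]
    rw [this]
    exact (hJ γ).insert γ
  have h1 : ∀ η : J, ∃ η' : J, η < η' ∧ ∀ k, ∀ ξ ≤ η, g k ξ < η' := by
    intro η
    obtain ⟨η', h⟩ := hb ({η} ∪ ⋃ k : ℕ, (g k) '' Iic η)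
      ((countable_singleton η).union (countable_iUnion (fun k => (hIic η).image _)))
    exact ⟨η', h η (Or.inl rfl), fun k ξ hξ => h _ (Or.inr (mem_iUnion.2 ⟨k, ξ, hξ, rfl⟩))⟩
  choose nb hnb1 hnb2 using h1
  obtain ⟨η₀, -⟩ := hb ∅ countable_empty
  let d : ℕ → J := fun i => nb^[i] η₀
  have hd : ∀ i, d (i+1) = nb (d i) := fun i => Function.iterate_succ_apply' nb i η₀
  have hub : {β : J | ∀ i, d i < β}.Nonempty := by
    obtain ⟨β, hβ⟩ := hb (range d) (countable_range d)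
    exact ⟨β, fun i => hβ _ ⟨i, rfl⟩⟩
  let δ := (wellFounded_lt (α := J)).min _ hub
  have hδ : ∀ i, d i < δ := (wellFounded_lt (α := J)).min_mem _ hub
  refine ⟨δ, ⟨d 0, hδ 0⟩, fun k ξ hξ => ?_⟩
  have h2 : ¬ ∀ i, d i < ξ := fun h =>
    (wellFounded_lt (α := J)).not_lt_min _ (show ξ ∈ {β : J | ∀ i, d i < β} from h) hξ
  push Not at h2
  obtain ⟨i, hi⟩ := h2
  have h3 := hnb2 (d i) k ξ hi
  rw [← hd i] at h3
  exact h3.trans (hδ (i+1))

theorem exists_large [WellFoundedLT J] (hJ : ∀ γ : J, (Iio γ).Countable)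
    (hb : ∀ s : Set J, s.Countable → ∃ η, ∀ x ∈ s, x < η) (F : J → ℕ) :
    ∃ c, Large {δ | F δ = c} := by
  by_contra H
  push Not at H
  have H' : ∀ c, ∃ g : ℕ → J → J, ∀ δ, F δ = c → ¬ Cl g δ := by
    intro c
    have := H c
    unfold Large at this
    push Not at this
    obtain ⟨g, hg⟩ := this
    exact ⟨g, fun δ h => hg δ h⟩
  choose g hg using H'
  obtain ⟨δ, hδ1, hδ2⟩ := exists_cl hJ hb (fun k ξ => g (Nat.unpair k).1 (Nat.unpair k).2 ξ)
  refine hg (F δ) δ rfl ⟨hδ1, fun k ξ hξ => ?_⟩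
  have := hδ2 (Nat.pair (F δ) k) ξ hξ
  simpa using this

theorem select (hJ : ∀ γ : J, (Iio γ).Countable) {B : Type} [Nonempty B] (δ : J)
    (hδ : (∃ η, η < δ) ∧ ∀ η < δ, ∃ ξ, η < ξ ∧ ξ < δ) (P : ℕ → B → J → Prop) :
    ∃ a : ℕ → B × J, StrictMono (fun k => (a k).2) ∧ (∀ k, (a k).2 < δ) ∧
      (∀ η < δ, ∃ K, ∀ k, K ≤ k → η < (a k).2) ∧
      ∀ k, (∀ η < δ, ∃ b ξ, η < ξ ∧ ξ < δ ∧ P k b ξ) → P k (a k).1 (a k).2 := by
  classical
  obtain ⟨⟨η₀, hη₀⟩, hlim⟩ := hδ
  obtain ⟨d, hd⟩ := (hJ δ).exists_eq_range ⟨η₀, hη₀⟩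
  have hdδ : ∀ k, d k < δ := by
    intro k
    have : d k ∈ Iio δ := by rw [hd]; exact ⟨k, rfl⟩
    exact this
  have step : ∀ k, ∀ η : Iio δ, ∃ p : B × Iio δ, η.1 < p.2.1 ∧ d k < p.2.1 ∧
      ((∀ η < δ, ∃ b ξ, η < ξ ∧ ξ < δ ∧ P k b ξ) → P k p.1 p.2.1) := by
    intro k η
    have hm : max η.1 (d k) < δ := max_lt η.2 (hdδ k)
    by_cases hP : ∀ η < δ, ∃ b ξ, η < ξ ∧ ξ < δ ∧ P k b ξ
    · obtain ⟨b, ξ, h1, h2, h3⟩ := hP _ hm
      exact ⟨(b, ⟨ξ, h2⟩), (le_max_left _ _).trans_lt h1, (le_max_right _ _).trans_lt h1,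
        fun _ => h3⟩
    · obtain ⟨ξ, h1, h2⟩ := hlim _ hm
      exact ⟨(Classical.arbitrary B, ⟨ξ, h2⟩), (le_max_left _ _).trans_lt h1,
        (le_max_right _ _).trans_lt h1, fun h => absurd h hP⟩
  choose f hf1 hf2 hf3 using step
  let a : ℕ → B × Iio δ := fun k => Nat.rec (f 0 ⟨η₀, hη₀⟩) (fun k r => f (k+1) r.2) k
  have ha : ∀ k, a (k+1) = f (k+1) (a k).2 := fun k => rfl
  have hmono : StrictMono (fun k => (a k).2.1) := by
    refine strictMono_nat_of_lt_succ (fun k => ?_)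
    show (a k).2.1 < (a (k+1)).2.1
    rw [ha]
    exact hf1 (k+1) (a k).2
  have hda : ∀ k, d k < (a k).2.1 := by
    intro k
    rcases k with _ | k
    · exact hf2 0 _
    · rw [ha]
      exact hf2 (k+1) _
  refine ⟨fun k => ((a k).1, (a k).2.1), hmono, fun k => (a k).2.2, ?_, ?_⟩
  · intro η hη
    have : η ∈ range d := by rw [← hd]; exact hη
    obtain ⟨j, rfl⟩ := this
    exact ⟨j, fun k hk => (hda j).trans_le (hmono.monotone hk)⟩
  · intro k hk
    rcases k with _ | k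
    · exact hf3 0 _ hk
    · show P (k+1) (a (k+1)).1 (a (k+1)).2.1
      rw [ha]
      exact hf3 (k+1) _ hk

end large

section specker

variable {J : Type} [LinearOrder J]

/-- the coordinates of a tuple of length `N+1` -/
def hat {N : ℕ} (x : Fin (N+1) → J) (i : ℕ) : J := x (Fin.ofNat (N+1) i)

omit [LinearOrder J] in
theorem hat_restr {N : ℕ} (x : ℕ → J) {i : ℕ} (hi : i ≤ N) :
    hat (N := N) (fun i => x i) i = x i := by
  unfold hat
  simp only [Fin.val_ofNat]
  rw [Nat.mod_eq_of_lt (by omega)]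

/-- the relation of the generalized Specker graph -/
def Sp (n N : ℕ) (x y : Fin (N+1) → J) : Prop :=
  (∀ i j, i < j → j ≤ N → hat x i < hat x j) ∧ (∀ i j, i < j → j ≤ N → hat y i < hat y j) ∧
  (∀ i, i + n ≤ N → hat x (i+n) < hat y i) ∧ (∀ i, i + n + 1 ≤ N → hat y i < hat x (i+n+1))

def Good (N : ℕ) (col : (Fin (N+1) → J) → ℕ) (c : ℕ) : ℕ → (ℕ → J) → Prop
  | 0, x => col (fun i => x i) = c
  | m+1, x => ∀ η, ∃ ξ, η < ξ ∧ Good N col c m (Function.update x (N - m) ξ)

theorem exists_good (hb : ∀ s : Set J, s.Countable → ∃ η, ∀ x ∈ s, x < η) (N : ℕ)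
    (col : (Fin (N+1) → J) → ℕ) (m : ℕ) : ∀ x : ℕ → J, ∃ c, Good N col c m x := by
  induction m with
  | zero => exact fun x => ⟨_, rfl⟩
  | succ m ih =>
    intro x
    by_contra H
    push Not at H
    have H' : ∀ c, ∃ η, ∀ ξ, η < ξ → ¬ Good N col c m (Function.update x (N - m) ξ) := by
      intro c
      have := H c
      unfold Good at this
      push Not at this
      exact this
    choose η hη using H'
    obtain ⟨ζ, hζ⟩ := hb (range η) (countable_range η)
    obtain ⟨c, hc⟩ := ih (Function.update x (N - m) ζ)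
    exact hη c ζ (hζ _ ⟨c, rfl⟩) hc

def St (n N : ℕ) (col : (Fin (N+1) → J) → ℕ) (c : ℕ) (j k : ℕ) : Prop :=
  ∃ (x y : ℕ → J) (η : J),
    Good N col c (N+1-j) x ∧ Good N col c (N+1-k) y ∧
    (∀ i < j, x i ≤ η) ∧ (∀ i < k, y i ≤ η) ∧
    (∀ i i', i < i' → i' < j → x i < x i') ∧ (∀ i i', i < i' → i' < k → y i < y i') ∧
    (∀ i < k, i + n < j → x (i+n) < y i) ∧ (∀ i < k, i + n + 1 < j → y i < x (i+n+1))

theorem extX {n N : ℕ} {col : (Fin (N+1) → J) → ℕ} {c j k : ℕ} (h : St n N col c j k)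
    (hj : j ≤ N) (hk : k = 0 ∨ k + n ≤ j) : St n N col c (j+1) k := by
  obtain ⟨x, y, η, h1, h2, h3, h4, h5, h6, h7, h8⟩ := h
  have e1 : N + 1 - j = (N - j) + 1 := by omega
  have e2 : N - (N - j) = j := by omega
  rw [e1] at h1
  obtain ⟨ξ, hξ1, hξ2⟩ := h1 η
  rw [e2] at hξ2
  have e3 : N + 1 - (j+1) = N - j := by omega
  refine ⟨Function.update x j ξ, y, ξ, by rw [e3]; exact hξ2, h2, ?_, ?_, ?_, h6, ?_, ?_⟩
  · intro i hi
    rcases Nat.lt_succ_iff_lt_or_eq.1 hi with hi' | rfl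
    · rw [Function.update_of_ne (by omega)]
      exact (h3 i hi').trans hξ1.le
    · rw [Function.update_self]
  · exact fun i hi => (h4 i hi).trans hξ1.le
  · intro i i' hii hi'
    rw [Function.update_of_ne (show i ≠ j by omega)]
    rcases Nat.lt_succ_iff_lt_or_eq.1 hi' with hi'' | rfl
    · rw [Function.update_of_ne (by omega)]
      exact h5 i i' hii hi''
    · rw [Function.update_self]
      exact (h3 i hii).trans_lt hξ1
  · intro i hi hij
    have : i + n ≠ j := by omega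
    rw [Function.update_of_ne this]
    exact h7 i hi (by omega)
  · intro i hi hij
    by_cases he : i + n + 1 = j
    · rw [he, Function.update_self]
      exact (h4 i hi).trans_lt hξ1
    · rw [Function.update_of_ne he]
      exact h8 i hi (by omega)

theorem extY {n N : ℕ} {col : (Fin (N+1) → J) → ℕ} {c j k : ℕ} (h : St n N col c j k)
    (hk : k ≤ N) (hj : j ≤ k + n + 1) : St n N col c j (k+1) := by
  obtain ⟨x, y, η, h1, h2, h3, h4, h5, h6, h7, h8⟩ := h
  have e1 : N + 1 - k = (N - k) + 1 := by omega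
  have e2 : N - (N - k) = k := by omega
  rw [e1] at h2
  obtain ⟨ξ, hξ1, hξ2⟩ := h2 η
  rw [e2] at hξ2
  have e3 : N + 1 - (k+1) = N - k := by omega
  refine ⟨x, Function.update y k ξ, ξ, h1, by rw [e3]; exact hξ2, ?_, ?_, h5, ?_, ?_, ?_⟩
  · exact fun i hi => (h3 i hi).trans hξ1.le
  · intro i hi
    rcases Nat.lt_succ_iff_lt_or_eq.1 hi with hi' | rfl
    · rw [Function.update_of_ne (by omega)]
      exact (h4 i hi').trans hξ1.le
    · rw [Function.update_self]
  · intro i i' hii hi'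
    rw [Function.update_of_ne (show i ≠ k by omega)]
    rcases Nat.lt_succ_iff_lt_or_eq.1 hi' with hi'' | rfl
    · rw [Function.update_of_ne (by omega)]
      exact h6 i i' hii hi''
    · rw [Function.update_self]
      exact (h4 i hii).trans_lt hξ1
  · intro i hi hij
    rcases Nat.lt_succ_iff_lt_or_eq.1 hi with hi' | rfl
    · rw [Function.update_of_ne (show i ≠ k by omega)]
      exact h7 i hi' hij
    · rw [Function.update_self]
      exact (h3 _ hij).trans_lt hξ1
  · intro i hi hij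
    rw [Function.update_of_ne (show i ≠ k by omega)]
    exact h8 i (by omega) hij

/-- Generalized Specker graphs on `ω₁` have uncountable chromatic number. -/
theorem sp_chrom (hb : ∀ s : Set J, s.Countable → ∃ η, ∀ x ∈ s, x < η) {n N : ℕ} (hn : n ≤ N)
    (col : (Fin (N+1) → J) → ℕ) : ∃ x y, Sp n N x y ∧ col x = col y := by
  obtain ⟨η₀, -⟩ := hb ∅ countable_empty
  obtain ⟨c, hc⟩ := exists_good hb N col (N+1) (fun _ => η₀)
  have h0 : St n N col c 0 0 :=
    ⟨fun _ => η₀, fun _ => η₀, η₀, hc, hc, by simp, by simp, by simp, by simp, by simp, by simp⟩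
  have h1 : ∀ j ≤ n + 1, St n N col c j 0 := by
    intro j
    induction j with
    | zero => exact fun _ => h0
    | succ j ih => exact fun hj => extX (ih (by omega)) (by omega) (Or.inl rfl)
  have h2 : ∀ t, t + n + 1 ≤ N + 1 → St n N col c (t+n+1) t := by
    intro t
    induction t with
    | zero =>
      intro _
      have := h1 (n+1) le_rfl
      rwa [Nat.zero_add]
    | succ t ih =>
      intro ht
      have h3 := extX (extY (ih (by omega)) (by omega) le_rfl) (by omega) (Or.inr (by omega))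
      have e : t + 1 + n + 1 = t + n + 1 + 1 := by omega
      rw [e]
      exact h3
  have h3 : ∀ s, N - n + s ≤ N + 1 → St n N col c (N+1) (N - n + s) := by
    intro s
    induction s with
    | zero =>
      intro _
      have := h2 (N - n) (by omega)
      have e : N - n + n + 1 = N + 1 := by omega
      rwa [e] at this
    | succ s ih =>
      intro hs
      show St n N col c (N+1) ((N - n + s) + 1)
      exact extY (ih (by omega)) (by omega) (by omega)
  have h4 := h3 (n+1) (by omega)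
  have e : N - n + (n + 1) = N + 1 := by omega
  rw [e] at h4
  obtain ⟨x, y, η, g1, g2, -, -, g5, g6, g7, g8⟩ := h4
  rw [Nat.sub_self] at g1 g2
  refine ⟨fun i => x i, fun i => y i, ⟨?_, ?_, ?_, ?_⟩, ?_⟩
  · intro i j hij hj
    rw [hat_restr x (by omega), hat_restr x hj]
    exact g5 i j hij (by omega)
  · intro i j hij hj
    rw [hat_restr y (by omega), hat_restr y hj]
    exact g6 i j hij (by omega)
  · intro i hi
    rw [hat_restr x hi, hat_restr y (by omega)]
    exact g7 i (by omega) (by omega)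
  · intro i hi
    rw [hat_restr x hi, hat_restr y (by omega)]
    exact g8 i (by omega) (by omega)
  · exact g1.trans g2.symm

end specker

end Pool.Agent.H15.Cyc
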