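import Pool.Agent.H15.CycA

set_option autoImplicit false

/-!
Helper file for MP_037fd6_co: the tree-coded graph over a graph of size `ℵ₁`.
-/

namespace Pool.Agent.H15.Cyc

open Set

section graph

variable {J B : Type} [LinearOrder J]

/-- truncation of a partial colouring -/
def tr (δ : J) (h : B → J → ℕ) : B → J → ℕ := fun b ξ => if ξ < δ then h b ξ else 0

theorem tr_tr {ξ δ : J} (hle : ξ ≤ δ) (h : B → J → ℕ) : tr ξ (tr δ h) = tr ξ h := by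
  funext b η
  unfold tr
  by_cases h1 : η < ξ
  · simp [h1, h1.trans_le hle]
  · simp [h1]

theorem tr_apply {δ ξ : J} (hlt : ξ < δ) (h : B → J → ℕ) (b : B) : tr δ h b ξ = h b ξ := by
  simp [tr, hlt]

abbrev Vt (J B : Type) := (B → J → ℕ) × B × J

def Lim (δ : J) : Prop := (∃ η, η < δ) ∧ ∀ η < δ, ∃ ξ, η < ξ ∧ ξ < δ

def Req (S : B → B → Prop) (Bel : B → J → Prop) (e : J → B → ℕ) (h : B → J → ℕ) (δ : J)
    (k : ℕ) (b' : B) (ξ : J) : Prop :=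
  h b' ξ = (Nat.unpair k).2 ∧ ∃ b, Bel b δ ∧ e δ b = (Nat.unpair k).1 ∧ S b' b

def Low (S : B → B → Prop) (Bel : B → J → Prop) (e : J → B → ℕ)
    (a : (B → J → ℕ) → J → ℕ → B × J) (u v : Vt J B) : Prop :=
  v.1 = tr v.2.2 v.1 ∧ Lim v.2.2 ∧ Bel v.2.1 v.2.2 ∧ ∃ c : ℕ,
    u = (tr (a v.1 v.2.2 (Nat.pair (e v.2.2 v.2.1) c)).2 v.1,
      a v.1 v.2.2 (Nat.pair (e v.2.2 v.2.1) c)) ∧
    S (a v.1 v.2.2 (Nat.pair (e v.2.2 v.2.1) c)).1 v.2.1

variable {S : B → B → Prop} {Bel : B → J → Prop} {e : J → B → ℕ}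
    {a : (B → J → ℕ) → J → ℕ → B × J}

theorem Low.lt (ha : ∀ h δ, Lim δ → ∀ k, (a h δ k).2 < δ) {u v : Vt J B}
    (h : Low S Bel e a u v) : u.2.2 < v.2.2 := by
  obtain ⟨-, h2, -, c, h4, -⟩ := h
  rw [h4]
  exact ha _ _ h2 _

theorem Low.rel {u v : Vt J B} (h : Low S Bel e a u v) : S u.2.1 v.2.1 := by
  obtain ⟨-, -, -, c, h4, h5⟩ := h
  rw [h4]
  exact h5

theorem low_unb (ha3 : ∀ h δ, Lim δ → ∀ η < δ, ∃ K, ∀ k, K ≤ k → η < (a h δ k).2)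
    {v : Vt J B} {A : Set (Vt J B)} (hA : A.Infinite) (hAv : ∀ u ∈ A, Low S Bel e a u v)
    {η : J} (hη : η < v.2.2) : ∃ u ∈ A, η < u.2.2 := by
  by_contra H
  push Not at H
  obtain ⟨u₀, hu₀⟩ := hA.nonempty
  have hlim := (hAv u₀ hu₀).2.1
  obtain ⟨K, hK⟩ := ha3 v.1 v.2.2 hlim η hη
  refine hA (((finite_Iio K).image
    (fun k => (tr (a v.1 v.2.2 k).2 v.1, a v.1 v.2.2 k))).subset ?_)
  intro u hu
  obtain ⟨-, -, -, c, h4, -⟩ := hAv u hu
  refine ⟨Nat.pair (e v.2.2 v.2.1) c, ?_, h4.symm⟩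
  by_contra hc
  have h5 := hK _ (not_lt.1 hc)
  have h6 := H u hu
  rw [h4] at h6
  exact absurd h5 (not_lt.2 h6)

theorem almost_disjoint (he : ∀ δ, InjOn (e δ) {b | Bel b δ})
    (ha1 : ∀ h δ, Lim δ → StrictMono (fun k => (a h δ k).2))
    (ha2 : ∀ h δ, Lim δ → ∀ k, (a h δ k).2 < δ)
    (ha3 : ∀ h δ, Lim δ → ∀ η < δ, ∃ K, ∀ k, K ≤ k → η < (a h δ k).2)
    {v v' : Vt J B} (hne : v ≠ v') : {u | Low S Bel e a u v ∧ Low S Bel e a u v'}.Finite := by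
  by_contra hA
  have hA' : {u | Low S Bel e a u v ∧ Low S Bel e a u v'}.Infinite := hA
  apply hne
  have h1 := fun (η : J) (hη : η < v.2.2) => low_unb ha3 hA' (fun u hu => hu.1) hη
  have h2 := fun (η : J) (hη : η < v'.2.2) => low_unb ha3 hA' (fun u hu => hu.2) hη
  have hδ : v.2.2 = v'.2.2 := by
    rcases lt_trichotomy v.2.2 v'.2.2 with h | h | h
    · obtain ⟨u, hu, hlt⟩ := h2 _ h
      exact absurd hlt (not_lt.2 (hu.1.lt ha2).le)
    · exact h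
    · obtain ⟨u, hu, hlt⟩ := h1 _ h
      exact absurd hlt (not_lt.2 (hu.2.lt ha2).le)
  obtain ⟨u₀, hu₀, hu₀'⟩ := hA'.nonempty
  have hh : v.1 = v'.1 := by
    funext b ξ
    by_cases hξ : ξ < v.2.2
    · obtain ⟨u, ⟨hu, hu'⟩, hlt⟩ := h1 ξ hξ
      obtain ⟨-, -, -, c, h4, -⟩ := hu
      obtain ⟨-, -, -, c', h4', -⟩ := hu'
      have e1 : u.1 = tr u.2.2 v.1 := by rw [h4]
      have e2 : u.1 = tr u.2.2 v'.1 := by rw [h4']
      rw [e1] at e2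
      have e3 := congrFun (congrFun e2 b) ξ
      rwa [tr_apply hlt, tr_apply hlt] at e3
    · have e1 := congrFun (congrFun hu₀.1 b) ξ
      have e2 := congrFun (congrFun hu₀'.1 b) ξ
      rw [e1, e2]
      unfold tr
      rw [if_neg hξ, if_neg (by rw [← hδ]; exact hξ)]
  obtain ⟨-, hlim, hB, c, h4, -⟩ := hu₀
  obtain ⟨-, -, hB', c', h4', -⟩ := hu₀'
  have hk : (a v.1 v.2.2 (Nat.pair (e v.2.2 v.2.1) c)).2 =
      (a v.1 v.2.2 (Nat.pair (e v.2.2 v'.2.1) c')).2 := by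
    have e1 : u₀.2.2 = (a v.1 v.2.2 (Nat.pair (e v.2.2 v.2.1) c)).2 := by rw [h4]
    have e2 : u₀.2.2 = (a v'.1 v'.2.2 (Nat.pair (e v'.2.2 v'.2.1) c')).2 := by rw [h4']
    rw [← e1, e2, hh, hδ]
  have hk' := (ha1 v.1 v.2.2 hlim).injective hk
  have hk2 := (Nat.pair_eq_pair.1 hk').1
  have hb : v.2.1 = v'.2.1 := he v.2.2 hB (by rw [hδ]; exact hB') hk2
  exact Prod.ext hh (Prod.ext hb hδ)

section kww

variable {V : Type} {ht : V → J} {L : V → V → Prop}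

theorem nochain (h4 : ∀ x y z w, L x y → L y z → L z w → ¬ L x w) {A C : Set V}
    (hAC : ∀ a ∈ A, ∀ c ∈ C, (L a c ∧ ht a < ht c) ∨ (L c a ∧ ht c < ht a))
    (h1 : ∀ a ∈ A, ∃ c ∈ C, ht a < ht c) (h2 : ∀ c ∈ C, ∃ a ∈ A, ht c < ht a)
    (hA : A.Nonempty) : False := by
  obtain ⟨a0, ha0⟩ := hA
  obtain ⟨c1, hc1, h01⟩ := h1 a0 ha0
  obtain ⟨a2, ha2, h12⟩ := h2 c1 hc1
  obtain ⟨c3, hc3, h23⟩ := h1 a2 ha2
  have key : ∀ a ∈ A, ∀ c ∈ C, ht a < ht c → L a c := by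
    intro a ha c hc hlt
    rcases hAC a ha c hc with h | h
    · exact h.1
    · exact absurd hlt (not_lt.2 h.2.le)
  have key' : ∀ a ∈ A, ∀ c ∈ C, ht c < ht a → L c a := by
    intro a ha c hc hlt
    rcases hAC a ha c hc with h | h
    · exact absurd hlt (not_lt.2 h.2.le)
    · exact h.1
  exact h4 a0 c1 a2 c3 (key a0 ha0 c1 hc1 h01) (key' a2 ha2 c1 hc1 h12) (key a2 ha2 c3 hc3 h23)
    (key a0 ha0 c3 hc3 (h01.trans (h12.trans h23)))

theorem kww_aux (h4 : ∀ x y z w, L x y → L y z → L z w → ¬ L x w)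
    (had : ∀ v v', v ≠ v' → {u | L u v ∧ L u v'}.Finite) {A C : Set V}
    (hAC : ∀ a ∈ A, ∀ c ∈ C, (L a c ∧ ht a < ht c) ∨ (L c a ∧ ht c < ht a))
    (hA : A.Infinite) (hC : C.Infinite) (h : ¬ ∀ a ∈ A, ∃ c ∈ C, ht a < ht c) : False := by
  push Not at h
  obtain ⟨a', ha', hmax⟩ := h
  have key : ∀ a ∈ A, ∀ c ∈ C, ht a < ht c → L a c := by
    intro a ha c hc hlt
    rcases hAC a ha c hc with h | h
    · exact h.1
    · exact absurd hlt (not_lt.2 h.2.le)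
  have key' : ∀ a ∈ A, ∀ c ∈ C, ht c < ht a → L c a := by
    intro a ha c hc hlt
    rcases hAC a ha c hc with h | h
    · exact absurd hlt (not_lt.2 h.2.le)
    · exact h.1
  have hne : ∀ a ∈ A, ∀ c ∈ C, ht a ≠ ht c := by
    intro a ha c hc he
    rcases hAC a ha c hc with h | h
    · exact h.2.ne he
    · exact h.2.ne he.symm
  have hmax' : ∀ c ∈ C, ht c < ht a' := fun c hc =>
    lt_of_le_of_ne (hmax c hc) (hne a' ha' c hc).symm
  let A₁ := A \ {a'}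
  have hA₁ : A₁.Infinite := hA.sdiff (finite_singleton a')
  have P1 : ∀ a ∈ A₁, {c ∈ C | ht c < ht a}.Finite := by
    rintro a ⟨ha, hane⟩
    refine (had a a' (fun he => hane he)).subset ?_
    rintro c ⟨hc, hlt⟩
    exact ⟨key' a ha c hc hlt, key' a' ha' c hc (hmax' c hc)⟩
  have Q1 : ∀ C' ⊆ C, C'.Infinite → ∀ a ∈ A₁, ∃ c ∈ C', ht a < ht c := by
    intro C' hC' hinf a ha
    obtain ⟨c, hc, hnc⟩ := (hinf.sdiff (P1 a ha)).nonempty
    refine ⟨c, hc, lt_of_le_of_ne ?_ (hne a ha.1 c (hC' hc))⟩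
    by_contra hlt
    exact hnc ⟨hC' hc, not_le.1 hlt⟩
  by_cases h3 : ∀ c ∈ C, ∃ a ∈ A₁, ht c < ht a
  · exact nochain h4 (fun a ha c hc => hAC a ha.1 c hc) (Q1 C le_rfl hC) h3 hA₁.nonempty
  · push Not at h3
    obtain ⟨c', hc', hmaxc⟩ := h3
    have hmaxc' : ∀ a ∈ A₁, ht a < ht c' := fun a ha =>
      lt_of_le_of_ne (hmaxc a ha) (hne a ha.1 c' hc')
    let C₁ := C \ {c'}
    have hC₁ : C₁.Infinite := hC.sdiff (finite_singleton c')
    have P2 : ∀ c ∈ C₁, {a ∈ A₁ | ht a < ht c}.Finite := by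
      rintro c ⟨hc, hcne⟩
      refine (had c c' (fun he => hcne he)).subset ?_
      rintro a ⟨ha, hlt⟩
      exact ⟨key a ha.1 c hc hlt, key a ha.1 c' hc' (hmaxc' a ha)⟩
    refine nochain h4 (A := A₁) (C := C₁) (fun a ha c hc => hAC a ha.1 c hc.1)
      (Q1 C₁ sdiff_subset hC₁) ?_ hA₁.nonempty
    intro c hc
    obtain ⟨a, ha, hna⟩ := (hA₁.sdiff (P2 c hc)).nonempty
    refine ⟨a, ha, lt_of_le_of_ne ?_ (hne a ha.1 c hc.1).symm⟩
    by_contra hlt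
    exact hna ⟨ha, not_le.1 hlt⟩

theorem kww (h4 : ∀ x y z w, L x y → L y z → L z w → ¬ L x w)
    (had : ∀ v v', v ≠ v' → {u | L u v ∧ L u v'}.Finite) {A C : Set V}
    (hAC : ∀ a ∈ A, ∀ c ∈ C, (L a c ∧ ht a < ht c) ∨ (L c a ∧ ht c < ht a))
    (hA : A.Infinite) (hC : C.Infinite) : False := by
  by_cases h1 : ∀ a ∈ A, ∃ c ∈ C, ht a < ht c
  · by_cases h2 : ∀ c ∈ C, ∃ a ∈ A, ht c < ht a
    · exact nochain h4 hAC h1 h2 hA.nonempty
    · exact kww_aux h4 had (fun c hc a ha => (hAC a ha c hc).symm) hC hA h2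
  · exact kww_aux h4 had hAC hA hC h1

end kww

theorem main_graph [WellFoundedLT J] (hJ : ∀ γ : J, (Iio γ).Countable)
    (hb : ∀ s : Set J, s.Countable → ∃ η, ∀ x ∈ s, x < η) [Nonempty B]
    (S : B → B → Prop) (Bel : B → J → Prop) (hBc : ∀ δ, {b | Bel b δ}.Countable)
    (hBe : ∀ b, ∃ η, ∀ ξ, η < ξ → Bel b ξ)
    (hχ : ∀ col : B → ℕ, ∃ x y, S x y ∧ col x = col y)
    (h4 : ∀ x y z w, S x y → S y z → S z w → ¬ S x w) :
    ∃ G : SimpleGraph (Vt J B), (∀ u v, G.Adj u v → S u.2.1 v.2.1 ∨ S v.2.1 u.2.1) ∧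
      (∀ col : Vt J B → ℕ, ∃ u v, G.Adj u v ∧ col u = col v) ∧
      (∀ u v, G.Adj u v → u.2.2 ≠ v.2.2) ∧
      ¬ ∃ A C : Set (Vt J B), A.Infinite ∧ C.Infinite ∧ ∀ a ∈ A, ∀ c ∈ C, G.Adj a c := by
  classical
  have he : ∀ δ : J, ∃ f : B → ℕ, InjOn f {b | Bel b δ} := fun δ =>
    countable_iff_exists_injOn.1 (hBc δ)
  choose e he using he
  have hsel : ∀ (h : B → J → ℕ) (δ : J), ∃ a : ℕ → B × J, Lim δ →
      (StrictMono (fun k => (a k).2) ∧ (∀ k, (a k).2 < δ) ∧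
      (∀ η < δ, ∃ K, ∀ k, K ≤ k → η < (a k).2) ∧
      ∀ k, (∀ η < δ, ∃ b ξ, η < ξ ∧ ξ < δ ∧ Req S Bel e h δ k b ξ) →
        Req S Bel e h δ k (a k).1 (a k).2) := by
    intro h δ
    by_cases hδ : Lim δ
    · obtain ⟨a, ha⟩ := select hJ δ hδ (Req S Bel e h δ)
      exact ⟨a, fun _ => ha⟩
    · exact ⟨fun _ => (Classical.arbitrary B, δ), fun h => absurd h hδ⟩
  choose a ha using hsel
  have ha1 : ∀ h δ, Lim δ → StrictMono (fun k => (a h δ k).2) := fun h δ hδ => (ha h δ hδ).1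
  have ha2 : ∀ h δ, Lim δ → ∀ k, (a h δ k).2 < δ := fun h δ hδ => (ha h δ hδ).2.1
  have ha3 : ∀ h δ, Lim δ → ∀ η < δ, ∃ K, ∀ k, K ≤ k → η < (a h δ k).2 :=
    fun h δ hδ => (ha h δ hδ).2.2.1
  let L : Vt J B → Vt J B → Prop := Low S Bel e a
  let G : SimpleGraph (Vt J B) :=
    { Adj := fun u v => L u v ∨ L v u
      symm := ⟨fun u v h => h.symm⟩
      loopless := ⟨fun u h => by
        rcases h with h | h
        · exact lt_irrefl _ (Low.lt ha2 h)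
        · exact lt_irrefl _ (Low.lt ha2 h)⟩ }
  refine ⟨G, ?_, ?_, ?_, ?_⟩
  · rintro u v (h | h)
    · exact Or.inl h.rel
    · exact Or.inr h.rel
  · intro f
    let Fx : (ξ : J) → ((η : J) → η < ξ → (B → ℕ)) → (B → ℕ) := fun ξ prev b =>
      f ((fun b' η => if h : η < ξ then prev η h b' else 0), b, ξ)
    let F : J → (B → ℕ) := (wellFounded_lt (α := J)).fix Fx
    have hF : ∀ ξ, F ξ = fun b => f ((fun b' η => if _ : η < ξ then F η b' else 0), b, ξ) :=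
      fun ξ => (wellFounded_lt (α := J)).fix_eq Fx ξ
    let H : B → J → ℕ := fun b ξ => F ξ b
    have hH : ∀ b ξ, H b ξ = f (tr ξ H, b, ξ) := by
      intro b ξ
      show F ξ b = _
      rw [hF]
      congr 2
    have hcol : ∀ b, ∃ c, Large {δ | H b δ = c} := fun b => exists_large hJ hb (fun δ => H b δ)
    choose col hcol using hcol
    obtain ⟨x, y, hxy, hc⟩ := hχ col
    obtain ⟨ηy, hηy⟩ := hBe y
    have hg : ∀ η, ∃ ξ, H x ξ = col x ∧ max η ηy < ξ := by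
      intro η
      obtain ⟨ξ, h1, h2⟩ := (hcol x).unb (max η ηy)
      exact ⟨ξ, h1, h2⟩
    choose g0 hg1 hg2 using hg
    obtain ⟨δ, hδ, ⟨η₁, hη₁⟩, hcl⟩ := hcol y (fun _ => g0)
    have hδ' : H y δ = col y := hδ
    have hcl' : ∀ η < δ, g0 η < δ := hcl 0
    have hgt : ∀ η, η < g0 η := fun η => (le_max_left _ _).trans_lt (hg2 η)
    have hlim : Lim δ := ⟨⟨η₁, hη₁⟩, fun η hη => ⟨g0 η, hgt η, hcl' η hη⟩⟩
    have hBy : Bel y δ :=
      hηy δ (((le_max_right _ _).trans_lt (hg2 η₁)).trans (hcl' η₁ hη₁))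
    let h := tr δ H
    let k := Nat.pair (e δ y) (col x)
    have hreq : Req S Bel e h δ k (a h δ k).1 (a h δ k).2 := by
      refine (ha h δ hlim).2.2.2 k (fun η hη => ⟨x, g0 η, hgt η, hcl' η hη, ?_, y, hBy, ?_, hxy⟩)
      · show tr δ H x (g0 η) = _
        rw [tr_apply (hcl' η hη), hg1]
        simp [k]
      · simp [k]
    obtain ⟨hr1, y', hy1, hy2, hy3⟩ := hreq
    have hyy : y' = y := he δ hy1 hBy (by rw [hy2]; simp [k])
    rw [hyy] at hy3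
    have hltk : (a h δ k).2 < δ := ha2 h δ hlim k
    refine ⟨(tr (a h δ k).2 h, (a h δ k).1, (a h δ k).2), (h, y, δ), Or.inl ?_, ?_⟩
    · exact ⟨(tr_tr le_rfl H).symm, hlim, hBy, col x, rfl, hy3⟩
    · have e1 : f (h, y, δ) = col y := by
        rw [← hδ']
        exact (hH y δ).symm
      have e2 : f (tr (a h δ k).2 h, (a h δ k).1, (a h δ k).2) = col x := by
        have e3 : tr (a h δ k).2 h = tr (a h δ k).2 H := tr_tr hltk.le H
        rw [e3, ← hH]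
        have e4 : h (a h δ k).1 (a h δ k).2 = H (a h δ k).1 (a h δ k).2 := tr_apply hltk H _
        rw [← e4, hr1]
        simp [k]
      rw [e1, e2, hc]
  · rintro u v (h | h) he
    · exact (Low.lt ha2 h).ne he
    · exact (Low.lt ha2 h).ne he.symm
  · rintro ⟨A, C, hA, hC, hAC⟩
    refine kww (L := L) (ht := fun v => v.2.2) ?_ ?_ (A := A) (C := C) ?_ hA hC
    · intro x y z w h1 h2 h3 h5
      exact h4 _ _ _ _ h1.rel h2.rel h3.rel h5.rel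
    · exact fun v v' hne => almost_disjoint he ha1 ha2 ha3 hne
    · intro x hx y hy
      rcases hAC x hx y hy with h | h
      · exact Or.inl ⟨h, Low.lt ha2 h⟩
      · exact Or.inr ⟨h, Low.lt ha2 h⟩

end graph

end Pool.Agent.H15.Cyc
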