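import Pool.Agent.H15.CycB

set_option autoImplicit false

/-!
Helper file for MP_037fd6_co: no short odd closed walks, and the final theorem.
-/

namespace Pool.Agent.H15.Cyc

open Set

section walks

variable {J : Type} [LinearOrder J]

def Bnd (n N U D : ℕ) (x y : Fin (N+1) → J) : Prop :=
  ∀ i j : ℕ, U*n + U + D*n + D ≤ i → i + (U*n + U + D*n + D) ≤ N →
    (j + (D*n + D) = i + U*n → hat x j ≤ hat y i) ∧ (j + D*n = i + (U*n + U) → hat y i ≤ hat x j)

theorem bnd_zero (n N : ℕ) (x : Fin (N+1) → J) : Bnd n N 0 0 x x := by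
  intro i j _ _
  constructor
  · intro h
    have : j = i := by omega
    rw [this]
  · intro h
    have : j = i := by omega
    rw [this]

theorem bnd_up {n N U D : ℕ} {x z y : Fin (N+1) → J} (h : Bnd n N U D z y) (hS : Sp n N x z) :
    Bnd n N (U+1) D x y := by
  intro i j h1 h2
  have e1 : (U+1)*n = U*n + n := Nat.succ_mul U n
  rw [e1] at h1 h2 ⊢
  constructor
  · intro h3
    have h4 := (h i (j - n) (by omega) (by omega)).1 (by omega)
    have h5 := hS.2.2.1 (j - n) (by omega)
    have e2 : j - n + n = j := by omega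
    rw [e2] at h5
    exact h5.le.trans h4
  · intro h3
    have h4 := (h i (j - n - 1) (by omega) (by omega)).2 (by omega)
    have h5 := hS.2.2.2 (j - n - 1) (by omega)
    have e2 : j - n - 1 + n + 1 = j := by omega
    rw [e2] at h5
    exact h4.trans h5.le

theorem bnd_down {n N U D : ℕ} {x z y : Fin (N+1) → J} (h : Bnd n N U D z y) (hS : Sp n N z x) :
    Bnd n N U (D+1) x y := by
  intro i j h1 h2
  have e1 : (D+1)*n = D*n + n := Nat.succ_mul D n
  rw [e1] at h1 h2 ⊢
  constructor
  · intro h3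
    have h4 := (h i (j + n + 1) (by omega) (by omega)).1 (by omega)
    have h5 := hS.2.2.2 j (by omega)
    exact h5.le.trans h4
  · intro h3
    have h4 := (h i (j + n) (by omega) (by omega)).2 (by omega)
    have h5 := hS.2.2.1 j (by omega)
    exact h4.trans h5.le

theorem walk_bnd {n N : ℕ} {V : Type} {G : SimpleGraph V} {π : V → Fin (N+1) → J}
    (hG : ∀ u v, G.Adj u v → Sp n N (π u) (π v) ∨ Sp n N (π v) (π u)) {u v : V}
    (p : G.Walk u v) : ∃ U D, U + D = p.length ∧ Bnd n N U D (π u) (π v) := by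
  induction p with
  | nil => exact ⟨0, 0, rfl, bnd_zero n N _⟩
  | cons h p ih =>
    obtain ⟨U, D, h1, h2⟩ := ih
    rcases hG _ _ h with h3 | h3
    · exact ⟨U + 1, D, by rw [SimpleGraph.Walk.length_cons]; omega, bnd_up h2 h3⟩
    · exact ⟨U, D + 1, by rw [SimpleGraph.Walk.length_cons]; omega, bnd_down h2 h3⟩

theorem odd_walk {n N k : ℕ} (hn : k + 1 ≤ n) (hN : 2 * ((2*k+1) * (n+1)) ≤ N) {V : Type}
    {G : SimpleGraph V} {π : V → Fin (N+1) → J}
    (hG : ∀ u v, G.Adj u v → Sp n N (π u) (π v) ∨ Sp n N (π v) (π u)) {v : V}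
    (p : G.Walk v v) (hp : Odd p.length) : 2*k+1 < p.length := by
  by_contra hlt
  have hle : p.length ≤ 2*k+1 := not_lt.1 hlt
  obtain ⟨U, D, hUD, hb⟩ := walk_bnd hG p
  have hmono : ∀ i j, i < j → j ≤ N → hat (π v) i < hat (π v) j := by
    cases p with
    | nil => simp at hp
    | cons h p =>
      rcases hG _ _ h with h3 | h3
      · exact h3.1
      · exact h3.2.1
  let m := U*n + U + D*n + D
  have hm : m ≤ (2*k+1) * (n+1) := by
    have : m = (U + D) * (n+1) := by
      simp only [m]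
      ring
    rw [this, hUD]
    exact Nat.mul_le_mul_right _ hle
  have hm2 : 2 * m ≤ N := by omega
  have hUn : U * n ≤ m := by simp only [m]; omega
  have hDn : D * n + D ≤ m := by simp only [m]; omega
  have g1 := (hb m (m + U*n - (D*n + D)) le_rfl (by show m + m ≤ N; omega)).1 (by omega)
  have g2 := (hb m (m + (U*n + U) - D*n) le_rfl (by show m + m ≤ N; omega)).2 (by omega)
  have k1 : m + U*n - (D*n + D) ≤ m := by
    by_contra hc
    exact absurd g1 (not_le.2 (hmono _ _ (not_le.1 hc) (by omega)))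
  have k2 : m ≤ m + (U*n + U) - D*n := by
    by_contra hc
    exact absurd g2 (not_le.2 (hmono _ _ (not_le.1 hc) (by omega)))
  have k3 : U*n ≤ D*n + D := by omega
  have k4 : D*n ≤ U*n + U := by omega
  obtain ⟨r, hr⟩ := hp
  rcases lt_trichotomy U D with h | h | h
  · have h5 : (U+1)*n ≤ D*n := Nat.mul_le_mul_right n h
    rw [Nat.succ_mul] at h5
    omega
  · omega
  · have h5 : (D+1)*n ≤ U*n := Nat.mul_le_mul_right n h
    rw [Nat.succ_mul] at h5
    omega

end walks

theorem final (k : ℕ) : ∃ (V : Type) (G : SimpleGraph V),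
    (∀ C : Type, Nonempty (G.Coloring C) → Cardinal.aleph.{0} 1 ≤ Cardinal.mk C) ∧
    (∃ C : Type, Cardinal.mk C = Cardinal.aleph.{0} 1 ∧ Nonempty (G.Coloring C)) ∧
    (¬ ∃ A B : Set V, A.Infinite ∧ B.Infinite ∧ ∀ a ∈ A, ∀ b ∈ B, G.Adj a b) ∧
    ∀ (v : V) (p : G.Walk v v), Odd p.length → 2*k+1 < p.length := by
  classical
  let J : Type := (Cardinal.aleph.{0} 1).ord.ToType
  have hJc : Cardinal.mk J = Cardinal.aleph.{0} 1 := by
    show Cardinal.mk (Cardinal.aleph.{0} 1).ord.ToType = _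
    rw [Cardinal.mk_ord_toType]
  have hJ : ∀ γ : J, (Iio γ).Countable := fun γ => by
    rw [Cardinal.countable_iff_lt_aleph_one]
    have := Cardinal.mk_Iio_toType_ord_lt (c := Cardinal.aleph.{0} 1) γ
    exact this
  have hIic : ∀ γ : J, (Iic γ).Countable := by
    intro γ
    have : Iic γ = insert γ (Iio γ) := by
      ext β
      simp [le_iff_eq_or_lt]
    rw [this]
    exact (hJ γ).insert γ
  have hb : ∀ s : Set J, s.Countable → ∃ η, ∀ x ∈ s, x < η := by
    intro s hs
    by_contra H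
    push Not at H
    have h1 : (univ : Set J) ⊆ ⋃ x ∈ s, Iic x := by
      intro η _
      obtain ⟨x, hx, hle⟩ := H η
      exact mem_biUnion hx hle
    have h2 : (univ : Set J).Countable := (hs.biUnion (fun x _ => hIic x)).mono h1
    rw [Cardinal.countable_iff_lt_aleph_one, Cardinal.mk_univ, hJc] at h2
    exact lt_irrefl _ h2
  let n := k + 1
  let N := 2 * ((2*k+1) * (n+1))
  have hN1 : 2 * (n+1) ≤ N := by
    have : 1 * (n+1) ≤ (2*k+1) * (n+1) := Nat.mul_le_mul_right _ (by omega)
    show 2 * (n+1) ≤ 2 * ((2*k+1) * (n+1))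
    omega
  obtain ⟨η₀, -⟩ := hb ∅ countable_empty
  have : Nonempty (Fin (N+1) → J) := ⟨fun _ => η₀⟩
  obtain ⟨G, hG1, hG2, hG3, hG4⟩ := main_graph (B := Fin (N+1) → J) hJ hb (Sp n N)
    (fun b δ => ∀ i, b i < δ)
    (by
      intro δ
      refine (countable_univ_pi (fun _ : Fin (N+1) => hJ δ)).mono ?_
      intro b hbδ i _
      exact hbδ i)
    (by
      intro b
      obtain ⟨η, hη⟩ := hb (range b) (countable_range b)
      exact ⟨η, fun ξ hξ i => (hη _ ⟨i, rfl⟩).trans hξ⟩)
    (fun col => sp_chrom hb (by omega) col)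
    (by
      intro x y z w h1 h2 h3 h5
      have e1 := h1.2.2.1 n (by omega)
      have e2 := h2.2.2.1 0 (by omega)
      have e3 := h3.2.2.1 0 (by omega)
      have e4 := h5.2.2.2 0 (by omega)
      have e5 : hat z 0 < hat z (0 + n) := h3.1 0 (0 + n) (by omega) (by omega)
      rw [Nat.zero_add] at e2 e3 e5
      rw [Nat.zero_add] at e4
      have e6 : hat x (n + n) < hat x (n + 1) :=
        e1.trans (e2.trans (e5.trans (e3.trans e4)))
      have e7 : hat x (n + 1) ≤ hat x (n + n) := by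
        rcases Nat.eq_or_lt_of_le (show n + 1 ≤ n + n by omega) with h | h
        · rw [h]
        · exact (h1.1 _ _ h (by omega)).le
      exact absurd e6 (not_lt.2 e7))
  refine ⟨Vt J (Fin (N+1) → J), G, ?_, ?_, hG4, ?_⟩
  · rintro C ⟨c⟩
    by_contra hlt
    have hCc : (univ : Set C).Countable := by
      rw [Cardinal.countable_iff_lt_aleph_one, Cardinal.mk_univ]
      exact not_le.1 hlt
    rw [countable_univ_iff] at hCc
    obtain ⟨f, hf⟩ := exists_injective_nat C
    obtain ⟨u, v, huv, he⟩ := hG2 (fun u => f (c u))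
    exact c.valid huv (hf he)
  · exact ⟨J, hJc, ⟨SimpleGraph.Coloring.mk (fun v => v.2.2) (fun {u v} h => hG3 u v h)⟩⟩
  · intro v p hp
    exact odd_walk (n := n) (N := N) le_rfl le_rfl hG1 p hp

end Pool.Agent.H15.Cyc
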