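import Mathlib

set_option autoImplicit false

/-!
Helper file for MP_5b422c_co: almost proper colourings of shift graphs need many colours.
-/

namespace Pool.Agent.H15.Def

open Set Cardinal

theorem class_le {K : Type} [LinearOrder K] (A : Set K) (lam : Cardinal.{0}) (hlam : ℵ₀ ≤ lam)
    (h : ∀ y ∈ A, #{x | x < y ∧ x ∈ A} ≤ lam) : #A ≤ Order.succ lam := by
  by_contra hA
  have hA' : Order.succ lam ≤ #A := (not_le.1 hA).le
  obtain ⟨D, hDA, hD⟩ := le_mk_iff_exists_subset.1 hA'
  have hlt : lam < Order.succ lam := Order.lt_succ lam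
  have h1 : ∀ y ∈ A, ∃ d ∈ D, y ≤ d := by
    intro y hy
    by_contra hc
    push Not at hc
    have h2 : #D ≤ lam :=
      (mk_le_mk_of_subset (t := {x | x < y ∧ x ∈ A}) (fun d hd => ⟨hc d hd, hDA hd⟩)).trans (h y hy)
    rw [hD] at h2
    exact absurd hlt (not_lt.2 h2)
  have h2 : A ⊆ ⋃ d : D, {x | x ≤ d.1 ∧ x ∈ A} := by
    intro y hy
    obtain ⟨d, hd, hle⟩ := h1 y hy
    exact mem_iUnion.2 ⟨⟨d, hd⟩, hle, hy⟩
  have h3 : ∀ d : D, #{x | x ≤ d.1 ∧ x ∈ A} ≤ lam := by
    intro d
    have h4 : {x | x ≤ d.1 ∧ x ∈ A} ⊆ {d.1} ∪ {x | x < d.1 ∧ x ∈ A} := by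
      rintro x ⟨hx1, hx2⟩
      rcases hx1.eq_or_lt with h | h
      · exact Or.inl h
      · exact Or.inr ⟨h, hx2⟩
    calc #{x | x ≤ d.1 ∧ x ∈ A} ≤ #({d.1} ∪ {x | x < d.1 ∧ x ∈ A} : Set K) := mk_le_mk_of_subset h4
      _ ≤ #({d.1} : Set K) + #{x | x < d.1 ∧ x ∈ A} := mk_union_le _ _
      _ ≤ lam + lam := by
        refine add_le_add ?_ (h d.1 (hDA d.2))
        rw [mk_singleton]
        exact one_le_aleph0.trans hlam
      _ = lam := add_eq_self hlam
  have h5 : #A ≤ Order.succ lam := by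
    calc #A ≤ #(⋃ d : D, {x | x ≤ d.1 ∧ x ∈ A}) := mk_le_mk_of_subset h2
      _ ≤ sum (fun d : D => #{x | x ≤ d.1 ∧ x ∈ A}) := mk_iUnion_le_sum_mk
      _ ≤ sum (fun _ : D => lam) := sum_le_sum _ _ h3
      _ = #D * lam := by rw [sum_const']
      _ ≤ Order.succ lam * Order.succ lam := by
        rw [hD]
        exact mul_le_mul' le_rfl hlt.le
      _ = Order.succ lam := mul_eq_self (hlam.trans hlt.le)
  exact hA h5

theorem mk_union_bound {K Q : Type} (A : Set K) (B : Q → Set K) (h : A ⊆ ⋃ i, B i)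
    (lam : Cardinal.{0}) (hB : ∀ i, #(B i) ≤ lam) : #A ≤ #Q * lam := by
  calc #A ≤ #(⋃ i, B i) := mk_le_mk_of_subset h
    _ ≤ sum (fun i => #(B i)) := mk_iUnion_le_sum_mk
    _ ≤ sum (fun _ : Q => lam) := sum_le_sum _ _ hB
    _ = #Q * lam := by rw [sum_const']

theorem claim {K : Type} [LinearOrder K] (hK : IsStrongLimit (#K)) (hK0 : ℵ₀ < #K) (j : ℕ) :
    ∀ (Q : Type) (c : List K → Q) (lam : Cardinal.{0}), #Q < #K → lam < #K → ℵ₀ ≤ lam →
      (∀ e : List K, e.length = j + 1 → e.Pairwise (· < ·) →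
        #{x | (∀ y ∈ e, x < y) ∧ c ((x :: e).dropLast) = c e} ≤ lam) → False := by
  induction j with
  | zero =>
    intro Q c lam hQ hlam hlam0 H
    have h1 : ∀ q : Q, #{y : K | c [y] = q} ≤ Order.succ lam := by
      intro q
      refine class_le _ lam hlam0 ?_
      intro y hy
      refine (mk_le_mk_of_subset ?_).trans (H [y] rfl (List.pairwise_singleton _ _))
      rintro x ⟨hxy, hx⟩
      have hx' : c [x] = q := hx
      have hy' : c [y] = q := hy
      refine ⟨by simpa using hxy, ?_⟩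
      show c [x] = c [y]
      rw [hx', hy']
    have h2 : #(univ : Set K) ≤ #Q * Order.succ lam :=
      mk_union_bound univ (fun q : Q => {y : K | c [y] = q})
        (fun y _ => mem_iUnion.2 ⟨c [y], rfl⟩) _ h1
    rw [mk_univ] at h2
    have h3 : Order.succ lam < #K := by
      refine lt_of_le_of_lt ?_ (hK.isStrongPrelimit hlam)
      exact Order.succ_le_of_lt (cantor lam)
    exact absurd (mul_lt_of_lt hK0.le hQ h3) (not_lt.2 h2)
  | succ j ih =>
    intro Q c lam hQ hlam hlam0 H
    refine ih (Set Q) (fun l => {i | lam < #{x | (∀ y ∈ l, x < y) ∧ c (x :: l) = i}})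
      (#Q * lam ⊔ lam) ?_ ?_ (hlam0.trans le_sup_right) ?_
    · rw [mk_set]
      exact hK.isStrongPrelimit hQ
    · exact max_lt (mul_lt_of_lt hK0.le hQ hlam) hlam
    · intro e he hpe
      refine le_trans ?_ le_sup_left
      have hne : e ≠ [] := by
        rintro rfl
        simp at he
      refine mk_union_bound _ (fun i : Q => {x | ((∀ y ∈ e, x < y) ∧ c (x :: e) = i) ∧
        ¬ lam < #{x | (∀ y ∈ e, x < y) ∧ c (x :: e) = i}}) ?_ lam ?_
      · rintro x ⟨hx1, hx2⟩
        refine mem_iUnion.2 ⟨c (x :: e), ⟨hx1, rfl⟩, ?_⟩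
        intro hlt
        have hmem : c (x :: e) ∈
            {i | lam < #{x' | (∀ y ∈ (x :: e).dropLast, x' < y) ∧
              c (x' :: (x :: e).dropLast) = i}} := by
          rw [hx2]
          exact hlt
        have hpx : (x :: e).Pairwise (· < ·) := List.pairwise_cons.2 ⟨hx1, hpe⟩
        have h3 := H (x :: e) (by simp [he]) hpx
        refine absurd hmem (not_lt.2 ((mk_le_mk_of_subset ?_).trans h3))
        rintro x' ⟨hx'1, hx'2⟩
        have hd : (x :: e).dropLast = x :: e.dropLast := List.dropLast_cons_of_ne_nil hne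
        have hxx : x' < x := hx'1 x (by rw [hd]; exact List.mem_cons_self)
        refine ⟨?_, ?_⟩
        · intro y hy
          rcases List.mem_cons.1 hy with rfl | hy
          · exact hxx
          · exact hxx.trans (hx1 y hy)
        · rw [List.dropLast_cons_of_ne_nil (List.cons_ne_nil x e)]
          exact hx'2
      · intro i
        by_cases hi : lam < #{x | (∀ y ∈ e, x < y) ∧ c (x :: e) = i}
        · have : {x | ((∀ y ∈ e, x < y) ∧ c (x :: e) = i) ∧
              ¬ lam < #{x | (∀ y ∈ e, x < y) ∧ c (x :: e) = i}} = ∅ := by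
            ext x
            simp only [mem_ofPred_eq, mem_empty_iff_false, iff_false]
            rintro ⟨-, h⟩
            exact h hi
          rw [this, mk_emptyCollection]
          exact zero_le
        · exact (mk_le_mk_of_subset (fun x hx => hx.1)).trans (not_lt.1 hi)

end Pool.Agent.H15.Def
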