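import Pool.Agent.H15.DefA

set_option autoImplicit false

/-!
Helper file for MP_5b422c_co: the tree-coded shift graph has uncountable chromatic number.
-/

namespace Pool.Agent.H15.Def

open Set Cardinal

theorem exists_hist {K Q : Type} [LinearOrder K] [WellFoundedLT K] [Inhabited Q] (z0 : K)
    (Φ : (List K → Q) → List K → Q)
    (hΦ : ∀ H H' e, e ≠ [] → e.Pairwise (· < ·) →
      (∀ l, l ≠ [] → (∀ y' ∈ l, y' < e.getLastD z0) → H l = H' l) → Φ H e = Φ H' e) :
    ∃ H : List K → Q, ∀ e, e ≠ [] → e.Pairwise (· < ·) → H e = Φ H e := by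
  classical
  let Fx : (z : K) → ((z' : K) → z' < z → (List K → Q)) → (List K → Q) := fun z prev e =>
    Φ (fun l => if h : l.getLastD z0 < z then prev _ h l else default) e
  let F : K → (List K → Q) := (wellFounded_lt (α := K)).fix Fx
  have hF : ∀ z, F z = fun e =>
      Φ (fun l => if _ : l.getLastD z0 < z then F (l.getLastD z0) l else default) e :=
    fun z => (wellFounded_lt (α := K)).fix_eq Fx z
  refine ⟨fun l => F (l.getLastD z0) l, fun e he hp => ?_⟩
  show F (e.getLastD z0) e = _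
  rw [hF]
  refine hΦ _ _ e he hp (fun l hl hlt => ?_)
  have hmem : l.getLastD z0 ∈ l := by
    rw [List.getLastD_eq_getLast?, List.getLast?_eq_some_getLast hl, Option.getD_some]
    exact List.getLast_mem hl
  rw [dif_pos (hlt _ hmem)]

section chrom

variable {K Ω : Type} [LinearOrder K] [LinearOrder Ω]

abbrev Q0 (Ω : Type) := Set (ℕ × Ω)

abbrev Nd (K Ω : Type) := K × (List K → Q0 Ω)

open Classical in
/-- the part of the history below `y` -/
noncomputable def res (H : List K → Q0 Ω) (y : K) : List K → Q0 Ω :=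
  fun l => if l ≠ [] ∧ ∀ y' ∈ l, y' < y then H l else ∅

noncomputable def nu (H : List K → Q0 Ω) (y : K) : Nd K Ω := (y, res H y)

/-- the rank -/
def rho (Ψ : (List K → Q0 Ω) → List K → K → Ω) (o : Ω) (v : List (Nd K Ω)) : Ω :=
  match v with
  | [] => o
  | a :: rest => match rest.getLast? with
    | none => o
    | some b => Ψ b.2 (rest.dropLast.map Prod.fst) a.1

omit [LinearOrder Ω] in
theorem rho_eq (Ψ : (List K → Q0 Ω) → List K → K → Ω) (o : Ω) (H : List K → Q0 Ω) (x z : K)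
    (l : List K) : rho Ψ o ((x :: (l ++ [z])).map (nu H)) = Ψ (res H z) l x := by
  have h1 : (x :: (l ++ [z])).map (nu H) = nu H x :: (l.map (nu H) ++ [nu H z]) := by simp
  rw [h1]
  unfold rho
  have h2 : (l.map (nu H) ++ [nu H z]).getLast? = some (nu H z) := by simp
  have h3 : (l.map (nu H) ++ [nu H z]).dropLast.map Prod.fst = l := by
    rw [List.dropLast_concat, List.map_map]
    have : (Prod.fst ∘ nu H) = (id : K → K) := by
      funext y
      rfl
    rw [this, List.map_id]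
  simp only [h2, h3]
  rfl

theorem pw_last {l : List K} {z : K} (h : (l ++ [z]).Pairwise (· < ·)) : ∀ y ∈ l, y < z := by
  rw [List.pairwise_append] at h
  exact fun y hy => h.2.2 y hy z (by simp)

theorem le_getLastD (z0 : K) {e : List K} (h : e.Pairwise (· < ·)) {y : K} (hy : y ∈ e) :
    y ≤ e.getLastD z0 := by
  rcases List.eq_nil_or_concat' e with rfl | ⟨l, z, rfl⟩
  · simp at hy
  · rw [List.getLastD_concat]
    rcases List.mem_append.1 hy with hy | hy
    · exact (pw_last h y hy).le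
    · simp only [List.mem_singleton] at hy
      exact hy.le

theorem exists_phi (hΩ : #Ω = ℵ_ 1) (hmax : ∀ η : Ω, ∃ η', η < η') (X : Set K)
    (hX : ¬ X.Countable) : ∃ φ : K → Ω, ∀ η, ∃ x ∈ X, η < φ x := by
  classical
  have h1 : #Ω ≤ #X := by
    rw [hΩ, ← succ_aleph0]
    refine Order.succ_le_of_lt ?_
    rw [← not_le]
    intro h
    exact hX (mk_le_aleph0_iff.1 h).to_set
  obtain ⟨ι⟩ := Cardinal.le_def _ _ |>.1 h1
  have : Nonempty Ω := by
    rw [← mk_ne_zero_iff, hΩ]
    exact (aleph_pos 1).ne'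
  refine ⟨fun x => if h : x ∈ X then Function.invFun ι ⟨x, h⟩ else Classical.arbitrary Ω,
    fun η => ?_⟩
  obtain ⟨η', hη'⟩ := hmax η
  refine ⟨(ι η').1, (ι η').2, ?_⟩
  simp only [dif_pos (ι η').2]
  have : Function.invFun ι (ι η') = η' := Function.leftInverse_invFun ι.injective η'
  rw [show (⟨(ι η').1, (ι η').2⟩ : X) = ι η' from rfl, this]
  exact hη'

theorem exists_Psi (hΩ : #Ω = ℵ_ 1) (hmax : ∀ η : Ω, ∃ η', η < η') :
    ∃ Ψ : (List K → Q0 Ω) → List K → K → Ω, ∀ h l i,
      ¬ {x | (∀ y ∈ l, x < y) ∧ h (x :: l) = i}.Countable →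
      ∀ η, ∃ x, (∀ y ∈ l, x < y) ∧ h (x :: l) = i ∧ η < Ψ h l x := by
  classical
  have h1 : ∀ X : Set K, ∃ φ : K → Ω, ¬ X.Countable → ∀ η, ∃ x ∈ X, η < φ x := by
    intro X
    by_cases hX : X.Countable
    · have : Nonempty Ω := by
        rw [← mk_ne_zero_iff, hΩ]
        exact (aleph_pos 1).ne'
      exact ⟨fun _ => Classical.arbitrary Ω, fun h => absurd hX h⟩
    · obtain ⟨φ, hφ⟩ := exists_phi hΩ hmax X hX
      exact ⟨φ, fun _ => hφ⟩
  choose φ hφ using h1
  refine ⟨fun h l x => φ {x' | (∀ y ∈ l, x' < y) ∧ h (x' :: l) = h (x :: l)} x, ?_⟩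
  intro h l i hX η
  obtain ⟨x, ⟨hx1, hx2⟩, hx3⟩ := hφ _ hX η
  refine ⟨x, hx1, hx2, ?_⟩
  rw [← hx2] at hx3
  exact hx3

def Arc (k : ℕ) (r : List (Nd K Ω) → Ω) (v v' : List (Nd K Ω)) : Prop :=
  v.length = k ∧ v'.length = k ∧ v.tail = v'.dropLast ∧ r v ≠ r v'

theorem no_colouring [WellFoundedLT K] (hK : IsStrongLimit (#K)) (hK0 : ℵ₀ < #K)
    (hKΩ : #(Q0 Ω) < #K) (hb : ∀ s : Set Ω, s.Countable → ∃ η, ∀ x ∈ s, x < η)
    (Ψ : (List K → Q0 Ω) → List K → K → Ω)
    (hΨ : ∀ h l i, ¬ {x | (∀ y ∈ l, x < y) ∧ h (x :: l) = i}.Countable →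
      ∀ η, ∃ x, (∀ y ∈ l, x < y) ∧ h (x :: l) = i ∧ η < Ψ h l x) (o : Ω) (j : ℕ)
    (f : List (Nd K Ω) → ℕ)
    (hf : ∀ v v', Arc (j+3) (rho Ψ o) v v' → f v ≠ f v') : False := by
  classical
  have hne : Nonempty K := by
    rw [← mk_ne_zero_iff]
    exact hK.ne_zero
  obtain ⟨z0⟩ := hne
  let Φ : (List K → Q0 Ω) → List K → Q0 Ω := fun H e =>
    {p | ∃ w, (∀ y ∈ e, w < y) ∧
      p = (f ((w :: e).map (nu H)), rho Ψ o ((w :: e).map (nu H)))}
  obtain ⟨H, hH⟩ := exists_hist z0 Φ (by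
    intro H H' e he hp hHH
    have hnu : ∀ w, (∀ y ∈ e, w < y) → (w :: e).map (nu H) = (w :: e).map (nu H') := by
      intro w hw
      refine List.map_congr_left (fun y hy => ?_)
      have hyle : y ≤ e.getLastD z0 := by
        rcases List.mem_cons.1 hy with rfl | hy
        · obtain ⟨a, ha⟩ := List.exists_mem_of_ne_nil e he
          exact (hw a ha).le.trans (le_getLastD z0 hp ha)
        · exact le_getLastD z0 hp hy
      show (y, res H y) = (y, res H' y)
      congr 1
      funext l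
      unfold res
      by_cases hl : l ≠ [] ∧ ∀ y' ∈ l, y' < y
      · rw [if_pos hl, if_pos hl]
        exact hHH l hl.1 (fun y' hy' => (hl.2 y' hy').trans_le hyle)
      · rw [if_neg hl, if_neg hl]
    ext p
    constructor
    · rintro ⟨w, hw, hp⟩
      exact ⟨w, hw, by rw [← hnu w hw]; exact hp⟩
    · rintro ⟨w, hw, hp⟩
      exact ⟨w, hw, by rw [hnu w hw]; exact hp⟩)
  let fs : List K → ℕ := fun s => f (s.map (nu H))
  let rs : List K → Ω := fun s => rho Ψ o (s.map (nu H))
  have hHe : ∀ e, e ≠ [] → e.Pairwise (· < ·) → ∀ p, p ∈ H e ↔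
      ∃ w, (∀ y ∈ e, w < y) ∧ p = (fs (w :: e), rs (w :: e)) := by
    intro e he hp p
    rw [hH e he hp]
    exact Iff.rfl
  -- properness
  have hP : ∀ r : List K, r.length = j + 4 → rs r.dropLast ≠ rs r.tail →
      fs r.dropLast ≠ fs r.tail := by
    intro r hr hne
    refine hf _ _ ⟨by simp [hr], by simp [hr], ?_, hne⟩
    rw [← List.map_tail, ← List.map_dropLast, List.tail_dropLast]
  let Cs : Q0 Ω → Set Ω := fun i => {ξ | ∃ n, ∀ ξ', (n, ξ') ∈ i ↔ ξ' = ξ}
  have hCs : ∀ i, (Cs i).Countable := by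
    intro i
    have h1 : Cs i = ⋃ n : ℕ, {ξ | ∀ ξ', (n, ξ') ∈ i ↔ ξ' = ξ} := by
      ext ξ
      simp [Cs]
    rw [h1]
    refine countable_iUnion (fun n => Set.Subsingleton.countable ?_)
    intro ξ hξ ξ' hξ'
    exact (hξ' ξ).1 ((hξ ξ).2 rfl)
  have hA : ∀ s : List K, s.length = j + 3 → s.Pairwise (· < ·) → H s.dropLast = H s.tail →
      rs s ∈ Cs (H s.dropLast) := by
    intro s hs hp hHs
    obtain ⟨x, e', rfl⟩ : ∃ x e', s = x :: e' := by
      cases s with
      | nil => simp at hs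
      | cons x e' => exact ⟨x, e', rfl⟩
    have hlen : e'.length = j + 2 := by simpa using hs
    have he' : e' ≠ [] := by
      rintro rfl
      simp at hlen
    have hp' := List.pairwise_cons.1 hp
    have hd : (x :: e').dropLast = x :: e'.dropLast := List.dropLast_cons_of_ne_nil he'
    have hpd : (x :: e').dropLast.Pairwise (· < ·) := hp.sublist (List.dropLast_sublist _)
    have hmem : (fs (x :: e'), rs (x :: e')) ∈ H (x :: e').dropLast := by
      rw [hHs]
      exact (hHe e' he' hp'.2 _).2 ⟨x, hp'.1, rfl⟩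
    refine ⟨fs (x :: e'), fun ξ' => ⟨fun hξ' => ?_, fun h => by rw [h]; exact hmem⟩⟩
    obtain ⟨w, hw, hweq⟩ := (hHe _ (by rw [hd]; exact List.cons_ne_nil _ _) hpd _).1 hξ'
    have hwx : w < x := hw x (by rw [hd]; exact List.mem_cons_self)
    rw [Prod.mk.injEq] at hweq
    by_contra hne
    refine hP (w :: x :: e') (by simpa using hs) ?_ ?_
    · rw [List.dropLast_cons_of_ne_nil (List.cons_ne_nil _ _), List.tail_cons, ← hweq.2]
      exact hne
    · rw [List.dropLast_cons_of_ne_nil (List.cons_ne_nil _ _), List.tail_cons, ← hweq.1]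
  have hB : ∀ w' : List K, w'.length = j + 2 → w'.Pairwise (· < ·) →
      {x | (∀ y ∈ w'.dropLast, x < y) ∧ H (x :: w'.dropLast) = H w'}.Countable := by
    intro w' hw' hp
    by_contra hunc
    rcases List.eq_nil_or_concat' w' with rfl | ⟨l, z, rfl⟩
    · simp at hw'
    rw [List.dropLast_concat] at hunc
    have hl : l ≠ [] := by
      rintro rfl
      simp at hw'
    have hlz := pw_last hp
    have hxz : ∀ x, (∀ y ∈ l, x < y) → x < z := by
      intro x hx
      obtain ⟨a, ha⟩ := List.exists_mem_of_ne_nil l hl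
      exact (hx a ha).trans (hlz a ha)
    have hres : ∀ x, (∀ y ∈ l, x < y) → res H z (x :: l) = H (x :: l) := by
      intro x hx
      unfold res
      refine if_pos ⟨List.cons_ne_nil _ _, ?_⟩
      intro y' hy'
      rcases List.mem_cons.1 hy' with rfl | hy'
      · exact hxz _ hx
      · exact hlz y' hy'
    have hset : {x | (∀ y ∈ l, x < y) ∧ H (x :: l) = H (l ++ [z])} =
        {x | (∀ y ∈ l, x < y) ∧ res H z (x :: l) = H (l ++ [z])} := by
      ext x
      constructor
      · rintro ⟨h1, h2⟩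
        exact ⟨h1, by rw [hres x h1]; exact h2⟩
      · rintro ⟨h1, h2⟩
        exact ⟨h1, by rw [← hres x h1]; exact h2⟩
    rw [hset] at hunc
    obtain ⟨η, hη⟩ := hb _ (hCs (H (l ++ [z])))
    obtain ⟨x, hx1, hx2, hx3⟩ := hΨ (res H z) l _ hunc η
    have hxw : ∀ y ∈ l ++ [z], x < y := by
      intro y hy
      rcases List.mem_append.1 hy with hy | hy
      · exact hx1 y hy
      · simp only [List.mem_singleton] at hy
        rw [hy]
        exact hxz x hx1
    have hps : (x :: (l ++ [z])).Pairwise (· < ·) := List.pairwise_cons.2 ⟨hxw, hp⟩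
    have hdl : (x :: (l ++ [z])).dropLast = x :: l := by
      rw [List.dropLast_cons_of_ne_nil (by simp), List.dropLast_concat]
    have h5 : H (x :: (l ++ [z])).dropLast = H (l ++ [z]) := by
      rw [hdl, ← hres x hx1]
      exact hx2
    have h6 := hA (x :: (l ++ [z])) (by simpa using hw') hps (by rw [h5, List.tail_cons])
    rw [h5] at h6
    have h7 := hη _ h6
    have h8 : rs (x :: (l ++ [z])) = Ψ (res H z) l x := rho_eq Ψ o H x z l
    rw [h8] at h7
    exact absurd hx3 (not_lt.2 h7.le)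
  refine claim hK hK0 j (Set (Q0 Ω))
    (fun l => {i | ¬ {x | (∀ y ∈ l, x < y) ∧ H (x :: l) = i}.Countable}) (#(Q0 Ω) * ℵ₀ ⊔ ℵ₀)
    ?_ ?_ le_sup_right ?_
  · rw [mk_set]
    exact hK.isStrongPrelimit hKΩ
  · exact max_lt (mul_lt_of_lt hK0.le hKΩ hK0) hK0
  · intro e he hp
    refine le_trans ?_ le_sup_left
    refine mk_union_bound _ (fun i : Q0 Ω => {x | ((∀ y ∈ e, x < y) ∧ H (x :: e) = i) ∧
      {x | (∀ y ∈ e, x < y) ∧ H (x :: e) = i}.Countable}) ?_ ℵ₀ ?_
    · rintro x ⟨hx1, hx2⟩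
      refine mem_iUnion.2 ⟨H (x :: e), ⟨hx1, rfl⟩, ?_⟩
      have h1 := hB (x :: e) (by simp [he]) (List.pairwise_cons.2 ⟨hx1, hp⟩)
      by_contra hc
      have hmem : H (x :: e) ∈ {i | ¬ {x' | (∀ y ∈ (x :: e).dropLast, x' < y) ∧
          H (x' :: (x :: e).dropLast) = i}.Countable} := by
        rw [hx2]
        exact hc
      exact hmem h1
    · intro i
      by_cases hi : {x | (∀ y ∈ e, x < y) ∧ H (x :: e) = i}.Countable
      · refine (mk_le_mk_of_subset (t := {x | (∀ y ∈ e, x < y) ∧ H (x :: e) = i})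
          (fun x hx => hx.1)).trans ?_
        exact mk_le_aleph0_iff.2 hi.to_subtype
      · have : {x | ((∀ y ∈ e, x < y) ∧ H (x :: e) = i) ∧
            {x | (∀ y ∈ e, x < y) ∧ H (x :: e) = i}.Countable} = ∅ := by
          ext x
          simp only [mem_ofPred_eq, mem_empty_iff_false, iff_false]
          rintro ⟨-, h⟩
          exact hi h
        rw [this, mk_eq_zero]
        exact zero_le

end chrom

end Pool.Agent.H15.Def
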