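import Mathlib

set_option autoImplicit false

/-!
Helper file for MP_5b422c_co: few monochromatic edges in finite pieces of iterated arc graphs.
-/

namespace Pool.Agent.H15.Def

open Finset

open Classical in
/-- weighted number of monochromatic consecutive pairs -/
noncomputable def cost {X : Type} (P : Finset (List X)) (α ω : List X → ℝ) (s : List X → Bool) : ℝ :=
  ∑ e ∈ P, ∑ e' ∈ P, if e.tail = e'.dropLast ∧ s e = s e' then min (α e) (ω e') else 0

theorem pair_inj {X : Type} {e e' : List X} (h2 : 2 ≤ e.length) (h2' : 2 ≤ e'.length)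
    (h : e.dropLast = e'.dropLast) (h' : e.tail = e'.tail) : e = e' := by
  match e, e', h2, h2' with
  | a :: b :: l, a' :: b' :: l', _, _ =>
    rw [List.dropLast_cons_of_ne_nil (List.cons_ne_nil _ _),
      List.dropLast_cons_of_ne_nil (List.cons_ne_nil _ _)] at h
    rw [List.tail_cons, List.tail_cons] at h'
    rw [(List.cons.inj h).1, h']

open Classical in
theorem main_cost {X : Type} (t : ℝ) (ht : 0 < t) (m : ℕ) :
    ∀ P : Finset (List X), (∀ e ∈ P, e.length = m + 1) → ∀ α ω : List X → ℝ,
      (∀ e, 0 ≤ α e) → (∀ e, 0 ≤ ω e) → ∃ s : List X → Bool,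
        cost P α ω s ≤ m * t * (∑ e ∈ P, α e + ∑ e ∈ P, ω e)
          + P.card * (2 / t) ^ m * ∑ e ∈ P, α e := by
  induction m with
  | zero =>
    intro P hP α ω hα hω
    refine ⟨fun _ => true, ?_⟩
    have h1 : cost P α ω (fun _ => true) ≤ ∑ e ∈ P, ∑ e' ∈ P, α e := by
      refine Finset.sum_le_sum (fun e _ => Finset.sum_le_sum (fun e' _ => ?_))
      split_ifs
      · exact min_le_left _ _
      · exact hα e
    refine h1.trans (le_of_eq ?_)
    simp only [Finset.sum_const, nsmul_eq_mul, pow_zero, mul_one, Nat.cast_zero, zero_mul, zero_add]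
    rw [Finset.mul_sum]
  | succ m ih =>
    intro P hP α ω hα hω
    set IN : List X → ℝ := fun u => ((P.filter (fun e => e.tail = u)).card : ℝ) with hIN
    set OUT : List X → ℝ := fun u => ((P.filter (fun e => e.dropLast = u)).card : ℝ) with hOUT
    set α' : List X → ℝ := fun u => ∑ e ∈ P.filter (fun e => e.tail = u), α e with hα'
    set ω' : List X → ℝ := fun u => ∑ e ∈ P.filter (fun e => e.dropLast = u), ω e with hω'
    set P' : Finset (List X) := (P.image List.tail ∪ P.image List.dropLast).filter
      (fun u => t ≤ IN u ∨ t ≤ OUT u) with hP'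
    have hlen' : ∀ u ∈ P', u.length = m + 1 := by
      intro u hu
      rw [hP', mem_filter, mem_union, mem_image, mem_image] at hu
      rcases hu.1 with ⟨e, he, rfl⟩ | ⟨e, he, rfl⟩
      · have := hP e he
        simp [this]
      · have := hP e he
        simp [this]
    have hα'0 : ∀ u, 0 ≤ α' u := fun u => Finset.sum_nonneg (fun e _ => hα e)
    have hω'0 : ∀ u, 0 ≤ ω' u := fun u => Finset.sum_nonneg (fun e _ => hω e)
    obtain ⟨s', hs'⟩ := ih P' hlen' α' ω' hα'0 hω'0
    -- fibre sums
    have hfib : ∀ (φ : List X → List X) (w : List X → ℝ), (∀ e, 0 ≤ w e) →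
        ∑ u ∈ P', ∑ e ∈ P.filter (fun e => φ e = u), w e ≤ ∑ e ∈ P, w e := by
      intro φ w hw
      have h1 : ∑ e ∈ P.filter (fun e => φ e ∈ P'), w e =
          ∑ u ∈ P', ∑ e ∈ (P.filter (fun e => φ e ∈ P')).filter (fun e => φ e = u), w e := by
        refine (Finset.sum_fiberwise_of_maps_to (fun e he => ?_) _).symm
        exact (mem_filter.1 he).2
      have h2 : ∑ u ∈ P', ∑ e ∈ P.filter (fun e => φ e = u), w e =
          ∑ u ∈ P', ∑ e ∈ (P.filter (fun e => φ e ∈ P')).filter (fun e => φ e = u), w e := by
        refine Finset.sum_congr rfl (fun u hu => Finset.sum_congr ?_ (fun _ _ => rfl))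
        ext e
        simp only [mem_filter]
        constructor
        · rintro ⟨h1, h2⟩
          exact ⟨⟨h1, by rw [h2]; exact hu⟩, h2⟩
        · rintro ⟨⟨h1, _⟩, h2⟩
          exact ⟨h1, h2⟩
      rw [h2, ← h1]
      exact Finset.sum_le_sum_of_subset_of_nonneg (filter_subset _ _) (fun e _ _ => hw e)
    have hA' : ∑ u ∈ P', α' u ≤ ∑ e ∈ P, α e := hfib List.tail α hα
    have hW' : ∑ u ∈ P', ω' u ≤ ∑ e ∈ P, ω e := hfib List.dropLast ω hω
    have hcardP' : (P'.card : ℝ) * t ≤ 2 * P.card := by
      have h1 : ∑ u ∈ P', IN u ≤ P.card := by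
        have := hfib List.tail (fun _ => 1) (fun _ => zero_le_one)
        simpa using this
      have h2 : ∑ u ∈ P', OUT u ≤ P.card := by
        have := hfib List.dropLast (fun _ => 1) (fun _ => zero_le_one)
        simpa using this
      have h3 : ∑ u ∈ P', t ≤ ∑ u ∈ P', (IN u + OUT u) := by
        refine Finset.sum_le_sum (fun u hu => ?_)
        rw [hP', mem_filter] at hu
        have h4 : 0 ≤ IN u := Nat.cast_nonneg _
        have h5 : 0 ≤ OUT u := Nat.cast_nonneg _
        rcases hu.2 with h | h <;> linarith
      rw [Finset.sum_const, nsmul_eq_mul, Finset.sum_add_distrib] at h3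
      linarith
    have hcost' : cost P' α' ω' s' ≤ m * t * (∑ e ∈ P, α e + ∑ e ∈ P, ω e)
        + P.card * (2 / t) ^ (m + 1) * ∑ e ∈ P, α e := by
      refine hs'.trans (add_le_add ?_ ?_)
      · exact mul_le_mul_of_nonneg_left (add_le_add hA' hW') (by positivity)
      · have h1 : (P'.card : ℝ) ≤ P.card * (2 / t) := by
          rw [mul_div_assoc', le_div_iff₀ ht]
          linarith
        have h2 : 0 ≤ ∑ u ∈ P', α' u := Finset.sum_nonneg (fun u _ => hα'0 u)
        calc (P'.card : ℝ) * (2 / t) ^ m * ∑ u ∈ P', α' u
            ≤ (P.card * (2 / t)) * (2 / t) ^ m * ∑ u ∈ P', α' u := by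
              refine mul_le_mul_of_nonneg_right ?_ h2
              exact mul_le_mul_of_nonneg_right h1 (by positivity)
          _ ≤ (P.card * (2 / t)) * (2 / t) ^ m * ∑ e ∈ P, α e :=
              mul_le_mul_of_nonneg_left hA' (by positivity)
          _ = P.card * (2 / t) ^ (m + 1) * ∑ e ∈ P, α e := by ring
    -- the rule
    set s : List X → Bool := fun e =>
      if IN e.dropLast < t then s' e.tail
      else if OUT e.tail < t then !s' e.dropLast
      else if α' e.dropLast ≤ ω' e.tail then s' e.tail
      else !s' e.dropLast with hs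
    set g : List X → List X → ℝ := fun a b =>
      if a ∈ P' ∧ b ∈ P' ∧ a.tail = b.dropLast ∧ s' a = s' b then min (α' a) (ω' b) else 0 with hg
    have hg0 : ∀ a b, 0 ≤ g a b := by
      intro a b
      simp only [hg]
      split_ifs
      · exact le_min (hα'0 a) (hω'0 b)
      · exact le_rfl
    have hTp1 : ∀ e, ∑ e' ∈ P.filter (fun e' => e'.dropLast = e.tail), min (α e) (ω e') ≤
        α e * OUT e.tail := by
      intro e
      refine (Finset.sum_le_sum (fun e' _ => min_le_left _ _)).trans (le_of_eq ?_)
      rw [Finset.sum_const, nsmul_eq_mul, mul_comm]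
    have hTp2 : ∀ e, ∑ e' ∈ P.filter (fun e' => e'.dropLast = e.tail), min (α e) (ω e') ≤
        ω' e.tail := fun e => Finset.sum_le_sum (fun e' _ => min_le_right _ _)
    have hTm1 : ∀ e', ∑ e ∈ P.filter (fun e => e.tail = e'.dropLast), min (α e) (ω e') ≤
        ω e' * IN e'.dropLast := by
      intro e'
      refine (Finset.sum_le_sum (fun e _ => min_le_right _ _)).trans (le_of_eq ?_)
      rw [Finset.sum_const, nsmul_eq_mul, mul_comm]
    have hTm2 : ∀ e', ∑ e ∈ P.filter (fun e => e.tail = e'.dropLast), min (α e) (ω e') ≤
        α' e'.dropLast := fun e' => Finset.sum_le_sum (fun e _ => min_le_left _ _)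
    have hTp0 : ∀ e, 0 ≤ ∑ e' ∈ P.filter (fun e' => e'.dropLast = e.tail), min (α e) (ω e') :=
      fun e => Finset.sum_nonneg (fun e' _ => le_min (hα e) (hω e'))
    have hTm0 : ∀ e', 0 ≤ ∑ e ∈ P.filter (fun e => e.tail = e'.dropLast), min (α e) (ω e') :=
      fun e' => Finset.sum_nonneg (fun e _ => le_min (hα e) (hω e'))
    have hstep : ∀ e ∈ P,
        (if s e ≠ s' e.tail then
          ∑ e' ∈ P.filter (fun e' => e'.dropLast = e.tail), min (α e) (ω e') else 0) +
        (if s e = s' e.dropLast then
          ∑ e'' ∈ P.filter (fun e'' => e''.tail = e.dropLast), min (α e'') (ω e) else 0) ≤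
        t * α e + t * ω e + g e.dropLast e.tail := by
      intro e he
      have hα0 := hα e
      have hω0 := hω e
      have hg' := hg0 e.dropLast e.tail
      have htα : 0 ≤ t * α e := mul_nonneg ht.le hα0
      have htω : 0 ≤ t * ω e := mul_nonneg ht.le hω0
      by_cases h1 : IN e.dropLast < t
      · have hse : s e = s' e.tail := by simp only [hs, if_pos h1]
        rw [if_neg (by simp [hse]), zero_add]
        split_ifs
        · have h2 := hTm1 e
          have h3 : ω e * IN e.dropLast ≤ ω e * t := mul_le_mul_of_nonneg_left h1.le hω0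
          linarith
        · linarith
      · by_cases h2 : OUT e.tail < t
        · have hse : s e = !s' e.dropLast := by simp only [hs, if_neg h1, if_pos h2]
          rw [if_neg (c := s e = s' e.dropLast) (by rw [hse]; simp), add_zero]
          split_ifs
          · have h2' := hTp1 e
            have h3 : α e * OUT e.tail ≤ α e * t := mul_le_mul_of_nonneg_left h2.le hα0
            linarith
          · linarith
        · have hmem1 : e.dropLast ∈ P' := by
            rw [hP', mem_filter]
            exact ⟨mem_union_right _ (mem_image_of_mem _ he), Or.inl (not_lt.1 h1)⟩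
          have hmem2 : e.tail ∈ P' := by
            rw [hP', mem_filter]
            exact ⟨mem_union_left _ (mem_image_of_mem _ he), Or.inr (not_lt.1 h2)⟩
          by_cases h3 : α' e.dropLast ≤ ω' e.tail
          · have hse : s e = s' e.tail := by simp only [hs, if_neg h1, if_neg h2, if_pos h3]
            rw [if_neg (by simp [hse]), zero_add]
            split_ifs with h4
            · have h5 : g e.dropLast e.tail = α' e.dropLast := by
                simp only [hg]
                rw [if_pos ⟨hmem1, hmem2, List.tail_dropLast, by rw [← h4, hse]⟩, min_eq_left h3]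
              have h6 := hTm2 e
              linarith
            · linarith
          · have hse : s e = !s' e.dropLast := by
              simp only [hs, if_neg h1, if_neg h2, if_neg h3]
            rw [if_neg (c := s e = s' e.dropLast) (by rw [hse]; simp), add_zero]
            split_ifs with h4
            · have h7 : s' e.dropLast = s' e.tail := by
                rw [hse] at h4
                revert h4
                cases s' e.dropLast <;> cases s' e.tail <;> simp
              have h5 : g e.dropLast e.tail = ω' e.tail := by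
                simp only [hg]
                rw [if_pos ⟨hmem1, hmem2, List.tail_dropLast, h7⟩, min_eq_right (not_le.1 h3).le]
              have h6 := hTp2 e
              linarith
            · linarith
    have hsplit : cost P α ω s ≤ ∑ e ∈ P,
        ((if s e ≠ s' e.tail then
          ∑ e' ∈ P.filter (fun e' => e'.dropLast = e.tail), min (α e) (ω e') else 0) +
        (if s e = s' e.dropLast then
          ∑ e'' ∈ P.filter (fun e'' => e''.tail = e.dropLast), min (α e'') (ω e) else 0)) := by
      have h1 : cost P α ω s ≤
          ∑ e ∈ P, ∑ e' ∈ P, ((if e'.dropLast = e.tail then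
              (if s e ≠ s' e.tail then min (α e) (ω e') else 0) else 0) +
            (if e.tail = e'.dropLast then
              (if s e' = s' e'.dropLast then min (α e) (ω e') else 0) else 0)) := by
        refine Finset.sum_le_sum (fun e _ => Finset.sum_le_sum (fun e' _ => ?_))
        have h0 : 0 ≤ min (α e) (ω e') := le_min (hα e) (hω e')
        by_cases hc : e.tail = e'.dropLast
        · rw [if_pos hc.symm, if_pos hc]
          by_cases hss : s e = s e'
          · rw [if_pos ⟨hc, hss⟩]
            by_cases hv : s e = s' e.tail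
            · rw [if_neg (by simp [hv]), zero_add, if_pos (by rw [← hss, hv, hc])]
            · rw [if_pos hv]
              have : 0 ≤ (if s e' = s' e'.dropLast then min (α e) (ω e') else 0) := by
                split_ifs
                · exact h0
                · exact le_rfl
              linarith
          · rw [if_neg (fun h => hss h.2)]
            refine add_nonneg ?_ ?_ <;> split_ifs <;> first | exact h0 | exact le_rfl
        · rw [if_neg (fun h => hc h.1), if_neg (fun h => hc h.symm), if_neg hc, add_zero]
      refine h1.trans (le_of_eq ?_)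
      simp_rw [Finset.sum_add_distrib]
      congr 1
      · refine Finset.sum_congr rfl (fun e _ => ?_)
        rw [← Finset.sum_filter]
        split_ifs
        · rfl
        · exact Finset.sum_const_zero
      · rw [Finset.sum_comm]
        refine Finset.sum_congr rfl (fun e' _ => ?_)
        rw [← Finset.sum_filter]
        split_ifs
        · rfl
        · exact Finset.sum_const_zero
    have hinj : ∑ e ∈ P, g e.dropLast e.tail ≤ cost P' α' ω' s' := by
      have h1 : cost P' α' ω' s' = ∑ p ∈ P' ×ˢ P', g p.1 p.2 := by
        rw [Finset.sum_product]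
        refine Finset.sum_congr rfl (fun a ha => Finset.sum_congr rfl (fun b hb => ?_))
        simp only [hg, ha, hb, true_and]
      have h2 : ∑ e ∈ P, g e.dropLast e.tail =
          ∑ e ∈ P.filter (fun e => e.dropLast ∈ P' ∧ e.tail ∈ P'), g e.dropLast e.tail := by
        refine (Finset.sum_filter_of_ne (fun e _ hne => ?_)).symm
        by_contra hc
        refine hne ?_
        simp only [hg]
        exact if_neg (fun h => hc ⟨h.1, h.2.1⟩)
      rw [h1, h2]
      have h3 : ∑ e ∈ P.filter (fun e => e.dropLast ∈ P' ∧ e.tail ∈ P'), g e.dropLast e.tail =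
          ∑ p ∈ (P.filter (fun e => e.dropLast ∈ P' ∧ e.tail ∈ P')).image
            (fun e => (e.dropLast, e.tail)), g p.1 p.2 := by
        rw [Finset.sum_image]
        intro e he e' he' heq
        have he1 := hP e (mem_filter.1 (mem_coe.1 he)).1
        have he1' := hP e' (mem_filter.1 (mem_coe.1 he')).1
        have heq' := Prod.mk.inj heq
        exact pair_inj (by omega) (by omega) heq'.1 heq'.2
      rw [h3]
      refine Finset.sum_le_sum_of_subset_of_nonneg ?_ (fun p _ _ => hg0 _ _)
      intro p hp
      obtain ⟨e, he, rfl⟩ := mem_image.1 hp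
      exact mem_product.2 (mem_filter.1 he).2
    refine ⟨s, ?_⟩
    have hfin : cost P α ω s ≤ t * (∑ e ∈ P, α e) + t * (∑ e ∈ P, ω e) + cost P' α' ω' s' := by
      refine (hsplit.trans (Finset.sum_le_sum hstep)).trans ?_
      rw [Finset.sum_add_distrib, Finset.sum_add_distrib, ← Finset.mul_sum, ← Finset.mul_sum]
      linarith
    push_cast
    linarith

end Pool.Agent.H15.Def
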