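import Pool.Agent.H15.DefB
import Pool.Agent.H15.DefC
import Pool.Agent.H15.BetaDefs

set_option autoImplicit false

/-!
Helper file for MP_5b422c_co: assembly.
-/

namespace Pool.Agent.H15.Def

open Set Cardinal

theorem beta_le {V : Type} (G : SimpleGraph V) (S : Finset V) (s : V → Bool) (Q : Finset (V × V))
    (hQ : ∀ u ∈ S, ∀ v ∈ S, G.Adj u v → s u = s v → (u, v) ∈ Q ∨ (v, u) ∈ Q) :
    beta (G.induce (S : Set V)) ≤ Q.card := by
  classical
  let H : SimpleGraph (S : Set V) :=
    { Adj := fun u v => G.Adj u.1 v.1 ∧ s u.1 ≠ s v.1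
      symm := ⟨fun u v h => ⟨h.1.symm, h.2.symm⟩⟩
      loopless := ⟨fun u h => h.2 rfl⟩ }
  have hH : H ≤ G.induce (S : Set V) := fun u v h => h.1
  have hbip : H.IsBipartite := by
    let c : H.Coloring Bool := SimpleGraph.Coloring.mk (fun v => s v.1) (fun {u v} h => h.2)
    have := c.colorable
    simpa using this
  have h1 : beta (G.induce (S : Set V)) ≤
      ((G.induce (S : Set V)).edgeSet \ H.edgeSet).ncard := Nat.sInf_le ⟨H, hH, hbip, rfl⟩
  refine h1.trans ?_
  have hinj : Function.Injective (Sym2.map (Subtype.val : ↥(S : Set V) → V)) :=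
    Sym2.map.injective Subtype.val_injective
  rw [← Set.ncard_image_of_injective _ hinj]
  have h2 : (Sym2.map (Subtype.val : ↥(S : Set V) → V)) ''
      ((G.induce (S : Set V)).edgeSet \ H.edgeSet) ⊆
      ((Q.image (fun p : V × V => s(p.1, p.2)) : Finset (Sym2 V)) : Set (Sym2 V)) := by
    rintro _ ⟨e, he, rfl⟩
    induction e using Sym2.ind with
    | _ u v =>
      have h3 : G.Adj u.1 v.1 := he.1
      have h4 : s u.1 = s v.1 := by
        by_contra hne
        exact he.2 (show H.Adj u v from ⟨h3, hne⟩)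
      rw [Sym2.map_mk, Finset.mem_coe, Finset.mem_image]
      rcases hQ u.1 u.2 v.1 v.2 h3 h4 with h | h
      · exact ⟨_, h, rfl⟩
      · exact ⟨_, h, Sym2.eq_swap⟩
  calc _ ≤ ((Q.image (fun p : V × V => s(p.1, p.2)) : Finset (Sym2 V)) : Set (Sym2 V)).ncard :=
        Set.ncard_le_ncard h2 (Finset.finite_toSet _)
    _ = (Q.image (fun p : V × V => s(p.1, p.2))).card := Set.ncard_coe_finset _
    _ ≤ Q.card := Finset.card_image_le

open Classical in
theorem finite_bound {X : Type} (j : ℕ) (G : SimpleGraph (List X))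
    (hG : ∀ u v, G.Adj u v → (u.length = j+3 ∧ v.length = j+3) ∧
      (u.tail = v.dropLast ∨ v.tail = u.dropLast)) (S : Finset (List X)) :
    (beta (G.induce (S : Set (List X))) : ℝ) ≤
      (2 * (j+2) + 2^(j+2)) * (S.card : ℝ) ^ (1 + 1 / ((j:ℝ)+3)) := by
  have hj3 : (0:ℝ) < (j:ℝ) + 3 := by positivity
  rcases Nat.eq_zero_or_pos S.card with h0 | hpos
  · have h1 := beta_le G S (fun _ => true) ∅ (by
      intro u hu
      rw [Finset.card_eq_zero.1 h0] at hu
      simp at hu)
    rw [Finset.card_empty] at h1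
    have h2 : (beta (G.induce (S : Set (List X))) : ℝ) ≤ 0 := by exact_mod_cast h1
    exact h2.trans (by positivity)
  · set n : ℝ := (S.card : ℝ) with hn
    have hn1 : 1 ≤ n := by
      rw [hn]
      exact_mod_cast hpos
    have hn0 : 0 < n := by linarith
    set P := S.filter (fun e => e.length = j + 3) with hP
    set t : ℝ := n ^ (1 / ((j:ℝ)+3)) with ht
    have ht0 : 0 < t := Real.rpow_pos_of_pos hn0 _
    obtain ⟨s, hs⟩ := main_cost t ht0 (j+2) P (fun e he => (Finset.mem_filter.1 he).2)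
      (fun _ => 1) (fun _ => 1) (fun _ => zero_le_one) (fun _ => zero_le_one)
    have hcost : cost P (fun _ => 1) (fun _ => 1) s =
        (((P ×ˢ P).filter (fun p => p.1.tail = p.2.dropLast ∧ s p.1 = s p.2)).card : ℝ) := by
      unfold cost
      rw [Finset.card_filter, Finset.sum_product]
      push_cast
      simp
    have hb := beta_le G S s ((P ×ˢ P).filter (fun p => p.1.tail = p.2.dropLast ∧ s p.1 = s p.2))
      (by
        intro u hu v hv huv hss
        obtain ⟨⟨h1, h2⟩, h3⟩ := hG u v huv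
        have hu' : u ∈ P := Finset.mem_filter.2 ⟨hu, h1⟩
        have hv' : v ∈ P := Finset.mem_filter.2 ⟨hv, h2⟩
        rcases h3 with h3 | h3
        · exact Or.inl (Finset.mem_filter.2 ⟨Finset.mem_product.2 ⟨hu', hv'⟩, h3, hss⟩)
        · exact Or.inr (Finset.mem_filter.2 ⟨Finset.mem_product.2 ⟨hv', hu'⟩, h3, hss.symm⟩))
    have hb' : (beta (G.induce (S : Set (List X))) : ℝ) ≤ cost P (fun _ => 1) (fun _ => 1) s := by
      rw [hcost]
      exact_mod_cast hb
    refine hb'.trans (hs.trans ?_)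
    have hPn : (P.card : ℝ) ≤ n := by
      rw [hn]
      exact_mod_cast Finset.card_filter_le _ _
    have hP0 : (0:ℝ) ≤ P.card := Nat.cast_nonneg _
    have hsum : ∑ e ∈ P, (1:ℝ) = P.card := by simp
    simp only [hsum]
    have e1 : n ^ (1 + 1 / ((j:ℝ)+3)) = n * t := by
      rw [Real.rpow_add hn0, Real.rpow_one]
    have e2 : t ^ (j+3) = n := by
      rw [ht, ← Real.rpow_natCast, ← Real.rpow_mul hn0.le]
      have : 1 / ((j:ℝ)+3) * ((j+3 : ℕ) : ℝ) = 1 := by
        push_cast
        field_simp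
      rw [this, Real.rpow_one]
    have e3 : n * (2 / t) ^ (j+2) = 2 ^ (j+2) * t := by
      rw [div_pow]
      have h5 : n = t ^ (j+2) * t := by rw [← pow_succ, e2]
      have h6 : t ^ (j+2) ≠ 0 := (pow_pos ht0 _).ne'
      calc n * (2 ^ (j+2) / t ^ (j+2)) = (t ^ (j+2) * t) * (2 ^ (j+2) / t ^ (j+2)) := by rw [← h5]
        _ = 2 ^ (j+2) * t := by field_simp
    have f1 : ((j+2 : ℕ) : ℝ) * t * ((P.card : ℝ) + P.card) ≤ 2 * (j+2) * (n * t) := by
      push_cast
      have : ((j:ℝ)+2) * t * ((P.card : ℝ) + P.card) ≤ ((j:ℝ)+2) * t * (n + n) :=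
        mul_le_mul_of_nonneg_left (by linarith) (by positivity)
      nlinarith
    have f2 : (P.card : ℝ) * (2 / t) ^ (j+2) * P.card ≤ 2 ^ (j+2) * (n * t) := by
      calc (P.card : ℝ) * (2 / t) ^ (j+2) * P.card ≤ n * (2 / t) ^ (j+2) * n := by
            refine mul_le_mul ?_ hPn hP0 (by positivity)
            exact mul_le_mul_of_nonneg_right hPn (by positivity)
        _ = 2 ^ (j+2) * (n * t) := by rw [e3]; ring
    rw [e1]
    linarith

theorem final (ε : ℝ) (hε : 0 < ε) : ∃ (V : Type) (G : SimpleGraph V),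
    chi G = Cardinal.aleph 1 ∧
    ∃ C : ℝ, 0 < C ∧
      (∀ S : Finset V, (beta (G.induce (S : Set V)) : ℝ) ≤ C * (S.card : ℝ) ^ (1 + ε)) ∧
      ∀ n : ℕ, (hG G n : ℝ) ≤ C * (n : ℝ) ^ (1 + ε) := by
  classical
  let Ω : Type := (Cardinal.aleph.{0} 1).ord.ToType
  have hΩ : #Ω = ℵ_ 1 := by
    show #(Cardinal.aleph.{0} 1).ord.ToType = _
    rw [Cardinal.mk_ord_toType]
  have hJ : ∀ γ : Ω, (Iio γ).Countable := fun γ => by
    rw [Cardinal.countable_iff_lt_aleph_one]
    have := Cardinal.mk_Iio_toType_ord_lt (c := Cardinal.aleph.{0} 1) γ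
    exact this
  have hIic : ∀ γ : Ω, (Iic γ).Countable := by
    intro γ
    have : Iic γ = insert γ (Iio γ) := by
      ext β
      simp [le_iff_eq_or_lt]
    rw [this]
    exact (hJ γ).insert γ
  have hb : ∀ s : Set Ω, s.Countable → ∃ η, ∀ x ∈ s, x < η := by
    intro s hs
    by_contra H
    push Not at H
    have h1 : (univ : Set Ω) ⊆ ⋃ x ∈ s, Iic x := by
      intro η _
      obtain ⟨x, hx, hle⟩ := H η
      exact mem_biUnion hx hle
    have h2 : (univ : Set Ω).Countable := (hs.biUnion (fun x _ => hIic x)).mono h1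
    rw [Cardinal.countable_iff_lt_aleph_one, Cardinal.mk_univ, hΩ] at h2
    exact lt_irrefl _ h2
  have hmax : ∀ η : Ω, ∃ η', η < η' := by
    intro η
    obtain ⟨η', h⟩ := hb {η} (countable_singleton η)
    exact ⟨η', h η rfl⟩
  obtain ⟨o, -⟩ := hb ∅ countable_empty
  let K : Type := (Cardinal.beth.{0} Ordinal.omega0).ord.ToType
  have hKc : #K = Cardinal.beth Ordinal.omega0 := by
    show #(Cardinal.beth.{0} Ordinal.omega0).ord.ToType = _
    rw [Cardinal.mk_ord_toType]
  have hK : IsStrongLimit (#K) := by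
    rw [hKc, isStrongLimit_beth]
    exact Ordinal.isSuccLimit_omega0.isSuccPrelimit
  have hK0 : ℵ₀ < #K := by
    rw [hKc, ← beth_zero]
    exact beth_strictMono Ordinal.omega0_pos
  have hK1 : ℵ_ 1 < #K := by
    have h1 : (2:Cardinal) ^ ℵ₀ < #K := hK.isStrongPrelimit hK0
    refine lt_of_le_of_lt ?_ h1
    rw [← succ_aleph0]
    exact Order.succ_le_of_lt (cantor _)
  have hKΩ : #(Q0 Ω) < #K := by
    have h1 : #(Q0 Ω) = 2 ^ (#(ℕ × Ω)) := mk_set
    have h2 : #(ℕ × Ω) = ℵ_ 1 := by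
      rw [mk_prod, lift_id, lift_id, hΩ, mk_nat]
      exact aleph0_mul_eq (aleph0_le_aleph 1)
    rw [h1, h2]
    exact hK.isStrongPrelimit hK1
  obtain ⟨Ψ, hΨ⟩ := exists_Psi (K := K) hΩ hmax
  obtain ⟨j, hj⟩ := exists_nat_gt (1 / ε)
  have hj' : 1 / ((j:ℝ)+3) ≤ ε := by
    rw [div_le_iff₀ (by positivity)]
    rw [div_lt_iff₀ hε] at hj
    nlinarith
  let V : Type := List (Nd K Ω)
  let G : SimpleGraph V :=
    { Adj := fun v v' => Arc (j+3) (rho Ψ o) v v' ∨ Arc (j+3) (rho Ψ o) v' v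
      symm := ⟨fun u v h => h.symm⟩
      loopless := ⟨fun u h => by
        rcases h with h | h
        · exact h.2.2.2 rfl
        · exact h.2.2.2 rfl⟩ }
  have hfb : ∀ S : Finset V, (beta (G.induce (S : Set V)) : ℝ) ≤
      (2 * (j+2) + 2^(j+2)) * (S.card : ℝ) ^ (1 + ε) := by
    intro S
    have h1 := finite_bound j G (by
      intro u v h
      rcases h with h | h
      · exact ⟨⟨h.1, h.2.1⟩, Or.inl h.2.2.1⟩
      · exact ⟨⟨h.2.1, h.1⟩, Or.inr h.2.2.1⟩) S
    refine h1.trans ?_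
    refine mul_le_mul_of_nonneg_left ?_ (by positivity)
    rcases Nat.eq_zero_or_pos S.card with h0 | hpos
    · rw [h0, Nat.cast_zero, Real.zero_rpow (by positivity), Real.zero_rpow (by positivity)]
    · refine Real.rpow_le_rpow_of_exponent_le ?_ (by linarith)
      exact_mod_cast hpos
  refine ⟨V, G, ?_, 2 * (j+2) + 2^(j+2), by positivity, hfb, ?_⟩
  · refine le_antisymm ?_ ?_
    · refine csInf_le' ⟨Ω, ⟨SimpleGraph.Coloring.mk (rho Ψ o) (fun {u v} h => ?_)⟩, hΩ⟩
      rcases h with h | h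
      · exact h.2.2.2
      · exact h.2.2.2.symm
    · refine le_csInf ⟨_, V, ⟨G.selfColoring⟩, rfl⟩ ?_
      rintro κ ⟨C, ⟨c⟩, rfl⟩
      by_contra hlt
      have hCc : (univ : Set C).Countable := by
        rw [Cardinal.countable_iff_lt_aleph_one, Cardinal.mk_univ]
        exact not_le.1 hlt
      rw [countable_univ_iff] at hCc
      obtain ⟨f, hf⟩ := exists_injective_nat C
      refine no_colouring hK hK0 hKΩ hb Ψ hΨ o j (fun v => f (c v)) ?_
      intro v v' hvv he
      have hadj : G.Adj v v' := Or.inl hvv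
      exact c.valid hadj (hf he)
  · intro n
    have hn : hG G n ∈ {b | ∃ S : Finset V, S.card = n ∧ beta (G.induce (S : Set V)) = b} ∨
        hG G n = 0 := by
      unfold hG
      rcases Set.eq_empty_or_nonempty
        {b | ∃ S : Finset V, S.card = n ∧ beta (G.induce (S : Set V)) = b} with h | h
      · right
        rw [h]
        exact csSup_empty
      · left
        refine Nat.sSup_mem h ?_
        refine ⟨⌈(2 * ((j:ℝ)+2) + 2^(j+2)) * (n : ℝ) ^ (1 + ε)⌉₊, ?_⟩
        rintro b ⟨S, hS, rfl⟩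
        have := hfb S
        rw [hS] at this
        have h2 := this.trans (Nat.le_ceil _)
        exact_mod_cast h2
    rcases hn with ⟨S, hS, hb⟩ | h0
    · rw [← hb, ← hS]
      exact hfb S
    · rw [h0, Nat.cast_zero]
      positivity

end Pool.Agent.H15.Def
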