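import Mathlib

set_option autoImplicit false

/-!
Helper file for MP_d9d12d_lc: a rounding argument producing measures of bounded energy.
-/

namespace Pool.Agent.H15.Dim

open Finset

/-- strings of length `n` -/
noncomputable def L (n : ℕ) : Finset (List Bool) :=
  (Finset.univ : Finset (Fin n → Bool)).image List.ofFn

theorem mem_L {n : ℕ} {u : List Bool} : u ∈ L n ↔ u.length = n := by
  constructor
  · intro h
    obtain ⟨f, -, rfl⟩ := Finset.mem_image.1 h
    simp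
  · rintro rfl
    exact Finset.mem_image.2 ⟨u.get, Finset.mem_univ _, List.ofFn_get u⟩

theorem card_L (n : ℕ) : (L n).card = 2 ^ n := by
  rw [L, Finset.card_image_of_injective _ List.ofFn_injective]
  simp

theorem filter_L (n : ℕ) (v : List Bool) (hv : v.length ≤ n) :
    (L n).filter (fun u => v <+: u) = (L (n - v.length)).image (fun u => v ++ u) := by
  ext u
  simp only [Finset.mem_filter, Finset.mem_image, mem_L]
  constructor
  · rintro ⟨h1, w, rfl⟩
    refine ⟨w, ?_, rfl⟩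
    rw [List.length_append] at h1
    omega
  · rintro ⟨w, h1, rfl⟩
    refine ⟨?_, w, rfl⟩
    rw [List.length_append]
    omega

theorem card_filter_L (n : ℕ) (v : List Bool) (hv : v.length ≤ n) :
    ((L n).filter (fun u => v <+: u)).card = 2 ^ (n - v.length) := by
  rw [filter_L n v hv, Finset.card_image_of_injective, card_L]
  intro a b h
  exact List.append_cancel_left h

section round

variable {ι : Type} [DecidableEq ι]

def Aff (f : (ι → ℝ) → ℝ) : Prop :=
  ∀ (y : ι → ℝ) (τ : ι), ∃ A B : ℝ, ∀ x : ℝ, f (Function.update y τ x) = A + x * B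

theorem Aff.exists_le (f : (ι → ℝ) → ℝ) (hf : Aff f) (p : ι → ℝ) (hp0 : ∀ τ, 0 ≤ p τ)
    (hp1 : ∀ τ, p τ ≤ 1) (S : Finset ι) :
    ∃ y : ι → ℝ, (∀ τ ∈ S, y τ = 0 ∨ y τ = 1) ∧ (∀ τ ∉ S, y τ = p τ) ∧ f y ≤ f p := by
  induction S using Finset.induction_on with
  | empty => exact ⟨p, by simp, by simp, le_rfl⟩
  | insert τ S hτ ih =>
    obtain ⟨y, h1, h2, h3⟩ := ih
    obtain ⟨A, B, hAB⟩ := hf y τ
    have hy : f y = A + p τ * B := by
      have := hAB (y τ)
      rwa [Function.update_eq_self, h2 τ hτ] at this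
    have key : ∃ x : ℝ, (x = 0 ∨ x = 1) ∧ A + x * B ≤ A + p τ * B := by
      by_cases hB : 0 ≤ B
      · exact ⟨0, Or.inl rfl, by nlinarith [mul_nonneg (hp0 τ) hB]⟩
      · refine ⟨1, Or.inr rfl, ?_⟩
        nlinarith [mul_nonneg (sub_nonneg.2 (hp1 τ)) (le_of_lt (not_le.1 hB : B < 0) |> neg_nonneg.2)]
    obtain ⟨x, hx, hxx⟩ := key
    refine ⟨Function.update y τ x, ?_, ?_, ?_⟩
    · intro σ hσ
      by_cases hστ : σ = τ
      · subst hστ; simpa using hx
      · rw [Function.update_of_ne hστ]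
        exact h1 σ (Finset.mem_of_mem_insert_of_ne hσ hστ)
    · intro σ hσ
      have hστ : σ ≠ τ := fun h => hσ (by rw [h]; exact Finset.mem_insert_self _ _)
      rw [Function.update_of_ne hστ]
      exact h2 σ (fun h => hσ (Finset.mem_insert_of_mem h))
    · rw [hAB x]
      linarith

theorem Aff.add {f g : (ι → ℝ) → ℝ} (hf : Aff f) (hg : Aff g) : Aff (fun y => f y + g y) := by
  intro y τ
  obtain ⟨A, B, h1⟩ := hf y τ
  obtain ⟨A', B', h2⟩ := hg y τ
  exact ⟨A + A', B + B', fun x => by simp only [h1, h2]; ring⟩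

theorem Aff.mul {f : (ι → ℝ) → ℝ} (hf : Aff f) (c : ℝ) : Aff (fun y => c * f y) := by
  intro y τ
  obtain ⟨A, B, h1⟩ := hf y τ
  exact ⟨c * A, c * B, fun x => by simp only [h1]; ring⟩

theorem Aff.sum {κ : Type} (S : Finset κ) {f : κ → (ι → ℝ) → ℝ} (hf : ∀ k ∈ S, Aff (f k)) :
    Aff (fun y => ∑ k ∈ S, f k y) := by
  classical
  induction S using Finset.induction_on with
  | empty => intro y τ; exact ⟨0, 0, fun x => by simp⟩
  | insert k S hk ih =>
    have h1 := hf k (Finset.mem_insert_self _ _)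
    have h2 := ih (fun k' hk' => hf k' (Finset.mem_insert_of_mem hk'))
    have := h1.add h2
    simpa [Finset.sum_insert hk] using this

theorem Aff.coord (σ : ι) : Aff (fun y : ι → ℝ => y σ) := by
  intro y τ
  by_cases h : σ = τ
  · subst h; exact ⟨0, 1, fun x => by simp⟩
  · exact ⟨y σ, 0, fun x => by simp [Function.update_of_ne h]⟩

theorem Aff.quad (S : Finset ι) (a : ι → ℝ) :
    Aff (fun y : ι → ℝ => (∑ τ ∈ S, y τ * a τ) ^ 2 + ∑ τ ∈ S, (y τ - y τ ^ 2) * a τ ^ 2) := by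
  intro y τ
  by_cases h : τ ∈ S
  · refine ⟨(∑ σ ∈ S.erase τ, y σ * a σ) ^ 2 + ∑ σ ∈ S.erase τ, (y σ - y σ ^ 2) * a σ ^ 2,
      2 * (∑ σ ∈ S.erase τ, y σ * a σ) * a τ + a τ ^ 2, fun x => ?_⟩
    have h1 : ∑ σ ∈ S, Function.update y τ x σ * a σ = x * a τ + ∑ σ ∈ S.erase τ, y σ * a σ := by
      rw [← Finset.add_sum_erase S _ h, Function.update_self]
      congr 1
      refine Finset.sum_congr rfl (fun σ hσ => ?_)
      rw [Function.update_of_ne (Finset.ne_of_mem_erase hσ)]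
    have h2 : ∑ σ ∈ S, (Function.update y τ x σ - Function.update y τ x σ ^ 2) * a σ ^ 2 =
        (x - x ^ 2) * a τ ^ 2 + ∑ σ ∈ S.erase τ, (y σ - y σ ^ 2) * a σ ^ 2 := by
      rw [← Finset.add_sum_erase S _ h, Function.update_self]
      congr 1
      refine Finset.sum_congr rfl (fun σ hσ => ?_)
      rw [Function.update_of_ne (Finset.ne_of_mem_erase hσ)]
    simp only [h1, h2]
    ring
  · refine ⟨(∑ σ ∈ S, y σ * a σ) ^ 2 + ∑ σ ∈ S, (y σ - y σ ^ 2) * a σ ^ 2, 0, fun x => ?_⟩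
    have hne : ∀ σ ∈ S, σ ≠ τ := fun σ hσ h' => h (h' ▸ hσ)
    have h1 : ∑ σ ∈ S, Function.update y τ x σ * a σ = ∑ σ ∈ S, y σ * a σ :=
      Finset.sum_congr rfl (fun σ hσ => by rw [Function.update_of_ne (hne σ hσ)])
    have h2 : ∑ σ ∈ S, (Function.update y τ x σ - Function.update y τ x σ ^ 2) * a σ ^ 2 =
        ∑ σ ∈ S, (y σ - y σ ^ 2) * a σ ^ 2 :=
      Finset.sum_congr rfl (fun σ hσ => by rw [Function.update_of_ne (hne σ hσ)])
    simp only [h1, h2]
    ring

end round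

theorem exists_I (s s' : ℝ) (h0 : 0 < s) (hss : s < s') (h1 : s' < 1) :
    ∃ K : ℝ, 1 ≤ K ∧ ∀ (n m : ℕ) (F : List Bool → List Bool), (∀ u ∈ L n, F u ∈ L m) →
      ∃ I ⊆ L m, ∃ μ : List Bool → ℝ, (I.card : ℝ) ≤ K * (2:ℝ) ^ (s' * m) ∧ (∀ u, 0 ≤ μ u) ∧
        (∀ u ∈ L n, μ u ≤ (2:ℝ) ^ ((1 - s') * m) / 2 ^ n) ∧ (∀ u ∈ L n, μ u ≠ 0 → F u ∈ I) ∧
        1 / 2 ≤ ∑ u ∈ L n, μ u ∧
        ∑ j ∈ range (n + 1), ∑ v ∈ L j, (2:ℝ) ^ (s * j) *
          (∑ u ∈ (L n).filter (fun u => v <+: u), μ u) ^ 2 ≤ K := by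
  classical
  set q : ℝ := (2:ℝ) ^ (-(s' - s)) with hq
  have hq0 : 0 < q := Real.rpow_pos_of_pos two_pos _
  have hq1 : q < 1 := Real.rpow_lt_one_of_one_lt_of_neg one_lt_two (by linarith)
  set C : ℝ := 2 / (1 - q) with hC
  have hC0 : 2 ≤ C := by
    rw [hC, le_div_iff₀ (by linarith)]
    nlinarith
  set K₁ : ℝ := 2 * (C + 2) with hK₁
  have hK₁0 : 8 ≤ K₁ := by rw [hK₁]; linarith
  refine ⟨K₁ ^ 2, by nlinarith, ?_⟩
  intro n m F hF
  have h2n : (0:ℝ) < 2 ^ n := by positivity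
  let wv : List Bool → List Bool → ℝ := fun τ v =>
    ∑ u ∈ (L n).filter (fun u => v <+: u), if F u = τ then (1 / 2 ^ n : ℝ) else 0
  have hwv0 : ∀ τ v, 0 ≤ wv τ v := fun τ v =>
    Finset.sum_nonneg (fun u _ => by split_ifs <;> positivity)
  have hwv_le : ∀ τ v, v.length ≤ n → wv τ v ≤ (2:ℝ) ^ (-(v.length : ℝ)) := by
    intro τ v hv
    calc wv τ v ≤ ∑ u ∈ (L n).filter (fun u => v <+: u), (1 / 2 ^ n : ℝ) := by
          refine Finset.sum_le_sum (fun u _ => ?_)
          split_ifs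
          · exact le_rfl
          · positivity
      _ = (2:ℝ) ^ (-(v.length : ℝ)) := by
          rw [Finset.sum_const, card_filter_L n v hv, nsmul_eq_mul, Real.rpow_neg two_pos.le,
            Real.rpow_natCast]
          push_cast
          rw [← Nat.sub_add_cancel hv, pow_add]
          simp only [Nat.add_sub_cancel]
          field_simp
  have hwv_mono : ∀ τ v, wv τ v ≤ wv τ [] := by
    intro τ v
    refine Finset.sum_le_sum_of_subset_of_nonneg ?_ (fun u _ _ => by split_ifs <;> positivity)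
    intro u hu
    rw [Finset.mem_filter] at hu ⊢
    exact ⟨hu.1, List.nil_prefix⟩
  have hwv_sum : ∀ v, v.length ≤ n → ∑ τ ∈ L m, wv τ v = (2:ℝ) ^ (-(v.length : ℝ)) := by
    intro v hv
    simp only [wv]
    rw [Finset.sum_comm]
    have : ∀ u ∈ (L n).filter (fun u => v <+: u),
        ∑ τ ∈ L m, (if F u = τ then (1 / 2 ^ n : ℝ) else 0) = 1 / 2 ^ n := by
      intro u hu
      rw [Finset.sum_ite_eq, if_pos (hF u (Finset.mem_filter.1 hu).1)]
    rw [Finset.sum_congr rfl this, Finset.sum_const, card_filter_L n v hv, nsmul_eq_mul,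
      Real.rpow_neg two_pos.le, Real.rpow_natCast]
    push_cast
    rw [← Nat.sub_add_cancel hv, pow_add]
    simp only [Nat.add_sub_cancel]
    field_simp
  let e : ℝ := (2:ℝ) ^ (-(m:ℝ))
  have he0 : 0 < e := Real.rpow_pos_of_pos two_pos _
  have he1 : e ≤ 1 := Real.rpow_le_one_of_one_le_of_nonpos one_le_two (by simp)
  let b : List Bool → ℝ := fun τ => max (wv τ []) e
  have hb0 : ∀ τ, 0 < b τ := fun τ => lt_max_of_lt_right he0
  have hw1 : ∀ τ, wv τ [] ≤ 1 := by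
    intro τ
    have := hwv_le τ [] (Nat.zero_le _)
    simpa using this
  have hb1 : ∀ τ, b τ ≤ 1 := fun τ => max_le (hw1 τ) he1
  let p : List Bool → ℝ := fun τ => b τ ^ (1 - s')
  have hp0 : ∀ τ, 0 < p τ := fun τ => Real.rpow_pos_of_pos (hb0 τ) _
  have hp1 : ∀ τ, p τ ≤ 1 := fun τ => Real.rpow_le_one (hb0 τ).le (hb1 τ) (by linarith)
  let a : List Bool → List Bool → ℝ := fun v τ => wv τ v / p τ
  have ha0 : ∀ v τ, 0 ≤ a v τ := fun v τ => div_nonneg (hwv0 τ v) (hp0 τ).le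
  have hpa : ∀ v τ, p τ * a v τ = wv τ v := fun v τ => mul_div_cancel₀ _ (hp0 τ).ne'
  have ha_le : ∀ v τ, v.length ≤ n → a v τ ≤ (2:ℝ) ^ (-(s' * v.length)) := by
    intro v τ hv
    rcases (hwv0 τ v).eq_or_lt with h | h
    · simp only [a]
      rw [← h, zero_div]
      exact (Real.rpow_pos_of_pos two_pos _).le
    · have hle : (wv τ v) ^ (1 - s') ≤ p τ :=
        Real.rpow_le_rpow h.le ((hwv_mono τ v).trans (le_max_left _ _)) (by linarith)
      calc a v τ ≤ wv τ v / (wv τ v) ^ (1 - s') :=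
            div_le_div_of_nonneg_left h.le (Real.rpow_pos_of_pos h _) hle
        _ = (wv τ v) ^ s' := by
            nth_rewrite 1 [← Real.rpow_one (wv τ v)]
            rw [← Real.rpow_sub h]
            congr 1
            ring
        _ ≤ ((2:ℝ) ^ (-(v.length : ℝ))) ^ s' :=
            Real.rpow_le_rpow h.le (hwv_le τ v hv) (by linarith)
        _ = (2:ℝ) ^ (-(s' * v.length)) := by
            rw [← Real.rpow_mul two_pos.le]
            congr 1
            ring
  -- the potential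
  let quad : List Bool → (List Bool → ℝ) → ℝ := fun v y =>
    (∑ τ ∈ L m, y τ * a v τ) ^ 2 + ∑ τ ∈ L m, (y τ - y τ ^ 2) * a v τ ^ 2
  let En : (List Bool → ℝ) → ℝ := fun y =>
    ∑ j ∈ range (n + 1), ∑ v ∈ L j, (2:ℝ) ^ (s * j) * quad v y
  let Ψ : (List Bool → ℝ) → ℝ := fun y =>
    (1 / K₁) * En y + ((1 / (K₁ * (2:ℝ) ^ (s' * m))) * ∑ τ ∈ L m, y τ +
      (-1) * ∑ τ ∈ L m, a [] τ * y τ)
  have hAff : Aff Ψ := by
    refine Aff.add (Aff.mul ?_ _) (Aff.add (Aff.mul ?_ _) (Aff.mul ?_ _))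
    · refine Aff.sum _ (fun j _ => Aff.sum _ (fun v _ => Aff.mul ?_ _))
      exact Aff.quad (L m) (a v)
    · exact Aff.sum _ (fun τ _ => Aff.coord τ)
    · exact Aff.sum _ (fun τ _ => (Aff.coord τ).mul _)
  have hquad_p : ∀ j ≤ n, ∀ v ∈ L j, quad v p ≤
      (2:ℝ) ^ (-(j:ℝ)) * ((2:ℝ) ^ (-(j:ℝ)) + (2:ℝ) ^ (-(s' * j))) := by
    intro j hj v hv
    have hvl : v.length = j := mem_L.1 hv
    have hvn : v.length ≤ n := hvl ▸ hj
    have e1 : ∑ τ ∈ L m, p τ * a v τ = (2:ℝ) ^ (-(j:ℝ)) := by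
      rw [← hvl, ← hwv_sum v hvn]
      exact Finset.sum_congr rfl (fun τ _ => hpa v τ)
    have e2 : ∑ τ ∈ L m, (p τ - p τ ^ 2) * a v τ ^ 2 ≤ (2:ℝ) ^ (-(j:ℝ)) * (2:ℝ) ^ (-(s' * j)) := by
      calc ∑ τ ∈ L m, (p τ - p τ ^ 2) * a v τ ^ 2
          ≤ ∑ τ ∈ L m, wv τ v * (2:ℝ) ^ (-(s' * j)) := by
            refine Finset.sum_le_sum (fun τ _ => ?_)
            have h3 : (p τ - p τ ^ 2) * a v τ ^ 2 ≤ p τ * a v τ ^ 2 := by
              nlinarith [sq_nonneg (p τ), sq_nonneg (a v τ), mul_nonneg (sq_nonneg (p τ))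
                (sq_nonneg (a v τ))]
            have h4 : p τ * a v τ ^ 2 = wv τ v * a v τ := by
              rw [← hpa v τ]; ring
            rw [h4] at h3
            refine h3.trans (mul_le_mul_of_nonneg_left ?_ (hwv0 τ v))
            rw [← hvl]
            exact ha_le v τ hvn
        _ = (2:ℝ) ^ (-(j:ℝ)) * (2:ℝ) ^ (-(s' * j)) := by
            rw [← Finset.sum_mul, hwv_sum v hvn, hvl]
    simp only [quad]
    rw [e1]
    nlinarith
  have hEn_p : En p ≤ C := by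
    have hj : ∀ j ∈ range (n + 1), ∑ v ∈ L j, (2:ℝ) ^ (s * j) * quad v p ≤ 2 * q ^ j := by
      intro j hj
      have hjn : j ≤ n := Nat.lt_succ_iff.1 (Finset.mem_range.1 hj)
      have h2j : (2:ℝ) ^ j = (2:ℝ) ^ (j:ℝ) := (Real.rpow_natCast 2 j).symm
      calc ∑ v ∈ L j, (2:ℝ) ^ (s * j) * quad v p
          ≤ ∑ v ∈ L j, (2:ℝ) ^ (s * j) * ((2:ℝ) ^ (-(j:ℝ)) *
              ((2:ℝ) ^ (-(j:ℝ)) + (2:ℝ) ^ (-(s' * j)))) :=
            Finset.sum_le_sum (fun v hv => mul_le_mul_of_nonneg_left (hquad_p j hjn v hv)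
              (Real.rpow_pos_of_pos two_pos _).le)
        _ = (2:ℝ) ^ (s * j) * ((2:ℝ) ^ (-(j:ℝ)) + (2:ℝ) ^ (-(s' * j))) := by
            rw [Finset.sum_const, card_L, nsmul_eq_mul]
            push_cast
            rw [h2j]
            have : (2:ℝ) ^ (j:ℝ) * (2:ℝ) ^ (-(j:ℝ)) = 1 := by
              rw [← Real.rpow_add two_pos]; simp
            linear_combination (2:ℝ) ^ (s * j) * ((2:ℝ) ^ (-(j:ℝ)) + (2:ℝ) ^ (-(s' * j))) * this
        _ ≤ (2:ℝ) ^ (s * j) * (2 * (2:ℝ) ^ (-(s' * j))) := by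
            refine mul_le_mul_of_nonneg_left ?_ (Real.rpow_pos_of_pos two_pos _).le
            have : (2:ℝ) ^ (-(j:ℝ)) ≤ (2:ℝ) ^ (-(s' * j)) := by
              refine Real.rpow_le_rpow_of_exponent_le one_le_two ?_
              have : s' * j ≤ 1 * j := mul_le_mul_of_nonneg_right h1.le (Nat.cast_nonneg _)
              linarith
            linarith
        _ = 2 * q ^ j := by
            rw [hq, ← Real.rpow_natCast, ← Real.rpow_mul two_pos.le, mul_left_comm,
              ← Real.rpow_add two_pos]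
            congr 2
            ring
    calc En p ≤ ∑ j ∈ range (n + 1), 2 * q ^ j := Finset.sum_le_sum hj
      _ = 2 * ∑ j ∈ range (n + 1), q ^ j := by rw [Finset.mul_sum]
      _ ≤ 2 * (1 / (1 - q)) := by
          refine mul_le_mul_of_nonneg_left ?_ two_pos.le
          rw [one_div, ← tsum_geometric_of_lt_one hq0.le hq1]
          exact (summable_geometric_of_lt_one hq0.le hq1).sum_le_tsum _
            (fun j _ => by positivity)
      _ = C := by rw [hC]; ring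
  have hs'm : (0:ℝ) < (2:ℝ) ^ (s' * m) := Real.rpow_pos_of_pos two_pos _
  have hsum_p : ∑ τ ∈ L m, p τ ≤ 2 * (2:ℝ) ^ (s' * m) := by
    have hτ : ∀ τ ∈ L m, p τ ≤ (wv τ [] + e) * (2:ℝ) ^ (s' * m) := by
      intro τ _
      have e1 : p τ = b τ * b τ ^ (-s') := by
        simp only [p]
        nth_rewrite 2 [← Real.rpow_one (b τ)]
        rw [← Real.rpow_add (hb0 τ)]
        congr 1
      have e2 : b τ ^ (-s') ≤ (2:ℝ) ^ (s' * m) := by
        have : b τ ^ (-s') ≤ e ^ (-s') :=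
          Real.rpow_le_rpow_of_nonpos he0 (le_max_right _ _) (by linarith)
        refine this.trans (le_of_eq ?_)
        simp only [e]
        rw [← Real.rpow_mul two_pos.le]
        congr 1
        ring
      have e3 : b τ ≤ wv τ [] + e := by
        refine max_le ?_ ?_
        · linarith
        · linarith [hwv0 τ []]
      rw [e1]
      exact mul_le_mul e3 e2 (Real.rpow_pos_of_pos (hb0 τ) _).le (by linarith [hwv0 τ []])
    calc ∑ τ ∈ L m, p τ ≤ ∑ τ ∈ L m, (wv τ [] + e) * (2:ℝ) ^ (s' * m) := Finset.sum_le_sum hτ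
      _ = (1 + 1) * (2:ℝ) ^ (s' * m) := by
          rw [← Finset.sum_mul, Finset.sum_add_distrib, hwv_sum [] (Nat.zero_le _),
            Finset.sum_const, card_L, nsmul_eq_mul]
          congr 2
          · simp
          · simp only [e]
            push_cast
            rw [Real.rpow_neg two_pos.le, Real.rpow_natCast]
            exact mul_inv_cancel₀ (by positivity)
      _ = 2 * (2:ℝ) ^ (s' * m) := by ring
  have hM_p : ∑ τ ∈ L m, a [] τ * p τ = 1 := by
    have : ∑ τ ∈ L m, a [] τ * p τ = ∑ τ ∈ L m, wv τ [] :=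
      Finset.sum_congr rfl (fun τ _ => by rw [mul_comm]; exact hpa [] τ)
    rw [this, hwv_sum [] (Nat.zero_le _)]
    simp
  have hΨp : Ψ p ≤ -(1/2) := by
    simp only [Ψ]
    rw [hM_p]
    have e1 : (1 / K₁) * En p ≤ (1 / K₁) * C :=
      mul_le_mul_of_nonneg_left hEn_p (by positivity)
    have e2 : (1 / (K₁ * (2:ℝ) ^ (s' * m))) * ∑ τ ∈ L m, p τ ≤ (1 / K₁) * 2 := by
      calc (1 / (K₁ * (2:ℝ) ^ (s' * m))) * ∑ τ ∈ L m, p τ
          ≤ (1 / (K₁ * (2:ℝ) ^ (s' * m))) * (2 * (2:ℝ) ^ (s' * m)) :=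
            mul_le_mul_of_nonneg_left hsum_p (by positivity)
        _ = (1 / K₁) * 2 := by field_simp
    have e3 : (1 / K₁) * C + (1 / K₁) * 2 = 1 / 2 := by
      rw [← mul_add, hK₁]
      have : C + 2 ≠ 0 := by linarith
      field_simp
    linarith
  obtain ⟨y, hy1, -, hy3⟩ := hAff.exists_le Ψ p (fun τ => (hp0 τ).le) hp1 (L m)
  have hΨy : Ψ y ≤ -(1/2) := hy3.trans hΨp
  let I : Finset (List Bool) := (L m).filter (fun τ => y τ = 1)
  have hyI : ∀ τ ∈ L m, y τ = if τ ∈ I then 1 else 0 := by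
    intro τ hτ
    by_cases h : y τ = 1
    · rw [if_pos (show τ ∈ I from Finset.mem_filter.2 ⟨hτ, h⟩), h]
    · rw [if_neg (show τ ∉ I from fun h' => h (Finset.mem_filter.1 h').2)]
      rcases hy1 τ hτ with h' | h'
      · exact h'
      · exact absurd h' h
  have hIsub : I ⊆ L m := Finset.filter_subset _ _
  have hsumI : ∀ g : List Bool → ℝ, ∑ τ ∈ L m, y τ * g τ = ∑ τ ∈ I, g τ := by
    intro g
    have : ∀ τ ∈ L m, y τ * g τ = if τ ∈ I then g τ else 0 := by
      intro τ hτ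
      rw [hyI τ hτ]
      split_ifs <;> simp
    rw [Finset.sum_congr rfl this, Finset.sum_ite_mem, Finset.inter_eq_right.2 hIsub]
  let μ : List Bool → ℝ := fun u => if F u ∈ I then 1 / 2 ^ n / p (F u) else 0
  have hμv : ∀ v, ∑ u ∈ (L n).filter (fun u => v <+: u), μ u = ∑ τ ∈ I, a v τ := by
    intro v
    simp only [a, wv]
    simp only [Finset.sum_div]
    rw [Finset.sum_comm]
    refine Finset.sum_congr rfl (fun u _ => ?_)
    simp only [μ]
    have : ∀ τ ∈ I, (if F u = τ then (1 / 2 ^ n : ℝ) else 0) / p τ =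
        if F u = τ then (1 / 2 ^ n / p τ : ℝ) else 0 := by
      intro τ _
      split_ifs <;> simp
    rw [Finset.sum_congr rfl this, Finset.sum_ite_eq]
  have hEny : En y = ∑ j ∈ range (n + 1), ∑ v ∈ L j, (2:ℝ) ^ (s * j) *
      (∑ u ∈ (L n).filter (fun u => v <+: u), μ u) ^ 2 := by
    refine Finset.sum_congr rfl (fun j _ => Finset.sum_congr rfl (fun v _ => ?_))
    congr 1
    simp only [quad]
    rw [hsumI, hμv]
    have : ∑ τ ∈ L m, (y τ - y τ ^ 2) * a v τ ^ 2 = 0 := by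
      refine Finset.sum_eq_zero (fun τ hτ => ?_)
      rcases hy1 τ hτ with h' | h' <;> rw [h'] <;> ring
    rw [this, add_zero]
  have hμ0 : ∀ u, 0 ≤ μ u := by
    intro u
    simp only [μ]
    split_ifs
    · have := hp0 (F u); positivity
    · exact le_rfl
  have hM : ∑ τ ∈ L m, a [] τ * y τ = ∑ u ∈ L n, μ u := by
    have e1 : ∑ τ ∈ L m, a [] τ * y τ = ∑ τ ∈ L m, y τ * a [] τ :=
      Finset.sum_congr rfl (fun τ _ => mul_comm _ _)
    rw [e1, hsumI, ← hμv []]
    congr 1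
    ext u
    simp [List.nil_prefix]
  have hcard : ∑ τ ∈ L m, y τ = I.card := by
    have := hsumI (fun _ => 1)
    simpa using this
  set M : ℝ := ∑ u ∈ L n, μ u with hMdef
  have hM2 : M ^ 2 ≤ En y := by
    rw [hEny, Finset.sum_range_succ']
    have h0' : ∑ v ∈ L 0, (2:ℝ) ^ (s * ((0:ℕ):ℝ)) *
        (∑ u ∈ (L n).filter (fun u => v <+: u), μ u) ^ 2 = M ^ 2 := by
      have hL0 : L 0 = {[]} := by
        ext u
        rw [mem_L, Finset.mem_singleton, List.length_eq_zero_iff]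
      rw [hL0, Finset.sum_singleton]
      have : (L n).filter (fun u => [] <+: u) = L n := by
        ext u
        simp [List.nil_prefix]
      rw [this, ← hMdef]
      simp
    rw [h0']
    have : 0 ≤ ∑ j ∈ range n, ∑ v ∈ L (j+1), (2:ℝ) ^ (s * ((j+1:ℕ):ℝ)) *
        (∑ u ∈ (L n).filter (fun u => v <+: u), μ u) ^ 2 :=
      Finset.sum_nonneg (fun j _ => Finset.sum_nonneg (fun v _ =>
        mul_nonneg (Real.rpow_pos_of_pos two_pos _).le (sq_nonneg _)))
    linarith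
  have hΨy' : (1 / K₁) * En y + (1 / (K₁ * (2:ℝ) ^ (s' * m))) * I.card ≤ M - 1 / 2 := by
    have := hΨy
    simp only [Ψ] at this
    rw [hM, hcard] at this
    linarith
  have hEn0 : 0 ≤ En y := (sq_nonneg M).trans hM2
  have hK₁p : 0 < K₁ := by linarith
  have hcard0 : 0 ≤ (1 / (K₁ * (2:ℝ) ^ (s' * m))) * (I.card : ℝ) := by positivity
  have hM12 : 1 / 2 ≤ M := by
    have : 0 ≤ (1 / K₁) * En y := by positivity
    linarith
  have hEnM : En y ≤ K₁ * M := by
    have h3 : (1 / K₁) * En y ≤ M := by linarith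
    calc En y = K₁ * ((1 / K₁) * En y) := by field_simp
      _ ≤ K₁ * M := mul_le_mul_of_nonneg_left h3 hK₁p.le
  have hMK : M ≤ K₁ := by
    by_contra hlt
    push Not at hlt
    nlinarith
  refine ⟨I, hIsub, μ, ?_, hμ0, ?_, ?_, hM12, ?_⟩
  · have h3 : (1 / (K₁ * (2:ℝ) ^ (s' * m))) * (I.card : ℝ) ≤ M := by
      have : 0 ≤ (1 / K₁) * En y := by positivity
      linarith
    calc (I.card : ℝ) = K₁ * (2:ℝ) ^ (s' * m) * ((1 / (K₁ * (2:ℝ) ^ (s' * m))) * I.card) := by
          field_simp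
      _ ≤ K₁ * (2:ℝ) ^ (s' * m) * M := mul_le_mul_of_nonneg_left h3 (by positivity)
      _ ≤ K₁ * (2:ℝ) ^ (s' * m) * K₁ := mul_le_mul_of_nonneg_left hMK (by positivity)
      _ = K₁ ^ 2 * (2:ℝ) ^ (s' * m) := by ring
  · intro u _
    simp only [μ]
    split_ifs
    · have hle : (2:ℝ) ^ (-((1 - s') * m)) ≤ p (F u) := by
        have : e ^ (1 - s') ≤ p (F u) :=
          Real.rpow_le_rpow he0.le (le_max_right _ _) (by linarith)
        refine le_trans (le_of_eq ?_) this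
        simp only [e]
        rw [← Real.rpow_mul two_pos.le]
        congr 1
        ring
      have hpos : (0:ℝ) < (2:ℝ) ^ (-((1 - s') * m)) := Real.rpow_pos_of_pos two_pos _
      calc 1 / 2 ^ n / p (F u) ≤ 1 / 2 ^ n / (2:ℝ) ^ (-((1 - s') * m)) :=
            div_le_div_of_nonneg_left (by positivity) hpos hle
        _ = (2:ℝ) ^ ((1 - s') * m) / 2 ^ n := by
            rw [Real.rpow_neg two_pos.le]
            field_simp
    · positivity
  · intro u _ hu
    by_contra hn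
    exact hu (by simp only [μ]; rw [if_neg hn])
  · rw [← hEny]
    calc En y ≤ K₁ * M := hEnM
      _ ≤ K₁ * K₁ := mul_le_mul_of_nonneg_left hMK hK₁p.le
      _ = K₁ ^ 2 := by ring

end Pool.Agent.H15.Dim
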