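import Pool.Agent.H15.DimA

set_option autoImplicit false

/-!
Helper file for MP_d9d12d_lc: weights of sets of strings.
-/

namespace Pool.Agent.H15.Dim

open Set ENNReal

/-- the weight `2^{-s|u|}` of a string -/
noncomputable def c (s : ℝ) (u : List Bool) : ℝ≥0∞ := ENNReal.ofReal ((2:ℝ) ^ (-(s * u.length)))

/-- the total weight of a set of strings -/
noncomputable def om (s : ℝ) (T : Set (List Bool)) : ℝ≥0∞ := ∑' u : List Bool, T.indicator (c s) u

def der (u : List Bool) (T : Set (List Bool)) : Set (List Bool) := {v | u ++ v ∈ T}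

def Alive (T : Set (List Bool)) (u : List Bool) : Prop := ∀ τ ∈ T, ¬ τ <+: u

theorem c_nil (s : ℝ) : c s [] = 1 := by simp [c]

theorem c_append (s : ℝ) (u v : List Bool) : c s (u ++ v) = c s u * c s v := by
  unfold c
  rw [← ENNReal.ofReal_mul (Real.rpow_pos_of_pos two_pos _).le, ← Real.rpow_add two_pos]
  congr 2
  rw [List.length_append]
  push_cast
  ring

theorem c_ne_top (s : ℝ) (u : List Bool) : c s u ≠ ∞ := ENNReal.ofReal_ne_top

theorem c_ne_zero (s : ℝ) (u : List Bool) : c s u ≠ 0 := by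
  unfold c
  rw [Ne, ENNReal.ofReal_eq_zero, not_le]
  exact Real.rpow_pos_of_pos two_pos _

theorem om_mono (s : ℝ) {T T' : Set (List Bool)} (h : T ⊆ T') : om s T ≤ om s T' :=
  ENNReal.tsum_le_tsum (fun u => indicator_le_indicator_of_subset h (fun _ => zero_le) u)

theorem le_om (s : ℝ) {T : Set (List Bool)} {u : List Bool} (hu : u ∈ T) : c s u ≤ om s T := by
  unfold om
  refine le_trans (le_of_eq ?_) (ENNReal.le_tsum (f := fun u => T.indicator (c s) u) u)
  exact (indicator_of_mem hu _).symm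

theorem nil_notMem {s : ℝ} {T : Set (List Bool)} (h : om s T < 1) : [] ∉ T := fun hn =>
  absurd (le_om s hn) (by rw [c_nil]; exact not_le.2 h)

theorem sum_le_om (s : ℝ) {T : Set (List Bool)} (S : Finset (List Bool)) (hS : ∀ u ∈ S, u ∈ T) :
    ∑ u ∈ S, c s u ≤ om s T := by
  refine le_trans (le_of_eq ?_) (ENNReal.sum_le_tsum S)
  exact Finset.sum_congr rfl (fun u hu => (indicator_of_mem (hS u hu) _).symm)

theorem om_iUnion_le (s : ℝ) {κ : Type} (T : κ → Set (List Bool)) :
    om s (⋃ k, T k) ≤ ∑' k, om s (T k) := by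
  unfold om
  rw [ENNReal.tsum_comm]
  refine ENNReal.tsum_le_tsum (fun u => ?_)
  by_cases h : u ∈ ⋃ k, T k
  · obtain ⟨k, hk⟩ := mem_iUnion.1 h
    rw [indicator_of_mem h]
    refine le_trans (le_of_eq ?_) (ENNReal.le_tsum k)
    rw [indicator_of_mem hk]
  · rw [indicator_of_notMem h]; exact zero_le

theorem om_union_le (s : ℝ) (T T' : Set (List Bool)) : om s (T ∪ T') ≤ om s T + om s T' := by
  unfold om
  rw [← ENNReal.tsum_add]
  refine ENNReal.tsum_le_tsum (fun u => ?_)
  by_cases h : u ∈ T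
  · rw [indicator_of_mem (show u ∈ T ∪ T' from Or.inl h), indicator_of_mem h]; exact le_self_add
  · by_cases h' : u ∈ T'
    · rw [indicator_of_mem (show u ∈ T ∪ T' from Or.inr h'), indicator_of_mem h']; exact le_add_self
    · rw [indicator_of_notMem (show u ∉ T ∪ T' from fun hh => hh.elim h h')]; exact zero_le

theorem om_empty (s : ℝ) : om s ∅ = 0 := by simp [om]

theorem om_ext (s : ℝ) (T : Set (List Bool)) (u : List Bool) :
    om s {τ | τ ∈ T ∧ u <+: τ} = c s u * om s (der u T) := by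
  unfold om
  rw [← ENNReal.tsum_mul_left]
  have hinj : Function.Injective (fun v : List Bool => u ++ v) := fun a b h =>
    List.append_cancel_left h
  rw [← hinj.tsum_eq]
  · refine tsum_congr (fun v => ?_)
    by_cases h : u ++ v ∈ T
    · rw [indicator_of_mem (show u ++ v ∈ {τ | τ ∈ T ∧ u <+: τ} from ⟨h, List.prefix_append _ _⟩),
        indicator_of_mem (show v ∈ der u T from h), c_append]
    · rw [indicator_of_notMem (show u ++ v ∉ {τ | τ ∈ T ∧ u <+: τ} from fun hh => h hh.1),
        indicator_of_notMem (show v ∉ der u T from h), mul_zero]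
  · intro τ hτ
    by_contra hn
    apply hτ
    apply indicator_of_notMem
    rintro ⟨-, w, rfl⟩
    exact hn ⟨w, rfl⟩

theorem om_anti (s : ℝ) (T A : Set (List Bool))
    (hA : ∀ ν ∈ A, ∀ ν' ∈ A, ∀ τ : List Bool, ν <+: τ → ν' <+: τ → ν = ν') :
    ∑' ν, A.indicator (fun ν => om s {τ | τ ∈ T ∧ ν <+: τ}) ν ≤ om s T := by
  have h1 : ∀ ν, A.indicator (fun ν => om s {τ | τ ∈ T ∧ ν <+: τ}) ν =
      ∑' τ, {τ : List Bool | ν ∈ A ∧ τ ∈ T ∧ ν <+: τ}.indicator (c s) τ := by
    intro ν
    by_cases h : ν ∈ A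
    · rw [indicator_of_mem h]
      unfold om
      refine tsum_congr (fun τ => ?_)
      congr 1
      ext τ
      exact ⟨fun hh => ⟨h, hh⟩, fun hh => hh.2⟩
    · rw [indicator_of_notMem h]
      symm
      rw [ENNReal.tsum_eq_zero]
      intro τ
      exact indicator_of_notMem (fun hh => h hh.1) _
  rw [tsum_congr h1, ENNReal.tsum_comm]
  unfold om
  refine ENNReal.tsum_le_tsum (fun τ => ?_)
  by_cases hτ : τ ∈ T
  · rw [indicator_of_mem hτ]
    by_cases hex : ∃ ν ∈ A, ν <+: τ
    · obtain ⟨ν, hν, hντ⟩ := hex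
      rw [tsum_eq_single ν]
      · exact indicator_le_self' (fun _ _ => zero_le) τ
      · intro ν' hν'
        refine indicator_of_notMem (fun hh => hν' ?_) _
        exact hA ν' hh.1 ν hν τ hh.2.2 hντ
    · rw [ENNReal.tsum_eq_zero.2]
      · exact zero_le
      · intro ν
        exact indicator_of_notMem (fun hh => hex ⟨ν, hh.1, hh.2.2⟩) _
  · rw [ENNReal.tsum_eq_zero.2]
    · exact zero_le
    · intro ν
      exact indicator_of_notMem (fun hh => hτ hh.2.1) _

theorem prefix_eq_of_length {a b τ : List Bool} (ha : a <+: τ) (hb : b <+: τ)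
    (h : a.length = b.length) : a = b :=
  (List.prefix_of_prefix_length_le ha hb h.le).eq_of_length h

theorem level_sum (s : ℝ) (T : Set (List Bool)) (n : ℕ) :
    ∑ u ∈ L n, c s u * om s (der u T) ≤ om s T := by
  refine le_trans ?_ (om_anti s T (↑(L n)) ?_)
  · refine le_trans (le_of_eq ?_) (ENNReal.sum_le_tsum (L n))
    refine Finset.sum_congr rfl (fun u hu => ?_)
    rw [indicator_of_mem (Finset.mem_coe.2 hu), om_ext]
  · intro ν hν ν' hν' τ h1 h2
    refine prefix_eq_of_length h1 h2 ?_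
    rw [mem_L.1 (Finset.mem_coe.1 hν), mem_L.1 (Finset.mem_coe.1 hν')]

theorem der_append (u v : List Bool) (T : Set (List Bool)) : der (u ++ v) T = der v (der u T) := by
  ext w
  simp [der, List.append_assoc]

theorem one_step {s : ℝ} {T : Set (List Bool)} :
    ∃ b : Bool, om s (der [b] T) ≤ ENNReal.ofReal ((2:ℝ) ^ (s - 1)) * om s T := by
  have h1 := level_sum s T 1
  have hL : L 1 = {[false], [true]} := by
    ext u
    rw [mem_L, Finset.mem_insert, Finset.mem_singleton, List.length_eq_one_iff]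
    constructor
    · rintro ⟨b, rfl⟩
      cases b <;> simp
    · rintro (rfl | rfl) <;> exact ⟨_, rfl⟩
  rw [hL, Finset.sum_pair (by simp)] at h1
  have hc : ∀ b : Bool, c s [b] = ENNReal.ofReal ((2:ℝ) ^ (-s)) := fun b => by simp [c]
  rw [hc, hc] at h1
  set x₀ := om s (der [false] T)
  set x₁ := om s (der [true] T)
  set d := ENNReal.ofReal ((2:ℝ) ^ (-s))
  have hd : ENNReal.ofReal ((2:ℝ) ^ (s - 1)) * (2 * d) = 1 := by
    have h2 : (2:ℝ≥0∞) = ENNReal.ofReal 2 := by simp
    rw [h2, ← ENNReal.ofReal_mul two_pos.le, ← ENNReal.ofReal_mul (Real.rpow_pos_of_pos two_pos _).le]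
    have : (2:ℝ) ^ (s - 1) * (2 * (2:ℝ) ^ (-s)) = 1 := by
      nth_rewrite 2 [← Real.rpow_one (2:ℝ)]
      rw [← Real.rpow_add two_pos, ← Real.rpow_add two_pos]
      ring_nf
      simp
    rw [this, ENNReal.ofReal_one]
  have key : ∀ x, 2 * (d * x) ≤ om s T → x ≤ ENNReal.ofReal ((2:ℝ) ^ (s - 1)) * om s T := by
    intro x hx
    calc x = (ENNReal.ofReal ((2:ℝ) ^ (s - 1)) * (2 * d)) * x := by rw [hd, one_mul]
      _ = ENNReal.ofReal ((2:ℝ) ^ (s - 1)) * (2 * (d * x)) := by ring
      _ ≤ _ := by gcongr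
  rcases le_total x₀ x₁ with hle | hle
  · refine ⟨false, key x₀ ?_⟩
    calc 2 * (d * x₀) = d * x₀ + d * x₀ := two_mul _
      _ ≤ d * x₀ + d * x₁ := by gcongr
      _ ≤ om s T := h1
  · refine ⟨true, key x₁ ?_⟩
    calc 2 * (d * x₁) = d * x₁ + d * x₁ := two_mul _
      _ ≤ d * x₀ + d * x₁ := by gcongr
      _ ≤ om s T := h1

theorem steps {s : ℝ} (hs : s < 1) {T : Set (List Bool)} (h : om s T < 1) (k : ℕ) :
    ∃ u : List Bool, u.length = k ∧ Alive T u ∧
      om s (der u T) ≤ (ENNReal.ofReal ((2:ℝ) ^ (s - 1))) ^ k ∧ om s (der u T) < 1 := by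
  have hr : ENNReal.ofReal ((2:ℝ) ^ (s - 1)) ≤ 1 := by
    rw [← ENNReal.ofReal_one]
    exact ENNReal.ofReal_le_ofReal (Real.rpow_le_one_of_one_le_of_nonpos one_le_two (by linarith))
  induction k with
  | zero =>
    refine ⟨[], rfl, ?_, ?_, ?_⟩
    · intro τ hτ hpre
      rw [List.prefix_nil] at hpre
      rw [hpre] at hτ
      exact nil_notMem h hτ
    · simpa [der] using h.le
    · simpa [der] using h
  | succ k ih =>
    obtain ⟨u, hu1, hu2, hu3, hu4⟩ := ih
    obtain ⟨b, hb⟩ := one_step (s := s) (T := der u T)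
    have hlt : om s (der (u ++ [b]) T) < 1 := by
      rw [der_append]
      refine lt_of_le_of_lt hb (lt_of_le_of_lt ?_ hu4)
      calc ENNReal.ofReal ((2:ℝ) ^ (s - 1)) * om s (der u T) ≤ 1 * om s (der u T) := by gcongr
        _ = _ := one_mul _
    refine ⟨u ++ [b], by simp [hu1], ?_, ?_, hlt⟩
    · intro τ hτ hpre
      rcases List.prefix_concat_iff.1 hpre with h' | h'
      · refine nil_notMem hlt ?_
        show (u ++ [b]) ++ [] ∈ T
        rw [List.append_nil, ← h']
        exact hτ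
      · exact hu2 τ hτ h'
    · rw [der_append, pow_succ, mul_comm]
      exact hb.trans (by gcongr)

theorem extend {s : ℝ} (hs : s < 1) {T : Set (List Bool)} (h : om s T < 1) (k : ℕ) {ε : ℝ≥0∞}
    (hε : 0 < ε) : ∃ u : List Bool, k ≤ u.length ∧ Alive T u ∧ om s (der u T) < ε ∧
      om s (der u T) < 1 := by
  have hr : ENNReal.ofReal ((2:ℝ) ^ (s - 1)) < 1 := by
    rw [← ENNReal.ofReal_one]
    rw [ENNReal.ofReal_lt_ofReal_iff one_pos]
    exact Real.rpow_lt_one_of_one_lt_of_neg one_lt_two (by linarith)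
  have hlim := ENNReal.tendsto_pow_atTop_nhds_zero_of_lt_one hr
  have := (hlim.eventually (gt_mem_nhds hε)).and (Filter.eventually_ge_atTop k)
  obtain ⟨j, hj1, hj2⟩ := this.exists
  obtain ⟨u, hu1, hu2, hu3, hu4⟩ := steps hs h j
  exact ⟨u, hu1 ▸ hj2, hu2, lt_of_le_of_lt hu3 hj1, hu4⟩

theorem exists_comb (s s' : ℝ) (h0 : 0 < s) (hss : s < s') (h1 : s' < 1) :
    ∃ K : ℝ, 1 ≤ K ∧ ∃ c₀ : ℝ≥0∞, 0 < c₀ ∧ c₀ ≤ 1 ∧
      ∀ (n m : ℕ) (F : List Bool → List Bool), (∀ u ∈ L n, F u ∈ L m) →
        (2 - s') * m ≤ (1 - s) * n →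
        ∃ I ⊆ L m, (I.card : ℝ) ≤ K * (2:ℝ) ^ (s' * m) ∧
          ∀ T, om s T < c₀ → ∃ u ∈ L n, F u ∈ I ∧ Alive T u ∧
            om s (der u T) < ENNReal.ofReal ((2:ℝ) ^ (-((m:ℝ) + 1))) := by
  classical
  obtain ⟨K, hK1, hK⟩ := exists_I s s' h0 hss h1
  have hK0 : 0 < K := by linarith
  refine ⟨K, hK1, ENNReal.ofReal (1 / (32 * K)), ENNReal.ofReal_pos.2 (by positivity), ?_, ?_⟩
  · rw [← ENNReal.ofReal_one]
    refine ENNReal.ofReal_le_ofReal ?_
    rw [div_le_one (by positivity)]
    linarith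
  intro n m F hF hnm
  obtain ⟨I, hI, μ, hcard, hμ0, hμ1, hμI, hM, hE⟩ := hK n m F hF
  refine ⟨I, hI, hcard, ?_⟩
  intro T hT
  by_contra hcon
  push Not at hcon
  have hTtop : om s T ≠ ∞ := (lt_of_lt_of_le hT le_top).ne
  set ω : ℝ := (om s T).toReal with hω
  have hω0 : 0 ≤ ω := ENNReal.toReal_nonneg
  have hωle : ω ≤ 1 / (32 * K) := by
    have := ENNReal.toReal_mono ENNReal.ofReal_ne_top hT.le
    rwa [ENNReal.toReal_ofReal (by positivity)] at this
  set δ : ℝ := (2:ℝ) ^ (-((m:ℝ) + 1)) with hδ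
  have hδ0 : 0 < δ := Real.rpow_pos_of_pos two_pos _
  -- split the mass
  have hsplit : ∀ u ∈ L n, μ u ≤ (∑ j ∈ Finset.range (n+1), ∑ v ∈ (L j).filter (fun v => v ∈ T),
      if v <+: u then μ u else 0) + μ u * ((om s (der u T)).toReal / δ) := by
    intro u hu
    have hulen := mem_L.1 hu
    have hA0 : 0 ≤ ∑ j ∈ Finset.range (n+1), ∑ v ∈ (L j).filter (fun v => v ∈ T),
      if v <+: u then μ u else 0 :=
      Finset.sum_nonneg (fun j _ => Finset.sum_nonneg (fun v _ => by
        split_ifs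
        · exact hμ0 u
        · exact le_rfl))
    have hB0 : 0 ≤ μ u * ((om s (der u T)).toReal / δ) :=
      mul_nonneg (hμ0 u) (div_nonneg ENNReal.toReal_nonneg hδ0.le)
    by_cases hμu : μ u = 0
    · rw [hμu] at hA0 hB0 ⊢
      linarith
    by_cases hal : Alive T u
    · have h2 := hcon u hu (hμI u hu hμu) hal
      have hfin : om s (der u T) ≠ ∞ := by
        intro htop
        have h3 := level_sum s T n
        have h4 : c s u * om s (der u T) ≤ om s T :=
          le_trans (Finset.single_le_sum (f := fun u => c s u * om s (der u T))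
            (fun _ _ => zero_le) hu) h3
        rw [htop, ENNReal.mul_top (c_ne_zero s u)] at h4
        exact hTtop (top_le_iff.1 h4)
      have h5 : δ ≤ (om s (der u T)).toReal := by
        have := ENNReal.toReal_mono hfin h2
        rwa [ENNReal.toReal_ofReal hδ0.le] at this
      have h6 : 1 ≤ (om s (der u T)).toReal / δ := (one_le_div hδ0).2 h5
      nlinarith [hμ0 u]
    · unfold Alive at hal
      push Not at hal
      obtain ⟨τ, hτ, hpre⟩ := hal
      have hlen : τ.length ≤ n := hulen ▸ hpre.length_le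
      have h7 : μ u ≤ ∑ j ∈ Finset.range (n+1), ∑ v ∈ (L j).filter (fun v => v ∈ T),
          if v <+: u then μ u else 0 := by
        have h8 : (∑ v ∈ (L τ.length).filter (fun v => v ∈ T), if v <+: u then μ u else 0) ≤
            ∑ j ∈ Finset.range (n+1), ∑ v ∈ (L j).filter (fun v => v ∈ T),
              if v <+: u then μ u else 0 :=
          Finset.single_le_sum (f := fun j => ∑ v ∈ (L j).filter (fun v => v ∈ T),
              if v <+: u then μ u else 0)
            (fun j _ => Finset.sum_nonneg (fun v _ => by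
              split_ifs
              · exact hμ0 u
              · exact le_rfl)) (Finset.mem_range.2 (Nat.lt_succ_of_le hlen))
        have h9 : (if τ <+: u then μ u else 0) ≤
            ∑ v ∈ (L τ.length).filter (fun v => v ∈ T), if v <+: u then μ u else 0 :=
          Finset.single_le_sum (f := fun v => if v <+: u then μ u else 0)
            (fun v _ => by
              split_ifs
              · exact hμ0 u
              · exact le_rfl) (Finset.mem_filter.2 ⟨mem_L.2 rfl, hτ⟩)
        rw [if_pos hpre] at h9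
        exact h9.trans h8
      linarith
  have hsum := Finset.sum_le_sum hsplit
  rw [Finset.sum_add_distrib] at hsum
  -- first part
  have hpart1 : ∑ u ∈ L n, ∑ j ∈ Finset.range (n+1), ∑ v ∈ (L j).filter (fun v => v ∈ T),
      (if v <+: u then μ u else 0) ≤ 1 / 8 + 2 * K * ω := by
    have e1 : ∑ u ∈ L n, ∑ j ∈ Finset.range (n+1), ∑ v ∈ (L j).filter (fun v => v ∈ T),
        (if v <+: u then μ u else 0) = ∑ j ∈ Finset.range (n+1),
        ∑ v ∈ (L j).filter (fun v => v ∈ T), ∑ u ∈ (L n).filter (fun u => v <+: u), μ u := by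
      rw [Finset.sum_comm]
      refine Finset.sum_congr rfl (fun j _ => ?_)
      rw [Finset.sum_comm]
      refine Finset.sum_congr rfl (fun v _ => ?_)
      rw [Finset.sum_filter]
    rw [e1]
    have e2 : ∀ j ∈ Finset.range (n+1), ∀ v ∈ (L j).filter (fun v => v ∈ T),
        ∑ u ∈ (L n).filter (fun u => v <+: u), μ u ≤
          (1 / (8 * K)) * ((2:ℝ) ^ (s * j) * (∑ u ∈ (L n).filter (fun u => v <+: u), μ u) ^ 2) +
          2 * K * (2:ℝ) ^ (-(s * j)) := by
      intro j _ v _
      set a := ∑ u ∈ (L n).filter (fun u => v <+: u), μ u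
      have hx : (0:ℝ) < (2:ℝ) ^ (s * j) := Real.rpow_pos_of_pos two_pos _
      rw [Real.rpow_neg two_pos.le]
      set x := (2:ℝ) ^ (s * j)
      have : 0 ≤ (x * a - 4 * K) ^ 2 / (8 * K * x) := by positivity
      have h3 : (x * a - 4 * K) ^ 2 / (8 * K * x) =
          (1 / (8 * K)) * (x * a ^ 2) + 2 * K * x⁻¹ - a := by
        field_simp
        ring
      linarith
    calc ∑ j ∈ Finset.range (n+1), ∑ v ∈ (L j).filter (fun v => v ∈ T),
          ∑ u ∈ (L n).filter (fun u => v <+: u), μ u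
        ≤ ∑ j ∈ Finset.range (n+1), ∑ v ∈ (L j).filter (fun v => v ∈ T),
          ((1 / (8 * K)) * ((2:ℝ) ^ (s * j) * (∑ u ∈ (L n).filter (fun u => v <+: u), μ u) ^ 2) +
          2 * K * (2:ℝ) ^ (-(s * j))) :=
          Finset.sum_le_sum (fun j hj => Finset.sum_le_sum (e2 j hj))
      _ = (1 / (8 * K)) * (∑ j ∈ Finset.range (n+1), ∑ v ∈ (L j).filter (fun v => v ∈ T),
          ((2:ℝ) ^ (s * j) * (∑ u ∈ (L n).filter (fun u => v <+: u), μ u) ^ 2)) +
          2 * K * ∑ j ∈ Finset.range (n+1), ∑ v ∈ (L j).filter (fun v => v ∈ T),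
            (2:ℝ) ^ (-(s * j)) := by
          simp only [Finset.sum_add_distrib, ← Finset.mul_sum]
      _ ≤ (1 / (8 * K)) * K + 2 * K * ω := by
          refine add_le_add (mul_le_mul_of_nonneg_left ?_ (by positivity))
            (mul_le_mul_of_nonneg_left ?_ (by positivity))
          · refine le_trans ?_ hE
            refine Finset.sum_le_sum (fun j _ => ?_)
            exact Finset.sum_le_sum_of_subset_of_nonneg (Finset.filter_subset _ _)
              (fun v _ _ => mul_nonneg (Real.rpow_pos_of_pos two_pos _).le (sq_nonneg _))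
          · let S : Finset (List Bool) :=
              (Finset.range (n+1)).biUnion (fun j => (L j).filter (fun v => v ∈ T))
            have h3 : ∑ v ∈ S, c s v ≤ om s T := by
              refine sum_le_om s S (fun v hv => ?_)
              obtain ⟨j, _, hj⟩ := Finset.mem_biUnion.1 hv
              exact (Finset.mem_filter.1 hj).2
            have h4 := ENNReal.toReal_mono hTtop h3
            rw [ENNReal.toReal_sum (fun v _ => c_ne_top s v)] at h4
            refine le_trans (le_of_eq ?_) h4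
            rw [Finset.sum_biUnion]
            · refine Finset.sum_congr rfl (fun j _ => Finset.sum_congr rfl (fun v hv => ?_))
              rw [c, ENNReal.toReal_ofReal (Real.rpow_pos_of_pos two_pos _).le,
                mem_L.1 (Finset.mem_filter.1 hv).1]
            · intro i _ j _ hij
              rw [Function.onFun, Finset.disjoint_left]
              intro v hv hv'
              exact hij ((mem_L.1 (Finset.mem_filter.1 hv).1).symm.trans
                (mem_L.1 (Finset.mem_filter.1 hv').1))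
      _ = 1 / 8 + 2 * K * ω := by
          congr 1
          field_simp
  -- second part
  have hpart2 : ∑ u ∈ L n, μ u * ((om s (der u T)).toReal / δ) ≤ 2 * ω := by
    have hlev := level_sum s T n
    have h3 := ENNReal.toReal_mono hTtop hlev
    have hne : ∀ u ∈ L n, c s u * om s (der u T) ≠ ∞ := by
      intro u hu htop
      have h4 : c s u * om s (der u T) ≤ om s T :=
          le_trans (Finset.single_le_sum (f := fun u => c s u * om s (der u T))
            (fun _ _ => zero_le) hu) hlev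
      rw [htop] at h4
      exact hTtop (top_le_iff.1 h4)
    rw [ENNReal.toReal_sum hne] at h3
    have h5 : ∀ u ∈ L n, (c s u * om s (der u T)).toReal =
        (2:ℝ) ^ (-(s * n)) * (om s (der u T)).toReal := by
      intro u hu
      rw [ENNReal.toReal_mul, c, ENNReal.toReal_ofReal (Real.rpow_pos_of_pos two_pos _).le,
        mem_L.1 hu]
    rw [Finset.sum_congr rfl h5, ← Finset.mul_sum] at h3
    have h6 : ∑ u ∈ L n, (om s (der u T)).toReal ≤ (2:ℝ) ^ (s * n) * ω := by
      have hp : (0:ℝ) < (2:ℝ) ^ (s * n) := Real.rpow_pos_of_pos two_pos _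
      calc ∑ u ∈ L n, (om s (der u T)).toReal = (2:ℝ) ^ (s * n) *
            ((2:ℝ) ^ (-(s * n)) * ∑ u ∈ L n, (om s (der u T)).toReal) := by
              rw [← mul_assoc, ← Real.rpow_add two_pos]; simp
        _ ≤ (2:ℝ) ^ (s * n) * ω := mul_le_mul_of_nonneg_left h3 hp.le
    have h7 : (2:ℝ) ^ ((1 - s') * m) / 2 ^ n * ((2:ℝ) ^ (s * n)) / δ ≤ 2 := by
      rw [hδ, Real.rpow_neg two_pos.le, div_inv_eq_mul, ← Real.rpow_natCast 2 n,
        ← Real.rpow_sub two_pos, ← Real.rpow_add two_pos, ← Real.rpow_add two_pos]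
      calc (2:ℝ) ^ ((1 - s') * m - n + s * n + (m + 1)) ≤ (2:ℝ) ^ (1:ℝ) := by
            refine Real.rpow_le_rpow_of_exponent_le one_le_two ?_
            nlinarith
        _ = 2 := Real.rpow_one 2
    calc ∑ u ∈ L n, μ u * ((om s (der u T)).toReal / δ)
        ≤ ∑ u ∈ L n, (2:ℝ) ^ ((1 - s') * m) / 2 ^ n * ((om s (der u T)).toReal / δ) :=
          Finset.sum_le_sum (fun u hu => mul_le_mul_of_nonneg_right (hμ1 u hu)
            (div_nonneg ENNReal.toReal_nonneg hδ0.le))
      _ = (2:ℝ) ^ ((1 - s') * m) / 2 ^ n / δ * ∑ u ∈ L n, (om s (der u T)).toReal := by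
          rw [Finset.mul_sum]
          refine Finset.sum_congr rfl (fun u _ => ?_)
          ring
      _ ≤ (2:ℝ) ^ ((1 - s') * m) / 2 ^ n / δ * ((2:ℝ) ^ (s * n) * ω) := by
          refine mul_le_mul_of_nonneg_left h6 ?_
          have := Real.rpow_pos_of_pos two_pos ((1 - s') * m)
          positivity
      _ = ((2:ℝ) ^ ((1 - s') * m) / 2 ^ n * ((2:ℝ) ^ (s * n)) / δ) * ω := by ring
      _ ≤ 2 * ω := mul_le_mul_of_nonneg_right h7 hω0
  have hfinal : 1 / 2 ≤ 1 / 8 + 2 * K * ω + 2 * ω := by linarith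
  have h2K : 2 * K * ω ≤ 1 / 16 := by
    calc 2 * K * ω ≤ 2 * K * (1 / (32 * K)) := mul_le_mul_of_nonneg_left hωle (by positivity)
      _ = 1 / 16 := by field_simp; norm_num
  have h2 : 2 * ω ≤ 1 / 16 := by nlinarith
  linarith

end Pool.Agent.H15.Dim
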