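import Pool.Agent.H15.DimB

set_option autoImplicit false

/-!
Helper file for MP_d9d12d_lc: the category notion attached to the conditions `(σ, T)`.
-/

namespace Pool.Agent.H15.Dim

open Set ENNReal

abbrev X : Type := ℕ → Bool

/-- `τ` is an initial segment of `x` -/
def Pfx (τ : List Bool) (x : X) : Prop := ∀ i, ∀ h : i < τ.length, τ[i] = x i

theorem Pfx.mono {τ τ' : List Bool} {x : X} (h : Pfx τ' x) (hτ : τ <+: τ') : Pfx τ x := by
  intro i hi
  obtain ⟨hle, H⟩ := List.prefix_iff_getElem.1 hτ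
  rw [H i hi]
  exact h i (lt_of_lt_of_le hi hle)

theorem Pfx.pfxOf {τ τ' : List Bool} {x : X} (h : Pfx τ x) (h' : Pfx τ' x)
    (hle : τ.length ≤ τ'.length) : τ <+: τ' :=
  List.prefix_iff_getElem.2 ⟨hle, fun i hi => (h i hi).trans (h' i (lt_of_lt_of_le hi hle)).symm⟩

def pre (x : X) (n : ℕ) : List Bool := List.ofFn (fun i : Fin n => x i)

theorem pre_length (x : X) (n : ℕ) : (pre x n).length = n := by simp [pre]

theorem pfx_pre (x : X) (n : ℕ) : Pfx (pre x n) x := by
  intro i hi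
  simp [pre]

theorem pre_mem_L (x : X) (n : ℕ) : pre x n ∈ L n := mem_L.2 (pre_length x n)

theorem isClopen_pfx (τ : List Bool) : IsClopen {x : X | Pfx τ x} := by
  have : {x : X | Pfx τ x} = ⋂ i : Fin τ.length, (fun x : X => x i) ⁻¹' {τ[i]} := by
    ext x
    simp only [mem_iInter, mem_preimage, mem_singleton_iff]
    constructor
    · intro h i
      exact (h i i.2).symm
    · intro h i hi
      exact (h ⟨i, hi⟩).symm
  rw [this]
  exact isClopen_iInter_of_finite (fun i => (isClopen_discrete _).preimage (continuous_apply _))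

/-- the closed set of a condition -/
def P (p : List Bool × Set (List Bool)) : Set X :=
  {x | Pfx p.1 x ∧ ∀ v ∈ p.2, ¬ Pfx (p.1 ++ v) x}

theorem isClosed_P (p : List Bool × Set (List Bool)) : IsClosed (P p) := by
  have : P p = {x | Pfx p.1 x} ∩ ⋂ v ∈ p.2, {x : X | Pfx (p.1 ++ v) x}ᶜ := by
    ext x
    simp [P]
  rw [this]
  refine (isClopen_pfx _).isClosed.inter (isClosed_biInter (fun v _ => ?_))
  exact (isClopen_pfx _).compl.isClosed

theorem P_sub {σ u : List Bool} {T : Set (List Bool)} (hu : Alive T u) :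
    P (σ ++ u, der u T) ⊆ P (σ, T) := by
  rintro x ⟨hx1, hx2⟩
  refine ⟨hx1.mono (List.prefix_append _ _), ?_⟩
  intro v hv hpv
  rcases le_total v.length u.length with hle | hle
  · have h1 := hpv.pfxOf hx1 (by simp only [List.length_append]; omega)
    exact hu v hv ((List.prefix_append_right_inj σ).1 h1)
  · have h1 := hx1.pfxOf hpv (by simp only [List.length_append]; omega)
    obtain ⟨w, rfl⟩ := (List.prefix_append_right_inj σ).1 h1
    refine hx2 w hv ?_
    show Pfx ((σ ++ u) ++ w) x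
    rw [List.append_assoc]
    exact hpv

theorem P_mono {σ : List Bool} {T T' : Set (List Bool)} (h : T ⊆ T') : P (σ, T') ⊆ P (σ, T) :=
  fun _ hx => ⟨hx.1, fun v hv => hx.2 v (h hv)⟩

def extendByFalse (τ : List Bool) : X := fun i => if h : i < τ.length then τ[i] else false

theorem pfx_extend (τ : List Bool) : Pfx τ (extendByFalse τ) := by
  intro i hi
  simp [extendByFalse, hi]

variable {s : ℝ}

/-- conditions -/
def Cond (s : ℝ) (p : List Bool × Set (List Bool)) : Prop := om s p.2 < 1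

theorem P_nonempty (hs : s < 1) {p : List Bool × Set (List Bool)} (hp : Cond s p) :
    (P p).Nonempty := by
  obtain ⟨σ, T⟩ := p
  let Q : ℕ → Set X := fun k => {x | Pfx σ x} ∩ ⋂ v ∈ {v | v ∈ T ∧ v.length ≤ k},
    {x : X | Pfx (σ ++ v) x}ᶜ
  have hQc : ∀ k, IsClosed (Q k) := fun k =>
    (isClopen_pfx _).isClosed.inter (isClosed_biInter (fun v _ => (isClopen_pfx _).compl.isClosed))
  have hne : (⋂ k, Q k).Nonempty := by
    refine IsCompact.nonempty_iInter_of_sequence_nonempty_isCompact_isClosed Q ?_ ?_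
      (hQc 0).isCompact hQc
    · intro k x hx
      refine ⟨hx.1, ?_⟩
      have h2 := hx.2
      simp only [mem_iInter] at h2 ⊢
      exact fun v hv => h2 v ⟨hv.1, hv.2.trans (Nat.le_succ k)⟩
    · intro k
      obtain ⟨u, hu1, hu2, -, -⟩ := steps hs hp k
      refine ⟨extendByFalse (σ ++ u), (pfx_extend _).mono (List.prefix_append _ _), ?_⟩
      simp only [mem_iInter]
      rintro v ⟨hv, hvk⟩ hpv
      have hpv' : Pfx (σ ++ v) (extendByFalse (σ ++ u)) := hpv
      have h1 := hpv'.pfxOf (pfx_extend _) (by simp only [List.length_append]; omega)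
      exact hu2 v hv ((List.prefix_append_right_inj σ).1 h1)
  obtain ⟨x, hx⟩ := hne
  rw [mem_iInter] at hx
  refine ⟨x, (hx 0).1, fun v hv hpv => ?_⟩
  have h2 := (hx v.length).2
  simp only [mem_iInter] at h2
  exact h2 v ⟨hv, le_rfl⟩ hpv

theorem cond_ext (hs : s < 1) {p : List Bool × Set (List Bool)} (hp : Cond s p) (k : ℕ)
    {ε : ℝ≥0∞} (hε : 0 < ε) : ∃ σ T, k ≤ σ.length ∧ om s T < ε ∧ Cond s (σ, T) ∧
      P (σ, T) ⊆ P p ∧ p.1 <+: σ := by
  obtain ⟨σ, T⟩ := p
  obtain ⟨u, h1, h2, h3, h4⟩ := extend hs hp k hε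
  exact ⟨σ ++ u, der u T, by simp only [List.length_append]; omega, h3, h4, P_sub h2,
    List.prefix_append _ _⟩

/-- nowhere dense sets -/
def ND (s : ℝ) (A : Set X) : Prop :=
  ∀ p, Cond s p → ∃ q, Cond s q ∧ P q ⊆ P p ∧ Disjoint (P q) A

/-- small sets -/
def Sm (s : ℝ) (A : Set X) : Prop := ∃ B : ℕ → Set X, (∀ n, ND s (B n)) ∧ A ⊆ ⋃ n, B n

theorem ND.sm {A : Set X} (h : ND s A) : Sm s A :=
  ⟨fun _ => A, fun _ => h, fun _ hx => mem_iUnion.2 ⟨0, hx⟩⟩

theorem Sm.mono {A B : Set X} (h : Sm s B) (hAB : A ⊆ B) : Sm s A := by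
  obtain ⟨C, h1, h2⟩ := h
  exact ⟨C, h1, hAB.trans h2⟩

theorem sm_empty : Sm s ∅ :=
  ND.sm (fun p hp => ⟨p, hp, le_rfl, disjoint_empty _⟩)

theorem Sm.iUnion {κ : Type} [Countable κ] {A : κ → Set X} (h : ∀ k, Sm s (A k)) :
    Sm s (⋃ k, A k) := by
  rcases isEmpty_or_nonempty κ with hκ | hκ
  · exact sm_empty.mono (by rw [iUnion_of_empty])
  · obtain ⟨e, he⟩ := exists_surjective_nat κ
    choose B hB1 hB2 using h
    refine ⟨fun n => B (e (Nat.unpair n).1) (Nat.unpair n).2, fun n => hB1 _ _, ?_⟩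
    intro x hx
    obtain ⟨k, hk⟩ := mem_iUnion.1 hx
    obtain ⟨j, rfl⟩ := he k
    obtain ⟨i, hi⟩ := mem_iUnion.1 (hB2 _ hk)
    exact mem_iUnion.2 ⟨Nat.pair j i, by simpa using hi⟩

theorem Sm.union {A B : Set X} (hA : Sm s A) (hB : Sm s B) : Sm s (A ∪ B) := by
  have : A ∪ B = ⋃ b : Bool, (if b then A else B) := by
    ext x
    simp only [mem_union, mem_iUnion, Bool.exists_bool]
    simp [or_comm]
  rw [this]
  refine Sm.iUnion (fun b => ?_)
  cases b
  · simpa using hB
  · simpa using hA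

theorem baire (hs : s < 1) {p : List Bool × Set (List Bool)} (hp : Cond s p) {A : Set X}
    (hA : Sm s A) : ∃ x ∈ P p, x ∉ A := by
  obtain ⟨B, hB, hAB⟩ := hA
  choose! q hq1 hq2 hq3 using hB
  let r : ℕ → List Bool × Set (List Bool) := fun n => Nat.rec (q 0 p) (fun k rk => q (k+1) rk) n
  have hr : ∀ n, Cond s (r n) := by
    intro n
    induction n with
    | zero => exact hq1 0 p hp
    | succ n ih => exact hq1 (n+1) _ ih
  have hne : (⋂ n, P (r n)).Nonempty := by
    refine IsCompact.nonempty_iInter_of_sequence_nonempty_isCompact_isClosed (fun n => P (r n))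
      (fun n => hq2 (n+1) _ (hr n)) (fun n => P_nonempty hs (hr n)) (isClosed_P _).isCompact
      (fun n => isClosed_P _)
  obtain ⟨x, hx⟩ := hne
  rw [mem_iInter] at hx
  refine ⟨x, hq2 0 p hp (hx 0), fun hxA => ?_⟩
  obtain ⟨n, hn⟩ := mem_iUnion.1 (hAB hxA)
  rcases n with _ | n
  · exact Set.disjoint_left.1 (hq3 0 p hp) (hx 0) hn
  · exact Set.disjoint_left.1 (hq3 (n+1) _ (hr n)) (hx (n+1)) hn

theorem half_pos' : (0:ℝ≥0∞) < 1/2 := by simp

/-- Localisation (Banach category theorem for these conditions). -/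
theorem loc (hs : s < 1) {A : Set X}
    (h : ∀ p, Cond s p → ∃ q, Cond s q ∧ P q ⊆ P p ∧ Sm s (P q ∩ A)) : Sm s A := by
  classical
  let R : List Bool → Set X := fun σ =>
    if H : ∃ T, om s T < 1/2 ∧ Sm s (P (σ, T) ∩ A) then P (σ, H.choose) else ∅
  have hR : ∀ σ, Sm s (R σ ∩ A) := by
    intro σ
    by_cases H : ∃ T, om s T < 1/2 ∧ Sm s (P (σ, T) ∩ A)
    · simp only [R, dif_pos H]
      exact H.choose_spec.2
    · simp only [R, dif_neg H]
      exact sm_empty.mono (by simp)
  have hND : ND s (⋃ σ, R σ)ᶜ := by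
    intro p hp
    obtain ⟨q, hq1, hq2, hq3⟩ := h p hp
    obtain ⟨σ, T, -, hT, hc, hsub, -⟩ := cond_ext hs hq1 0 half_pos'
    have H : ∃ T, om s T < 1/2 ∧ Sm s (P (σ, T) ∩ A) :=
      ⟨T, hT, hq3.mono (inter_subset_inter_left _ hsub)⟩
    have hRσ : R σ = P (σ, H.choose) := by simp only [R, dif_pos H]
    refine ⟨(σ, T ∪ H.choose), ?_, ?_, ?_⟩
    · refine lt_of_le_of_lt (om_union_le s _ _) ?_
      have := ENNReal.add_lt_add hT H.choose_spec.1
      rwa [ENNReal.add_halves] at this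
    · exact (P_mono subset_union_left).trans (hsub.trans hq2)
    · rw [Set.disjoint_left]
      intro x hx hx'
      apply hx'
      refine mem_iUnion.2 ⟨σ, ?_⟩
      rw [hRσ]
      exact P_mono subset_union_right hx
  refine Sm.mono (Sm.union (Sm.iUnion hR) hND.sm) ?_
  intro x hx
  by_cases hx' : x ∈ ⋃ σ, R σ
  · obtain ⟨σ, hσ⟩ := mem_iUnion.1 hx'
    exact Or.inl (mem_iUnion.2 ⟨σ, hσ, hx⟩)
  · exact Or.inr hx'

/-- Two conditions either have a common extension or one of them can be extended away from the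
other. -/
theorem comp (hs : s < 1) {p r : List Bool × Set (List Bool)} (hp : Cond s p) (hr : Cond s r) :
    (∃ q, Cond s q ∧ P q ⊆ P p ∧ P q ⊆ P r) ∨
      (∃ q, Cond s q ∧ P q ⊆ P p ∧ Disjoint (P q) (P r)) := by
  obtain ⟨σ, T, hlen, -, hc, hsub, -⟩ := cond_ext hs hp r.1.length one_pos
  obtain ⟨σr, Tr⟩ := r
  simp only at hlen
  -- it suffices to work below (σ, T)
  suffices H : (∃ q, Cond s q ∧ P q ⊆ P (σ, T) ∧ P q ⊆ P (σr, Tr)) ∨
      (∃ q, Cond s q ∧ P q ⊆ P (σ, T) ∧ Disjoint (P q) (P (σr, Tr))) by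
    rcases H with ⟨q, h1, h2, h3⟩ | ⟨q, h1, h2, h3⟩
    · exact Or.inl ⟨q, h1, h2.trans hsub, h3⟩
    · exact Or.inr ⟨q, h1, h2.trans hsub, h3⟩
  by_cases hpre : σr <+: σ
  swap
  · right
    refine ⟨(σ, T), hc, le_rfl, ?_⟩
    rw [Set.disjoint_left]
    intro x hx hx'
    exact hpre (hx'.1.pfxOf hx.1 hlen)
  obtain ⟨w, rfl⟩ := hpre
  by_cases hw : ∃ τ ∈ Tr, τ <+: w
  · obtain ⟨τ, hτ, hτw⟩ := hw
    right
    refine ⟨(σr ++ w, T), hc, le_rfl, ?_⟩
    rw [Set.disjoint_left]
    intro x hx hx'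
    exact hx'.2 τ hτ (hx.1.mono ((List.prefix_append_right_inj σr).2 hτw))
  push Not at hw
  by_cases ha : ∃ u, Alive T u ∧ om s (der u T) < 1 ∧ ∃ τ ∈ der w Tr, τ <+: u
  · obtain ⟨u, hu1, hu2, τ, hτ, hτu⟩ := ha
    right
    refine ⟨(σr ++ w ++ u, der u T), hu2, P_sub hu1, ?_⟩
    rw [Set.disjoint_left]
    intro x hx hx'
    refine hx'.2 (w ++ τ) hτ ?_
    rw [← List.append_assoc]
    exact hx.1.mono ((List.prefix_append_right_inj (σr ++ w)).2 hτu)
  push Not at ha
  left
  let Fr : Set (List Bool) := {ν | 1 ≤ om s (der ν T) ∧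
    ∀ ν', ν' <+: ν → ν' ≠ ν → om s (der ν' T) < 1}
  have hFr : om s Fr < 1 := by
    refine lt_of_le_of_lt ?_ hc
    refine le_trans ?_ (om_anti s T Fr ?_)
    · unfold om
      refine ENNReal.tsum_le_tsum (fun ν => ?_)
      by_cases hν : ν ∈ Fr
      · rw [indicator_of_mem hν, indicator_of_mem hν]
        have := om_ext s T ν
        unfold om at this
        rw [this]
        calc c s ν = c s ν * 1 := (mul_one _).symm
          _ ≤ c s ν * om s (der ν T) := by
            gcongr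
            exact hν.1
      · rw [indicator_of_notMem hν]; exact zero_le
    · intro ν hν ν' hν' τ h1 h2
      by_contra hne
      rcases le_total ν.length ν'.length with hle | hle
      · exact absurd hν.1 (not_le.2 (hν'.2 ν (List.prefix_of_prefix_length_le h1 h2 hle) hne))
      · exact absurd hν'.1 (not_le.2 (hν.2 ν' (List.prefix_of_prefix_length_le h2 h1 hle)
          (Ne.symm hne)))
  have key : ∀ x ∈ P (σr ++ w, Fr), ∀ u, Pfx (σr ++ w ++ u) x → om s (der u T) < 1 := by
    intro x hx u hu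
    by_contra hge
    rw [not_lt] at hge
    -- the first failure
    have hex : ∃ n, 1 ≤ om s (der (u.take n) T) := ⟨u.length, by rwa [List.take_length]⟩
    classical
    let n := Nat.find hex
    have hn : 1 ≤ om s (der (u.take n) T) := Nat.find_spec hex
    have hmin : ∀ k < n, om s (der (u.take k) T) < 1 := fun k hk =>
      not_le.1 (Nat.find_min hex hk)
    have hFrn : u.take n ∈ Fr := by
      refine ⟨hn, ?_⟩
      intro ν' hν' hne
      have h1 : ν' = u.take ν'.length :=
        List.prefix_iff_eq_take.1 (hν'.trans (List.take_prefix n u))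
      have h2 : ν'.length < (u.take n).length := by
        rcases hν'.length_le.lt_or_eq with h | h
        · exact h
        · exact absurd (hν'.eq_of_length h) hne
      have h3 : ν'.length < n := lt_of_lt_of_le h2 (by rw [List.length_take]; exact min_le_left _ _)
      rw [h1]
      exact hmin _ h3
    exact hx.2 _ hFrn (hu.mono ((List.prefix_append_right_inj (σr ++ w)).2 (List.take_prefix n u)))
  have key2 : ∀ x ∈ P (σr ++ w, Fr), ∀ v ∈ T, ¬ Pfx (σr ++ w ++ v) x := by
    intro x hx v hv hpv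
    have := key x hx v hpv
    exact nil_notMem this (by simpa [der] using hv)
  refine ⟨(σr ++ w, Fr), hFr, ?_, ?_⟩
  · intro x hx
    exact ⟨hx.1, key2 x hx⟩
  · intro x hx
    refine ⟨hx.1.mono (List.prefix_append _ _), ?_⟩
    intro v hv hpv
    rcases le_total v.length w.length with hle | hle
    · have h1 := hpv.pfxOf hx.1 (by simp only [List.length_append]; omega)
      exact hw v hv ((List.prefix_append_right_inj σr).1 h1)
    · have h1 := hx.1.pfxOf hpv (by simp only [List.length_append]; omega)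
      obtain ⟨v', rfl⟩ := (List.prefix_append_right_inj σr).1 h1
      rw [← List.append_assoc] at hpv
      have hal : Alive T v' := by
        intro τ hτ hτv
        exact key2 x hx τ hτ (hpv.mono ((List.prefix_append_right_inj (σr ++ w)).2 hτv))
      exact ha v' hal (key x hx v' hpv) v' hv (List.prefix_refl _)

/-- sets with the Baire property for these conditions -/
def BP (s : ℝ) (B : Set X) : Prop :=
  ∀ p, Cond s p → ∃ q, Cond s q ∧ P q ⊆ P p ∧ (Sm s (P q ∩ B) ∨ Sm s (P q ∩ Bᶜ))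

theorem BP.compl {B : Set X} (h : BP s B) : BP s Bᶜ := by
  intro p hp
  obtain ⟨q, h1, h2, h3⟩ := h p hp
  exact ⟨q, h1, h2, by rw [compl_compl]; exact h3.symm⟩

theorem BP.empty : BP s ∅ := fun p hp => ⟨p, hp, le_rfl, Or.inl (sm_empty.mono (by simp))⟩

theorem BP.iUnion (hs : s < 1) {B : ℕ → Set X} (h : ∀ n, BP s (B n)) : BP s (⋃ n, B n) := by
  intro p hp
  by_cases H : ∃ q, Cond s q ∧ P q ⊆ P p ∧ ∃ n, Sm s (P q ∩ (B n)ᶜ)
  · obtain ⟨q, h1, h2, n, h3⟩ := H
    refine ⟨q, h1, h2, Or.inr (h3.mono ?_)⟩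
    intro x hx
    exact ⟨hx.1, fun hn => hx.2 (mem_iUnion.2 ⟨n, hn⟩)⟩
  · push Not at H
    refine ⟨p, hp, le_rfl, Or.inl ?_⟩
    rw [inter_iUnion]
    refine Sm.iUnion (fun n => loc hs ?_)
    intro r hr
    rcases comp hs hr hp with ⟨q, h1, h2, h3⟩ | ⟨q, h1, h2, h3⟩
    · obtain ⟨q', g1, g2, g3⟩ := h n q h1
      refine ⟨q', g1, g2.trans h2, ?_⟩
      rcases g3 with g3 | g3
      · exact g3.mono (fun x hx => ⟨hx.1, hx.2.2⟩)
      · exact absurd g3 (H q' g1 (g2.trans h3) n)
    · refine ⟨q, h1, h2, sm_empty.mono ?_⟩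
      rintro x ⟨hx1, hx2, -⟩
      exact Set.disjoint_left.1 h3 hx1 hx2

/-- the σ-algebra of sets with the Baire property -/
@[instance_reducible] def BPalg (hs : s < 1) : MeasurableSpace X where
  MeasurableSet' := BP s
  measurableSet_empty := BP.empty
  measurableSet_compl := fun _ h => h.compl
  measurableSet_iUnion := fun _ h => BP.iUnion hs h

theorem borel_BP (hs : s < 1) {B : Set X} (hB : @MeasurableSet X (borel X) B) : BP s B := by
  have h1 : (MeasurableSpace.pi : MeasurableSpace X) = borel X := BorelSpace.measurable_eq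
  have h2 : (MeasurableSpace.pi : MeasurableSpace X) ≤ BPalg hs := by
    refine iSup_le (fun i => ?_)
    rintro _ ⟨S, -, rfl⟩
    show BP s _
    intro p hp
    obtain ⟨σ, T, hlen, -, hc, hsub, -⟩ := cond_ext hs hp (i+1) one_pos
    refine ⟨(σ, T), hc, hsub, ?_⟩
    by_cases hb : σ[i] ∈ S
    · right
      refine sm_empty.mono ?_
      rintro x ⟨hx1, hx2⟩
      apply hx2
      show x i ∈ S
      rw [← hx1.1 i hlen]
      exact hb
    · left
      refine sm_empty.mono ?_
      rintro x ⟨hx1, hx2⟩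
      apply hb
      rw [hx1.1 i hlen]
      exact hx2
  rw [← h1] at hB
  exact h2 _ hB

end Pool.Agent.H15.Dim
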