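import Mathlib

set_option autoImplicit false

namespace Pool.Agent.H15.Dim

/-- Cantor space `2^ω`: infinite binary sequences. -/
def Cantor : Type := ℕ → Bool

/-- The metric `d(x, y) = 2^{-n}`, where `n` is the least index with `x n ≠ y n` (and `d(x,x) = 0`):
this is Mathlib's `PiNat.metricSpace`, whose distance is `(1/2)^n` with this `n`. -/
noncomputable instance : MetricSpace Cantor := PiNat.metricSpace (E := fun _ : ℕ => Bool)

end Pool.Agent.H15.Dim
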