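import Pool.Agent.H15.DimC
import Pool.Agent.H15.DimDefs

set_option autoImplicit false

/-!
Helper file for MP_d9d12d_lc: covering the image of a function, and Hausdorff dimension.
-/

namespace Pool.Agent.H15.Dim

open Set ENNReal Filter Topology MeasureTheory

theorem nonexc {s : ℝ} (hs : s < 1) (f : X → X) (σ : List Bool) (m : ℕ) :
    ∃ τ ∈ L m, ∀ T, om s T < ENNReal.ofReal ((2:ℝ) ^ (-((m:ℝ) + 1))) →
      ¬ Sm s (P (σ, T) ∩ {x | Pfx τ (f x)}) := by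
  by_contra hcon
  push Not at hcon
  choose! T hT1 hT2 using hcon
  have hcond : Cond s (σ, ⋃ τ : L m, T τ) := by
    show om s (⋃ τ : L m, T τ) < 1
    refine lt_of_le_of_lt (om_iUnion_le s _) ?_
    rw [tsum_fintype]
    have h1 : ∑ τ : L m, om s (T τ) ≤ ∑ τ : L m, ENNReal.ofReal ((2:ℝ) ^ (-((m:ℝ) + 1))) :=
      Finset.sum_le_sum (fun τ _ => (hT1 τ τ.2).le)
    refine lt_of_le_of_lt h1 ?_
    rw [Finset.sum_const, Finset.card_univ, Fintype.card_coe, card_L, nsmul_eq_mul]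
    have h2 : (((2:ℕ) ^ m : ℕ) : ℝ≥0∞) = ENNReal.ofReal ((2:ℝ) ^ m) := by
      rw [ENNReal.ofReal_pow two_pos.le]
      simp
    rw [h2, ← ENNReal.ofReal_mul (by positivity), ← Real.rpow_natCast, ← Real.rpow_add two_pos,
      ← ENNReal.ofReal_one]
    rw [ENNReal.ofReal_lt_ofReal_iff one_pos]
    exact Real.rpow_lt_one_of_one_lt_of_neg one_lt_two (by linarith)
  obtain ⟨x, hx, hxn⟩ := baire hs hcond
    (Sm.iUnion (κ := L m) (A := fun τ => P (σ, T τ) ∩ {x | Pfx τ (f x)}) (fun τ => hT2 τ τ.2))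
  apply hxn
  refine mem_iUnion.2 ⟨⟨pre (f x) m, pre_mem_L _ _⟩, ?_, pfx_pre _ _⟩
  exact P_mono (subset_iUnion (fun τ : L m => T τ) ⟨pre (f x) m, pre_mem_L _ _⟩) hx

theorem om_finset (t : ℝ) (I : Finset (List Bool)) (m : ℕ) (hI : I ⊆ L m) :
    om t (↑I : Set (List Bool)) = ENNReal.ofReal (I.card * (2:ℝ) ^ (-(t * m))) := by
  unfold om
  rw [tsum_eq_sum (s := I)]
  · have : ∀ u ∈ I, (↑I : Set (List Bool)).indicator (c t) u = ENNReal.ofReal ((2:ℝ) ^ (-(t * m))) := by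
      intro u hu
      rw [indicator_of_mem (Finset.mem_coe.2 hu), c, mem_L.1 (hI hu)]
    rw [Finset.sum_congr rfl this, Finset.sum_const, nsmul_eq_mul,
      ENNReal.ofReal_mul (Nat.cast_nonneg _), ENNReal.ofReal_natCast]
  · intro u hu
    exact indicator_of_notMem (fun h => hu (Finset.mem_coe.1 h)) _

theorem exists_W {s t : ℝ} (h0 : 0 < s) (h1 : s < 1) (hst : s < t) :
    ∃ c₀ : ℝ≥0∞, 0 < c₀ ∧ ∀ (f : X → X) (σ : List Bool) (ε : ℝ≥0∞), 0 < ε →
      ∃ I : Finset (List Bool), om t (↑I : Set (List Bool)) ≤ ε ∧ ∀ T, om s T < c₀ →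
        ¬ Sm s (P (σ, T) ∩ {x | ∃ τ ∈ I, Pfx τ (f x)}) := by
  have hlt : s < min t 1 := lt_min hst h1
  set s' : ℝ := (s + min t 1) / 2 with hs'
  have hss : s < s' := by rw [hs']; linarith
  have hs't : s' < t := by
    have := min_le_left t 1
    rw [hs']; linarith
  have hs'1 : s' < 1 := by
    have := min_le_right t 1
    rw [hs']; linarith
  obtain ⟨K, hK1, c₀, hc0, -, H⟩ := exists_comb s s' h0 hss hs'1
  refine ⟨c₀, hc0, ?_⟩
  intro f σ ε hε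
  -- choose m
  have hr0 : (0:ℝ) < (2:ℝ) ^ (s' - t) := Real.rpow_pos_of_pos two_pos _
  have hr1 : (2:ℝ) ^ (s' - t) < 1 := Real.rpow_lt_one_of_one_lt_of_neg one_lt_two (by linarith)
  have hlim : Tendsto (fun m : ℕ => ENNReal.ofReal (K * ((2:ℝ) ^ (s' - t)) ^ m)) atTop (𝓝 0) := by
    have := (tendsto_pow_atTop_nhds_zero_of_lt_one hr0.le hr1).const_mul K
    rw [mul_zero] at this
    have h2 := ENNReal.tendsto_ofReal this
    rwa [ENNReal.ofReal_zero] at h2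
  obtain ⟨m, hm⟩ := (hlim.eventually (gt_mem_nhds hε)).exists
  obtain ⟨n, hn⟩ := exists_nat_ge ((2 - s') * m / (1 - s))
  have hnm : (2 - s') * m ≤ (1 - s) * n := by
    rw [div_le_iff₀ (by linarith)] at hn
    linarith
  choose F hF1 hF2 using fun u => nonexc h1 f (σ ++ u) m
  obtain ⟨I, hI, hcard, hT⟩ := H n m F (fun u _ => hF1 u) hnm
  refine ⟨I, ?_, ?_⟩
  · rw [om_finset t I m hI]
    refine le_trans (ENNReal.ofReal_le_ofReal ?_) hm.le
    calc (I.card : ℝ) * (2:ℝ) ^ (-(t * m)) ≤ (K * (2:ℝ) ^ (s' * m)) * (2:ℝ) ^ (-(t * m)) :=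
          mul_le_mul_of_nonneg_right hcard (Real.rpow_pos_of_pos two_pos _).le
      _ = K * ((2:ℝ) ^ (s' - t)) ^ m := by
          rw [mul_assoc, ← Real.rpow_add two_pos, ← Real.rpow_natCast, ← Real.rpow_mul two_pos.le]
          congr 2
          ring
  · intro T hTc hsm
    obtain ⟨u, hu, hFu, hal, hd⟩ := hT T hTc
    refine hF2 u (der u T) hd (hsm.mono ?_)
    rintro x ⟨hx1, hx2⟩
    exact ⟨P_sub hal hx1, F u, hFu, hx2⟩

theorem exists_cover {s t : ℝ} (h0 : 0 < s) (h1 : s < 1) (hst : s < t) (f : X → X)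
    (hf : ∀ U : Set X, IsOpen U → @MeasurableSet X (borel X) (f ⁻¹' U)) {ε : ℝ≥0∞} (hε : ε ≠ 0) :
    ∃ W : Set (List Bool), om t W ≤ ε ∧ Sm s {x | ∀ τ ∈ W, ¬ Pfx τ (f x)} := by
  obtain ⟨c₀, hc0, H⟩ := exists_W h0 h1 hst
  obtain ⟨ε', hε'1, hε'2⟩ := ENNReal.exists_pos_sum_of_countable hε (List Bool)
  choose I hI1 hI2 using fun σ => H f σ (ε' σ) (by exact_mod_cast hε'1 σ)
  refine ⟨⋃ σ, ↑(I σ), ?_, ?_⟩
  · exact (om_iUnion_le t _).trans ((ENNReal.tsum_le_tsum hI1).trans hε'2.le)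
  · set W : Set (List Bool) := ⋃ σ, ↑(I σ) with hW
    let B : Set X := {x | ∃ τ ∈ W, Pfx τ (f x)}
    have hBB : BP s B := by
      apply borel_BP h1
      have : B = f ⁻¹' (⋃ τ ∈ W, {y | Pfx τ y}) := by
        ext x
        simp [B]
      rw [this]
      apply hf
      exact isOpen_biUnion (fun τ _ => (isClopen_pfx τ).isOpen)
    have hA : {x | ∀ τ ∈ W, ¬ Pfx τ (f x)} = Bᶜ := by
      ext x
      simp [B]
    rw [hA]
    refine loc h1 ?_
    intro p hp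
    obtain ⟨q, g1, g2, g3 | g3⟩ := hBB p hp
    · exfalso
      obtain ⟨σ, T, -, hT, hc, hsub, -⟩ := cond_ext h1 g1 0 hc0
      refine hI2 σ T hT (g3.mono ?_)
      rintro x ⟨hx1, τ, hτ, hx2⟩
      exact ⟨hsub hx1, τ, mem_iUnion.2 ⟨σ, Finset.mem_coe.2 hτ⟩, hx2⟩
    · exact ⟨q, g1, g2, g3⟩

/-! ### Hausdorff dimension in Cantor space -/

noncomputable local instance instMSCantor : MeasurableSpace Cantor := borel Cantor

local instance instBSCantor : BorelSpace Cantor := ⟨rfl⟩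

theorem cantor_dist (x y : Cantor) (n : ℕ) :
    (∀ i < n, (y : ℕ → Bool) i = x i) ↔ dist y x ≤ (1 / 2 : ℝ) ^ n :=
  PiNat.mem_cylinder_iff_dist_le (E := fun _ : ℕ => Bool) (x := x) (y := y) (n := n)

theorem pfx_dist {τ : List Bool} {x y : Cantor} (hx : Pfx τ x) (hy : Pfx τ y) :
    dist y x ≤ (1 / 2 : ℝ) ^ τ.length := by
  rw [← cantor_dist]
  intro i hi
  rw [← hy i hi, ← hx i hi]

theorem ediam_pfx (τ : List Bool) : Metric.ediam {y : Cantor | Pfx τ y} ≤ c 1 τ := by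
  refine Metric.ediam_le (fun x hx y hy => ?_)
  rw [edist_dist]
  unfold c
  refine ENNReal.ofReal_le_ofReal ((pfx_dist hy hx).trans (le_of_eq ?_))
  rw [one_mul, Real.rpow_neg two_pos.le, Real.rpow_natCast, one_div, inv_pow]

theorem c_rpow (t : ℝ) (τ : List Bool) (ht : 0 ≤ t) : (c 1 τ) ^ t = c t τ := by
  unfold c
  rw [ENNReal.ofReal_rpow_of_pos (Real.rpow_pos_of_pos two_pos _), ← Real.rpow_mul two_pos.le]
  congr 2
  ring

theorem dimH_le_of_covers {t : NNReal} (ht : 0 < t) {S : Set Cantor}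
    (h : ∀ ε : ℝ≥0∞, ε ≠ 0 → ∃ W, om t W ≤ ε ∧ ∀ y ∈ S, ∃ τ ∈ W, Pfx τ y) : dimH S ≤ t := by
  classical
  have ht' : (0:ℝ) < t := by exact_mod_cast ht
  have hz : μH[(t:ℝ)] S = 0 := by
    let ε : ℕ → ℝ≥0∞ := fun n => ((n:ℝ≥0∞) + 1)⁻¹
    have hε0 : ∀ n, ε n ≠ 0 := fun n => ENNReal.inv_ne_zero.2 (by finiteness)
    have hεlim : Tendsto ε atTop (𝓝 0) := by
      have h2 : Tendsto (fun n : ℕ => ((n + 1 : ℕ) : ℝ≥0∞)⁻¹) atTop (𝓝 0) :=
        ENNReal.tendsto_inv_nat_nhds_zero.comp (tendsto_add_atTop_nat 1)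
      simpa [ε] using h2
    choose W hW1 hW2 using fun n => h (ε n) (hε0 n)
    let U : ℕ → List Bool → Set Cantor := fun n τ => if τ ∈ W n then {y | Pfx τ y} else ∅
    have hUd : ∀ n τ, Metric.ediam (U n τ) ^ (t:ℝ) ≤ (W n).indicator (c t) τ := by
      intro n τ
      by_cases hτ : τ ∈ W n
      · rw [indicator_of_mem hτ]
        simp only [U, if_pos hτ]
        rw [← c_rpow t τ ht'.le]
        exact ENNReal.rpow_le_rpow (ediam_pfx τ) ht'.le
      · rw [indicator_of_notMem hτ]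
        simp only [U, if_neg hτ]
        simp [ht']
    have hle := Measure.hausdorffMeasure_le_liminf_tsum (t:ℝ) S (l := atTop)
      (fun n => (ε n) ^ (1 / (t:ℝ))) ?_ U ?_ ?_
    · refine le_antisymm (hle.trans ?_) zero_le
      have h3 : ∀ n, ∑' τ, Metric.ediam (U n τ) ^ (t:ℝ) ≤ ε n := fun n =>
        (ENNReal.tsum_le_tsum (hUd n)).trans (hW1 n)
      calc liminf (fun n => ∑' τ, Metric.ediam (U n τ) ^ (t:ℝ)) atTop ≤ liminf ε atTop :=
            liminf_le_liminf (Eventually.of_forall h3)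
        _ = 0 := hεlim.liminf_eq
    · have := (ENNReal.continuous_rpow_const (y := 1 / (t:ℝ))).tendsto 0
      rw [ENNReal.zero_rpow_of_pos (by positivity)] at this
      exact this.comp hεlim
    · refine Eventually.of_forall (fun n τ => ?_)
      have h3 : Metric.ediam (U n τ) ^ (t:ℝ) ≤ ε n :=
        (hUd n τ).trans ((ENNReal.le_tsum τ).trans (hW1 n))
      have h4 := ENNReal.rpow_le_rpow h3 (by positivity : 0 ≤ 1 / (t:ℝ))
      rw [← ENNReal.rpow_mul, mul_one_div_cancel ht'.ne', ENNReal.rpow_one] at h4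
      exact h4
    · refine Eventually.of_forall (fun n y hy => ?_)
      obtain ⟨τ, hτ, hpy⟩ := hW2 n y hy
      refine mem_iUnion.2 ⟨τ, ?_⟩
      simp only [U, if_pos hτ]
      exact hpy
  refine dimH_le_of_hausdorffMeasure_ne_top ?_
  rw [hz]
  exact ENNReal.zero_ne_top

theorem exists_string {s s₁ : ℝ} (hs0 : 0 < s) (hs1 : s ≤ 1) (h01 : 0 ≤ s₁) (hss : s₁ ≤ s)
    (U : Set Cantor) (hU : Metric.ediam U ≤ 1) (hne : U.Nonempty) {η : ℝ≥0∞} (hη : η ≠ 0) :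
    ∃ τ : List Bool, (∀ y ∈ U, Pfx τ y) ∧ c s τ ≤ 2 * Metric.ediam U ^ s₁ + η := by
  obtain ⟨x₀, hx⟩ := hne
  obtain ⟨x, hxx⟩ : ∃ x : X, x = x₀ := ⟨x₀, rfl⟩
  have hmem : ∀ k : ℕ, Metric.ediam U ≤ ENNReal.ofReal ((1/2:ℝ) ^ k) → ∀ y ∈ U, Pfx (pre x k) y := by
    intro k hk y hy
    have h1 : edist y x₀ ≤ ENNReal.ofReal ((1/2:ℝ) ^ k) :=
      (Metric.edist_le_ediam_of_mem hy hx).trans hk
    rw [edist_dist, ENNReal.ofReal_le_ofReal_iff (by positivity), ← cantor_dist] at h1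
    intro i hi
    rw [pfx_pre x k i hi]
    rw [pre_length] at hi
    exact (congrFun hxx i).trans (h1 i hi).symm
  rcases eq_or_ne (Metric.ediam U) 0 with hD | hD
  · -- diameter zero
    have hr : ENNReal.ofReal ((2:ℝ) ^ (-s)) < 1 := by
      rw [← ENNReal.ofReal_one, ENNReal.ofReal_lt_ofReal_iff one_pos]
      exact Real.rpow_lt_one_of_one_lt_of_neg one_lt_two (by linarith)
    have hlim := ENNReal.tendsto_pow_atTop_nhds_zero_of_lt_one hr
    obtain ⟨k, hk⟩ := (hlim.eventually (gt_mem_nhds (pos_iff_ne_zero.2 hη))).exists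
    refine ⟨pre x k, hmem k (by rw [hD]; exact zero_le), ?_⟩
    refine le_trans (le_of_eq ?_) (hk.le.trans le_add_self)
    unfold c
    rw [pre_length, ← ENNReal.ofReal_pow (Real.rpow_pos_of_pos two_pos _).le,
      ← Real.rpow_natCast, ← Real.rpow_mul two_pos.le]
    congr 2
    ring
  · have hDt : Metric.ediam U ≠ ∞ := (lt_of_le_of_lt hU one_lt_top).ne
    set D : ℝ := (Metric.ediam U).toReal with hDdef
    have hD0 : 0 < D := ENNReal.toReal_pos hD hDt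
    have hD1 : D ≤ 1 := by
      have := ENNReal.toReal_mono one_ne_top hU
      simpa using this
    obtain ⟨k, hk1, hk2⟩ := exists_nat_pow_near_of_lt_one hD0 hD1 one_half_pos one_half_lt_one
    have hDe : Metric.ediam U = ENNReal.ofReal D := (ENNReal.ofReal_toReal hDt).symm
    refine ⟨pre x k, hmem k (by rw [hDe]; exact ENNReal.ofReal_le_ofReal hk2), ?_⟩
    refine le_trans ?_ le_self_add
    rw [hDe, ENNReal.ofReal_rpow_of_pos hD0]
    have h2 : (2:ℝ≥0∞) = ENNReal.ofReal 2 := by simp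
    rw [h2, ← ENNReal.ofReal_mul two_pos.le]
    unfold c
    rw [pre_length]
    refine ENNReal.ofReal_le_ofReal ?_
    have e1 : (2:ℝ) ^ (-(s * k)) = (2:ℝ) ^ s * ((1/2:ℝ) ^ (k+1)) ^ s := by
      have : ((1/2:ℝ) ^ (k+1)) = (2:ℝ) ^ (-((k:ℝ) + 1)) := by
        rw [Real.rpow_neg two_pos.le, one_div, inv_pow]
        congr 1
        rw [← Real.rpow_natCast]
        push_cast
        rfl
      rw [this, ← Real.rpow_mul two_pos.le, ← Real.rpow_add two_pos]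
      congr 1
      ring
    rw [e1]
    have e2 : ((1/2:ℝ) ^ (k+1)) ^ s ≤ D ^ s :=
      Real.rpow_le_rpow (by positivity) hk1.le hs0.le
    have e3 : D ^ s ≤ D ^ s₁ := Real.rpow_le_rpow_of_exponent_ge hD0 hD1 hss
    have e4 : (2:ℝ) ^ s ≤ 2 := by
      calc (2:ℝ) ^ s ≤ (2:ℝ) ^ (1:ℝ) := Real.rpow_le_rpow_of_exponent_le one_le_two hs1
        _ = 2 := Real.rpow_one 2
    exact mul_le_mul e4 (e2.trans e3) (Real.rpow_nonneg (by positivity) _) two_pos.le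

theorem le_dimH_of_covers {s : NNReal} (hs0 : 0 < s) (hs1 : s ≤ 1) {E : Set Cantor}
    (h : ∀ T, om s T < 1 → ∃ x ∈ E, ∀ τ ∈ T, ¬ Pfx τ x) : (s : ℝ≥0∞) ≤ dimH E := by
  classical
  refine ENNReal.le_of_forall_nnreal_lt (fun s₁ hs₁ => ?_)
  refine le_dimH_of_hausdorffMeasure_ne_zero (fun hz => ?_)
  have hss : (s₁:ℝ) ≤ s := by exact_mod_cast hs₁.le
  rw [Measure.hausdorffMeasure_apply] at hz
  have h1 : (⨅ (t : ℕ → Set Cantor) (_ : E ⊆ ⋃ n, t n) (_ : ∀ n, Metric.ediam (t n) ≤ 1),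
      ∑' n, ⨆ _ : (t n).Nonempty, Metric.ediam (t n) ^ (s₁:ℝ)) = 0 := by
    refine le_antisymm ?_ zero_le
    rw [← hz]
    exact le_iSup₂ (f := fun (r : ℝ≥0∞) (_ : 0 < r) =>
      ⨅ (t : ℕ → Set Cantor) (_ : E ⊆ ⋃ n, t n) (_ : ∀ n, Metric.ediam (t n) ≤ r),
      ∑' n, ⨆ _ : (t n).Nonempty, Metric.ediam (t n) ^ (s₁:ℝ)) 1 one_pos
  have h2 : (⨅ (t : ℕ → Set Cantor) (_ : E ⊆ ⋃ n, t n) (_ : ∀ n, Metric.ediam (t n) ≤ 1),
      ∑' n, ⨆ _ : (t n).Nonempty, Metric.ediam (t n) ^ (s₁:ℝ)) < ENNReal.ofReal (1/4) := by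
    rw [h1]; exact ENNReal.ofReal_pos.2 (by norm_num)
  simp only [iInf_lt_iff] at h2
  obtain ⟨t, ht1, ht2, ht3⟩ := h2
  have hq : ENNReal.ofReal (1/4) ≠ 0 := (ENNReal.ofReal_pos.2 (by norm_num)).ne'
  obtain ⟨η, hη1, hη2⟩ := ENNReal.exists_pos_sum_of_countable hq ℕ
  have hstr : ∀ n, ∃ T : Set (List Bool), ((t n).Nonempty → ∃ τ ∈ T, ∀ y ∈ t n, Pfx τ y) ∧
      om s T ≤ 2 * (⨆ _ : (t n).Nonempty, Metric.ediam (t n) ^ (s₁:ℝ)) + η n := by
    intro n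
    by_cases hne : (t n).Nonempty
    · obtain ⟨τ, hτ1, hτ2⟩ := exists_string (s := s) (s₁ := s₁) (by exact_mod_cast hs0)
        (by exact_mod_cast hs1) s₁.2 hss (t n) (ht2 n) hne
        (η := η n) (by exact_mod_cast (hη1 n).ne')
      refine ⟨{τ}, fun _ => ⟨τ, rfl, hτ1⟩, ?_⟩
      have : om s {τ} = c s τ := by
        unfold om
        rw [tsum_eq_single τ]
        · simp
        · intro u hu
          exact indicator_of_notMem (show u ∉ ({τ} : Set (List Bool)) from fun h => hu h) _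
      rw [this, iSup_pos hne]
      exact hτ2
    · exact ⟨∅, fun h => absurd h hne, by rw [om_empty]; exact zero_le⟩
  choose T hT1 hT2 using hstr
  have hom : om s (⋃ n, T n) < 1 := by
    refine lt_of_le_of_lt (om_iUnion_le s T) ?_
    refine lt_of_le_of_lt (ENNReal.tsum_le_tsum hT2) ?_
    rw [ENNReal.tsum_add, ENNReal.tsum_mul_left]
    have e1 : 2 * ∑' n, (⨆ _ : (t n).Nonempty, Metric.ediam (t n) ^ (s₁:ℝ)) ≤
        2 * ENNReal.ofReal (1/4) := by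
      gcongr
    have h2' : (2:ℝ≥0∞) = ENNReal.ofReal 2 := by simp
    refine lt_of_le_of_lt (add_le_add e1 hη2.le) ?_
    rw [h2', ← ENNReal.ofReal_mul two_pos.le, ← ENNReal.ofReal_add (by norm_num) (by norm_num),
      ← ENNReal.ofReal_one, ENNReal.ofReal_lt_ofReal_iff one_pos]
    norm_num
  obtain ⟨x, hxE, hx⟩ := h _ hom
  obtain ⟨n, hn⟩ := mem_iUnion.1 (ht1 hxE)
  obtain ⟨τ, hτ, hτ2⟩ := hT1 n ⟨x, hn⟩
  exact hx τ (mem_iUnion.2 ⟨n, hτ⟩) (hτ2 x hn)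

end Pool.Agent.H15.Dim
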