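import Pool.Agent.H15.DimD

set_option autoImplicit false

/-!
Helper file for MP_d9d12d_lc: the construction under CH.
-/

namespace Pool.Agent.H15.Dim

open Set ENNReal Filter Topology MeasureTheory

theorem univ_case : dimH (univ : Set Cantor) = 1 ∧ ∀ S : Set Cantor, dimH S ≤ 1 := by
  have hle : dimH (univ : Set Cantor) ≤ 1 := by
    by_contra hcon
    rw [not_le] at hcon
    obtain ⟨t, ht1, ht2⟩ := ENNReal.lt_iff_exists_nnreal_btwn.1 hcon
    have ht : (1:ℝ) < t := by
      have : (1:NNReal) < t := by exact_mod_cast ht1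
      exact_mod_cast this
    refine absurd (dimH_le_of_covers (t := t) ?_ ?_) (not_le.2 ht2)
    · exact_mod_cast (zero_lt_one.trans ht)
    · intro ε hε
      have hr1 : (2:ℝ) ^ (1 - (t:ℝ)) < 1 := Real.rpow_lt_one_of_one_lt_of_neg one_lt_two (by linarith)
      have hr0 : (0:ℝ) < (2:ℝ) ^ (1 - (t:ℝ)) := Real.rpow_pos_of_pos two_pos _
      have hlim : Tendsto (fun m : ℕ => ENNReal.ofReal (((2:ℝ) ^ (1 - (t:ℝ))) ^ m)) atTop (𝓝 0) := by
        have h2 := ENNReal.tendsto_ofReal (tendsto_pow_atTop_nhds_zero_of_lt_one hr0.le hr1)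
        rwa [ENNReal.ofReal_zero] at h2
      obtain ⟨m, hm⟩ := (hlim.eventually (gt_mem_nhds (pos_iff_ne_zero.2 hε))).exists
      refine ⟨↑(L m), ?_, fun y _ => ⟨pre y m, Finset.mem_coe.2 (pre_mem_L _ _), pfx_pre _ _⟩⟩
      rw [om_finset t (L m) m (Finset.Subset.refl _), card_L]
      refine le_trans (ENNReal.ofReal_le_ofReal (le_of_eq ?_)) hm.le
      push_cast
      rw [← Real.rpow_natCast 2 m, ← Real.rpow_add two_pos, ← Real.rpow_natCast,
        ← Real.rpow_mul two_pos.le]
      congr 1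
      ring
  refine ⟨le_antisymm hle ?_, fun S => (dimH_mono (subset_univ S)).trans hle⟩
  refine ENNReal.le_of_forall_nnreal_lt (fun s₁ hs₁ => ?_)
  have hs₁' : s₁ < 1 := by exact_mod_cast hs₁
  have h2 : s₁ ≤ (s₁ + 1) / 2 := by
    rw [← NNReal.coe_le_coe]
    have : (s₁:ℝ) < 1 := by exact_mod_cast hs₁'
    push_cast
    linarith
  have h3 : (s₁ + 1) / 2 < 1 := by
    rw [← NNReal.coe_lt_coe]
    have : (s₁:ℝ) < 1 := by exact_mod_cast hs₁'
    push_cast
    linarith
  refine le_trans (b := (((s₁ + 1) / 2 : NNReal) : ℝ≥0∞)) (by exact_mod_cast h2) ?_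
  refine le_dimH_of_covers (by positivity) h3.le ?_
  intro T hT
  have hT' : Cond (((s₁ + 1) / 2 : NNReal) : ℝ) ([], T) := hT
  obtain ⟨x, hx⟩ := P_nonempty (by exact_mod_cast h3) hT'
  exact ⟨x, mem_univ _, fun τ hτ => by simpa using hx.2 τ hτ⟩

theorem card_codes : Cardinal.mk ((ℕ → {B : Set X // MeasurableSet B}) × Set (List Bool)) ≤
    Cardinal.continuum := by
  have hA : Cardinal.mk {B : Set X // MeasurableSet B} ≤ Cardinal.continuum := by
    have hb : (MeasurableSpace.pi : MeasurableSpace X) =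
        MeasurableSpace.generateFrom (TopologicalSpace.countableBasis X) := by
      rw [BorelSpace.measurable_eq (α := X)]
      exact (TopologicalSpace.isBasis_countableBasis X).borel_eq_generateFrom
    have hc : Cardinal.mk (TopologicalSpace.countableBasis X) ≤ Cardinal.continuum :=
      (Cardinal.mk_le_aleph0_iff.2
        (TopologicalSpace.countable_countableBasis X).to_subtype).trans Cardinal.aleph0_le_continuum
    have := MeasurableSpace.cardinal_measurableSet_le_continuum hc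
    rw [← hb] at this
    exact this
  rw [Cardinal.mk_prod, Cardinal.lift_id, Cardinal.lift_id]
  have h1 : Cardinal.mk (ℕ → {B : Set X // MeasurableSet B}) ≤ Cardinal.continuum := by
    rw [← Cardinal.power_def, Cardinal.mk_nat]
    calc Cardinal.mk {B : Set X // MeasurableSet B} ^ Cardinal.aleph0 ≤
          Cardinal.continuum ^ Cardinal.aleph0 := Cardinal.power_le_power_right hA
      _ = Cardinal.continuum := Cardinal.continuum_power_aleph0
  have h2 : Cardinal.mk (Set (List Bool)) ≤ Cardinal.continuum := by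
    rw [Cardinal.mk_set, Cardinal.mk_eq_aleph0 (List Bool), Cardinal.two_power_aleph0]
  calc _ ≤ Cardinal.continuum * Cardinal.continuum := mul_le_mul' h1 h2
    _ = Cardinal.continuum := Cardinal.continuum_mul_self

theorem main_case {J : Type} [LinearOrder J] (hJ : ∀ γ : J, (Iio γ).Countable)
    (g : J → (ℕ → {B : Set X // MeasurableSet B}) × Set (List Bool))
    (hg : Function.Surjective g) (s : NNReal) (hs0 : 0 < s) (hs1 : s < 1) :
    ∃ E : Set Cantor, dimH E = s ∧ ∀ f : Cantor → Cantor,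
      (∀ U, IsOpen U → @MeasurableSet Cantor (borel Cantor) (f ⁻¹' U)) → dimH (f '' E) ≤ s := by
  classical
  have hs0' : (0:ℝ) < s := by exact_mod_cast hs0
  have hs1' : (s:ℝ) < 1 := by exact_mod_cast hs1
  let F : J → X → X := fun γ x i => decide (x ∈ ((g γ).1 i).1)
  have hFm : ∀ γ, ∀ U : Set X, IsOpen U → @MeasurableSet X (borel X) (F γ ⁻¹' U) := by
    intro γ U hU
    have h1 : Measurable (F γ) := by
      refine measurable_pi_iff.2 (fun i => measurable_to_bool ?_)
      have : (fun x => F γ x i) ⁻¹' {true} = ((g γ).1 i).1 := by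
        ext x
        simp [F]
      rw [this]
      exact ((g γ).1 i).2
    have h2 := h1 hU.measurableSet
    rwa [BorelSpace.measurable_eq (α := X)] at h2
  let t : ℕ → NNReal := fun k => s + 1 / ((k:NNReal) + 1)
  have ht : ∀ k, (s:ℝ) < t k := by
    intro k
    have : (0:NNReal) < 1 / ((k:NNReal) + 1) := by positivity
    have h2 : s < t k := lt_add_of_pos_right s this
    exact_mod_cast h2
  let ε : ℕ → ℝ≥0∞ := fun n => ((n:ℝ≥0∞) + 1)⁻¹
  have hε0 : ∀ n, ε n ≠ 0 := fun n => ENNReal.inv_ne_zero.2 (by finiteness)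
  have hεlim : Tendsto ε atTop (𝓝 0) := by
    have h2 : Tendsto (fun n : ℕ => ((n + 1 : ℕ) : ℝ≥0∞)⁻¹) atTop (𝓝 0) :=
      ENNReal.tendsto_inv_nat_nhds_zero.comp (tendsto_add_atTop_nat 1)
    simpa [ε] using h2
  choose W hW1 hW2 using fun (γ : J) (k l : ℕ) =>
    exists_cover hs0' hs1' (ht k) (F γ) (hFm γ) (hε0 l)
  let Bad : J → Set X := fun γ => ⋃ k : ℕ, ⋃ l : ℕ, {x | ∀ τ ∈ W γ k l, ¬ Pfx τ (F γ x)}
  have hBad : ∀ γ, Sm s (Bad γ) := fun γ => Sm.iUnion (fun k => Sm.iUnion (fun l => hW2 γ k l))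
  have hx : ∀ γ, ∃ x : X, (om s (g γ).2 < 1 → x ∈ P ([], (g γ).2)) ∧ ∀ β ≤ γ, x ∉ Bad β := by
    intro γ
    have hc : (Iic γ).Countable := by
      have : Iic γ = insert γ (Iio γ) := by
        ext β
        simp [le_iff_eq_or_lt]
      rw [this]
      exact (hJ γ).insert γ
    have : Countable (Iic γ) := hc.to_subtype
    have hsm : Sm s (⋃ β : Iic γ, Bad β) := Sm.iUnion (fun β => hBad β)
    by_cases hT : om s (g γ).2 < 1
    · obtain ⟨x, hx1, hx2⟩ := baire (p := ([], (g γ).2)) hs1' hT hsm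
      exact ⟨x, fun _ => hx1, fun β hβ h => hx2 (mem_iUnion.2 ⟨⟨β, hβ⟩, h⟩)⟩
    · have h0 : Cond (s:ℝ) ([], ∅) := by
        show om (s:ℝ) ∅ < 1
        rw [om_empty]; exact one_pos
      obtain ⟨x, hx1, hx2⟩ := baire hs1' h0 hsm
      exact ⟨x, fun h => absurd h hT, fun β hβ h => hx2 (mem_iUnion.2 ⟨⟨β, hβ⟩, h⟩)⟩
  choose x hx1 hx2 using hx
  let E : Set Cantor := range (fun γ => (x γ : Cantor))
  have hlow : (s : ℝ≥0∞) ≤ dimH E := by
    refine le_dimH_of_covers hs0 hs1.le ?_
    intro T hT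
    obtain ⟨γ, hγ⟩ := hg ((fun _ => ⟨∅, MeasurableSet.empty⟩), T)
    have h2 : (g γ).2 = T := by rw [hγ]
    refine ⟨x γ, ⟨γ, rfl⟩, fun τ hτ => ?_⟩
    have h3 := (hx1 γ (by rw [h2]; exact hT)).2 τ (by rw [h2]; exact hτ)
    simpa using h3
  have hup : ∀ f : Cantor → Cantor,
      (∀ U, IsOpen U → @MeasurableSet Cantor (borel Cantor) (f ⁻¹' U)) → dimH (f '' E) ≤ s := by
    intro f hf
    have hf' : ∀ U : Set X, IsOpen U → @MeasurableSet X (borel X) ((f : X → X) ⁻¹' U) := hf
    have hB : ∀ i, MeasurableSet {y : X | (f : X → X) y i = true} := by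
      intro i
      have ho : IsOpen {y : X | y i = true} := by
        have h0 : {y : X | y i = true} = (fun y : X => y i) ⁻¹' {true} := rfl
        rw [h0]
        exact (isOpen_discrete _).preimage (continuous_apply i)
      have h1 := hf' {y : X | y i = true} ho
      rw [BorelSpace.measurable_eq (α := X)]
      exact h1
    obtain ⟨γ, hγ⟩ := hg ((fun i => ⟨{y : X | (f : X → X) y i = true}, hB i⟩), ∅)
    have hFf : F γ = (f : X → X) := by
      funext y i
      simp only [F]
      rw [hγ]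
      simp
    let S : Set Cantor := {y | ∀ k l, ∃ τ ∈ W γ k l, Pfx τ y}
    have hS : dimH S ≤ s := by
      have hk : ∀ k, dimH S ≤ t k := by
        intro k
        refine dimH_le_of_covers ?_ ?_
        · have h1 := ht k
          exact_mod_cast hs0'.trans h1
        · intro δ hδ
          obtain ⟨l, hl⟩ := (hεlim.eventually (gt_mem_nhds (pos_iff_ne_zero.2 hδ))).exists
          exact ⟨W γ k l, (hW1 γ k l).trans hl.le, fun y hy => hy k l⟩
      have hlim : Tendsto (fun k => ((t k : NNReal) : ℝ≥0∞)) atTop (𝓝 (s : ℝ≥0∞)) := by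
        rw [ENNReal.tendsto_coe]
        have h3 : Tendsto (fun k : ℕ => 1 / ((k:NNReal) + 1)) atTop (𝓝 0) :=
          tendsto_one_div_add_atTop_nhds_zero_nat
        have h4 := h3.const_add s
        simpa [t] using h4
      exact ge_of_tendsto' hlim hk
    have hsub : f '' E ⊆ ((fun β => f (x β)) '' Iio γ) ∪ S := by
      rintro _ ⟨_, ⟨β, rfl⟩, rfl⟩
      rcases lt_or_ge β γ with h | h
      · exact Or.inl ⟨β, h, rfl⟩
      · right
        intro k l
        have h3 := hx2 β γ h
        by_contra hcon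
        push Not at hcon
        apply h3
        refine mem_iUnion.2 ⟨k, mem_iUnion.2 ⟨l, ?_⟩⟩
        intro τ hτ
        rw [hFf]
        exact hcon τ hτ
    refine (dimH_mono hsub).trans ?_
    rw [dimH_union, dimH_countable ((hJ γ).image _)]
    exact max_le zero_le hS
  refine ⟨E, le_antisymm ?_ hlow, hup⟩
  have := hup id (fun U hU => MeasurableSpace.measurableSet_generateFrom hU)
  rwa [image_id] at this

theorem final (CH : Cardinal.continuum.{0} = Cardinal.aleph.{0} 1) (s : ℝ) (hs0 : 0 ≤ s)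
    (hs1 : s ≤ 1) :
    ∃ E : Set Cantor, dimH E = ENNReal.ofReal s ∧ ∀ f : Cantor → Cantor,
      (∀ U, IsOpen U → @MeasurableSet Cantor (borel Cantor) (f ⁻¹' U)) →
        dimH (f '' E) ≤ ENNReal.ofReal s := by
  rcases hs0.eq_or_lt with rfl | hs0'
  · obtain ⟨x₀⟩ : Nonempty Cantor := ⟨fun _ => false⟩
    refine ⟨{x₀}, ?_, fun f _ => ?_⟩
    · rw [dimH_singleton]; simp
    · rw [image_singleton, dimH_singleton]; exact zero_le
  rcases hs1.eq_or_lt with rfl | hs1'
  · rw [ENNReal.ofReal_one]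
    exact ⟨univ, univ_case.1, fun f _ => univ_case.2 _⟩
  let J : Type := (Cardinal.aleph.{0} 1).ord.ToType
  have hJ : Cardinal.mk J = Cardinal.continuum := by
    show Cardinal.mk (Cardinal.aleph.{0} 1).ord.ToType = _
    rw [Cardinal.mk_ord_toType, ← CH]
  have hne : Nonempty ((ℕ → {B : Set X // MeasurableSet B}) × Set (List Bool)) :=
    ⟨((fun _ => ⟨∅, MeasurableSet.empty⟩), ∅)⟩
  obtain ⟨e⟩ : Nonempty (((ℕ → {B : Set X // MeasurableSet B}) × Set (List Bool)) ↪ J) := by
    rw [← Cardinal.le_def, hJ]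
    exact card_codes
  have hcount : ∀ γ : J, (Iio γ).Countable := fun γ => by
    rw [Cardinal.countable_iff_lt_aleph_one]
    have := Cardinal.mk_Iio_toType_ord_lt (c := Cardinal.aleph.{0} 1) γ
    exact this
  obtain ⟨E, hE1, hE2⟩ := main_case hcount (Function.invFun e) (Function.invFun_surjective e.injective)
    s.toNNReal (by simpa using hs0') (by simpa using hs1')
  exact ⟨E, hE1, hE2⟩

end Pool.Agent.H15.Dim
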