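import Mathlib

set_option autoImplicit false

/-!
Helper file for MP_10444e_gt: the approximation step.
-/

namespace Pool.Agent.H15.Max

open Set

/-- the first `m` values of `a` -/
def ini (a : ℕ → ℕ) (m : ℕ) : List ℕ := (List.range m).map a

theorem ini_length (a : ℕ → ℕ) (m : ℕ) : (ini a m).length = m := by simp [ini]

theorem ini_getD (a : ℕ → ℕ) {m i : ℕ} (d : ℕ) (h : i < m) : (ini a m).getD i d = a i := by
  simp [ini, List.getD, h]

theorem ini_congr {a b : ℕ → ℕ} {m : ℕ} (h : ∀ i < m, a i = b i) : ini a m = ini b m := by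
  unfold ini
  refine List.map_congr_left (fun i hi => h i ?_)
  simpa using hi

def ev (s : List ℕ) (k i : ℕ) : ℕ := s.getD i k

def emF (f : ℕ → ℕ) (i : ℕ) : ℕ := if i % 2 = 0 then f (i / 2) else 0

def emG (g : ℕ → ℕ) (i : ℕ) : ℕ := if i % 2 = 1 then g (i / 2) else 0

theorem emF_congr {f f' : ℕ → ℕ} {m : ℕ} (h : ∀ i < m, f i = f' i) :
    ini (emF f) m = ini (emF f') m := by
  refine ini_congr (fun i hi => ?_)
  unfold emF
  split_ifs
  · exact h _ (by omega)
  · rfl

theorem emG_congr {f f' : ℕ → ℕ} {m : ℕ} (h : ∀ i < m, f i = f' i) :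
    ini (emG f) m = ini (emG f') m := by
  refine ini_congr (fun i hi => ?_)
  unfold emG
  split_ifs
  · exact h _ (by omega)
  · rfl

abbrev Code := ℕ → ℕ → Set (List ℕ)

def Cov (P : Code) (a : ℕ → ℕ) : Prop := ∀ n, ∃ k m, ini a m ∈ P n k

def Uset (P : Code) (H : ℕ → ℕ) (a : ℕ → ℕ) : Set ℕ := {n | ∃ k ≤ H n, ∃ m, ini a m ∈ P n k}

def Nice (P : Code) (H K : ℕ → ℕ) : Prop :=
  ∀ n, ∀ sf sg : List ℕ, Encodable.encode sf < n → Encodable.encode sg < n →
    sf.length ≤ K n ∧ (∀ f : ℕ → ℕ, (∀ i < K n, f i = ev sf 0 i) → n ∈ Uset P H (emF f)) ∧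
    ∃ M, ∀ g : ℕ → ℕ, (∀ i < M, g i = ev sg (K n) i) → n ∈ Uset P H (emG g)

/-- the countable dense set -/
def QQ : Set (ℕ → ℕ) :=
  range (fun s : List ℕ => emF (ev s 0)) ∪ range (fun p : List ℕ × ℕ => emG (ev p.1 p.2))

theorem QQ_countable : QQ.Countable := (countable_range _).union (countable_range _)

theorem exists_HK (P : Code) (D : Set (ℕ → ℕ)) (hD : D.Countable) (hQ : QQ ⊆ D)
    (hcov : ∀ a ∈ D, Cov P a) :
    ∃ H K, Nice P H K ∧ ∀ a ∈ D, ∃ N, ∀ n ≥ N, n ∈ Uset P H a := by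
  classical
  have hF : ∀ (n : ℕ) (s : List ℕ), ∃ V L, ini (emF (ev s 0)) L ∈ P n V := fun n s =>
    hcov _ (hQ (Or.inl ⟨s, rfl⟩)) n
  choose VF LF hVF using hF
  have hG : ∀ (n : ℕ) (s : List ℕ) (k : ℕ), ∃ V L, ini (emG (ev s k)) L ∈ P n V := fun n s k =>
    hcov _ (hQ (Or.inr ⟨(s, k), rfl⟩)) n
  choose VG LG hVG using hG
  have hne : D.Nonempty := ⟨_, hQ (Or.inl ⟨[], rfl⟩)⟩
  obtain ⟨e, he⟩ := hD.exists_eq_range hne
  have hE : ∀ j n : ℕ, ∃ V, ∃ m, ini (e j) m ∈ P n V := by
    intro j n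
    obtain ⟨k, m, h⟩ := hcov (e j) (by rw [he]; exact ⟨j, rfl⟩) n
    exact ⟨k, m, h⟩
  choose VE hVE using hE
  let dec : ℕ → List ℕ := fun j => (Encodable.decode j).getD []
  have hdec : ∀ s : List ℕ, dec (Encodable.encode s) = s := by
    intro s
    simp [dec]
  let K : ℕ → ℕ := fun n => (Finset.range n).sup (fun j => (dec j).length + LF n (dec j))
  let H : ℕ → ℕ := fun n => (Finset.range n).sup (fun j =>
    VF n (dec j) + VG n (dec j) (K n) + VE j n)
  have hK : ∀ n (s : List ℕ), Encodable.encode s < n → s.length + LF n s ≤ K n := by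
    intro n s hs
    have := Finset.le_sup (f := fun j => (dec j).length + LF n (dec j)) (Finset.mem_range.2 hs)
    simp only [hdec] at this
    exact this
  have hH : ∀ n (s : List ℕ), Encodable.encode s < n → VF n s + VG n s (K n) ≤ H n := by
    intro n s hs
    have := Finset.le_sup (f := fun j => VF n (dec j) + VG n (dec j) (K n) + VE j n)
      (Finset.mem_range.2 hs)
    simp only [hdec] at this
    exact (Nat.le_add_right _ _).trans this
  refine ⟨H, K, ?_, ?_⟩
  · intro n sf sg hf hg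
    have h1 := hK n sf hf
    refine ⟨by omega, ?_, LG n sg (K n), ?_⟩
    · intro f hff
      refine ⟨VF n sf, (Nat.le_add_right _ _).trans (hH n sf hf), LF n sf, ?_⟩
      rw [emF_congr (f' := ev sf 0) (fun i hi => hff i (by omega))]
      exact hVF n sf
    · intro g hgg
      refine ⟨VG n sg (K n), (Nat.le_add_left _ _).trans (hH n sg hg), LG n sg (K n), ?_⟩
      rw [emG_congr (f' := ev sg (K n)) hgg]
      exact hVG n sg (K n)
  · intro a ha
    rw [he] at ha
    obtain ⟨j, rfl⟩ := ha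
    refine ⟨j + 1, fun n hn => ⟨VE j n, ?_, hVE j n⟩⟩
    have := Finset.le_sup (f := fun j => VF n (dec j) + VG n (dec j) (K n) + VE j n)
      (Finset.mem_range.2 (show j < n by omega))
    exact (Nat.le_add_left _ _).trans this

theorem step {P : Code} {H K : ℕ → ℕ} (hN : Nice P H K) {c : Set ℕ} (hc : c.Infinite)
    (h : ℕ → ℕ) (sf sg : List ℕ) (N : ℕ) :
    ∃ n ∈ c, N ≤ n ∧ ∃ sf' sg' : List ℕ, sf.length < sf'.length ∧ sg.length < sg'.length ∧
      (∀ i < sf.length, sf'.getD i 0 = sf.getD i 0) ∧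
      (∀ i < sg.length, sg'.getD i 0 = sg.getD i 0) ∧
      (∀ f : ℕ → ℕ, (∀ i < sf'.length, f i = sf'.getD i 0) → n ∈ Uset P H (emF f)) ∧
      (∀ g : ℕ → ℕ, (∀ i < sg'.length, g i = sg'.getD i 0) → n ∈ Uset P H (emG g)) ∧
      ∀ i, sg.length ≤ i → i < sg'.length →
        sg'.getD i 0 < sf'.length ∧ h i ≤ sf'.getD (sg'.getD i 0) 0 := by
  classical
  obtain ⟨n, hnc, hn⟩ := hc.exists_gt (N + Encodable.encode sf + Encodable.encode sg)
  obtain ⟨h1, h2, M, h3⟩ := hN n sf sg (by omega) (by omega)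
  let M' := max M (sg.length + 1)
  let big := (Finset.range M').sup h
  let sg' := ini (ev sg (K n)) M'
  let φ : ℕ → ℕ := Function.update (ev sf 0) (K n) big
  let sf' := ini φ (K n + 1)
  have hlf : sf'.length = K n + 1 := ini_length _ _
  have hlg : sg'.length = M' := ini_length _ _
  have hMs : sg.length + 1 ≤ M' := le_max_right _ _
  have hMM : M ≤ M' := le_max_left _ _
  have hgf : ∀ i < K n + 1, sf'.getD i 0 = φ i := fun i hi => ini_getD _ _ hi
  have hgg : ∀ i < M', sg'.getD i 0 = ev sg (K n) i := fun i hi => ini_getD _ _ hi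
  refine ⟨n, hnc, by omega, sf', sg', by omega, by omega, ?_, ?_, ?_, ?_, ?_⟩
  · intro i hi
    rw [hgf i (by omega)]
    show Function.update (ev sf 0) (K n) big i = _
    rw [Function.update_of_ne (by omega)]
    rfl
  · intro i hi
    rw [hgg i (by omega)]
    unfold ev
    rw [List.getD_eq_getElem _ _ hi, List.getD_eq_getElem _ _ hi]
  · intro f hf
    refine h2 f (fun i hi => ?_)
    rw [hf i (by omega), hgf i (by omega)]
    show Function.update (ev sf 0) (K n) big i = _
    rw [Function.update_of_ne (by omega)]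
  · intro g hg
    refine h3 g (fun i hi => ?_)
    rw [hg i (by omega), hgg i (by omega)]
  · intro i hi1 hi2
    have hiM : i < M' := by omega
    have e1 : sg'.getD i 0 = K n := by
      rw [hgg i hiM]
      unfold ev
      rw [List.getD_eq_default _ _ hi1]
    rw [e1, hgf _ (by omega)]
    refine ⟨by omega, ?_⟩
    show h i ≤ Function.update (ev sf 0) (K n) big (K n)
    rw [Function.update_self]
    exact Finset.le_sup (f := h) (Finset.mem_range.2 hiM)

theorem limit (S : ℕ → List ℕ) (h1 : ∀ j, (S j).length < (S (j+1)).length)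
    (h2 : ∀ j, ∀ i < (S j).length, (S (j+1)).getD i 0 = (S j).getD i 0) :
    ∃ f : ℕ → ℕ, ∀ j, ∀ i < (S j).length, f i = (S j).getD i 0 := by
  have hlen : ∀ j, j ≤ (S j).length := by
    intro j
    induction j with
    | zero => exact Nat.zero_le _
    | succ j ih => have := h1 j; omega
  have hmono : ∀ j d, ∀ i < (S j).length, (S (j+d)).getD i 0 = (S j).getD i 0 ∧
      i < (S (j+d)).length := by
    intro j d
    induction d with
    | zero => exact fun i hi => ⟨rfl, hi⟩
    | succ d ih =>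
      intro i hi
      obtain ⟨e1, e2⟩ := ih i hi
      have e3 := h2 (j+d) i e2
      have e4 := h1 (j+d)
      refine ⟨?_, ?_⟩
      · show (S (j+d+1)).getD i 0 = _
        rw [e3, e1]
      · show i < (S (j+d+1)).length
        omega
  refine ⟨fun i => (S (i+1)).getD i 0, fun j i hi => ?_⟩
  show (S (i+1)).getD i 0 = _
  have hi' : i < (S (i+1)).length := by have := hlen (i+1); omega
  rcases le_total j (i+1) with h | h
  · obtain ⟨d, hd⟩ := Nat.exists_eq_add_of_le h
    rw [hd]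
    exact (hmono j d i hi).1
  · obtain ⟨d, hd⟩ := Nat.exists_eq_add_of_le h
    rw [hd]
    exact (hmono (i+1) d i hi').1.symm

theorem lemC {ι : Type} (I : Set ι) (hI : I.Countable) (P : ι → Code) (H K : ι → ℕ → ℕ)
    (c : ι → Set ℕ) (hN : ∀ i ∈ I, Nice (P i) (H i) (K i)) (hc : ∀ i ∈ I, (c i).Infinite)
    (h : ℕ → ℕ) : ∃ f g : ℕ → ℕ, (∀ i, h i ≤ f (g i)) ∧
      ∀ i ∈ I, {n | n ∈ c i ∧ n ∈ Uset (P i) (H i) (emF f) ∧ n ∈ Uset (P i) (H i) (emG g)}.Infinite := by
  classical
  rcases I.eq_empty_or_nonempty with rfl | hne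
  · exact ⟨h, id, fun i => le_rfl, fun i hi => absurd hi (notMem_empty i)⟩
  obtain ⟨e, he⟩ := hI.exists_eq_range hne
  have heI : ∀ j, e j ∈ I := fun j => by rw [he]; exact ⟨j, rfl⟩
  have hstep : ∀ (j : ℕ) (s : List ℕ × List ℕ), ∃ s' : List ℕ × List ℕ, ∃ n : ℕ,
      n ∈ c (e (Nat.unpair j).1) ∧ j ≤ n ∧
      s.1.length < s'.1.length ∧ s.2.length < s'.2.length ∧
      (∀ i < s.1.length, s'.1.getD i 0 = s.1.getD i 0) ∧
      (∀ i < s.2.length, s'.2.getD i 0 = s.2.getD i 0) ∧
      (∀ f : ℕ → ℕ, (∀ i < s'.1.length, f i = s'.1.getD i 0) →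
        n ∈ Uset (P (e (Nat.unpair j).1)) (H (e (Nat.unpair j).1)) (emF f)) ∧
      (∀ g : ℕ → ℕ, (∀ i < s'.2.length, g i = s'.2.getD i 0) →
        n ∈ Uset (P (e (Nat.unpair j).1)) (H (e (Nat.unpair j).1)) (emG g)) ∧
      ∀ i, s.2.length ≤ i → i < s'.2.length →
        s'.2.getD i 0 < s'.1.length ∧ h i ≤ s'.1.getD (s'.2.getD i 0) 0 := by
    intro j s
    obtain ⟨n, h1, h2, sf', sg', h3⟩ := step (hN _ (heI (Nat.unpair j).1))
      (hc _ (heI (Nat.unpair j).1)) h s.1 s.2 j
    exact ⟨(sf', sg'), n, h1, h2, h3⟩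
  choose nx nn g1 g2 g3 g4 g5 g6 g7 g8 g9 using hstep
  let T : ℕ → List ℕ × List ℕ := fun j => Nat.rec ([], []) (fun j s => nx j s) j
  have hT : ∀ j, T (j+1) = nx j (T j) := fun j => rfl
  obtain ⟨f, hf⟩ := limit (fun j => (T j).1) (fun j => by rw [hT]; exact g3 j (T j))
    (fun j => by simp only [hT]; exact g5 j (T j))
  obtain ⟨g, hg⟩ := limit (fun j => (T j).2) (fun j => by rw [hT]; exact g4 j (T j))
    (fun j => by simp only [hT]; exact g6 j (T j))
  have hlen : ∀ j, j ≤ (T j).2.length := by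
    intro j
    induction j with
    | zero => exact Nat.zero_le _
    | succ j ih =>
      have := g4 j (T j)
      rw [← hT] at this
      omega
  refine ⟨f, g, ?_, ?_⟩
  · intro i
    have hex : ∃ j, i < (T j).2.length := ⟨i+1, hlen (i+1)⟩
    have hj := Nat.find_spec hex
    have hmin := fun m (hm : m < Nat.find hex) => Nat.find_min hex hm
    obtain ⟨j, hjeq⟩ : ∃ j, Nat.find hex = j + 1 := by
      rcases hfz : Nat.find hex with _ | j
      · rw [hfz] at hj
        exact absurd hj (by simp [T])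
      · exact ⟨j, rfl⟩
    rw [hjeq] at hj hmin
    have hlow : (T j).2.length ≤ i := not_lt.1 (hmin j (by omega))
    have h9 := g9 j (T j) i hlow (by rw [← hT]; exact hj)
    rw [← hT] at h9
    rw [hg (j+1) i hj, hf (j+1) _ h9.1]
    exact h9.2
  · intro i hi
    rw [he] at hi
    obtain ⟨m, rfl⟩ := hi
    refine infinite_of_forall_exists_gt (fun N => ?_)
    let j := Nat.pair m (N+1)
    have hjm : (Nat.unpair j).1 = m := by simp [j]
    have hjN : N + 1 ≤ j := Nat.right_le_pair m (N+1)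
    refine ⟨nn j (T j), ⟨?_, ?_, ?_⟩, ?_⟩
    · have := g1 j (T j)
      rwa [hjm] at this
    · have := g7 j (T j) f (by rw [← hT]; exact hf (j+1))
      rwa [hjm] at this
    · have := g8 j (T j) g (by rw [← hT]; exact hg (j+1))
      rwa [hjm] at this
    · have := g2 j (T j)
      omega

end Pool.Agent.H15.Max
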