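import Pool.Agent.H15.MaxA

set_option autoImplicit false

/-!
Helper file for MP_10444e_gt: the recursion of length `ω₁` under CH.
-/

namespace Pool.Agent.H15.Max

open Set

theorem exists_rec {J X : Type} [LinearOrder J] [WellFoundedLT J]
    (R : (α : J) → ((β : J) → β < α → X) → X → Prop) (h : ∀ α prev, ∃ x, R α prev x) :
    ∃ x : J → X, ∀ α, R α (fun β _ => x β) (x α) := by
  choose F hF using h
  let x : J → X := (wellFounded_lt (α := J)).fix F
  have hx : ∀ α, x α = F α (fun β _ => x β) := fun α => (wellFounded_lt (α := J)).fix_eq F α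
  refine ⟨x, fun α => ?_⟩
  have := hF α (fun β _ => x β)
  rw [← hx α] at this
  exact this

abbrev X4 := ((ℕ → ℕ) × (ℕ → ℕ)) × ((ℕ → ℕ) × (ℕ → ℕ))

/-- elements produced before stage `α` -/
def DD {J : Type} [LinearOrder J] (α : J) (prev : (β : J) → β < α → X4) : Set (ℕ → ℕ) :=
  QQ ∪ ({a | ∃ (β : J) (hβ : β < α), a = emF (prev β hβ).2.1} ∪
    {a | ∃ (β : J) (hβ : β < α), a = emG (prev β hβ).2.2})

theorem DD_countable {J : Type} [LinearOrder J] (hJ : ∀ γ : J, (Iio γ).Countable) (α : J)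
    (prev : (β : J) → β < α → X4) : (DD α prev).Countable := by
  classical
  refine QQ_countable.union (Countable.union ?_ ?_)
  · refine ((hJ α).image (fun β => if h : β < α then emF (prev β h).2.1 else 0)).mono ?_
    rintro a ⟨β, hβ, rfl⟩
    exact ⟨β, hβ, by simp only [dif_pos hβ]⟩
  · refine ((hJ α).image (fun β => if h : β < α then emG (prev β h).2.2 else 0)).mono ?_
    rintro a ⟨β, hβ, rfl⟩
    exact ⟨β, hβ, by simp only [dif_pos hβ]⟩

def SU (P : Code) (H : ℕ → ℕ) (B : Finset (ℕ → ℕ)) : Set ℕ := {n | ∀ a ∈ B, n ∈ Uset P H a}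

def Ext (P : Code) (H K : ℕ → ℕ) (D : Set (ℕ → ℕ)) (f g : ℕ → ℕ) : Prop :=
  Nice P H K → ∀ B : Finset (ℕ → ℕ), (B : Set (ℕ → ℕ)) ⊆ D → (SU P H B).Infinite →
    {n | n ∈ SU P H B ∧ n ∈ Uset P H (emF f) ∧ n ∈ Uset P H (emG g)}.Infinite

theorem exists_family {J : Type} [LinearOrder J] [WellFoundedLT J]
    (hJ : ∀ γ : J, (Iio γ).Countable) (P : J → Code) (h : J → ℕ → ℕ) :
    ∃ x : J → X4, ∀ α : J,
      ((∀ a ∈ DD α (fun β _ => x β), Cov (P α) a) → Nice (P α) (x α).1.1 (x α).1.2 ∧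
        ∀ a ∈ DD α (fun β _ => x β), ∃ N, ∀ n ≥ N, n ∈ Uset (P α) (x α).1.1 a) ∧
      (∀ i, h α i ≤ (x α).2.1 ((x α).2.2 i)) ∧
      ∀ β ≤ α, Ext (P β) (x β).1.1 (x β).1.2 (DD α (fun β _ => x β)) (x α).2.1 (x α).2.2 := by
  classical
  let R : (α : J) → ((β : J) → β < α → X4) → X4 → Prop := fun α prev x =>
      ((∀ a ∈ DD α prev, Cov (P α) a) → Nice (P α) x.1.1 x.1.2 ∧
        ∀ a ∈ DD α prev, ∃ N, ∀ n ≥ N, n ∈ Uset (P α) x.1.1 a) ∧
      (∀ i, h α i ≤ x.2.1 (x.2.2 i)) ∧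
      (∀ (β : J) (hβ : β < α), Ext (P β) (prev β hβ).1.1 (prev β hβ).1.2 (DD α prev) x.2.1 x.2.2) ∧
      Ext (P α) x.1.1 x.1.2 (DD α prev) x.2.1 x.2.2
  obtain ⟨x, hx⟩ := exists_rec R (by
    intro α prev
    have hDc := DD_countable hJ α prev
    obtain ⟨H, K, hHK⟩ : ∃ H K : ℕ → ℕ, (∀ a ∈ DD α prev, Cov (P α) a) → Nice (P α) H K ∧
        ∀ a ∈ DD α prev, ∃ N, ∀ n ≥ N, n ∈ Uset (P α) H a := by
      by_cases hc : ∀ a ∈ DD α prev, Cov (P α) a
      · obtain ⟨H, K, h1⟩ := exists_HK (P α) (DD α prev) hDc subset_union_left hc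
        exact ⟨H, K, fun _ => h1⟩
      · exact ⟨0, 0, fun h => absurd h hc⟩
    let Hf : J → ℕ → ℕ := fun β => if hβ : β < α then (prev β hβ).1.1 else H
    let Kf : J → ℕ → ℕ := fun β => if hβ : β < α then (prev β hβ).1.2 else K
    let I : Set (J × Finset (ℕ → ℕ)) := {p | p.1 ∈ Iio α ∪ {α} ∧
      (p.2 : Set (ℕ → ℕ)) ⊆ DD α prev ∧ Nice (P p.1) (Hf p.1) (Kf p.1) ∧
      (SU (P p.1) (Hf p.1) p.2).Infinite}
    have hI : I.Countable := by
      have h1 : {B : Finset (ℕ → ℕ) | (B : Set (ℕ → ℕ)) ⊆ DD α prev}.Countable := by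
        have h2 : {t : Set (ℕ → ℕ) | t.Finite ∧ t ⊆ DD α prev}.Countable :=
          Set.countable_ofPred_finite_subset hDc
        refine (h2.preimage (f := fun B : Finset (ℕ → ℕ) => (B : Set (ℕ → ℕ)))
          Finset.coe_injective).mono ?_
        intro B hB
        exact ⟨B.finite_toSet, hB⟩
      refine (((hJ α).union (countable_singleton α)).prod h1).mono ?_
      rintro ⟨β, B⟩ ⟨h1, h2, -⟩
      exact ⟨h1, h2⟩
    obtain ⟨f, g, hfg, hext⟩ := lemC I hI (fun p => P p.1) (fun p => Hf p.1) (fun p => Kf p.1)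
      (fun p => SU (P p.1) (Hf p.1) p.2) (fun p hp => hp.2.2.1) (fun p hp => hp.2.2.2) (h α)
    refine ⟨((H, K), (f, g)), hHK, hfg, ?_, ?_⟩
    · intro β hβ hN B hB hinf
      have e1 : Hf β = (prev β hβ).1.1 := by simp only [Hf, dif_pos hβ]
      have e2 : Kf β = (prev β hβ).1.2 := by simp only [Kf, dif_pos hβ]
      have hp : ((β, B) : J × Finset (ℕ → ℕ)) ∈ I := by
        refine ⟨Or.inl hβ, hB, ?_, ?_⟩
        · show Nice (P β) (Hf β) (Kf β)
          rw [e1, e2]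
          exact hN
        · show (SU (P β) (Hf β) B).Infinite
          rw [e1]
          exact hinf
      have h3 := hext (β, B) hp
      simp only [e1] at h3
      exact h3
    · intro hN B hB hinf
      have e1 : Hf α = H := by simp only [Hf, dif_neg (lt_irrefl α)]
      have e2 : Kf α = K := by simp only [Kf, dif_neg (lt_irrefl α)]
      have hp : ((α, B) : J × Finset (ℕ → ℕ)) ∈ I := by
        refine ⟨Or.inr rfl, hB, ?_, ?_⟩
        · show Nice (P α) (Hf α) (Kf α)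
          rw [e1, e2]
          exact hN
        · show (SU (P α) (Hf α) B).Infinite
          rw [e1]
          exact hinf
      have h3 := hext (α, B) hp
      simp only [e1] at h3
      exact h3)
  refine ⟨x, fun α => ?_⟩
  obtain ⟨h1, h2, h3, h4⟩ := hx α
  refine ⟨h1, h2, fun β hβ => ?_⟩
  rcases hβ.eq_or_lt with rfl | hlt
  · exact h4
  · exact h3 β hlt

/-- the whole set -/
def AA {J : Type} (x : J → X4) : Set (ℕ → ℕ) :=
  QQ ∪ (range (fun α => emF (x α).2.1) ∪ range (fun α => emG (x α).2.2))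

theorem DD_sub {J : Type} [LinearOrder J] (x : J → X4) (α : J) :
    DD α (fun β _ => x β) ⊆ AA x := by
  rintro a (h | ⟨β, -, rfl⟩ | ⟨β, -, rfl⟩)
  · exact Or.inl h
  · exact Or.inr (Or.inl ⟨β, rfl⟩)
  · exact Or.inr (Or.inr ⟨β, rfl⟩)

theorem DD_mono {J : Type} [LinearOrder J] (x : J → X4) {α β : J} (h : α ≤ β) :
    DD α (fun β _ => x β) ⊆ DD β (fun β _ => x β) := by
  rintro a (h1 | ⟨γ, hγ, rfl⟩ | ⟨γ, hγ, rfl⟩)
  · exact Or.inl h1
  · exact Or.inr (Or.inl ⟨γ, hγ.trans_le h, rfl⟩)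
  · exact Or.inr (Or.inr ⟨γ, hγ.trans_le h, rfl⟩)

open Classical in
/-- all finite subsets are handled infinitely often -/
theorem all_finite {J : Type} [LinearOrder J] {P : J → Code} {x : J → X4}
    (hx1 : ∀ α : J, (∀ a ∈ DD α (fun β _ => x β), Cov (P α) a) →
      Nice (P α) (x α).1.1 (x α).1.2 ∧
        ∀ a ∈ DD α (fun β _ => x β), ∃ N, ∀ n ≥ N, n ∈ Uset (P α) (x α).1.1 a)
    (hx3 : ∀ α : J, ∀ β ≤ α,
      Ext (P β) (x β).1.1 (x β).1.2 (DD α (fun β _ => x β)) (x α).2.1 (x α).2.2)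
    (β : J) (hcov : ∀ a ∈ AA x, Cov (P β) a) (B : Finset (ℕ → ℕ))
    (hB : (B : Set (ℕ → ℕ)) ⊆ AA x) : ∃ n, ∀ a ∈ B, n ∈ Uset (P β) (x β).1.1 a := by
  obtain ⟨hN, hcof⟩ := hx1 β (fun a ha => hcov a (DD_sub x β ha))
  -- finite subsets of `DD β` and finitely many later pairs
  have key : ∀ (Γ : Finset J), (∀ γ ∈ Γ, β ≤ γ) → ∀ B₀ : Finset (ℕ → ℕ),
      (B₀ : Set (ℕ → ℕ)) ⊆ DD β (fun β _ => x β) →
      (SU (P β) (x β).1.1 (B₀ ∪ (Γ.image (fun γ => emF (x γ).2.1) ∪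
        Γ.image (fun γ => emG (x γ).2.2)))).Infinite := by
    intro Γ
    induction Γ using Finset.induction_on_max with
    | empty =>
      intro _ B₀ hB₀
      simp only [Finset.image_empty, Finset.union_empty]
      have h1 : ∃ N, ∀ n ≥ N, n ∈ SU (P β) (x β).1.1 B₀ := by
        have h2 : ∀ a : ℕ → ℕ, ∃ N, a ∈ B₀ → ∀ n ≥ N, n ∈ Uset (P β) (x β).1.1 a := by
          intro a
          by_cases ha : a ∈ B₀
          · obtain ⟨N, hN⟩ := hcof a (hB₀ ha)
            exact ⟨N, fun _ => hN⟩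
          · exact ⟨0, fun h => absurd h ha⟩
        choose Nf hNf using h2
        exact ⟨B₀.sup Nf, fun n hn a ha => hNf a ha n ((Finset.le_sup (f := Nf) ha).trans hn)⟩
      obtain ⟨N, hN⟩ := h1
      exact (Set.Ici_infinite N).mono (fun n hn => hN n hn)
    | insert γ Γ hmax ih =>
      intro hΓ B₀ hB₀
      have h1 := ih (fun δ hδ => hΓ δ (Finset.mem_insert_of_mem hδ)) B₀ hB₀
      have hβγ := hΓ γ (Finset.mem_insert_self γ Γ)
      have hsub : ((B₀ ∪ (Γ.image (fun γ => emF (x γ).2.1) ∪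
          Γ.image (fun γ => emG (x γ).2.2)) : Finset (ℕ → ℕ)) : Set (ℕ → ℕ)) ⊆
          DD γ (fun β _ => x β) := by
        intro a ha
        rcases Finset.mem_union.1 ha with ha | ha
        · exact DD_mono x hβγ (hB₀ ha)
        · rcases Finset.mem_union.1 ha with ha | ha
          · obtain ⟨δ, hδ, rfl⟩ := Finset.mem_image.1 ha
            exact Or.inr (Or.inl ⟨δ, hmax δ hδ, rfl⟩)
          · obtain ⟨δ, hδ, rfl⟩ := Finset.mem_image.1 ha
            exact Or.inr (Or.inr ⟨δ, hmax δ hδ, rfl⟩)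
      refine (hx3 γ β hβγ hN _ hsub h1).mono ?_
      rintro n ⟨hn1, hn2, hn3⟩ a ha
      rcases Finset.mem_union.1 ha with ha | ha
      · exact hn1 a (Finset.mem_union_left _ ha)
      · rcases Finset.mem_union.1 ha with ha | ha
        · obtain ⟨δ, hδ, rfl⟩ := Finset.mem_image.1 ha
          rcases Finset.mem_insert.1 hδ with rfl | hδ
          · exact hn2
          · exact hn1 _ (Finset.mem_union_right _ (Finset.mem_union_left _
              (Finset.mem_image_of_mem _ hδ)))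
        · obtain ⟨δ, hδ, rfl⟩ := Finset.mem_image.1 ha
          rcases Finset.mem_insert.1 hδ with rfl | hδ
          · exact hn3
          · exact hn1 _ (Finset.mem_union_right _ (Finset.mem_union_right _
              (Finset.mem_image_of_mem _ hδ)))
  have hidx : ∀ a : ℕ → ℕ, ∃ γ : J, a ∈ B → a ∉ DD β (fun β _ => x β) →
      β ≤ γ ∧ (a = emF (x γ).2.1 ∨ a = emG (x γ).2.2) := by
    intro a
    by_cases ha : a ∈ B ∧ a ∉ DD β (fun β _ => x β)
    · rcases hB ha.1 with h | ⟨γ, h⟩ | ⟨γ, h⟩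
      · exact absurd (Or.inl h) ha.2
      · refine ⟨γ, fun _ _ => ⟨?_, Or.inl h.symm⟩⟩
        by_contra hlt
        exact ha.2 (Or.inr (Or.inl ⟨γ, not_le.1 hlt, h.symm⟩))
      · refine ⟨γ, fun _ _ => ⟨?_, Or.inr h.symm⟩⟩
        by_contra hlt
        exact ha.2 (Or.inr (Or.inr ⟨γ, not_le.1 hlt, h.symm⟩))
    · exact ⟨β, fun h1 h2 => absurd ⟨h1, h2⟩ ha⟩
  choose idx hidx using hidx
  obtain ⟨n, hn⟩ := (key ((B.filter (fun a => a ∉ DD β (fun β _ => x β))).image idx)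
    (by
      intro γ hγ
      obtain ⟨a, ha, rfl⟩ := Finset.mem_image.1 hγ
      obtain ⟨h1, h2⟩ := Finset.mem_filter.1 ha
      exact (hidx a h1 h2).1)
    (B.filter (fun a => a ∈ DD β (fun β _ => x β)))
    (fun a ha => (Finset.mem_filter.1 ha).2)).nonempty
  refine ⟨n, fun a ha => hn a ?_⟩
  by_cases had : a ∈ DD β (fun β _ => x β)
  · exact Finset.mem_union_left _ (Finset.mem_filter.2 ⟨ha, had⟩)
  · have hmem : idx a ∈ (B.filter (fun a => a ∉ DD β (fun β _ => x β))).image idx :=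
      Finset.mem_image_of_mem _ (Finset.mem_filter.2 ⟨ha, had⟩)
    refine Finset.mem_union_right _ ?_
    rcases (hidx a ha had).2 with h | h
    · refine Finset.mem_union_left _ ?_
      rw [h]
      exact Finset.mem_image.2 ⟨idx a, hmem, by rw [← h]⟩
    · refine Finset.mem_union_right _ ?_
      rw [h]
      exact Finset.mem_image.2 ⟨idx a, hmem, by rw [← h]⟩

end Pool.Agent.H15.Max
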