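import Mathlib

set_option autoImplicit false

/-!
Definitions for MP_10444e_gt. A subspace `X` of a topological space `Y` is given as a set; its open
covers are given by families of open subsets of `Y` whose union contains `X`.
-/

namespace Pool.Agent.H15.Max

/-- `𝒲` (traced on `X`) is an `ω`-cover of `X`: no member contains `X` and every finite subset of
`X` is contained in a member. -/
def OmegaCover {Y : Type} (X : Set Y) (𝒲 : Set (Set Y)) : Prop :=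
  (∀ W ∈ 𝒲, ¬ X ⊆ W) ∧ ∀ A : Finset Y, (↑A : Set Y) ⊆ X → ∃ W ∈ 𝒲, (↑A : Set Y) ⊆ W

/-- `X` satisfies `U_fin(𝒪, Ω)`: for every sequence of open covers of `X`, none of which has a
finite subcover, there are finite subfamilies whose unions form an `ω`-cover of `X`. -/
def UfinOmega {Y : Type} [TopologicalSpace Y] (X : Set Y) : Prop :=
  ∀ U : ℕ → Set (Set Y), (∀ n, ∀ u ∈ U n, IsOpen u) → (∀ n, X ⊆ ⋃₀ U n) →
    (∀ n, ∀ F : Finset (Set Y), (↑F : Set (Set Y)) ⊆ U n → ¬ X ⊆ ⋃₀ (↑F : Set (Set Y))) →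
    ∃ F : ℕ → Finset (Set Y), (∀ n, (↑(F n) : Set (Set Y)) ⊆ U n) ∧
      OmegaCover X (Set.range fun n => ⋃₀ (↑(F n) : Set (Set Y)))

/-- `X` satisfies `S_fin(𝒪, 𝒪)` (Menger's property). -/
def Menger {Y : Type} [TopologicalSpace Y] (X : Set Y) : Prop :=
  ∀ U : ℕ → Set (Set Y), (∀ n, ∀ u ∈ U n, IsOpen u) → (∀ n, X ⊆ ⋃₀ U n) →
    ∃ F : ℕ → Finset (Set Y), (∀ n, (↑(F n) : Set (Set Y)) ⊆ U n) ∧
      X ⊆ ⋃ n, ⋃₀ (↑(F n) : Set (Set Y))

/-- `G(Y)`: all `g` eventually dominated by the pointwise maximum of some nonempty finite family of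
elements of `Y`. -/
def GG (Y : Set (ℕ → ℕ)) : Set (ℕ → ℕ) :=
  {g | ∃ F : Finset (ℕ → ℕ), F.Nonempty ∧ (↑F : Set (ℕ → ℕ)) ⊆ Y ∧
    ∀ᶠ m in Filter.atTop, g m ≤ F.sup (fun h => h m)}

end Pool.Agent.H15.Max
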