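import Pool.Agent.H15.MaxB
import Pool.Agent.H15.MaxDefs

set_option autoImplicit false

/-!
Helper file for MP_10444e_gt: topology and the final theorem.
-/

namespace Pool.Agent.H15.Max

open Set Cardinal Topology

def uu (a : ℕ → ℕ) : ℕ → Bool := fun m => decide (a (Nat.unpair m).1 = (Nat.unpair m).2)

theorem uu_embedding : IsEmbedding uu := by
  have hcont : Continuous uu := by
    refine continuous_pi (fun m => ?_)
    exact (continuous_of_discreteTopology (f := fun k : ℕ => decide (k = (Nat.unpair m).2))).comp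
      (continuous_apply (Nat.unpair m).1)
  refine ⟨?_, ?_⟩
  · rw [isInducing_iff_nhds]
    intro a
    refine le_antisymm (hcont.tendsto a).le_comap ?_
    have h1 : Filter.Tendsto (id : (ℕ → ℕ) → (ℕ → ℕ)) (Filter.comap uu (nhds (uu a))) (nhds a) := by
      rw [tendsto_pi_nhds]
      intro i
      rw [show nhds (a i) = pure (a i) from congrFun (nhds_discrete ℕ) (a i), Filter.tendsto_pure]
      have h2 : {z : ℕ → Bool | z (Nat.pair i (a i)) = true} ∈ nhds (uu a) := by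
        refine IsOpen.mem_nhds ?_ ?_
        · have hc : Continuous (fun z : ℕ → Bool => z (Nat.pair i (a i))) :=
            continuous_apply (Nat.pair i (a i))
          exact (isOpen_discrete ({true} : Set Bool)).preimage hc
        · show uu a (Nat.pair i (a i)) = true
          simp [uu]
      filter_upwards [Filter.preimage_mem_comap h2] with b hb
      have hb' : uu b (Nat.pair i (a i)) = true := hb
      simpa [uu] using hb'
    exact h1
  · intro a b hab
    funext i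
    have h1 := congrFun hab (Nat.pair i (b i))
    simpa [uu] using h1

noncomputable def ee (a : ℕ → ℕ) : ℝ := (cantorSetHomeomorphNatToBool.symm (uu a) : ℝ)

theorem ee_embedding : IsEmbedding ee :=
  (IsEmbedding.subtypeVal.comp cantorSetHomeomorphNatToBool.symm.isEmbedding).comp uu_embedding

theorem inv_cont (A : Set (ℕ → ℕ)) : ContinuousOn (Function.invFun ee) (ee '' A) := by
  rintro _ ⟨a, ha, rfl⟩
  have h0 : Function.invFun ee (ee a) = a := Function.leftInverse_invFun ee_embedding.injective a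
  unfold ContinuousWithinAt
  rw [h0]
  intro s hs
  have h1 := ee_embedding.isInducing.nhds_eq_comap a
  rw [h1] at hs
  obtain ⟨t, ht, hts⟩ := Filter.mem_comap.1 hs
  rw [Filter.mem_map]
  refine Filter.mem_of_superset (Filter.inter_mem (mem_nhdsWithin_of_mem_nhds ht)
    self_mem_nhdsWithin) ?_
  rintro _ ⟨h2, ⟨b, hb, rfl⟩⟩
  show Function.invFun ee (ee b) ∈ s
  rw [Function.leftInverse_invFun ee_embedding.injective b]
  exact hts h2

theorem exists_ini {a : ℕ → ℕ} {W : Set (ℕ → ℕ)} (hW : IsOpen W) (ha : a ∈ W) :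
    ∃ m, ∀ b, ini b m = ini a m → b ∈ W := by
  obtain ⟨I, u, hu, hsub⟩ := isOpen_pi_iff.1 hW a ha
  refine ⟨I.sup id + 1, fun b hb => hsub ?_⟩
  intro i hi
  have hi' : i < I.sup id + 1 := Nat.lt_succ_of_le (Finset.le_sup (f := id) hi)
  have h1 : b i = a i := by
    have e1 := ini_getD b 0 hi'
    have e2 := ini_getD a 0 hi'
    rw [← e1, ← e2, hb]
  rw [h1]
  exact (hu i hi).2

open Classical in
/-- `A` has the selection property for covers by open subsets of `ℕ → ℕ` -/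
theorem selection {J : Type} [LinearOrder J] {P : J → Code} {x : J → X4}
    (hx1 : ∀ α : J, (∀ a ∈ DD α (fun β _ => x β), Cov (P α) a) →
      Nice (P α) (x α).1.1 (x α).1.2 ∧
        ∀ a ∈ DD α (fun β _ => x β), ∃ N, ∀ n ≥ N, n ∈ Uset (P α) (x α).1.1 a)
    (hx3 : ∀ α : J, ∀ β ≤ α,
      Ext (P β) (x β).1.1 (x β).1.2 (DD α (fun β _ => x β)) (x α).2.1 (x α).2.2)
    (hP : Function.Surjective P)
    (U : ℕ → Set (Set (ℕ → ℕ))) (hU : ∀ n, ∀ u ∈ U n, IsOpen u) (hc : ∀ n, AA x ⊆ ⋃₀ U n) :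
    ∃ F : ℕ → Finset (Set (ℕ → ℕ)), (∀ n, (↑(F n) : Set (Set (ℕ → ℕ))) ⊆ U n) ∧
      ∀ B : Finset (ℕ → ℕ), (↑B : Set (ℕ → ℕ)) ⊆ AA x →
        ∃ n, (↑B : Set (ℕ → ℕ)) ⊆ ⋃₀ (↑(F n) : Set (Set (ℕ → ℕ))) := by
  have hne : ∀ n, (U n).Nonempty := by
    intro n
    obtain ⟨u, hu, -⟩ := hc n (Or.inl (Or.inl ⟨[], rfl⟩))
    exact ⟨u, hu⟩
  have hW : ∀ n, ∃ W : ℕ → Set (ℕ → ℕ), (∀ j, W j ∈ U n) ∧ AA x ⊆ ⋃ j, W j := by
    intro n
    obtain ⟨T, hT1, hT2, hT3⟩ := TopologicalSpace.isOpen_sUnion_countable (U n) (hU n)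
    have hTne : T.Nonempty := by
      obtain ⟨u, hu, h1⟩ := hc n (Or.inl (Or.inl ⟨[], rfl⟩))
      have h2 : emF (ev [] 0) ∈ ⋃₀ T := by
        rw [hT3]
        exact ⟨u, hu, h1⟩
      obtain ⟨t, ht, -⟩ := h2
      exact ⟨t, ht⟩
    obtain ⟨W, hWr⟩ := hT1.exists_eq_range hTne
    refine ⟨W, fun j => hT2 (by rw [hWr]; exact ⟨j, rfl⟩), ?_⟩
    intro a ha
    have h2 := hc n ha
    rw [← hT3, hWr] at h2
    obtain ⟨_, ⟨j, rfl⟩, h3⟩ := h2
    exact mem_iUnion.2 ⟨j, h3⟩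
  choose W hW1 hW2 using hW
  let Q : Code := fun n k => {s | ∀ b : ℕ → ℕ, ini b s.length = s → ∃ j ≤ k, b ∈ W n j}
  obtain ⟨β, hβ⟩ := hP Q
  have hcov : ∀ a ∈ AA x, Cov (P β) a := by
    intro a ha n
    obtain ⟨j, hj⟩ := mem_iUnion.1 (hW2 n ha)
    obtain ⟨m, hm⟩ := exists_ini (hU n _ (hW1 n j)) hj
    rw [hβ]
    refine ⟨j, m, fun b hb => ⟨j, le_rfl, hm b ?_⟩⟩
    rwa [ini_length] at hb
  refine ⟨fun n => (Finset.range ((x β).1.1 n + 1)).image (W n), ?_, ?_⟩
  · intro n u hu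
    obtain ⟨j, -, rfl⟩ := Finset.mem_image.1 (Finset.mem_coe.1 hu)
    exact hW1 n j
  · intro B hB
    obtain ⟨n, hn⟩ := all_finite hx1 hx3 β hcov B hB
    refine ⟨n, fun a ha => ?_⟩
    obtain ⟨k, hk, m, hm⟩ := hn a ha
    rw [hβ] at hm
    obtain ⟨j, hj, haj⟩ := hm a (by rw [ini_length])
    exact ⟨W n j, Finset.mem_coe.2 (Finset.mem_image.2 ⟨j, Finset.mem_range.2 (by omega), rfl⟩), haj⟩

theorem theta_open (n k : ℕ) : IsOpen {s : ℕ → ℕ | s (2 * s (2*n+1)) ≤ k} := by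
  have h1 : {s : ℕ → ℕ | s (2 * s (2*n+1)) ≤ k} =
      ⋃ j : ℕ, ({s : ℕ → ℕ | s (2*n+1) = j} ∩ {s : ℕ → ℕ | s (2*j) ≤ k}) := by
    ext s
    simp
  rw [h1]
  refine isOpen_iUnion (fun j => IsOpen.inter ?_ ?_)
  · have hc : Continuous (fun s : ℕ → ℕ => s (2*n+1)) := continuous_apply (2*n+1)
    exact (isOpen_discrete ({j} : Set ℕ)).preimage hc
  · have hc : Continuous (fun s : ℕ → ℕ => s (2*j)) := continuous_apply (2*j)
    exact (isOpen_discrete (Set.Iic k)).preimage hc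

theorem final (hCH : (2 : Cardinal.{0}) ^ ℵ₀ = Cardinal.aleph 1) :
    ∃ X : Set ℝ, UfinOmega X ∧ ∃ f : ℝ → (ℕ → ℕ), ContinuousOn f X ∧
      ¬ Menger (GG (f '' X)) ∧ ¬ UfinOmega (GG (f '' X)) := by
  classical
  let J : Type := (Cardinal.aleph.{0} 1).ord.ToType
  have hJc : #J = Cardinal.aleph 1 := by
    show #(Cardinal.aleph.{0} 1).ord.ToType = _
    rw [Cardinal.mk_ord_toType]
  have hJ : ∀ γ : J, (Iio γ).Countable := fun γ => by
    rw [Cardinal.countable_iff_lt_aleph_one]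
    have := Cardinal.mk_Iio_toType_ord_lt (c := Cardinal.aleph.{0} 1) γ
    exact this
  have hle : #(Code × (ℕ → ℕ)) ≤ #J := by
    rw [hJc, ← hCH]
    have h1 : #(Set (List ℕ)) = 2 ^ ℵ₀ := by
      rw [mk_set]
      congr 1
      exact mk_denumerable _
    have h2 : #Code = 2 ^ ℵ₀ := by
      show #(ℕ → ℕ → Set (List ℕ)) = _
      rw [← Cardinal.power_def, ← Cardinal.power_def, h1, mk_nat, ← power_mul, aleph0_mul_aleph0,
        ← power_mul, aleph0_mul_aleph0]
    have h3 : #(ℕ → ℕ) = 2 ^ ℵ₀ := by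
      rw [← Cardinal.power_def, mk_nat, aleph0_power_aleph0]
      exact two_power_aleph0.symm
    rw [mk_prod, Cardinal.lift_id, Cardinal.lift_id, h2, h3, ← power_add, aleph0_add_aleph0]
  obtain ⟨ι⟩ := (Cardinal.le_def _ _).1 hle
  have hsurj : Function.Surjective (Function.invFun ι) := Function.invFun_surjective ι.injective
  let P : J → Code := fun α => (Function.invFun ι α).1
  let h : J → ℕ → ℕ := fun α => (Function.invFun ι α).2
  obtain ⟨x, hx⟩ := exists_family hJ P h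
  have hP : Function.Surjective P := by
    intro p
    obtain ⟨α, hα⟩ := hsurj (p, 0)
    exact ⟨α, by show (Function.invFun ι α).1 = p; rw [hα]⟩
  have hh : Function.Surjective h := by
    intro p
    obtain ⟨α, hα⟩ := hsurj (fun _ _ => ∅, p)
    exact ⟨α, by show (Function.invFun ι α).2 = p; rw [hα]⟩
  have hsel := selection (x := x) (P := P) (fun α => (hx α).1) (fun α => (hx α).2.2) hP
  let f : ℝ → (ℕ → ℕ) := Function.invFun ee
  have hfe : ∀ a, f (ee a) = a := Function.leftInverse_invFun ee_embedding.injective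
  have hfX : f '' (ee '' AA x) = AA x := by
    rw [image_image]
    simp only [hfe, image_id']
  have hX : UfinOmega (ee '' AA x) := by
    intro U hU hc hnf
    obtain ⟨F, hF1, hF2⟩ := hsel (fun n => (fun u => ee ⁻¹' u) '' U n)
      (by
        rintro n _ ⟨u, hu, rfl⟩
        exact (hU n u hu).preimage ee_embedding.continuous)
      (by
        intro n a ha
        obtain ⟨u, hu, hau⟩ := hc n ⟨a, ha, rfl⟩
        exact ⟨ee ⁻¹' u, ⟨u, hu, rfl⟩, hau⟩)
    have hch : ∀ (n : ℕ) (v : Set (ℕ → ℕ)), ∃ u : Set ℝ, v ∈ F n → u ∈ U n ∧ ee ⁻¹' u = v := by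
      intro n v
      by_cases hv : v ∈ F n
      · obtain ⟨u, hu, hue⟩ := hF1 n hv
        exact ⟨u, fun _ => ⟨hu, hue⟩⟩
      · exact ⟨∅, fun h => absurd h hv⟩
    choose c hc using hch
    have hFU : ∀ n, (↑((F n).image (c n)) : Set (Set ℝ)) ⊆ U n := by
      intro n u hu
      obtain ⟨v, hv, rfl⟩ := Finset.mem_image.1 (Finset.mem_coe.1 hu)
      exact (hc n v hv).1
    refine ⟨fun n => (F n).image (c n), hFU, ?_, ?_⟩
    · rintro W ⟨n, rfl⟩
      exact hnf n _ (hFU n)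
    · intro A hA
      obtain ⟨n, hn⟩ := hF2 (A.image f) (by
        intro a ha
        obtain ⟨r, hr, rfl⟩ := Finset.mem_image.1 (Finset.mem_coe.1 ha)
        obtain ⟨b, hb, rfl⟩ := hA hr
        rw [hfe]
        exact hb)
      refine ⟨_, ⟨n, rfl⟩, fun r hr => ?_⟩
      obtain ⟨b, hb, rfl⟩ := hA hr
      obtain ⟨v, hv, hbv⟩ := hn (Finset.mem_coe.2 (Finset.mem_image.2 ⟨ee b, hr, hfe b⟩))
      refine ⟨c n v, Finset.mem_coe.2 (Finset.mem_image_of_mem _ hv), ?_⟩
      have := (hc n v hv).2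
      rw [← this] at hbv
      exact hbv
  -- a family of covers witnessing the failure
  let V : ℕ → Set (Set (ℕ → ℕ)) := fun n =>
    range (fun k : ℕ => {s : ℕ → ℕ | s (2 * s (2*n+1)) ≤ k})
  have hV1 : ∀ n, ∀ u ∈ V n, IsOpen u := by
    rintro n _ ⟨k, rfl⟩
    exact theta_open n k
  have hV2 : ∀ n, GG (f '' (ee '' AA x)) ⊆ ⋃₀ V n := by
    intro n s _
    exact ⟨_, ⟨s (2 * s (2*n+1)), rfl⟩, le_refl (s (2 * s (2*n+1)))⟩
  have hbd : ∀ (n : ℕ) (F : Finset (Set (ℕ → ℕ))), (↑F : Set (Set (ℕ → ℕ))) ⊆ V n →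
      ∃ k : ℕ, ∀ s ∈ ⋃₀ (↑F : Set (Set (ℕ → ℕ))), s (2 * s (2*n+1)) ≤ k := by
    intro n F hF
    have h1 : ∀ v : Set (ℕ → ℕ), ∃ k : ℕ, v ∈ F → ∀ s ∈ v, s (2 * s (2*n+1)) ≤ k := by
      intro v
      by_cases hv : v ∈ F
      · obtain ⟨k, hk⟩ := hF hv
        refine ⟨k, fun _ s hs => ?_⟩
        rw [← hk] at hs
        exact hs
      · exact ⟨0, fun h => absurd h hv⟩
    choose k hk using h1
    refine ⟨F.sup k, ?_⟩
    rintro s ⟨v, hv, hs⟩
    exact (hk v hv s hs).trans (Finset.le_sup (f := k) hv)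
  have hdom : ∀ bd : ℕ → ℕ, ∃ s ∈ GG (f '' (ee '' AA x)), ∀ n, bd n < s (2 * s (2*n+1)) := by
    intro bd
    obtain ⟨α, hα⟩ := hh (fun n => bd n + 1)
    have hdom : ∀ i, bd i + 1 ≤ (x α).2.1 ((x α).2.2 i) := by
      intro i
      have := (hx α).2.1 i
      rw [hα] at this
      exact this
    let s : ℕ → ℕ := fun m => max (emF (x α).2.1 m) (emG (x α).2.2 m)
    refine ⟨s, ⟨{emF (x α).2.1, emG (x α).2.2}, ⟨_, Finset.mem_insert_self _ _⟩, ?_, ?_⟩, ?_⟩
    · rw [hfX]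
      intro a ha
      rcases Finset.mem_insert.1 (Finset.mem_coe.1 ha) with rfl | ha
      · exact Or.inr (Or.inl ⟨α, rfl⟩)
      · rw [Finset.mem_singleton.1 ha]
        exact Or.inr (Or.inr ⟨α, rfl⟩)
    · refine Filter.Eventually.of_forall (fun m => ?_)
      refine max_le ?_ ?_
      · exact Finset.le_sup (f := fun h : ℕ → ℕ => h m) (Finset.mem_insert_self _ _)
      · exact Finset.le_sup (f := fun h : ℕ → ℕ => h m)
          (Finset.mem_insert_of_mem (Finset.mem_singleton_self _))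
    · intro n
      have h2 : s (2*n+1) = (x α).2.2 n := by
        have e1 : (2*n+1) % 2 = 1 := by omega
        have e2 : (2*n+1) / 2 = n := by omega
        simp [s, emF, emG, e1, e2]
      have h3 : ∀ j, s (2*j) = (x α).2.1 j := by
        intro j
        have e1 : (2*j) % 2 = 0 := by omega
        have e2 : (2*j) / 2 = j := by omega
        simp [s, emF, emG, e1, e2]
      rw [h2, h3]
      have := hdom n
      omega
  refine ⟨ee '' AA x, hX, f, inv_cont _, ?_, ?_⟩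
  · intro hM
    obtain ⟨F, hF1, hF2⟩ := hM V hV1 hV2
    have hk := fun n => hbd n (F n) (hF1 n)
    choose bd hbd' using hk
    obtain ⟨s, hs, hlt⟩ := hdom bd
    obtain ⟨n, hn⟩ := mem_iUnion.1 (hF2 hs)
    exact absurd (hbd' n s hn) (not_le.2 (hlt n))
  · intro hM
    obtain ⟨F, hF1, -, hF2⟩ := hM V hV1 hV2 (by
      intro n F hF hsub
      obtain ⟨k, hk⟩ := hbd n F hF
      obtain ⟨s, hs, hlt⟩ := hdom (fun _ => k)
      exact absurd (hk s (hsub hs)) (not_le.2 (hlt n)))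
    have hk := fun n => hbd n (F n) (hF1 n)
    choose bd hbd' using hk
    obtain ⟨s, hs, hlt⟩ := hdom bd
    obtain ⟨W, ⟨n, rfl⟩, hn⟩ := hF2 {s} (by simpa using hs)
    exact absurd (hbd' n s (hn (by simp))) (not_le.2 (hlt n))

end Pool.Agent.H15.Max
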