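import Pool.Agent.H15.MaxDefs

set_option autoImplicit false

namespace Pool.Agent.H15.Max

open Topology Filter Set

/-- finite subcover of a bounded box, with a finite number of coordinates -/
theorem box_cover (b : ℕ → ℕ) (U : Set (Set (ℕ → ℕ))) (hU : ∀ u ∈ U, IsOpen u)
    (hc : ∀ g : ℕ → ℕ, (∀ i, g i ≤ b i) → ∃ u ∈ U, g ∈ u) :
    ∃ F : Finset (Set (ℕ → ℕ)), (↑F : Set (Set (ℕ → ℕ))) ⊆ U ∧ ∃ L : ℕ, ∀ h : ℕ → ℕ,
      (∀ i, i < L → h i ≤ b i) → h ∈ ⋃₀ (↑F : Set (Set (ℕ → ℕ))) := by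
  classical
  have hK : IsCompact {g : ℕ → ℕ | ∀ i, g i ≤ b i} := by
    have : {g : ℕ → ℕ | ∀ i, g i ≤ b i} = Set.pi univ (fun i => Set.Iic (b i)) := by
      ext g
      exact ⟨fun h i _ => h i, fun h i => h i (Set.mem_univ i)⟩
    rw [this]
    exact isCompact_univ_pi (fun i => (Set.finite_Iic (b i)).isCompact)
  have h1 : ∀ g : ℕ → ℕ, ∃ u : Set (ℕ → ℕ), ∃ L : ℕ, (∀ i, g i ≤ b i) →
      (u ∈ U ∧ ∀ h : ℕ → ℕ, (∀ i, i < L → h i = g i) → h ∈ u) := by
    intro g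
    by_cases hg : ∀ i, g i ≤ b i
    · obtain ⟨u, hu, hgu⟩ := hc g hg
      obtain ⟨I, w, hw, hsub⟩ := isOpen_pi_iff.1 (hU u hu) g hgu
      refine ⟨u, I.sup id + 1, fun _ => ⟨hu, fun h hh => hsub ?_⟩⟩
      intro i hi
      have hi' : i ∈ I := hi
      rw [hh i (Nat.lt_succ_of_le (Finset.le_sup (f := id) hi'))]
      exact (hw i hi').2
    · exact ⟨∅, 0, fun h => absurd h hg⟩
  choose u L hu using h1
  obtain ⟨t, ht, hcov⟩ := hK.elim_nhds_subcover (fun g => {h : ℕ → ℕ | ∀ i, i < L g → h i = g i}) (by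
    intro g _
    have : {h : ℕ → ℕ | ∀ i, i < L g → h i = g i} = ⋂ i ∈ Finset.range (L g), {h : ℕ → ℕ | h i = g i} := by
      ext h; simp
    rw [this]
    refine (Filter.biInter_finset_mem _).2 (fun i _ => ?_)
    have : IsOpen {h : ℕ → ℕ | h i = g i} := by
      have : {h : ℕ → ℕ | h i = g i} = (fun h : ℕ → ℕ => h i) ⁻¹' {g i} := rfl
      rw [this]
      exact (isOpen_discrete _).preimage (continuous_apply i)
    exact this.mem_nhds rfl)
  refine ⟨t.image u, ?_, t.sup L, ?_⟩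
  · intro v hv
    have hv' : v ∈ t.image u := hv
    obtain ⟨g, hg, rfl⟩ := Finset.mem_image.1 hv'
    exact (hu g (ht g hg)).1
  · intro h hh
    have h2 : (fun i => if i < t.sup L then h i else 0) ∈ {g : ℕ → ℕ | ∀ i, g i ≤ b i} := by
      intro i
      by_cases hi : i < t.sup L
      · simp only [if_pos hi]; exact hh i hi
      · simp only [if_neg hi]; exact Nat.zero_le _
    obtain ⟨g, hg, hg2⟩ := Set.mem_iUnion₂.1 (hcov h2)
    refine ⟨u g, ?_, ?_⟩
    · exact Finset.mem_coe.2 (Finset.mem_image_of_mem u hg)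
    · apply (hu g (ht g hg)).2
      intro i hi
      have h3 := hg2 i hi
      have h4 : i < t.sup L := lt_of_lt_of_le hi (Finset.le_sup (f := L) hg)
      simp only [if_pos h4] at h3
      exact h3

/-- bound function of a tuple -/
def bnd (f : ℝ → (ℕ → ℕ)) {k : ℕ} (p : Fin k → ℝ) (c : ℕ) (i : ℕ) : ℕ :=
  (Finset.univ.sup (fun j => f (p j) i)) + (if i < c then c else 0)

theorem box_sub (X : Set ℝ) (f : ℝ → (ℕ → ℕ)) (x0 : ℝ) (hx0 : x0 ∈ X) {k : ℕ} (p : Fin k → ℝ)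
    (hp : ∀ i, p i ∈ X) (c : ℕ) (g : ℕ → ℕ) (hg : ∀ i, g i ≤ bnd f p c i) : g ∈ GG (f '' X) := by
  classical
  refine ⟨insert (f x0) (Finset.univ.image (fun j => f (p j))), Finset.insert_nonempty _ _, ?_, ?_⟩
  · intro h hh
    have hh' : h ∈ insert (f x0) (Finset.univ.image (fun j => f (p j))) := hh
    rw [Finset.mem_insert, Finset.mem_image] at hh'
    rcases hh' with rfl | ⟨j, _, rfl⟩
    · exact ⟨x0, hx0, rfl⟩
    · exact ⟨p j, hp j, rfl⟩
  · filter_upwards [Filter.eventually_ge_atTop c] with i hi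
    have h1 := hg i
    unfold bnd at h1
    rw [if_neg (not_lt.2 hi), add_zero] at h1
    refine h1.trans ?_
    rw [Finset.sup_insert, Finset.sup_image]
    exact le_sup_right

theorem exists_tuple (X : Set ℝ) (f : ℝ → (ℕ → ℕ)) (A : Finset (ℕ → ℕ))
    (hA : (↑A : Set (ℕ → ℕ)) ⊆ GG (f '' X)) :
    ∃ (k : ℕ) (p : Fin k → ℝ) (c : ℕ), (∀ i, p i ∈ X) ∧ ∀ g ∈ A, ∀ i, g i ≤ bnd f p c i := by
  classical
  have key : ∃ (F : Finset (ℕ → ℕ)) (c : ℕ), (↑F : Set (ℕ → ℕ)) ⊆ f '' X ∧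
      ∀ g ∈ A, ∀ i, g i ≤ F.sup (fun h => h i) + (if i < c then c else 0) := by
    induction A using Finset.induction_on with
    | empty => exact ⟨∅, 0, by simp, by simp⟩
    | insert g A _ ih =>
      obtain ⟨F, c, hF, hc⟩ := ih (fun a ha => hA (by
        rw [Finset.coe_insert]; exact Set.mem_insert_of_mem _ ha))
      obtain ⟨F', _, hF', hN⟩ := hA (show g ∈ (↑(insert g A) : Set (ℕ → ℕ)) by simp)
      obtain ⟨N, hN⟩ := Filter.eventually_atTop.1 hN
      refine ⟨F ∪ F', max c (max N ((Finset.range N).sup g)), ?_, ?_⟩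
      · rw [Finset.coe_union]; exact Set.union_subset hF hF'
      · intro a ha i
        rw [Finset.sup_union]
        rcases Finset.mem_insert.1 ha with rfl | ha
        · by_cases hi : i < N
          · have h1 : i < max c (max N ((Finset.range N).sup a)) :=
              lt_of_lt_of_le hi ((le_max_left _ _).trans (le_max_right _ _))
            rw [if_pos h1]
            have h2 : a i ≤ (Finset.range N).sup a := Finset.le_sup (f := a) (Finset.mem_range.2 hi)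
            have h3 : (Finset.range N).sup a ≤ max c (max N ((Finset.range N).sup a)) :=
              (le_max_right _ _).trans (le_max_right _ _)
            omega
          · have h1 := hN i (not_lt.1 hi)
            have h2 : F'.sup (fun h => h i) ≤ (F.sup (fun h => h i)) ⊔ (F'.sup (fun h => h i)) := le_sup_right
            omega
        · have h1 := hc a ha i
          have h2 : F.sup (fun h => h i) ≤ (F.sup (fun h => h i)) ⊔ (F'.sup (fun h => h i)) := le_sup_left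
          have h3 : (if i < c then c else 0) ≤
              (if i < max c (max N ((Finset.range N).sup g)) then max c (max N ((Finset.range N).sup g)) else 0) := by
            by_cases hi : i < c
            · rw [if_pos hi, if_pos (lt_of_lt_of_le hi (le_max_left _ _))]
              exact le_max_left _ _
            · rw [if_neg hi]; exact Nat.zero_le _
          omega
  obtain ⟨F, c, hF, hc⟩ := key
  have h1 : ∀ h : F, ∃ x ∈ X, f x = h.1 := fun h => hF h.2
  choose x hx hfx using h1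
  refine ⟨F.card, fun j => x (F.equivFin.symm j), c, fun j => hx _, ?_⟩
  intro g hg i
  refine (hc g hg i).trans ?_
  unfold bnd
  apply Nat.add_le_add_right
  apply Finset.sup_le
  intro h hh
  have h2 := Finset.le_sup (f := fun j => f (x (F.equivFin.symm j)) i) (Finset.mem_univ (F.equivFin ⟨h, hh⟩))
  simp only [Equiv.symm_apply_apply] at h2
  rw [hfx] at h2
  exact h2

theorem local_bound (X : Set ℝ) (f : ℝ → (ℕ → ℕ)) (hf : ContinuousOn f X) {k : ℕ} (p : Fin k → ℝ)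
    (hp : ∀ i, p i ∈ X) (c L : ℕ) :
    ∃ O : Set (Fin k → ℝ), IsOpen O ∧ p ∈ O ∧ ∀ q ∈ O, (∀ i, q i ∈ X) → ∀ i, i < L →
      bnd f q c i = bnd f p c i := by
  have h1 : ∀ (j : Fin k) (i : ℕ), {q : Fin k → ℝ | f (q j) i = f (p j) i} ∈ 𝓝[{q : Fin k → ℝ | ∀ i, q i ∈ X}] p := by
    intro j i
    have hc : ContinuousOn (fun q : Fin k → ℝ => f (q j) i) {q : Fin k → ℝ | ∀ i, q i ∈ X} := by
      have h2 : ContinuousOn (fun q : Fin k → ℝ => f (q j)) {q : Fin k → ℝ | ∀ i, q i ∈ X} :=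
        hf.comp (continuous_apply j).continuousOn (fun q hq => hq j)
      exact (continuous_apply i).comp_continuousOn h2
    have h3 := (hc p hp).preimage_mem_nhdsWithin ((isOpen_discrete {f (p j) i}).mem_nhds rfl)
    exact h3
  have h2 : (⋂ j : Fin k, ⋂ i ∈ Finset.range L, {q : Fin k → ℝ | f (q j) i = f (p j) i}) ∈
      𝓝[{q : Fin k → ℝ | ∀ i, q i ∈ X}] p := by
    refine (Filter.iInter_mem).2 (fun j => ?_)
    exact (Filter.biInter_finset_mem _).2 (fun i _ => h1 j i)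
  obtain ⟨O, hO, hpO, hsub⟩ := mem_nhdsWithin.1 h2
  refine ⟨O, hO, hpO, ?_⟩
  intro q hq hqX i hi
  have h3 := hsub ⟨hq, hqX⟩
  rw [Set.mem_iInter] at h3
  unfold bnd
  congr 1
  apply Finset.sup_congr rfl
  intro j _
  have h4 := h3 j
  rw [Set.mem_iInter₂] at h4
  exact h4 i (Finset.mem_range.2 hi)

theorem powers (X : Set ℝ) (hX : ∀ k : ℕ, Menger {p : Fin k → ℝ | ∀ i, p i ∈ X})
    (f : ℝ → (ℕ → ℕ)) (hf : ContinuousOn f X) : UfinOmega (GG (f '' X)) := by
  classical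
  intro U hUo hUc hUn
  -- X is nonempty
  have hne : ∃ x0, x0 ∈ X := by
    by_contra hcon
    push Not at hcon
    apply hUn 0 ∅ (by simp)
    intro g hg
    obtain ⟨F, ⟨h, hh⟩, hF, _⟩ := hg
    obtain ⟨x, hx, _⟩ := hF hh
    exact absurd hx (hcon x)
  obtain ⟨x0, hx0⟩ := hne
  have hG : ∀ k c : ℕ, ∃ G : ℕ → Finset (Set (ℕ → ℕ)),
      (∀ j, (↑(G j) : Set (Set (ℕ → ℕ))) ⊆ U (Nat.pair (Nat.pair k c) j)) ∧
      ∀ p : Fin k → ℝ, (∀ i, p i ∈ X) → ∃ j, ∀ g : ℕ → ℕ, (∀ i, g i ≤ bnd f p c i) →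
        g ∈ ⋃₀ (↑(G j) : Set (Set (ℕ → ℕ))) := by
    intro k c
    let V : ℕ → Set (Set (Fin k → ℝ)) := fun n => {O | IsOpen O ∧
      ∃ F : Finset (Set (ℕ → ℕ)), (↑F : Set (Set (ℕ → ℕ))) ⊆ U (Nat.pair (Nat.pair k c) n) ∧
        ∀ p ∈ O, (∀ i, p i ∈ X) → ∀ g : ℕ → ℕ, (∀ i, g i ≤ bnd f p c i) →
          g ∈ ⋃₀ (↑F : Set (Set (ℕ → ℕ)))}
    obtain ⟨H, hH, hcov⟩ := hX k V (fun n u hu => hu.1) (by
      intro n p hp
      have hp' : ∀ i, p i ∈ X := hp
      obtain ⟨F, hF, L, hL⟩ := box_cover (bnd f p c) (U (Nat.pair (Nat.pair k c) n)) (hUo _) (by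
        intro g hg
        have := hUc (Nat.pair (Nat.pair k c) n) (box_sub X f x0 hx0 p hp' c g hg)
        obtain ⟨u, hu, hgu⟩ := this
        exact ⟨u, hu, hgu⟩)
      obtain ⟨O, hO, hpO, hq⟩ := local_bound X f hf p hp' c L
      refine ⟨O, ⟨hO, F, hF, ?_⟩, hpO⟩
      intro q hqO hqX g hg
      apply hL
      intro i hi
      rw [← hq q hqO hqX i hi]
      exact hg i)
    have h1 : ∀ n : ℕ, ∀ O : Set (Fin k → ℝ), ∃ F : Finset (Set (ℕ → ℕ)), O ∈ V n →
        ((↑F : Set (Set (ℕ → ℕ))) ⊆ U (Nat.pair (Nat.pair k c) n) ∧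
        ∀ p ∈ O, (∀ i, p i ∈ X) → ∀ g : ℕ → ℕ, (∀ i, g i ≤ bnd f p c i) →
          g ∈ ⋃₀ (↑F : Set (Set (ℕ → ℕ)))) := by
      intro n O
      by_cases h : O ∈ V n
      · obtain ⟨_, F, hF⟩ := h
        exact ⟨F, fun _ => hF⟩
      · exact ⟨∅, fun h' => absurd h' h⟩
    choose E hE using h1
    refine ⟨fun j => (H j).biUnion (E j), ?_, ?_⟩
    · intro j u hu
      have hu' : u ∈ (H j).biUnion (E j) := hu
      obtain ⟨O, hO, hu2⟩ := Finset.mem_biUnion.1 hu'
      exact (hE j O (hH j hO)).1 hu2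
    · intro p hp
      obtain ⟨j, hj⟩ := Set.mem_iUnion.1 (hcov (show p ∈ {p : Fin k → ℝ | ∀ i, p i ∈ X} from hp))
      obtain ⟨O, hO, hpO⟩ := hj
      refine ⟨j, ?_⟩
      intro g hg
      obtain ⟨u, hu, hgu⟩ := (hE j O (hH j hO)).2 p hpO hp g hg
      exact ⟨u, Finset.mem_coe.2 (Finset.mem_biUnion.2 ⟨O, hO, hu⟩), hgu⟩
  choose G hG1 hG2 using hG
  refine ⟨fun n => G n.unpair.1.unpair.1 n.unpair.1.unpair.2 n.unpair.2, ?_, ?_, ?_⟩
  · intro n
    have := hG1 n.unpair.1.unpair.1 n.unpair.1.unpair.2 n.unpair.2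
    simpa only [Nat.pair_unpair] using this
  · rintro W ⟨n, rfl⟩
    apply hUn n
    have := hG1 n.unpair.1.unpair.1 n.unpair.1.unpair.2 n.unpair.2
    simpa only [Nat.pair_unpair] using this
  · intro A hA
    obtain ⟨k, p, c, hp, hb⟩ := exists_tuple X f A hA
    obtain ⟨j, hj⟩ := hG2 k c p hp
    refine ⟨_, ⟨Nat.pair (Nat.pair k c) j, rfl⟩, ?_⟩
    intro g hg
    have := hj g (hb g hg)
    simpa only [Nat.unpair_pair] using this

end Pool.Agent.H15.Max
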