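import Mathlib

set_option autoImplicit false

namespace Pool.Agent.H15.MixedDet

/-- the quadratic form -/
noncomputable def fR (y : Fin 21 → ℝ) : ℝ :=
  1000000 * (∑ k : Fin 21, y k) ^ 2 + (∑ k : Fin 21, (k:ℕ) * y k) ^ 2 + (∑ k : Fin 21, ((k:ℕ):ℝ) ^ 2 * y k) ^ 2
    - ∑ k : Fin 21, (1000000 + ((k:ℕ):ℝ) ^ 2 + ((k:ℕ):ℝ) ^ 4) * y k ^ 2

lemma sum2 : ∑ k : Fin 21, (((k:ℕ):ℝ)) ^ 2 = 2870 := by
  simp only [Fin.sum_univ_eq_sum_range (fun k : ℕ => (k:ℝ) ^ 2) 21]
  norm_num [Finset.sum_range_succ]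

lemma sum4 : ∑ k : Fin 21, (((k:ℕ):ℝ) ^ 2) ^ 2 = 722666 := by
  simp only [Fin.sum_univ_eq_sum_range (fun k : ℕ => ((k:ℝ) ^ 2) ^ 2) 21]
  norm_num [Finset.sum_range_succ]

lemma neg_of_sum_zero (y : Fin 21 → ℝ) (h : ∑ k : Fin 21, y k = 0) : fR y ≤ - ∑ k : Fin 21, y k ^ 2 := by
  have h1 := Finset.sum_mul_sq_le_sq_mul_sq Finset.univ (fun k : Fin 21 => ((k:ℕ):ℝ)) y
  have h2 := Finset.sum_mul_sq_le_sq_mul_sq Finset.univ (fun k : Fin 21 => ((k:ℕ):ℝ) ^ 2) y
  rw [sum2] at h1
  rw [sum4] at h2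
  have h3 : ∑ k : Fin 21, (1000000 + ((k:ℕ):ℝ) ^ 2 + ((k:ℕ):ℝ) ^ 4) * y k ^ 2 ≥
      1000000 * ∑ k : Fin 21, y k ^ 2 := by
    rw [Finset.mul_sum]
    apply Finset.sum_le_sum
    intro k _
    apply mul_le_mul_of_nonneg_right _ (sq_nonneg _)
    have : (0:ℝ) ≤ ((k:ℕ):ℝ) ^ 2 := by positivity
    have : (0:ℝ) ≤ ((k:ℕ):ℝ) ^ 4 := by positivity
    linarith
  have h4 : 0 ≤ ∑ k : Fin 21, y k ^ 2 := Finset.sum_nonneg (fun k _ => sq_nonneg _)
  unfold fR
  rw [h]
  linarith

lemma pos_of_pos (y : Fin 21 → ℝ) (h : ∀ k, 0 < y k) : 0 < fR y := by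
  have g : ∀ a : Fin 21 → ℝ, (∀ k, 0 ≤ a k) → ∑ k : Fin 21, a k ^ 2 ≤ (∑ k : Fin 21, a k) ^ 2 := by
    intro a ha
    rw [sq, Finset.sum_mul]
    apply Finset.sum_le_sum
    intro k _
    rw [sq]
    exact mul_le_mul_of_nonneg_left
      (Finset.single_le_sum (fun i _ => ha i) (Finset.mem_univ k)) (ha k)
  have h1 : ∑ k : Fin 21, y k ^ 2 < (∑ k : Fin 21, y k) ^ 2 := by
    rw [sq (∑ k : Fin 21, y k), Finset.sum_mul]
    apply Finset.sum_lt_sum_of_nonempty Finset.univ_nonempty
    intro k _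
    rw [sq]
    apply mul_lt_mul_of_pos_left _ (h k)
    obtain ⟨j, hj⟩ : ∃ j : Fin 21, j ≠ k := exists_ne k
    have h2 : y k + y j ≤ ∑ i, y i := by
      rw [← Finset.sum_pair hj.symm]
      exact Finset.sum_le_sum_of_subset_of_nonneg (Finset.subset_univ _) (fun i _ _ => (h i).le)
    linarith [h j]
  have h2 := g (fun k => ((k:ℕ):ℝ) * y k) (fun k => by have := h k; positivity)
  have h3 := g (fun k => ((k:ℕ):ℝ) ^ 2 * y k) (fun k => by have := h k; positivity)
  have h4 : ∑ k : Fin 21, (1000000 + ((k:ℕ):ℝ) ^ 2 + ((k:ℕ):ℝ) ^ 4) * y k ^ 2 =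
      1000000 * ∑ k : Fin 21, y k ^ 2 + ∑ k : Fin 21, (((k:ℕ):ℝ) * y k) ^ 2 + ∑ k : Fin 21, (((k:ℕ):ℝ) ^ 2 * y k) ^ 2 := by
    rw [Finset.mul_sum, ← Finset.sum_add_distrib, ← Finset.sum_add_distrib]
    refine Finset.sum_congr rfl fun k _ => ?_
    ring
  unfold fR
  rw [h4]
  linarith

/-- the associated bilinear form -/
noncomputable def BR (x y : Fin 21 → ℝ) : ℝ :=
  1000000 * ((∑ k : Fin 21, x k) * (∑ k : Fin 21, y k)) + (∑ k : Fin 21, (k:ℕ) * x k) * (∑ k : Fin 21, (k:ℕ) * y k)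
    + (∑ k : Fin 21, ((k:ℕ):ℝ) ^ 2 * x k) * (∑ k : Fin 21, ((k:ℕ):ℝ) ^ 2 * y k)
    - ∑ k : Fin 21, (1000000 + ((k:ℕ):ℝ) ^ 2 + ((k:ℕ):ℝ) ^ 4) * (x k * y k)

lemma fR_sub (x y : Fin 21 → ℝ) (t : ℝ) :
    fR (fun k => x k - t * y k) = fR x - 2 * t * BR x y + t ^ 2 * fR y := by
  have h1 : ∑ k : Fin 21, (x k - t * y k) = ∑ k : Fin 21, x k - t * ∑ k : Fin 21, y k := by
    rw [Finset.mul_sum, ← Finset.sum_sub_distrib]
  have h2 : ∑ k : Fin 21, ((k:ℕ):ℝ) * (x k - t * y k) =
      ∑ k : Fin 21, ((k:ℕ):ℝ) * x k - t * ∑ k : Fin 21, ((k:ℕ):ℝ) * y k := by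
    rw [Finset.mul_sum, ← Finset.sum_sub_distrib]
    refine Finset.sum_congr rfl fun k _ => ?_
    ring
  have h3 : ∑ k : Fin 21, ((k:ℕ):ℝ) ^ 2 * (x k - t * y k) =
      ∑ k : Fin 21, ((k:ℕ):ℝ) ^ 2 * x k - t * ∑ k : Fin 21, ((k:ℕ):ℝ) ^ 2 * y k := by
    rw [Finset.mul_sum, ← Finset.sum_sub_distrib]
    refine Finset.sum_congr rfl fun k _ => ?_
    ring
  have h4 : ∑ k : Fin 21, (1000000 + ((k:ℕ):ℝ) ^ 2 + ((k:ℕ):ℝ) ^ 4) * (x k - t * y k) ^ 2 =
      ∑ k : Fin 21, (1000000 + ((k:ℕ):ℝ) ^ 2 + ((k:ℕ):ℝ) ^ 4) * x k ^ 2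
      - 2 * t * ∑ k : Fin 21, (1000000 + ((k:ℕ):ℝ) ^ 2 + ((k:ℕ):ℝ) ^ 4) * (x k * y k)
      + t ^ 2 * ∑ k : Fin 21, (1000000 + ((k:ℕ):ℝ) ^ 2 + ((k:ℕ):ℝ) ^ 4) * y k ^ 2 := by
    rw [Finset.mul_sum, Finset.mul_sum, ← Finset.sum_sub_distrib, ← Finset.sum_add_distrib]
    refine Finset.sum_congr rfl fun k _ => ?_
    ring
  unfold fR BR
  rw [h1, h2, h3, h4]
  ring

lemma no_zero (x y : Fin 21 → ℝ) (hy : ∀ k, 0 < y k) (h1 : fR x - fR y = 0) (h2 : BR x y = 0) :
    False := by
  have hs : 0 < ∑ k : Fin 21, y k := Finset.sum_pos (fun k _ => hy k) Finset.univ_nonempty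
  set t := (∑ k : Fin 21, x k) / ∑ k : Fin 21, y k with ht
  have h3 := fR_sub x y t
  have h4 := pos_of_pos y hy
  have h5 : ∑ k : Fin 21, (x k - t * y k) = 0 := by
    rw [Finset.sum_sub_distrib, ← Finset.mul_sum, ht, div_mul_cancel₀ _ hs.ne', sub_self]
  have h6 := neg_of_sum_zero _ h5
  have h7 : 0 ≤ ∑ k : Fin 21, (x k - t * y k) ^ 2 := Finset.sum_nonneg (fun k _ => sq_nonneg _)
  rw [h2, show fR x = fR y by linarith] at h3
  nlinarith [mul_nonneg (sq_nonneg t) h4.le]

lemma fR_single (k : Fin 21) : fR (fun j => if j = k then 1 else 0) = 0 := by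
  unfold fR
  simp
  ring

lemma fR_pair {k l : Fin 21} (h : k ≠ l) :
    fR (fun j => (if j = k then 1 else 0) + (if j = l then 1 else 0)) =
      2 * (1000000 + (k:ℕ) * (l:ℕ) + ((k:ℕ):ℝ) ^ 2 * ((l:ℕ):ℝ) ^ 2) := by
  have h1 : ∀ j : Fin 21, ((if j = k then (1:ℝ) else 0) + (if j = l then 1 else 0)) ^ 2 =
      (if j = k then (1:ℝ) else 0) + (if j = l then 1 else 0) := by
    intro j
    by_cases h1 : j = k
    · have h2 : j ≠ l := fun h2 => h (h1.symm.trans h2)
      rw [if_pos h1, if_neg h2]; norm_num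
    · by_cases h2 : j = l
      · rw [if_neg h1, if_pos h2]; norm_num
      · rw [if_neg h1, if_neg h2]; norm_num
  unfold fR
  simp only [h1]
  simp only [mul_add, Finset.sum_add_distrib, mul_ite, mul_one, mul_zero,
    Finset.sum_ite_eq', Finset.mem_univ, if_true]
  ring

/-- pigeonhole -/
lemma pigeon {α : Type*} [DecidableEq α] (t : Fin 21 → α) :
    (∃ g : Fin 5 → Fin 21, Function.Injective g ∧ ∀ a b, t (g a) = t (g b)) ∨
    (∃ g : Fin 6 → Fin 21, Function.Injective (t ∘ g)) := by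
  by_cases h : (Finset.univ.image t).card ≤ 5
  · left
    obtain ⟨y, hy, hc⟩ := Finset.exists_lt_card_fiber_of_mul_lt_card_of_maps_to
      (s := (Finset.univ : Finset (Fin 21))) (t := Finset.univ.image t) (f := t) (n := 4)
      (fun a _ => Finset.mem_image_of_mem t (Finset.mem_univ a))
      (by rw [Finset.card_univ, Fintype.card_fin]; omega)
    obtain ⟨s, hs, hsc⟩ := Finset.exists_subset_card_eq (show 5 ≤ _ from hc)
    refine ⟨fun a => s.orderEmbOfFin hsc a, (s.orderEmbOfFin hsc).injective, ?_⟩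
    intro a b
    have h1 := hs (s.orderEmbOfFin_mem hsc a)
    have h2 := hs (s.orderEmbOfFin_mem hsc b)
    rw [Finset.mem_filter] at h1 h2
    rw [h1.2, h2.2]
  · right
    push Not at h
    obtain ⟨s, hs, hsc⟩ := Finset.exists_subset_card_eq (show 6 ≤ _ from h)
    have e := (Finset.equivFinOfCardEq hsc).symm
    have hh : ∀ a : Fin 6, ∃ k, t k = (e a : α) := by
      intro a
      have := hs (e a).2
      rw [Finset.mem_image] at this
      obtain ⟨k, _, hk⟩ := this
      exact ⟨k, hk⟩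
    choose g hg using hh
    refine ⟨g, ?_⟩
    intro a b hab
    simp only [Function.comp_apply] at hab
    rw [hg, hg] at hab
    exact e.injective (Subtype.ext hab)

theorem core (m : ℕ) (p q : Fin m → Fin 21 → ℝ) (w : Fin m → Fin 21 → ℂ)
    (hp : ∀ i k, 0 ≤ p i k) (hq : ∀ i k, 0 ≤ q i k) (hw : ∀ i k, ‖w i k‖ ^ 2 ≤ p i k * q i k)
    (H : ∀ y : Fin 21 → ℝ, fR y = (∑ i, ∑ k : Fin 21, p i k * y k) * (∑ i, ∑ k : Fin 21, q i k * y k) -
      ∑ i, ‖∑ k : Fin 21, w i k * (y k : ℂ)‖ ^ 2) : False := by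
  classical
  set P : Fin 21 → ℝ := fun k => ∑ i, p i k with hP
  set Qs : Fin 21 → ℝ := fun k => ∑ i, q i k with hQ
  -- values on basis vectors
  have H1 : ∀ k, P k * Qs k = ∑ i, ‖w i k‖ ^ 2 := by
    intro k
    have := H (fun j => if j = k then 1 else 0)
    rw [fR_single] at this
    simp only [mul_ite, mul_one, mul_zero, Finset.sum_ite_eq', Finset.mem_univ, if_true,
      Complex.ofReal_one, Complex.ofReal_zero, apply_ite Complex.ofReal] at this
    linarith
  have T1 : ∀ k i j, w i k ≠ 0 → w j k ≠ 0 → i = j := by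
    intro k i j hi hj
    by_contra hij
    have a1 : 0 < p i k * q i k := lt_of_lt_of_le (by positivity) (hw i k)
    have a2 : 0 < p j k * q j k := lt_of_lt_of_le (by positivity) (hw j k)
    have a3 : 0 < p i k := by
      rcases (hp i k).lt_or_eq with h | h
      · exact h
      · rw [← h] at a1; simp at a1
    have a4 : 0 < q j k := by
      rcases (hq j k).lt_or_eq with h | h
      · exact h
      · rw [← h] at a2; simp at a2
    have a5 : ∑ a, p a k * q a k < P k * Qs k := by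
      rw [hP, Finset.sum_mul]
      apply Finset.sum_lt_sum
      · intro a _
        exact mul_le_mul_of_nonneg_left
          (Finset.single_le_sum (f := fun i => q i k) (fun i _ => hq i k) (Finset.mem_univ a))
          (hp a k)
      · refine ⟨i, Finset.mem_univ i, mul_lt_mul_of_pos_left ?_ a3⟩
        have : q i k + q j k ≤ ∑ b, q b k := by
          rw [← Finset.sum_pair (f := fun b => q b k) hij]
          exact Finset.sum_le_sum_of_subset_of_nonneg (Finset.subset_univ _) (fun i _ _ => hq i k)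
        simp only [hQ]
        linarith
    have a6 : ∑ i, ‖w i k‖ ^ 2 ≤ ∑ a, p a k * q a k := Finset.sum_le_sum (fun a _ => hw a k)
    rw [H1] at a5
    linarith
  obtain ⟨t, ht⟩ : ∃ t : Fin 21 → Option (Fin m), ∀ k i, w i k ≠ 0 → t k = some i := by
    refine ⟨fun k => if h : ∃ i, w i k ≠ 0 then some h.choose else none, ?_⟩
    intro k i hi
    have h : ∃ i, w i k ≠ 0 := ⟨i, hi⟩
    simp only [dif_pos h]
    rw [T1 k _ _ h.choose_spec hi]
  rcases pigeon t with ⟨g, hg, hgt⟩ | ⟨g, hg⟩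
  · -- five indices of the same kind
    obtain ⟨i0, hi0⟩ : ∃ i0 : Option (Fin m), ∀ a, t (g a) = i0 := ⟨t (g 0), fun a => hgt a 0⟩
    obtain ⟨W, hW, hWz⟩ : ∃ W : Fin 5 → ℂ, (∀ i, (∀ a, w i (g a) = W a) ∨ (∀ a, w i (g a) = 0)) ∧
        True := by
      rcases i0 with _ | i0
      · refine ⟨fun _ => 0, fun i => Or.inr (fun a => ?_), trivial⟩
        by_contra hne
        have := ht _ _ hne
        rw [hi0 a] at this
        exact absurd this (by simp)
      · refine ⟨fun a => w i0 (g a), fun i => ?_, trivial⟩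
        by_cases hi : i = i0
        · left; intro a; rw [hi]
        · right; intro a
          by_contra hne
          have := ht _ _ hne
          rw [hi0 a] at this
          exact hi (Option.some_injective _ this).symm
    set A : Matrix (Fin 5) (Fin 5) ℝ := Matrix.of ![fun _ => 1, fun a => P (g a),
      fun a => (W a).re, fun a => (W a).im, fun _ => 0] with hA
    have hdet : A.det = 0 := Matrix.det_eq_zero_of_row_eq_zero 4 (fun a => by simp [hA])
    obtain ⟨c, hc0, hc⟩ := Matrix.exists_mulVec_eq_zero_iff.2 hdet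
    have r0 : ∑ a, c a = 0 := by
      have := congrFun hc 0
      simpa [Matrix.mulVec, dotProduct, hA] using this
    have r1 : ∑ a, P (g a) * c a = 0 := by
      have := congrFun hc 1
      simpa [Matrix.mulVec, dotProduct, hA] using this
    have r2 : ∑ a, (W a).re * c a = 0 := by
      have := congrFun hc 2
      simpa [Matrix.mulVec, dotProduct, hA] using this
    have r3 : ∑ a, (W a).im * c a = 0 := by
      have := congrFun hc 3
      simpa [Matrix.mulVec, dotProduct, hA] using this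
    set y : Fin 21 → ℝ := fun k => ∑ a, if g a = k then c a else 0 with hy
    have tr : ∀ h : Fin 21 → ℝ, ∑ k : Fin 21, h k * y k = ∑ a, h (g a) * c a := by
      intro h
      simp only [hy, Finset.mul_sum]
      rw [Finset.sum_comm]
      refine Finset.sum_congr rfl fun a _ => ?_
      simp
    have hyg : ∀ a, y (g a) = c a := by
      intro a
      simp only [hy]
      rw [Finset.sum_eq_single a]
      · simp
      · intro b _ hb
        rw [if_neg (fun h => hb (hg h))]
      · intro h; exact absurd (Finset.mem_univ a) h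
    have e0 : ∑ k : Fin 21, y k = 0 := by
      have := tr (fun _ => 1)
      simpa [r0] using this
    have e1 : ∑ i, ∑ k : Fin 21, p i k * y k = 0 := by
      rw [Finset.sum_comm]
      have := tr P
      rw [r1] at this
      rw [← this]
      refine Finset.sum_congr rfl fun k _ => ?_
      rw [hP, Finset.sum_mul]
    have e2 : ∀ i, ∑ k : Fin 21, w i k * (y k : ℂ) = 0 := by
      intro i
      have b1 := tr (fun k => (w i k).re)
      have b2 := tr (fun k => (w i k).im)
      apply Complex.ext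
      · rw [Complex.re_sum]
        simp only [Complex.re_mul_ofReal, Complex.zero_re]
        rw [b1]
        rcases hW i with h | h
        · simp only [h]; exact r2
        · simp only [h]; simp
      · rw [Complex.im_sum]
        simp only [Complex.im_mul_ofReal, Complex.zero_im]
        rw [b2]
        rcases hW i with h | h
        · simp only [h]; exact r3
        · simp only [h]; simp
    have e3 := H y
    rw [e1, zero_mul] at e3
    simp only [e2] at e3
    simp at e3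
    have e4 := neg_of_sum_zero y e0
    rw [e3] at e4
    have e5 : ∀ k, y k = 0 := by
      intro k
      by_contra hne
      have : 0 < ∑ k : Fin 21, y k ^ 2 := by
        apply Finset.sum_pos' (fun k _ => sq_nonneg _)
        exact ⟨k, Finset.mem_univ k, by positivity⟩
      linarith
    apply hc0
    funext a
    rw [← hyg a, e5]; rfl
  · -- six indices of distinct kinds
    have key : ∀ a b : Fin 6, a ≠ b →
        2 * (1000000 + ((g a : ℕ) : ℝ) * ((g b : ℕ) : ℝ) + ((g a : ℕ) : ℝ) ^ 2 * ((g b : ℕ) : ℝ) ^ 2)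
          = P (g a) * Qs (g b) + P (g b) * Qs (g a) := by
      intro a b hab
      have hne : t (g a) ≠ t (g b) := fun h => hab (hg h)
      have hne' : g a ≠ g b := fun h => hne (by rw [h])
      have h1 := H (fun j => (if j = g a then 1 else 0) + (if j = g b then 1 else 0))
      rw [fR_pair hne'] at h1
      simp only [mul_add, Finset.sum_add_distrib, mul_ite, mul_one, mul_zero,
        Finset.sum_ite_eq', Finset.mem_univ, if_true, Complex.ofReal_add,
        Complex.ofReal_one, Complex.ofReal_zero, apply_ite Complex.ofReal] at h1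
      have h2 : ∀ i, ‖w i (g a) + w i (g b)‖ ^ 2 = ‖w i (g a)‖ ^ 2 + ‖w i (g b)‖ ^ 2 := by
        intro i
        by_cases c1 : w i (g a) = 0
        · rw [c1]; simp
        · by_cases c2 : w i (g b) = 0
          · rw [c2]; simp
          · exact absurd ((ht _ _ c1).trans (ht _ _ c2).symm) hne
      simp only [h2] at h1
      rw [Finset.sum_add_distrib, ← H1, ← H1] at h1
      simp only [hP, hQ] at h1 ⊢
      linarith
    have inj : ∀ a b : Fin 6, a ≠ b → ((g a : ℕ) : ℝ) - ((g b : ℕ) : ℝ) ≠ 0 := by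
      intro a b hab h
      apply hab
      apply hg
      have : (g a : ℕ) = (g b : ℕ) := by exact_mod_cast sub_eq_zero.1 h
      simp only [Function.comp_apply]
      rw [Fin.ext this]
    have k03 := key 0 3 (by decide)
    have k04 := key 0 4 (by decide)
    have k05 := key 0 5 (by decide)
    have k13 := key 1 3 (by decide)
    have k14 := key 1 4 (by decide)
    have k15 := key 1 5 (by decide)
    have k23 := key 2 3 (by decide)
    have k24 := key 2 4 (by decide)
    have k25 := key 2 5 (by decide)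
    have i01 := inj 0 1 (by decide)
    have i02 := inj 0 2 (by decide)
    have i12 := inj 1 2 (by decide)
    have i34 := inj 3 4 (by decide)
    have i35 := inj 3 5 (by decide)
    have i45 := inj 4 5 (by decide)
    generalize ((g 0 : ℕ) : ℝ) = x0 at *
    generalize ((g 1 : ℕ) : ℝ) = x1 at *
    generalize ((g 2 : ℕ) : ℝ) = x2 at *
    generalize ((g 3 : ℕ) : ℝ) = x3 at *
    generalize ((g 4 : ℕ) : ℝ) = x4 at *
    generalize ((g 5 : ℕ) : ℝ) = x5 at *
    have d : ∀ m00 m01 m02 m10 m11 m12 m20 m21 m22 n00 n01 n02 n10 n11 n12 n20 n21 n22 : ℝ,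
        m00 = n00 → m01 = n01 → m02 = n02 → m10 = n10 → m11 = n11 → m12 = n12 → m20 = n20 →
        m21 = n21 → m22 = n22 →
        m00 * (m11 * m22 - m12 * m21) - m01 * (m10 * m22 - m12 * m20) +
          m02 * (m10 * m21 - m11 * m20) =
        n00 * (n11 * n22 - n12 * n21) - n01 * (n10 * n22 - n12 * n20) +
          n02 * (n10 * n21 - n11 * n20) := by
      intros; subst_vars; rfl
    have hd := d _ _ _ _ _ _ _ _ _ _ _ _ _ _ _ _ _ _ k03 k04 k05 k13 k14 k15 k23 k24 k25
    have hz : (8 * 1000000 : ℝ) * ((x0 - x1) * (x0 - x2) * (x1 - x2) *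
        ((x3 - x4) * (x3 - x5) * (x4 - x5))) = 0 := by
      linear_combination hd
    have : (8 * 1000000 : ℝ) * ((x0 - x1) * (x0 - x2) * (x1 - x2) *
        ((x3 - x4) * (x3 - x5) * (x4 - x5))) ≠ 0 := by
      apply mul_ne_zero (by norm_num)
      exact mul_ne_zero (mul_ne_zero (mul_ne_zero i01 i02) i12)
        (mul_ne_zero (mul_ne_zero i34 i35) i45)
    exact this hz

end Pool.Agent.H15.MixedDet
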