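import Mathlib

set_option autoImplicit false

/-!
Definitions for MP_f38362_gt: the game `G₁(𝒟,𝒟)`.
-/

namespace Pool.Agent.H15.OO

/-- `𝒰 ∈ 𝒟(X)`: a family of open sets with dense union. -/
def IsD {X : Type} [TopologicalSpace X] (𝒰 : Set (Set X)) : Prop :=
  (∀ U ∈ 𝒰, IsOpen U) ∧ Dense (⋃₀ 𝒰)

/-- ONE has a winning strategy in `G₁(𝒟,𝒟)`: a rule `σ` giving a member of `𝒟(X)` for every finite
sequence of moves of TWO, such that every play `U₀, U₁, …` of TWO against `σ` has non-dense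
union. -/
def OneWins (X : Type) [TopologicalSpace X] : Prop :=
  ∃ σ : List (Set X) → Set (Set X), (∀ h, IsD (σ h)) ∧
    ∀ U : ℕ → Set X, (∀ n, U n ∈ σ ((List.range n).map U)) → ¬ Dense (⋃ n, U n)

/-- TWO has a winning strategy in `G₁(𝒟,𝒟)`: a rule `τ` which for every finite sequence of moves of
ONE, the last one being `𝒰`, gives a member of `𝒰`, such that for every sequence of moves of ONE
the union of the answers is dense. -/
def TwoWins (X : Type) [TopologicalSpace X] : Prop :=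
  ∃ τ : List (Set (Set X)) → Set X,
    (∀ h 𝒰, (∀ 𝒱 ∈ h, IsD 𝒱) → IsD 𝒰 → τ (h ++ [𝒰]) ∈ 𝒰) ∧
    ∀ 𝒲 : ℕ → Set (Set X), (∀ n, IsD (𝒲 n)) → Dense (⋃ n, τ ((List.range (n+1)).map 𝒲))

/-- The game `G₁(𝒟,𝒟)` is undetermined on `X`. -/
def Undetermined (X : Type) [TopologicalSpace X] : Prop := ¬ OneWins X ∧ ¬ TwoWins X

end Pool.Agent.H15.OO
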