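import Pool.Agent.H15.CycA
import Pool.Agent.H15.OODefs

set_option autoImplicit false

/-!
Helper file for MP_f38362_gt: the abstract criterion.
-/

namespace Pool.Agent.H15.OO

open Set Pool.Agent.H15.Cyc

section abs

variable {X P J : Type} [TopologicalSpace X] [LinearOrder J]

/-- there are closed points for functions on finite lists -/
theorem large_lists {S : Set J} (hS : Large S)
    (hJ : ∀ γ : J, (Iio γ).Countable)
    (hb : ∀ s : Set J, s.Countable → ∃ η, ∀ x ∈ s, x < η)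
    (lev : P → J) (hlev : ∀ δ, {p | lev p ≤ δ}.Countable) (R : List P → P) (G : J → J) :
    ∃ δ ∈ S, (∃ ξ, ξ < δ) ∧ (∀ ξ < δ, G ξ < δ) ∧
      ∀ s : List P, (∀ p ∈ s, lev p < δ) → lev (R s) < δ := by
  classical
  have h1 : ∀ ξ : J, ∃ η, lev (R []) < η ∧ ∀ s : List P, (∀ p ∈ s, lev p ≤ ξ) → lev (R s) < η := by
    intro ξ
    have hc : {s : List P | ∀ p ∈ s, lev p ≤ ξ}.Countable := by
      have : {s : List P | ∀ p ∈ s, lev p ≤ ξ} ⊆
          range (fun s : List {p // lev p ≤ ξ} => s.map Subtype.val) := by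
        intro s hs
        refine ⟨s.attach.map (fun p => ⟨p.1, hs p.1 p.2⟩), ?_⟩
        simp [List.map_map, Function.comp_def]
      have hcc : Countable {p // lev p ≤ ξ} := (hlev ξ).to_subtype
      exact (countable_range _).mono this
    obtain ⟨η, hη⟩ := hb ((fun s => lev (R s)) '' {s : List P | ∀ p ∈ s, lev p ≤ ξ}) (hc.image _)
    exact ⟨η, hη _ ⟨[], by simp, rfl⟩, fun s hs => hη _ ⟨s, hs, rfl⟩⟩
  choose B hB0 hB using h1
  obtain ⟨δ, hδ, ⟨ξ, hξ⟩, hcl⟩ := hS (fun k => if k = 0 then G else B)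
  have hG : ∀ ξ < δ, G ξ < δ := fun ξ hξ => by simpa using hcl 0 ξ hξ
  have hBB : ∀ ξ < δ, B ξ < δ := fun ξ hξ => by simpa using hcl 1 ξ hξ
  refine ⟨δ, hδ, ⟨ξ, hξ⟩, hG, ?_⟩
  intro s hs
  rcases s with _ | ⟨a, s⟩
  · exact (hB0 ξ).trans (hBB ξ hξ)
  · obtain ⟨m, hm, hmax⟩ : ∃ m ∈ a :: s, ∀ p ∈ a :: s, lev p ≤ lev m := by
      obtain ⟨m, hm, h2⟩ := Finset.exists_max_image (a :: s).toFinset lev ⟨a, by simp⟩
      exact ⟨m, by simpa using hm, fun p hp => h2 p (by simpa using hp)⟩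
    exact (hB (lev m) (a :: s) hmax).trans (hBB _ (hs m hm))


def HW (Wf : List (Set (Set X)) → P → Set (Set X)) : List P → List (Set (Set X))
  | [] => []
  | p :: s => HW Wf s ++ [Wf (HW Wf s) p]

def HU (Uf : List (Set X) → P → Set X) : List P → List (Set X)
  | [] => []
  | p :: s => HU Uf s ++ [Uf (HU Uf s) p]

theorem not_two [Nonempty P] (N : P → Set X) {S : Set J} (hS : Large S)
    (hJ : ∀ γ : J, (Iio γ).Countable)
    (hb : ∀ s : Set J, s.Countable → ∃ η, ∀ x ∈ s, x < η)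
    (lev : P → J) (hlev : ∀ δ, {p | lev p ≤ δ}.Countable)
    (hN1 : ∀ p, IsOpen (N p)) (hN2 : ∀ p, (N p).Nonempty)
    (hN3 : ∀ O : Set X, IsOpen O → O.Nonempty → ∃ p, N p ⊆ O) (G : J → J)
    (ha : ∀ δ ∈ S, (∃ ξ, ξ < δ) → (∀ ξ < δ, G ξ < δ) → ∃ q : P, ∀ p, lev p < δ →
      ∃ p', lev p' < δ ∧ N p' ⊆ N p ∧ N p' ∩ N q = ∅) : ¬ TwoWins X := by
  classical
  rintro ⟨τ, hτ1, hτ2⟩
  have h1 : ∀ h : List (Set (Set X)), ∃ r : P, (∀ 𝒱 ∈ h, IsD 𝒱) → ∀ p, N p ⊆ N r →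
      ∃ 𝒰, IsD 𝒰 ∧ τ (h ++ [𝒰]) = N p := by
    intro h
    by_cases hh : ∀ 𝒱 ∈ h, IsD 𝒱
    · by_contra H
      have H' : ∀ r, ∃ p, N p ⊆ N r ∧ ∀ 𝒰, IsD 𝒰 → τ (h ++ [𝒰]) ≠ N p := by
        intro r
        by_contra hc
        refine H ⟨r, fun _ p hp => ?_⟩
        by_contra hc2
        exact hc ⟨p, hp, fun 𝒰 h3 h4 => hc2 ⟨𝒰, h3, h4⟩⟩
      choose p hp1 hp2 using H'
      have hD : IsD (range (fun r => N (p r))) := by
        refine ⟨?_, ?_⟩
        · rintro _ ⟨r, rfl⟩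
          exact hN1 _
        · rw [dense_iff_inter_open]
          intro O hO hne
          obtain ⟨r, hr⟩ := hN3 O hO hne
          obtain ⟨x, hx⟩ := hN2 (p r)
          exact ⟨x, hr (hp1 r hx), mem_sUnion.2 ⟨_, ⟨r, rfl⟩, hx⟩⟩
      obtain ⟨r, hr⟩ := hτ1 h _ hh hD
      exact hp2 r _ hD hr.symm
    · exact ⟨Classical.arbitrary P, fun h => absurd h hh⟩
  choose r hr using h1
  have h2 : ∀ (h : List (Set (Set X))) (p : P), ∃ 𝒰, (∀ 𝒱 ∈ h, IsD 𝒱) → N p ⊆ N (r h) →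
      IsD 𝒰 ∧ τ (h ++ [𝒰]) = N p := by
    intro h p
    by_cases hc : (∀ 𝒱 ∈ h, IsD 𝒱) ∧ N p ⊆ N (r h)
    · obtain ⟨𝒰, h3⟩ := hr h hc.1 p hc.2
      exact ⟨𝒰, fun _ _ => h3⟩
    · exact ⟨∅, fun h3 h4 => absurd ⟨h3, h4⟩ hc⟩
  choose Wf hWf using h2
  obtain ⟨δ, hδS, hδ1, hδ2, hcl⟩ := large_lists hS hJ hb lev hlev (fun s => r (HW Wf s)) G
  obtain ⟨q, hq⟩ := ha δ hδS hδ1 hδ2
  have h3 : ∀ p, ∃ p', lev p < δ → lev p' < δ ∧ N p' ⊆ N p ∧ N p' ∩ N q = ∅ := by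
    intro p
    by_cases hp : lev p < δ
    · obtain ⟨p', h⟩ := hq p hp
      exact ⟨p', fun _ => h⟩
    · exact ⟨p, fun h => absurd h hp⟩
  choose pk hpk using h3
  let s : ℕ → List P := fun n => Nat.rec [] (fun _ t => pk (r (HW Wf t)) :: t) n
  have hs : ∀ n, s (n+1) = pk (r (HW Wf (s n))) :: s n := fun n => rfl
  have hslev : ∀ n, ∀ p ∈ s n, lev p < δ := by
    intro n
    induction n with
    | zero => intro p hp; exact absurd hp (by simp [s])
    | succ n ih =>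
      intro p hp
      rw [hs] at hp
      rcases List.mem_cons.1 hp with rfl | hp
      · exact (hpk _ (hcl _ ih)).1
      · exact ih p hp
  have hsD : ∀ n, ∀ 𝒱 ∈ HW Wf (s n), IsD 𝒱 := by
    intro n
    induction n with
    | zero => intro 𝒱 h; exact absurd h (by simp [s, HW])
    | succ n ih =>
      intro 𝒱 h
      rw [hs] at h
      rcases List.mem_append.1 h with h | h
      · exact ih 𝒱 h
      · rw [List.mem_singleton.1 h]
        exact (hWf _ _ ih (hpk _ (hcl _ (hslev n))).2.1).1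
  let 𝒲 : ℕ → Set (Set X) := fun n => Wf (HW Wf (s n)) (pk (r (HW Wf (s n))))
  have hmap : ∀ n, (List.range n).map 𝒲 = HW Wf (s n) := by
    intro n
    induction n with
    | zero => simp [s, HW]
    | succ n ih =>
      rw [List.range_succ, List.map_append, ih, hs]
      rfl
  have hres : ∀ n, IsD (𝒲 n) ∧ τ (HW Wf (s n) ++ [𝒲 n]) = N (pk (r (HW Wf (s n)))) := fun n =>
    hWf _ _ (hsD n) (hpk _ (hcl _ (hslev n))).2.1
  have hdense := hτ2 𝒲 (fun n => (hres n).1)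
  obtain ⟨x, hx1, hx2⟩ := dense_iff_inter_open.1 hdense (N q) (hN1 q) (hN2 q)
  obtain ⟨n, hn⟩ := mem_iUnion.1 hx2
  rw [List.range_succ, List.map_append, hmap] at hn
  have hn' : x ∈ τ (HW Wf (s n) ++ [𝒲 n]) := hn
  rw [(hres n).2] at hn'
  have h4 := (hpk _ (hcl _ (hslev n))).2.2
  have : x ∈ N (pk (r (HW Wf (s n)))) ∩ N q := ⟨hn', hx1⟩
  rw [h4] at this
  exact this

theorem not_one [Nonempty P] (N : P → Set X) {S : Set J} (hS : Large S)
    (hJ : ∀ γ : J, (Iio γ).Countable)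
    (hb : ∀ s : Set J, s.Countable → ∃ η, ∀ x ∈ s, x < η)
    (lev : P → J) (hlev : ∀ δ, {p | lev p ≤ δ}.Countable)
    (hN1 : ∀ p, IsOpen (N p)) (hN2 : ∀ p, (N p).Nonempty)
    (hN3 : ∀ O : Set X, IsOpen O → O.Nonempty → ∃ p, N p ⊆ O) (G : J → J)
    (hbb : ∀ δ ∈ S, (∃ ξ, ξ < δ) → (∀ ξ < δ, G ξ < δ) → ∀ p : P, ∃ p', lev p' < δ ∧
      ∀ q, lev q < δ → N q ⊆ N p' → (N q ∩ N p).Nonempty) : ¬ OneWins X := by
  classical
  rintro ⟨σ, hσ1, hσ2⟩
  have h1 : ∀ (h : List (Set X)) (q : P), ∃ U p, U ∈ σ h ∧ N p ⊆ U ∧ N p ⊆ N q := by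
    intro h q
    obtain ⟨x, hx1, hx2⟩ := dense_iff_inter_open.1 (hσ1 h).2 (N q) (hN1 q) (hN2 q)
    obtain ⟨U, hU, hxU⟩ := hx2
    obtain ⟨p, hp⟩ := hN3 (U ∩ N q) (((hσ1 h).1 U hU).inter (hN1 q)) ⟨x, hxU, hx1⟩
    exact ⟨U, p, hU, fun y hy => (hp hy).1, fun y hy => (hp hy).2⟩
  choose Uf pf hUf hpU hpN using h1
  let R : List P → P := fun s => match s with
    | [] => Classical.arbitrary P
    | q :: t => pf (HU Uf t) q
  obtain ⟨δ, hδS, hδ1, hδ2, hcl⟩ := large_lists hS hJ hb lev hlev R G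
  have hB := hbb δ hδS hδ1 hδ2
  have hc : {p | lev p < δ}.Countable := (hlev δ).mono (fun p hp => le_of_lt hp)
  have hne : {p | lev p < δ}.Nonempty := by
    obtain ⟨p', hp', -⟩ := hB (Classical.arbitrary P)
    exact ⟨p', hp'⟩
  obtain ⟨e, he⟩ := hc.exists_eq_range hne
  have helev : ∀ n, lev (e n) < δ := fun n => by
    have : e n ∈ {p | lev p < δ} := by rw [he]; exact ⟨n, rfl⟩
    exact this
  let s : ℕ → List P := fun n => Nat.rec [] (fun n t => e n :: t) n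
  have hs : ∀ n, s (n+1) = e n :: s n := fun n => rfl
  have hslev : ∀ n, ∀ p ∈ s n, lev p < δ := by
    intro n
    induction n with
    | zero => intro p hp; exact absurd hp (by simp [s])
    | succ n ih =>
      intro p hp
      rw [hs] at hp
      rcases List.mem_cons.1 hp with rfl | hp
      · exact helev n
      · exact ih p hp
  let U : ℕ → Set X := fun n => Uf (HU Uf (s n)) (e n)
  have hmap : ∀ n, (List.range n).map U = HU Uf (s n) := by
    intro n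
    induction n with
    | zero => simp [s, HU]
    | succ n ih =>
      rw [List.range_succ, List.map_append, ih, hs]
      rfl
  refine hσ2 U (fun n => by rw [hmap]; exact hUf _ _) ?_
  rw [dense_iff_inter_open]
  intro O hO hne'
  obtain ⟨p, hp⟩ := hN3 O hO hne'
  obtain ⟨p', hp', hp2⟩ := hB p
  have hp'' : p' ∈ range e := by rw [← he]; exact hp'
  obtain ⟨n, rfl⟩ := hp''
  have hlv : lev (pf (HU Uf (s n)) (e n)) < δ := by
    have := hcl (e n :: s n) (by rw [← hs]; exact hslev (n+1))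
    exact this
  obtain ⟨x, hx1, hx2⟩ := hp2 _ hlv (hpN _ _)
  exact ⟨x, hp hx2, mem_iUnion.2 ⟨n, hpU _ _ hx1⟩⟩

end abs

end Pool.Agent.H15.OO
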