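import Pool.Agent.H15.OOA

set_option autoImplicit false

/-!
Helper file for MP_f38362_gt: stationary co-stationary sets, ladders, the space.
-/

namespace Pool.Agent.H15.OO

open Set Pool.Agent.H15.Cyc

section comb

variable {J : Type} [LinearOrder J]

theorem exists_split [WellFoundedLT J] (hJ : ∀ γ : J, (Iio γ).Countable)
    (hb : ∀ s : Set J, s.Countable → ∃ η, ∀ x ∈ s, x < η)
    (F : J → ℕ → Bool) (hF : Function.Injective F) : ∃ S : Set J, Large S ∧ Large Sᶜ := by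
  classical
  by_contra H
  have h1 : ∀ n : ℕ, ∃ (i : Bool) (g : ℕ → J → J), ∀ δ, F δ n = i → ¬ Cl g δ := by
    intro n
    by_cases hL : Large {δ | F δ n = true}
    · have h2 : ¬ Large {δ | F δ n = true}ᶜ := fun h => H ⟨_, hL, h⟩
      unfold Large at h2
      push Not at h2
      obtain ⟨g, hg⟩ := h2
      exact ⟨false, g, fun δ hδ => hg δ (by simp [hδ])⟩
    · unfold Large at hL
      push Not at hL
      obtain ⟨g, hg⟩ := hL
      exact ⟨true, g, fun δ hδ => hg δ hδ⟩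
  choose i g hg using h1
  let G : ℕ → J → J := fun k => g (Nat.unpair k).1 (Nat.unpair k).2
  have hG : ∀ δ, Cl G δ → ∀ n, Cl (g n) δ := by
    intro δ hδ n
    refine ⟨hδ.1, fun k ξ hξ => ?_⟩
    have := hδ.2 (Nat.pair n k) ξ hξ
    simpa [G] using this
  have hval : ∀ δ, Cl G δ → ∀ n, F δ n = !(i n) := by
    intro δ hδ n
    have h2 : F δ n ≠ i n := fun h => hg n δ h (hG δ hδ n)
    cases h3 : F δ n <;> cases h4 : i n <;> simp_all
  obtain ⟨δ₀, h0⟩ := exists_cl hJ hb G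
  obtain ⟨δ₁, h1⟩ := exists_cl hJ hb (fun k => if k = 0 then (fun _ => δ₀) else G (k-1))
  have h01 : δ₀ < δ₁ := by
    obtain ⟨ξ, hξ⟩ := h1.1
    simpa using h1.2 0 ξ hξ
  have h1' : Cl G δ₁ := ⟨h1.1, fun k ξ hξ => by simpa using h1.2 (k+1) ξ hξ⟩
  have : F δ₀ = F δ₁ := by
    funext n
    rw [hval _ h0, hval _ h1']
  exact h01.ne (hF this)

/-- limit points -/
def Lim (δ : J) : Prop := (∃ ξ, ξ < δ) ∧ ∀ ξ < δ, ∃ ξ', ξ < ξ' ∧ ξ' < δ

theorem ladder (hJ : ∀ γ : J, (Iio γ).Countable) {δ : J} (h : Lim δ) :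
    ∃ η : ℕ → J, (∀ n, η n < δ) ∧ ∀ ξ < δ, ∃ m, ∀ n, m ≤ n → ξ < η n := by
  classical
  obtain ⟨⟨ξ₀, h0⟩, h1⟩ := h
  obtain ⟨e, he⟩ := (hJ δ).exists_eq_range ⟨ξ₀, h0⟩
  have he' : ∀ n, e n < δ := fun n => by
    have : e n ∈ Iio δ := by rw [he]; exact ⟨n, rfl⟩
    exact this
  have h2 : ∀ (n : ℕ) (x : Iio δ), ∃ y : Iio δ, x.1 < y.1 ∧ e n < y.1 := by
    intro n x
    obtain ⟨y, hy1, hy2⟩ := h1 (max x.1 (e n)) (max_lt x.2 (he' n))
    exact ⟨⟨y, hy2⟩, (le_max_left _ _).trans_lt hy1, (le_max_right _ _).trans_lt hy1⟩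
  choose f hf1 hf2 using h2
  let η : ℕ → Iio δ := fun n => Nat.rec ⟨ξ₀, h0⟩ (fun n x => f n x) n
  have hη : ∀ n, η (n+1) = f n (η n) := fun n => rfl
  have hmono : StrictMono (fun n => (η n).1) := by
    refine strictMono_nat_of_lt_succ (fun n => ?_)
    show (η n).1 < (η (n+1)).1
    rw [hη]
    exact hf1 _ _
  refine ⟨fun n => (η n).1, fun n => (η n).2, fun ξ hξ => ?_⟩
  have : ξ ∈ range e := by rw [← he]; exact hξ
  obtain ⟨m, rfl⟩ := this
  refine ⟨m+1, fun n hn => ?_⟩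
  have h3 : e m < (η (m+1)).1 := by rw [hη]; exact hf2 _ _
  exact h3.trans_le (hmono.monotone hn)

end comb

section space

variable {J : Type} [LinearOrder J]

def Zset (L : Set J) (η : J → ℕ → J) : Set ((J → Bool) × (J → Bool)) :=
  {z | ∀ δ, z.2 δ = true → δ ∈ L ∧ ∀ n, z.1 (η δ n) = false}

theorem Zset_closed (L : Set J) (η : J → ℕ → J) : IsClosed (Zset L η) := by
  have h1 : Zset L η = ⋂ δ : J, ({z | z.2 δ = false} ∪
      ({z | δ ∈ L} ∩ ⋂ n : ℕ, {z | z.1 (η δ n) = false})) := by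
    ext z
    simp only [Zset, mem_setOf_eq, mem_iInter, mem_union, mem_inter_iff]
    refine forall_congr' (fun δ => ?_)
    cases h : z.2 δ <;> simp
  rw [h1]
  refine isClosed_iInter (fun δ => IsClosed.union ?_ (IsClosed.inter isClosed_const
    (isClosed_iInter (fun n => ?_))))
  · exact isClosed_eq (by fun_prop) continuous_const
  · exact isClosed_eq (by fun_prop) continuous_const

def NN (L : Set J) (η : J → ℕ → J) (p : Finset J × Finset J × Finset J) : Set (Zset L η) :=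
  {w | ∀ a ∈ p.1, (w.1.1 a = true ↔ a ∈ p.2.1) ∧ (w.1.2 a = true ↔ a ∈ p.2.2)}

theorem NN_open (L : Set J) (η : J → ℕ → J) (p : Finset J × Finset J × Finset J) :
    IsOpen (NN L η p) := by
  have h1 : NN L η p = ⋂ a ∈ p.1, ({w | w.1.1 a = decide (a ∈ p.2.1)} ∩
      {w | w.1.2 a = decide (a ∈ p.2.2)}) := by
    ext w
    simp only [NN, mem_setOf_eq, mem_iInter, mem_inter_iff]
    refine forall_congr' (fun a => forall_congr' (fun _ => ?_))
    by_cases h2 : a ∈ p.2.1 <;> by_cases h3 : a ∈ p.2.2 <;> simp [h2, h3]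
  rw [h1]
  refine isOpen_biInter_finset (fun a _ => IsOpen.inter ?_ ?_)
  · have : Continuous (fun w : Zset L η => w.1.1 a) := by fun_prop
    exact (isOpen_discrete {decide (a ∈ p.2.1)}).preimage this
  · have : Continuous (fun w : Zset L η => w.1.2 a) := by fun_prop
    exact (isOpen_discrete {decide (a ∈ p.2.2)}).preimage this

theorem NN_base (L : Set J) (η : J → ℕ → J) (O : Set (Zset L η)) (hO : IsOpen O)
    (z : Zset L η) (hz : z ∈ O) : ∃ F : Finset J,
      NN L η (F, F.filter (fun a => z.1.1 a = true), F.filter (fun a => z.1.2 a = true)) ⊆ O := by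
  classical
  obtain ⟨O', hO', rfl⟩ := isOpen_induced_iff.1 hO
  obtain ⟨u, v, hu, hv, hzu, hzv, huv⟩ := isOpen_prod_iff.1 hO' z.1.1 z.1.2 hz
  obtain ⟨I1, u1, h1, h2⟩ := isOpen_pi_iff.1 hu z.1.1 hzu
  obtain ⟨I2, u2, h3, h4⟩ := isOpen_pi_iff.1 hv z.1.2 hzv
  refine ⟨I1 ∪ I2, fun w hw => ?_⟩
  have key : ∀ a ∈ I1 ∪ I2, w.1.1 a = z.1.1 a ∧ w.1.2 a = z.1.2 a := by
    intro a ha
    have := hw a ha
    simp only [Finset.mem_filter] at this
    constructor
    · have h5 := this.1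
      cases h6 : w.1.1 a <;> cases h7 : z.1.1 a <;> simp_all
    · have h5 := this.2
      cases h6 : w.1.2 a <;> cases h7 : z.1.2 a <;> simp_all
  have hw1 : w.1.1 ∈ u := h2 (fun a ha => by
    rw [(key a (Finset.mem_union_left _ ha)).1]
    exact (h1 a ha).2)
  have hw2 : w.1.2 ∈ v := h4 (fun a ha => by
    rw [(key a (Finset.mem_union_right _ ha)).2]
    exact (h3 a ha).2)
  exact huv (Set.mk_mem_prod hw1 hw2)

def PP (L : Set J) (η : J → ℕ → J) : Type :=
  {p : Finset J × Finset J × Finset J // (NN L η p).Nonempty}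

def lv (j₀ : J) (p : Finset J × Finset J × Finset J) : J :=
  (insert j₀ (p.1 ∪ p.2.1 ∪ p.2.2)).max' (Finset.insert_nonempty _ _)

theorem lv_lt {j₀ δ : J} {p : Finset J × Finset J × Finset J} :
    lv j₀ p < δ ↔ j₀ < δ ∧ (∀ a ∈ p.1, a < δ) ∧ (∀ a ∈ p.2.1, a < δ) ∧ (∀ a ∈ p.2.2, a < δ) := by
  unfold lv
  rw [Finset.max'_lt_iff]
  simp only [Finset.mem_insert, Finset.mem_union, or_imp, forall_and, and_assoc, forall_eq]

theorem lv_le {j₀ δ : J} {p : Finset J × Finset J × Finset J} (h : lv j₀ p ≤ δ) :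
    (∀ a ∈ p.1, a ≤ δ) ∧ (∀ a ∈ p.2.1, a ≤ δ) ∧ (∀ a ∈ p.2.2, a ≤ δ) := by
  unfold lv at h
  rw [Finset.max'_le_iff] at h
  simp only [Finset.mem_insert, Finset.mem_union, or_imp, forall_and,
    and_assoc] at h
  exact h.2

theorem lv_count (L : Set J) (η : J → ℕ → J) (j₀ : J) (hJ : ∀ γ : J, (Iio γ).Countable) (δ : J) :
    {p : PP L η | lv j₀ p.1 ≤ δ}.Countable := by
  have hIic : (Iic δ).Countable := by
    have : Iic δ = insert δ (Iio δ) := by
      ext β
      simp [le_iff_eq_or_lt]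
    rw [this]
    exact (hJ δ).insert δ
  have hC : {F : Finset J | ∀ a ∈ F, a ≤ δ}.Countable := by
    refine ((Set.countable_setOf_finite_subset hIic).preimage_of_injOn
      (f := fun F : Finset J => (F : Set J)) Finset.coe_injective.injOn).mono ?_
    intro F hF
    exact ⟨F.finite_toSet, fun a ha => hF a ha⟩
  have h3 := (hC.prod (hC.prod hC)).preimage_of_injOn
    (f := fun p : PP L η => p.1) (Subtype.val_injective.injOn)
  refine h3.mono ?_
  intro p hp
  obtain ⟨h4, h5, h6⟩ := lv_le hp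
  exact ⟨h4, h5, h6⟩

end space

end Pool.Agent.H15.OO
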