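import Pool.Agent.H15.OOB

set_option autoImplicit false

/-!
Helper file for MP_f38362_gt: the final theorem.
-/

namespace Pool.Agent.H15.OO

open Set Pool.Agent.H15.Cyc

section conc

variable {J : Type} [LinearOrder J]

theorem caseA (L : Set J) (η : J → ℕ → J) (j₀ : J)
    (hη1 : ∀ δ ∈ L, ∀ n, η δ n < δ) (hη2 : ∀ δ ∈ L, ∀ ξ < δ, ∃ m, ∀ n, m ≤ n → ξ < η δ n)
    (δ : J) (hδ : δ ∈ L) :
    ∃ q : PP L η, ∀ p : PP L η, lv j₀ p.1 < δ →
      ∃ p' : PP L η, lv j₀ p'.1 < δ ∧ NN L η p'.1 ⊆ NN L η p.1 ∧ NN L η p'.1 ∩ NN L η q.1 = ∅ := by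
  classical
  refine ⟨⟨({δ}, ∅, {δ}), ?_⟩, ?_⟩
  · refine ⟨⟨(fun _ => false, fun a => decide (a = δ)), ?_⟩, ?_⟩
    · intro ε hε
      have : ε = δ := by simpa using hε
      subst this
      exact ⟨hδ, fun _ => rfl⟩
    · intro a ha
      have : a = δ := by simpa using ha
      subst this
      simp
  · rintro ⟨⟨F, A, B⟩, ⟨z, hz⟩⟩ hlt
    have hlt' := lv_lt.1 hlt
    obtain ⟨m, hm⟩ := hη2 δ hδ (lv j₀ (F, A, B)) hlt
    have hx := hm m le_rfl
    obtain ⟨x0, xF, xA, xB⟩ := lv_lt.1 hx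
    set x := η δ m with hxdef
    have hxδ : x < δ := hη1 δ hδ m
    have hxF : x ∉ F := fun h => lt_irrefl _ (xF x h)
    have hxA : x ∉ A := fun h => lt_irrefl _ (xA x h)
    have hxB : x ∉ B := fun h => lt_irrefl _ (xB x h)
    refine ⟨⟨(insert x F, insert x A, B), ?_⟩, ?_, ?_, ?_⟩
    · refine ⟨⟨(Function.update z.1.1 x true, fun ε => z.1.2 ε && decide (ε < x)), ?_⟩, ?_⟩
      · intro ε hε
        have hε' : z.1.2 ε = true ∧ ε < x := by simpa using hε
        obtain ⟨h1, h2⟩ := z.2 ε hε'.1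
        refine ⟨h1, fun n => ?_⟩
        have h3 : η ε n ≠ x := ((hη1 ε h1 n).trans hε'.2).ne
        show Function.update z.1.1 x true (η ε n) = false
        rw [Function.update_of_ne h3]
        exact h2 n
      · intro a ha
        show (Function.update z.1.1 x true a = true ↔ a ∈ insert x A) ∧
          ((z.1.2 a && decide (a < x)) = true ↔ a ∈ B)
        rcases Finset.mem_insert.1 ha with rfl | ha
        · refine ⟨by simp, ?_⟩
          constructor
          · intro h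
            simp at h
          · intro h
            exact absurd h hxB
        · have h4 := hz a ha
          have h5 : a < x := xF a ha
          have h6 : a ≠ x := h5.ne
          rw [Function.update_of_ne h6]
          refine ⟨?_, ?_⟩
          · rw [Finset.mem_insert]
            exact h4.1.trans ⟨Or.inr, fun h => h.resolve_left h6⟩
          · have : (z.1.2 a && decide (a < x)) = z.1.2 a := by simp [h5]
            rw [this]
            exact h4.2
    · rw [lv_lt]
      refine ⟨x0.trans hxδ, ?_, ?_, ?_⟩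
      · intro a ha
        rcases Finset.mem_insert.1 ha with rfl | ha
        · exact hxδ
        · exact (xF a ha).trans hxδ
      · intro a ha
        rcases Finset.mem_insert.1 ha with rfl | ha
        · exact hxδ
        · exact (xA a ha).trans hxδ
      · intro a ha
        exact (xB a ha).trans hxδ
    · intro w hw a ha
      have h7 := hw a (Finset.mem_insert_of_mem ha)
      have h6 : a ≠ x := fun h => hxF (h ▸ ha)
      refine ⟨?_, h7.2⟩
      refine h7.1.trans ?_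
      show a ∈ insert x A ↔ a ∈ A
      rw [Finset.mem_insert]
      exact ⟨fun h => h.resolve_left h6, Or.inr⟩
    · ext w
      simp only [mem_inter_iff, mem_empty_iff_false, iff_false, not_and]
      intro hw1 hw2
      have h8 : w.1.1 x = true := (hw1 x (Finset.mem_insert_self _ _)).1.2 (Finset.mem_insert_self _ _)
      have h9 : w.1.2 δ = true := (hw2 δ (by simp)).2.2 (by simp)
      have h10 := (w.2 δ h9).2 m
      rw [← hxdef, h8] at h10
      exact Bool.noConfusion h10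

theorem caseB (L : Set J) (η : J → ℕ → J) (j₀ : J)
    (hη1 : ∀ δ ∈ L, ∀ n, η δ n < δ) (hη2 : ∀ δ ∈ L, ∀ ξ < δ, ∃ m, ∀ n, m ≤ n → ξ < η δ n)
    (δ : J) (hδ : δ ∉ L) (hj : j₀ < δ) (p : PP L η) :
    ∃ p' : PP L η, lv j₀ p'.1 < δ ∧
      ∀ q : PP L η, lv j₀ q.1 < δ → NN L η q.1 ⊆ NN L η p'.1 →
        (NN L η q.1 ∩ NN L η p.1).Nonempty := by
  classical
  obtain ⟨⟨F, A, B⟩, ⟨z, hz⟩⟩ := p
  have hfin : ∀ ε : J, ∃ M : Finset J, (∀ a ∈ M, a < δ) ∧
      (ε ∈ L → δ < ε → ∀ n, η ε n < δ → η ε n ∈ M) := by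
    intro ε
    by_cases h : ε ∈ L ∧ δ < ε
    · obtain ⟨m, hm⟩ := hη2 ε h.1 δ h.2
      refine ⟨((Finset.range m).image (η ε)).filter (fun a => a < δ), ?_, ?_⟩
      · intro a ha
        exact (Finset.mem_filter.1 ha).2
      · intro _ _ n hn
        rw [Finset.mem_filter]
        refine ⟨Finset.mem_image.2 ⟨n, ?_, rfl⟩, hn⟩
        rw [Finset.mem_range]
        by_contra hc
        exact lt_asymm hn (hm n (not_lt.1 hc))
    · exact ⟨∅, by simp, fun h1 h2 => absurd ⟨h1, h2⟩ h⟩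
  choose M hM1 hM2 using hfin
  set F' : Finset J := F.filter (fun a => a < δ) ∪ F.biUnion M with hF'
  have hF'lt : ∀ a ∈ F', a < δ := by
    intro a ha
    rw [hF', Finset.mem_union] at ha
    rcases ha with ha | ha
    · exact (Finset.mem_filter.1 ha).2
    · obtain ⟨ε, _, h2⟩ := Finset.mem_biUnion.1 ha
      exact hM1 ε a h2
  refine ⟨⟨(F', F'.filter (fun a => z.1.1 a = true), F'.filter (fun a => z.1.2 a = true)),
    ⟨z, ?_⟩⟩, ?_, ?_⟩
  · intro a ha
    simp only [Finset.mem_filter]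
    exact ⟨⟨fun h => ⟨ha, h⟩, fun h => h.2⟩, ⟨fun h => ⟨ha, h⟩, fun h => h.2⟩⟩
  · rw [lv_lt]
    exact ⟨hj, hF'lt, fun a ha => hF'lt a (Finset.mem_filter.1 ha).1,
      fun a ha => hF'lt a (Finset.mem_filter.1 ha).1⟩
  · rintro ⟨⟨F₂, A₂, B₂⟩, ⟨w, hw⟩⟩ hq hsub
    obtain ⟨-, hq1, -, -⟩ := lv_lt.1 hq
    have hw' := hsub hw
    have hagree : ∀ a ∈ F', w.1.1 a = z.1.1 a ∧ w.1.2 a = z.1.2 a := by
      intro a ha
      have h1 := hw' a ha
      simp only [Finset.mem_filter] at h1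
      constructor
      · have h5 := h1.1
        cases h6 : w.1.1 a <;> cases h7 : z.1.1 a <;> simp_all
      · have h5 := h1.2
        cases h6 : w.1.2 a <;> cases h7 : z.1.2 a <;> simp_all
    refine ⟨⟨(fun a => if a < δ then w.1.1 a else z.1.1 a,
      fun a => if a < δ then w.1.2 a else (z.1.2 a && decide (a ∈ F))), ?_⟩, ?_, ?_⟩
    · intro ε hε
      by_cases hεδ : ε < δ
      · have h1 : w.1.2 ε = true := by
          simpa [hεδ] using hε
        obtain ⟨h2, h3⟩ := w.2 ε h1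
        refine ⟨h2, fun n => ?_⟩
        have h4 : η ε n < δ := (hη1 ε h2 n).trans hεδ
        show (if η ε n < δ then w.1.1 (η ε n) else z.1.1 (η ε n)) = false
        rw [if_pos h4]
        exact h3 n
      · have h1 : z.1.2 ε = true ∧ ε ∈ F := by
          simpa [hεδ] using hε
        obtain ⟨h2, h3⟩ := z.2 ε h1.1
        refine ⟨h2, fun n => ?_⟩
        have h5 : δ < ε := lt_of_le_of_ne (not_lt.1 hεδ) (fun h => hδ (h ▸ h2))
        show (if η ε n < δ then w.1.1 (η ε n) else z.1.1 (η ε n)) = false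
        by_cases h4 : η ε n < δ
        · rw [if_pos h4]
          have h6 : η ε n ∈ F' := by
            rw [hF', Finset.mem_union]
            exact Or.inr (Finset.mem_biUnion.2 ⟨ε, h1.2, hM2 ε h2 h5 n h4⟩)
          rw [(hagree _ h6).1]
          exact h3 n
        · rw [if_neg h4]
          exact h3 n
    · intro a ha
      have h1 : a < δ := hq1 a ha
      show ((if a < δ then w.1.1 a else z.1.1 a) = true ↔ a ∈ A₂) ∧
        ((if a < δ then w.1.2 a else (z.1.2 a && decide (a ∈ F))) = true ↔ a ∈ B₂)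
      rw [if_pos h1, if_pos h1]
      exact hw a ha
    · intro a ha
      show ((if a < δ then w.1.1 a else z.1.1 a) = true ↔ a ∈ A) ∧
        ((if a < δ then w.1.2 a else (z.1.2 a && decide (a ∈ F))) = true ↔ a ∈ B)
      have ha' : a ∈ F := ha
      by_cases h1 : a < δ
      · rw [if_pos h1, if_pos h1]
        have h6 : a ∈ F' := by
          rw [hF', Finset.mem_union]
          exact Or.inl (Finset.mem_filter.2 ⟨ha, h1⟩)
        rw [(hagree _ h6).1, (hagree _ h6).2]
        exact hz a ha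
      · rw [if_neg h1, if_neg h1]
        have : (z.1.2 a && decide (a ∈ F)) = z.1.2 a := by simp [ha']
        rw [this]
        exact hz a ha

end conc

theorem main : ∃ (X : Type) (_ : TopologicalSpace X), CompactSpace X ∧ T2Space X ∧
    Undetermined X := by
  classical
  let J : Type := (Cardinal.aleph.{0} 1).ord.ToType
  have hJc : Cardinal.mk J = Cardinal.aleph.{0} 1 := by
    show Cardinal.mk (Cardinal.aleph.{0} 1).ord.ToType = _
    rw [Cardinal.mk_ord_toType]
  have hJ : ∀ γ : J, (Iio γ).Countable := fun γ => by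
    rw [Cardinal.countable_iff_lt_aleph_one]
    have := Cardinal.mk_Iio_toType_ord_lt (c := Cardinal.aleph.{0} 1) γ
    exact this
  have hIic : ∀ γ : J, (Iic γ).Countable := by
    intro γ
    have : Iic γ = insert γ (Iio γ) := by
      ext β
      simp [le_iff_eq_or_lt]
    rw [this]
    exact (hJ γ).insert γ
  have hb : ∀ s : Set J, s.Countable → ∃ η, ∀ x ∈ s, x < η := by
    intro s hs
    by_contra H
    push Not at H
    have h1 : (univ : Set J) ⊆ ⋃ x ∈ s, Iic x := by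
      intro η _
      obtain ⟨x, hx, hle⟩ := H η
      exact mem_biUnion hx hle
    have h2 : (univ : Set J).Countable := (hs.biUnion (fun x _ => hIic x)).mono h1
    rw [Cardinal.countable_iff_lt_aleph_one, Cardinal.mk_univ, hJc] at h2
    exact lt_irrefl _ h2
  obtain ⟨j₀, -⟩ := hb ∅ countable_empty
  have hinj : Nonempty (J ↪ (ℕ → Bool)) := by
    rw [← Cardinal.le_def, hJc]
    have h1 : Cardinal.mk (ℕ → Bool) = Cardinal.continuum := by simp
    rw [h1]
    exact Cardinal.aleph_one_le_continuum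
  obtain ⟨Fe⟩ := hinj
  obtain ⟨S, hS1, hS2⟩ := exists_split hJ hb Fe Fe.injective
  let L : Set J := {δ | δ ∈ Sᶜ ∧ Lim δ}
  have hlad : ∀ δ : J, ∃ η : ℕ → J, δ ∈ L → (∀ n, η n < δ) ∧ ∀ ξ < δ, ∃ m, ∀ n, m ≤ n → ξ < η n := by
    intro δ
    by_cases h : δ ∈ L
    · obtain ⟨η, h1⟩ := ladder hJ h.2
      exact ⟨η, fun _ => h1⟩
    · exact ⟨fun _ => j₀, fun h1 => absurd h1 h⟩
  choose η hη using hlad
  have hη1 : ∀ δ ∈ L, ∀ n, η δ n < δ := fun δ h => (hη δ h).1
  have hη2 : ∀ δ ∈ L, ∀ ξ < δ, ∃ m, ∀ n, m ≤ n → ξ < η δ n := fun δ h => (hη δ h).2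
  have hG : ∀ ξ : J, ∃ ξ', ξ < ξ' ∧ j₀ < ξ' := by
    intro ξ
    obtain ⟨ξ', h⟩ := hb {ξ, j₀} (Set.toFinite _).countable
    exact ⟨ξ', h ξ (by simp), h j₀ (by simp)⟩
  choose G hG1 hG2 using hG
  have hcomp : CompactSpace (Zset L η) :=
    isCompact_iff_compactSpace.1 (Zset_closed L η).isCompact
  have hne : Nonempty (PP L η) :=
    ⟨⟨(∅, ∅, ∅), ⟨⟨(fun _ => false, fun _ => false), fun δ h => by simp at h⟩,
      fun a ha => by simp at ha⟩⟩⟩
  have hN3 : ∀ O : Set (Zset L η), IsOpen O → O.Nonempty → ∃ p : PP L η, NN L η p.1 ⊆ O := by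
    rintro O hO ⟨z, hz⟩
    obtain ⟨F, hF⟩ := NN_base L η O hO z hz
    refine ⟨⟨_, ⟨z, ?_⟩⟩, hF⟩
    intro a ha
    simp only [Finset.mem_filter]
    exact ⟨⟨fun h => ⟨ha, h⟩, fun h => h.2⟩, ⟨fun h => ⟨ha, h⟩, fun h => h.2⟩⟩
  refine ⟨Zset L η, inferInstance, hcomp, inferInstance, ?_, ?_⟩
  · refine not_one (P := PP L η) (J := J) (fun p => NN L η p.1) hS1 hJ hb (fun p => lv j₀ p.1)
      (lv_count L η j₀ hJ) (fun p => NN_open L η p.1) (fun p => p.2) hN3 G ?_
    intro δ hδ h1 h2 p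
    obtain ⟨ξ, hξ⟩ := h1
    exact caseB L η j₀ hη1 hη2 δ (fun h => h.1 hδ) ((hG2 ξ).trans (h2 ξ hξ)) p
  · refine not_two (P := PP L η) (J := J) (fun p => NN L η p.1) hS2 hJ hb (fun p => lv j₀ p.1)
      (lv_count L η j₀ hJ) (fun p => NN_open L η p.1) (fun p => p.2) hN3 G ?_
    intro δ hδ h1 h2
    exact caseA L η j₀ hη1 hη2 δ ⟨hδ, h1, fun ξ hξ => ⟨G ξ, hG1 ξ, h2 ξ hξ⟩⟩

end Pool.Agent.H15.OO
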