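import Mathlib

set_option autoImplicit false

/-!
Definitions for MP_f38362_gt: the open-point game of Berner and Juhász, and the selection game on
dense subsets.
-/

namespace Pool.Agent.H15.OP

/-- ONE has a winning strategy in the open-point game: a rule `σ` giving a nonempty open set for
every finite sequence of points picked by TWO, such that for every play `x₀, x₁, …` of TWO against
`σ` the set `{x₀, x₁, …}` is dense. -/
def OneWins (X : Type) [TopologicalSpace X] : Prop :=
  ∃ σ : List X → Set X, (∀ h, IsOpen (σ h) ∧ (σ h).Nonempty) ∧
    ∀ x : ℕ → X, (∀ n, x n ∈ σ ((List.range n).map x)) → Dense (Set.range x)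

/-- TWO has a winning strategy in the open-point game: a rule `τ` which for every finite sequence of
nonempty open sets picked by ONE, the last one being `O`, gives a point of `O`, such that for every
sequence of moves of ONE the set of the points picked is not dense. -/
def TwoWins (X : Type) [TopologicalSpace X] : Prop :=
  ∃ τ : List (Set X) → X,
    (∀ h O, (∀ V ∈ h, IsOpen V ∧ V.Nonempty) → IsOpen O → O.Nonempty → τ (h ++ [O]) ∈ O) ∧
    ∀ O : ℕ → Set X, (∀ n, IsOpen (O n) ∧ (O n).Nonempty) →
      ¬ Dense (Set.range (fun n => τ ((List.range (n+1)).map O)))

/-- The open-point game is undetermined on `X`. -/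
def Undetermined (X : Type) [TopologicalSpace X] : Prop := ¬ OneWins X ∧ ¬ TwoWins X

end Pool.Agent.H15.OP
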