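import Pool.Agent.H15.OOB
import Pool.Agent.H15.OPDefs

set_option autoImplicit false

/-!
Helper file for MP_f38362_gt: the space for the open-point game.
-/

namespace Pool.Agent.H15.OP

open Set Pool.Agent.H15.Cyc Pool.Agent.H15.OO

section space

variable {J : Type}

def V (f : J → ℕ → Bool) (n : ℕ) (α : J) : Set J := {β | ∀ i < n, f β i = f α i}

def II (L : Set J) (η : J → ℕ → J) (F E : Finset J) : Set J :=
  {β | β ∈ F ∨ ∃ ε ∈ E, ε ∈ L ∧ ∃ k, η ε k = β}

theorem II_mono (L : Set J) (η : J → ℕ → J) {F E F' E' : Finset J} (h1 : F ⊆ F') (h2 : E ⊆ E') :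
    II L η F E ⊆ II L η F' E' := by
  rintro β (h | ⟨ε, h3, h4⟩)
  · exact Or.inl (h1 h)
  · exact Or.inr ⟨ε, h2 h3, h4⟩

theorem II_countable (L : Set J) (η : J → ℕ → J) (F E : Finset J) : (II L η F E).Countable := by
  have : II L η F E ⊆ (F : Set J) ∪ ⋃ ε ∈ (E : Set J), range (η ε) := by
    rintro β (h | ⟨ε, h3, -, k, hk⟩)
    · exact Or.inl h
    · exact Or.inr (mem_biUnion h3 ⟨k, hk⟩)
  refine Set.Countable.mono this ?_
  exact (F.finite_toSet.countable).union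
    (E.finite_toSet.countable.biUnion (fun ε _ => countable_range _))

theorem V_mono (f : J → ℕ → Bool) {n m : ℕ} (h : n ≤ m) (α : J) : V f m α ⊆ V f n α :=
  fun _ hβ i hi => hβ i (hi.trans_le h)

def top [DecidableEq J] (f : J → ℕ → Bool) (L : Set J) (η : J → ℕ → J) : TopologicalSpace J where
  IsOpen O := ∀ α ∈ O, ∃ n F E, V f n α \ II L η F E ⊆ O
  isOpen_univ := fun _ _ => ⟨0, ∅, ∅, subset_univ _⟩
  isOpen_inter := by
    intro O O' h h' α hα
    obtain ⟨n, F, E, h1⟩ := h α hα.1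
    obtain ⟨n', F', E', h2⟩ := h' α hα.2
    refine ⟨max n n', F ∪ F', E ∪ E', fun β hβ => ⟨h1 ⟨?_, ?_⟩, h2 ⟨?_, ?_⟩⟩⟩
    · exact V_mono f (le_max_left _ _) α hβ.1
    · exact fun h => hβ.2 (II_mono L η Finset.subset_union_left Finset.subset_union_left h)
    · exact V_mono f (le_max_right _ _) α hβ.1
    · exact fun h => hβ.2 (II_mono L η Finset.subset_union_right Finset.subset_union_right h)
  isOpen_sUnion := by
    intro s hs α hα
    obtain ⟨O, hO, hαO⟩ := hα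
    obtain ⟨n, F, E, h1⟩ := hs O hO α hαO
    exact ⟨n, F, E, fun β hβ => ⟨O, hO, h1 hβ⟩⟩

theorem basic_open [DecidableEq J] (f : J → ℕ → Bool) (L : Set J) (η : J → ℕ → J) (n : ℕ) (α : J)
    (F E : Finset J) : @IsOpen J (top f L η) (V f n α \ II L η F E) := by
  intro β hβ
  refine ⟨n, F, E, fun γ hγ => ⟨fun i hi => ?_, hγ.2⟩⟩
  rw [hγ.1 i hi, hβ.1 i hi]

theorem top_t2 [DecidableEq J] (f : J → ℕ → Bool) (hf : Function.Injective f) (L : Set J)
    (η : J → ℕ → J) : @T2Space J (top f L η) := by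
  letI := top f L η
  refine ⟨fun α β h => ?_⟩
  have h1 : f α ≠ f β := fun h2 => h (hf h2)
  obtain ⟨i, hi⟩ := Function.ne_iff.1 h1
  refine ⟨V f (i+1) α \ II L η ∅ ∅, V f (i+1) β \ II L η ∅ ∅, basic_open f L η _ _ _ _,
    basic_open f L η _ _ _ _, ⟨fun _ _ => rfl, ?_⟩, ⟨fun _ _ => rfl, ?_⟩, ?_⟩
  · rintro (h | ⟨ε, h3, -⟩)
    · simp at h
    · simp at h3
  · rintro (h | ⟨ε, h3, -⟩)
    · simp at h
    · simp at h3
  · rw [Set.disjoint_left]
    rintro γ ⟨h3, -⟩ ⟨h4, -⟩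
    exact hi ((h3 i (Nat.lt_succ_self i)).symm.trans (h4 i (Nat.lt_succ_self i)))

theorem basic_ne (f : J → ℕ → Bool) (L : Set J) (η : J → ℕ → J)
    (hU : ∀ n α, ¬ (V f n α).Countable) (n : ℕ) (α : J)
    (F E : Finset J) : (V f n α \ II L η F E).Nonempty := by
  by_contra h
  rw [not_nonempty_iff_eq_empty, diff_eq_empty] at h
  exact hU n α ((II_countable L η F E).mono h)

end space

section lev

variable {J : Type} [LinearOrder J]

def lev (p : ℕ × J × Finset J × Finset J) : J := lv p.2.1 (∅, p.2.2.1, p.2.2.2)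

theorem lev_lt {p : ℕ × J × Finset J × Finset J} {δ : J} :
    lev p < δ ↔ p.2.1 < δ ∧ (∀ a ∈ p.2.2.1, a < δ) ∧ (∀ a ∈ p.2.2.2, a < δ) := by
  unfold lev
  rw [lv_lt]
  simp

theorem lev_count (hJ : ∀ γ : J, (Iio γ).Countable) (δ : J) :
    {p : ℕ × J × Finset J × Finset J | lev p ≤ δ}.Countable := by
  have hIic : (Iic δ).Countable := by
    have : Iic δ = insert δ (Iio δ) := by
      ext β
      simp [le_iff_eq_or_lt]
    rw [this]
    exact (hJ δ).insert δ
  have hC : {F : Finset J | ∀ a ∈ F, a ≤ δ}.Countable := by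
    refine ((Set.countable_setOf_finite_subset hIic).preimage_of_injOn
      (f := fun F : Finset J => (F : Set J)) Finset.coe_injective.injOn).mono ?_
    intro F hF
    exact ⟨F.finite_toSet, fun a ha => hF a ha⟩
  refine ((countable_univ (α := ℕ)).prod (hIic.prod (hC.prod hC))).mono ?_
  intro p hp
  have hp' : lv p.2.1 (∅, p.2.2.1, p.2.2.2) ≤ δ := hp
  obtain ⟨-, h5, h6⟩ := lv_le hp'
  refine ⟨trivial, ?_, h5, h6⟩
  refine le_trans ?_ hp'
  exact Finset.le_max' _ _ (Finset.mem_insert_self _ _)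

end lev

section games

variable {J : Type} [LinearOrder J]

theorem no_one (hJ : ∀ γ : J, (Iio γ).Countable)
    (hb : ∀ s : Set J, s.Countable → ∃ η, ∀ x ∈ s, x < η)
    (f : J → ℕ → Bool) (L S : Set J) (hS : Large S) (G : J → J)
    (hSL : ∀ δ ∈ S, (∃ ξ, ξ < δ) → (∀ ξ < δ, G ξ < δ) → δ ∈ L) (η : J → ℕ → J)
    (hU : ∀ n α, ¬ (V f n α).Countable)
    (hη1 : ∀ δ ∈ L, ∀ n, η δ n < δ) (hη2 : ∀ δ ∈ L, ∀ ξ < δ, ∃ m, ∀ n, m ≤ n → ξ < η δ n)
    (hη3 : ∀ δ ∈ L, ∀ α < δ, ∀ n m, ∃ k, m ≤ k ∧ η δ k ∈ V f n α) :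
    ¬ @OneWins J (top f L η) := by
  classical
  letI := top f L η
  rintro ⟨σ, hσ1, hσ2⟩
  have hcode : ∀ h : List J, ∃ p : ℕ × J × Finset J × Finset J,
      V f p.1 p.2.1 \ II L η p.2.2.1 p.2.2.2 ⊆ σ h := by
    intro h
    obtain ⟨α, hα⟩ := (hσ1 h).2
    have h1 : ∀ α ∈ σ h, ∃ n F E, V f n α \ II L η F E ⊆ σ h := (hσ1 h).1
    obtain ⟨n, F, E, h2⟩ := h1 α hα
    exact ⟨(n, α, F, E), h2⟩
  choose c hc using hcode
  obtain ⟨δ, hδ, h1, h2, hcl⟩ := large_lists hS hJ hb lev (lev_count hJ)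
    (fun s : List (ℕ × J × Finset J × Finset J) => c (s.map (fun p => p.2.1))) G
  have hδL : δ ∈ L := hSL δ hδ h1 h2
  have hlc : ∀ h : List J, (∀ x ∈ h, x < δ) → lev (c h) < δ := by
    intro h hh
    have h3 := hcl (h.map (fun x => ((0 : ℕ), x, (∅ : Finset J), (∅ : Finset J)))) (by
      intro p hp
      obtain ⟨x, hx, rfl⟩ := List.mem_map.1 hp
      rw [lev_lt]
      exact ⟨hh x hx, by simp, by simp⟩)
    have h4 : (h.map (fun x => ((0 : ℕ), x, (∅ : Finset J), (∅ : Finset J)))).map (fun p => p.2.1)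
        = h := by
      rw [List.map_map]
      exact List.map_id h
    rw [h4] at h3
    exact h3
  have hk : ∀ h : List J, ∃ k, (∀ x ∈ h, x < δ) → η δ k ∈ σ h := by
    intro h
    by_cases hh : ∀ x ∈ h, x < δ
    · obtain ⟨ha, hF, hE⟩ := lev_lt.1 (hlc h hh)
      obtain ⟨m, hm⟩ := hη2 δ hδL (lev (c h)) (hlc h hh)
      obtain ⟨k, hk, hkV⟩ := hη3 δ hδL _ ha (c h).1 m
      refine ⟨k, fun _ => hc h ⟨hkV, ?_⟩⟩
      obtain ⟨-, hF', hE'⟩ := lev_lt.1 (hm k hk)
      rintro (h5 | ⟨ε, h5, h6, j, hj⟩)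
      · exact lt_irrefl _ (hF' _ h5)
      · have h7 := hη1 ε h6 j
        rw [hj] at h7
        exact lt_asymm h7 (hE' _ h5)
    · exact ⟨0, fun h => absurd h hh⟩
  choose k hk using hk
  let s : ℕ → List J := fun n => Nat.rec [] (fun _ t => t ++ [η δ (k t)]) n
  have hs : ∀ n, s (n+1) = s n ++ [η δ (k (s n))] := fun n => rfl
  have hslt : ∀ n, ∀ x ∈ s n, x < δ := by
    intro n
    induction n with
    | zero => intro x hx; exact absurd hx (by simp [s])
    | succ n ih =>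
      intro x hx
      rw [hs] at hx
      rcases List.mem_append.1 hx with hx | hx
      · exact ih x hx
      · rw [List.mem_singleton.1 hx]
        exact hη1 δ hδL _
  let x : ℕ → J := fun n => η δ (k (s n))
  have hmap : ∀ n, (List.range n).map x = s n := by
    intro n
    induction n with
    | zero => simp [s]
    | succ n ih =>
      rw [List.range_succ, List.map_append, ih, hs]
      rfl
  have hd := hσ2 x (fun n => by rw [hmap]; exact hk _ (hslt n))
  obtain ⟨β, hβ, n, hn⟩ := dense_iff_inter_open.1 hd _ (basic_open f L η 0 δ ∅ {δ})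
    (basic_ne f L η hU _ _ _ _)
  exact hβ.2 (Or.inr ⟨δ, Finset.mem_singleton_self _, hδL, k (s n), hn⟩)

theorem no_two (hJ : ∀ γ : J, (Iio γ).Countable)
    (hb : ∀ s : Set J, s.Countable → ∃ η, ∀ x ∈ s, x < η)
    (f : J → ℕ → Bool) (L S : Set J) (hS : Large S) (G : J → J)
    (hSL : ∀ δ ∈ S, δ ∉ L)
    (hG : ∀ δ : J, (∃ ξ, ξ < δ) → (∀ ξ < δ, G ξ < δ) → ∀ n α, ∃ α' < δ, α' ∈ V f n α)
    (η : J → ℕ → J)
    (hU : ∀ n α, ¬ (V f n α).Countable)
    (hη2 : ∀ δ ∈ L, ∀ ξ < δ, ∃ m, ∀ n, m ≤ n → ξ < η δ n) :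
    ¬ @TwoWins J (top f L η) := by
  classical
  letI := top f L η
  rintro ⟨τ, hτ1, hτ2⟩
  let O : ℕ × J × Finset J × Finset J → Set J := fun p =>
    V f p.1 p.2.1 \ II L η p.2.2.1 p.2.2.2
  have hO : ∀ p, IsOpen (O p) ∧ (O p).Nonempty := fun p =>
    ⟨basic_open f L η _ _ _ _, basic_ne f L η hU _ _ _ _⟩
  obtain ⟨δ, hδ, h1, h2, hcl⟩ := large_lists hS hJ hb lev (lev_count hJ)
    (fun s : List (ℕ × J × Finset J × Finset J) =>
      ((0 : ℕ), τ (s.map O), (∅ : Finset J), (∅ : Finset J))) G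
  obtain ⟨e, he⟩ := (hJ δ).exists_eq_range h1
  have he' : ∀ n, e n < δ := fun n => by
    have : e n ∈ Iio δ := by rw [he]; exact ⟨n, rfl⟩
    exact this
  have hes : ∀ y < δ, ∃ i, e i = y := fun y hy => by
    have : y ∈ range e := by rw [← he]; exact hy
    exact this
  let p : ℕ → ℕ × J × Finset J × Finset J := fun n =>
    ((Nat.unpair (Nat.unpair n).1).2, e (Nat.unpair (Nat.unpair n).1).1,
      (Finset.range n).image e, (Finset.range n).image e)
  have hp : ∀ n, lev (p n) < δ := by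
    intro n
    rw [lev_lt]
    refine ⟨he' _, ?_, ?_⟩
    · intro a ha
      obtain ⟨i, _, rfl⟩ := Finset.mem_image.1 ha
      exact he' i
    · intro a ha
      obtain ⟨i, _, rfl⟩ := Finset.mem_image.1 ha
      exact he' i
  let x : ℕ → J := fun n => τ ((List.range (n+1)).map (fun n => O (p n)))
  have hxO : ∀ n, x n ∈ O (p n) := by
    intro n
    have h3 := hτ1 ((List.range n).map (fun n => O (p n))) (O (p n)) (by
      intro W hW
      obtain ⟨i, _, rfl⟩ := List.mem_map.1 hW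
      exact hO _) (hO _).1 (hO _).2
    show τ ((List.range (n+1)).map (fun n => O (p n))) ∈ O (p n)
    rw [List.range_succ, List.map_append]
    exact h3
  have hxδ : ∀ n, x n < δ := by
    intro n
    have h3 := hcl ((List.range (n+1)).map p) (by
      intro q hq
      obtain ⟨i, _, rfl⟩ := List.mem_map.1 hq
      exact hp i)
    have h4 := (lev_lt.1 h3).1
    rw [List.map_map] at h4
    exact h4
  refine hτ2 (fun n => O (p n)) (fun n => hO _) ?_
  show Dense (range x)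
  rw [dense_iff_inter_open]
  rintro U hUo ⟨β, hβ⟩
  have hUo' : ∀ α ∈ U, ∃ n F E, V f n α \ II L η F E ⊆ U := hUo
  obtain ⟨n₀, F₀, E₀, hsub⟩ := hUo' β hβ
  obtain ⟨α', hα', hαV⟩ := hG δ h1 h2 n₀ β
  obtain ⟨i₀, rfl⟩ := hes α' hα'
  have hev1 : ∀ y, ∀ᶠ n in Filter.atTop, x n ≠ y := by
    intro y
    by_cases hy : y < δ
    · obtain ⟨i, rfl⟩ := hes y hy
      filter_upwards [Filter.eventually_ge_atTop (i+1)] with n hn
      intro h3
      refine (hxO n).2 (Or.inl ?_)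
      rw [h3]
      exact Finset.mem_image.2 ⟨i, Finset.mem_range.2 hn, rfl⟩
    · exact Filter.Eventually.of_forall (fun n h3 => hy (h3 ▸ hxδ n))
  have hev2 : ∀ ε, ∀ᶠ n in Filter.atTop, ε ∈ L → ∀ k, η ε k ≠ x n := by
    intro ε
    by_cases hε : ε ∈ L
    · have hne : ε ≠ δ := fun h => hSL δ hδ (h ▸ hε)
      rcases lt_or_gt_of_ne hne with hlt | hgt
      · obtain ⟨i, rfl⟩ := hes ε hlt
        filter_upwards [Filter.eventually_ge_atTop (i+1)] with n hn
        intro _ k h3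
        refine (hxO n).2 (Or.inr ⟨e i, ?_, hε, k, h3⟩)
        exact Finset.mem_image.2 ⟨i, Finset.mem_range.2 hn, rfl⟩
      · obtain ⟨m, hm⟩ := hη2 ε hε δ hgt
        have h4 : ∀ᶠ n in Filter.atTop, ∀ k ∈ Finset.range m, x n ≠ η ε k :=
          (Filter.eventually_all_finset _).2 (fun k _ => hev1 (η ε k))
        filter_upwards [h4] with n hn
        intro _ k h3
        by_cases hkm : k < m
        · exact hn k (Finset.mem_range.2 hkm) h3.symm
        · have h5 := hm k (not_lt.1 hkm)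
          rw [h3] at h5
          exact lt_asymm h5 (hxδ n)
    · exact Filter.Eventually.of_forall (fun n h => absurd h hε)
  have h5 : ∀ᶠ n in Filter.atTop, ∀ y ∈ F₀, x n ≠ y :=
    (Filter.eventually_all_finset _).2 (fun y _ => hev1 y)
  have h6 : ∀ᶠ n in Filter.atTop, ∀ ε ∈ E₀, ε ∈ L → ∀ k, η ε k ≠ x n :=
    (Filter.eventually_all_finset _).2 (fun ε _ => hev2 ε)
  obtain ⟨M, hM⟩ := Filter.eventually_atTop.1 (h5.and h6)
  have hn : M ≤ Nat.pair (Nat.pair i₀ n₀) M := Nat.right_le_pair _ _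
  obtain ⟨h7, h8⟩ := hM _ hn
  refine ⟨x (Nat.pair (Nat.pair i₀ n₀) M), hsub ⟨?_, ?_⟩, ⟨_, rfl⟩⟩
  · have h9 := (hxO (Nat.pair (Nat.pair i₀ n₀) M)).1
    simp only [p, Nat.unpair_pair] at h9
    intro i hi
    exact (h9 i hi).trans (hαV i hi)
  · rintro (h | ⟨ε, h10, h11, k, h12⟩)
    · exact h7 _ h rfl
    · exact h8 ε h10 h11 k h12

end games

end Pool.Agent.H15.OP
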