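import Pool.Agent.H15.OPA

set_option autoImplicit false

/-!
Helper file for MP_f38362_gt: the final theorem for the open-point game.
-/

namespace Pool.Agent.H15.OP

open Set Pool.Agent.H15.Cyc Pool.Agent.H15.OO

section ladder

variable {J : Type} [LinearOrder J]

def Lim2 (f : J → ℕ → Bool) (δ : J) : Prop :=
  (∃ ξ, ξ < δ) ∧ ∀ ξ < δ, ∀ α < δ, ∀ n, ∃ β ∈ V f n α, ξ < β ∧ β < δ

theorem ladder2 (hJ : ∀ γ : J, (Iio γ).Countable) (f : J → ℕ → Bool) {δ : J} (h : Lim2 f δ) :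
    ∃ η : ℕ → J, (∀ n, η n < δ) ∧ (∀ ξ < δ, ∃ m, ∀ n, m ≤ n → ξ < η n) ∧
      ∀ α < δ, ∀ n m, ∃ k, m ≤ k ∧ η k ∈ V f n α := by
  classical
  obtain ⟨⟨ξ₀, h0⟩, h1⟩ := h
  obtain ⟨e, he⟩ := (hJ δ).exists_eq_range ⟨ξ₀, h0⟩
  have he' : ∀ n, e n < δ := fun n => by
    have : e n ∈ Iio δ := by rw [he]; exact ⟨n, rfl⟩
    exact this
  have h2 : ∀ (n : ℕ) (x : Iio δ), ∃ y : Iio δ, x.1 < y.1 ∧ e n < y.1 ∧
      y.1 ∈ V f (Nat.unpair (Nat.unpair n).1).2 (e (Nat.unpair (Nat.unpair n).1).1) := by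
    intro n x
    obtain ⟨y, hy0, hy1, hy2⟩ := h1 (max x.1 (e n)) (max_lt x.2 (he' n)) _
      (he' (Nat.unpair (Nat.unpair n).1).1) (Nat.unpair (Nat.unpair n).1).2
    exact ⟨⟨y, hy2⟩, (le_max_left _ _).trans_lt hy1, (le_max_right _ _).trans_lt hy1, hy0⟩
  choose g hg1 hg2 hg3 using h2
  let η : ℕ → Iio δ := fun n => Nat.rec ⟨ξ₀, h0⟩ (fun n x => g n x) n
  have hη : ∀ n, η (n+1) = g n (η n) := fun n => rfl
  have hmono : StrictMono (fun n => (η n).1) := by
    refine strictMono_nat_of_lt_succ (fun n => ?_)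
    show (η n).1 < (η (n+1)).1
    rw [hη]
    exact hg1 _ _
  refine ⟨fun n => (η n).1, fun n => (η n).2, fun ξ hξ => ?_, fun α hα n m => ?_⟩
  · have : ξ ∈ range e := by rw [← he]; exact hξ
    obtain ⟨m, rfl⟩ := this
    refine ⟨m+1, fun n hn => ?_⟩
    have h3 : e m < (η (m+1)).1 := by rw [hη]; exact hg2 _ _
    exact h3.trans_le (hmono.monotone hn)
  · have : α ∈ range e := by rw [← he]; exact hα
    obtain ⟨i, rfl⟩ := this
    refine ⟨Nat.pair (Nat.pair i n) m + 1, (Nat.right_le_pair _ _).trans (Nat.le_succ _), ?_⟩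
    have h3 := hg3 (Nat.pair (Nat.pair i n) m) (η (Nat.pair (Nat.pair i n) m))
    rw [Nat.unpair_pair, Nat.unpair_pair] at h3
    show (η (Nat.pair (Nat.pair i n) m + 1)).1 ∈ V f n (e i)
    rw [hη]
    exact h3

end ladder

theorem main_aux (J : Type) [LinearOrder J] [WellFoundedLT J] [Nonempty J]
    (hJ : ∀ γ : J, (Iio γ).Countable)
    (hb : ∀ s : Set J, s.Countable → ∃ η, ∀ x ∈ s, x < η)
    (f : J → ℕ → Bool) (hf : Function.Injective f) (hU : ∀ n α, ¬ (V f n α).Countable) :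
    ∃ t : TopologicalSpace J, @T2Space J t ∧ @Undetermined J t := by
  classical
  have hIic : ∀ γ : J, (Iic γ).Countable := by
    intro γ
    have : Iic γ = insert γ (Iio γ) := by
      ext β
      simp [le_iff_eq_or_lt]
    rw [this]
    exact (hJ γ).insert γ
  obtain ⟨S, hS1, hS2⟩ := exists_split hJ hb f hf
  -- representatives of the classes
  have hrep : ∃ γ₀ : J, ∀ n α, ∃ α' < γ₀, α' ∈ V f n α := by
    have h1 : ∀ (n : ℕ) (s : Fin n → Bool), ∃ β : J, (∃ α : J, ∀ i : Fin n, f α i = s i) →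
        ∀ i : Fin n, f β i = s i := by
      intro n s
      by_cases h : ∃ α : J, ∀ i : Fin n, f α i = s i
      · obtain ⟨α, hα⟩ := h
        exact ⟨α, fun _ => hα⟩
      · exact ⟨Classical.arbitrary J, fun h' => absurd h' h⟩
    choose r hr using h1
    obtain ⟨γ₀, hγ₀⟩ := hb (⋃ n : ℕ, range (r n)) (countable_iUnion (fun n => countable_range _))
    refine ⟨γ₀, fun n α => ⟨r n (fun i => f α i), hγ₀ _ (mem_iUnion.2 ⟨n, _, rfl⟩), ?_⟩⟩
    intro i hi
    exact hr n (fun i => f α i) ⟨α, fun _ => rfl⟩ ⟨i, hi⟩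
  obtain ⟨γ₀, hγ₀⟩ := hrep
  have hβ : ∀ (ξ α : J) (n : ℕ), ∃ β ∈ V f n α, ξ < β := by
    intro ξ α n
    by_contra H
    push Not at H
    exact hU n α ((hIic ξ).mono H)
  choose b hb1 hb2 using hβ
  have hGex : ∀ ξ : J, ∃ ξ', ξ < ξ' ∧ γ₀ < ξ' ∧ ∀ α ≤ ξ, ∀ n, b ξ α n < ξ' := by
    intro ξ
    obtain ⟨ξ', h⟩ := hb ({ξ, γ₀} ∪ ⋃ n : ℕ, (fun α => b ξ α n) '' Iic ξ)
      ((Set.toFinite _).countable.union (countable_iUnion (fun n => (hIic ξ).image _)))
    exact ⟨ξ', h ξ (Or.inl (by simp)), h γ₀ (Or.inl (by simp)),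
      fun α hα n => h _ (Or.inr (mem_iUnion.2 ⟨n, α, hα, rfl⟩))⟩
  choose G hG1 hG2 hG3 using hGex
  have hLim : ∀ δ : J, (∃ ξ, ξ < δ) → (∀ ξ < δ, G ξ < δ) → Lim2 f δ := by
    intro δ h1 h2
    refine ⟨h1, fun ξ hξ α hα n => ?_⟩
    refine ⟨b (max ξ α) α n, hb1 _ _ _, (le_max_left _ _).trans_lt (hb2 _ _ _), ?_⟩
    exact (hG3 (max ξ α) α (le_max_right _ _) n).trans (h2 _ (max_lt hξ hα))
  let L : Set J := {δ | δ ∉ S ∧ Lim2 f δ}
  have hlad : ∀ δ : J, ∃ η : ℕ → J, δ ∈ L → (∀ n, η n < δ) ∧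
      (∀ ξ < δ, ∃ m, ∀ n, m ≤ n → ξ < η n) ∧ ∀ α < δ, ∀ n m, ∃ k, m ≤ k ∧ η k ∈ V f n α := by
    intro δ
    by_cases h : δ ∈ L
    · obtain ⟨η, h1⟩ := ladder2 hJ f h.2
      exact ⟨η, fun _ => h1⟩
    · exact ⟨fun _ => γ₀, fun h1 => absurd h1 h⟩
  choose η hη using hlad
  refine ⟨top f L η, top_t2 f hf L η, ?_, ?_⟩
  · exact no_one hJ hb f L Sᶜ hS2 G (fun δ hδ h1 h2 => ⟨hδ, hLim δ h1 h2⟩) η hU
      (fun δ h => (hη δ h).1) (fun δ h => (hη δ h).2.1) (fun δ h => (hη δ h).2.2)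
  · refine no_two hJ hb f L S hS1 G (fun δ hδ h => h.1 hδ) ?_ η hU (fun δ h => (hη δ h).2.1)
    intro δ h1 h2 n α
    obtain ⟨ξ, hξ⟩ := h1
    obtain ⟨α', h3, h4⟩ := hγ₀ n α
    exact ⟨α', (h3.trans (hG2 ξ)).trans (h2 ξ hξ), h4⟩

theorem main_op : ∃ (X : Type) (_ : TopologicalSpace X), Nonempty X ∧ T2Space X ∧
    Undetermined X := by
  classical
  let J : Type := (Cardinal.aleph.{0} 1).ord.ToType
  have hJc : Cardinal.mk J = Cardinal.aleph.{0} 1 := by
    show Cardinal.mk (Cardinal.aleph.{0} 1).ord.ToType = _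
    rw [Cardinal.mk_ord_toType]
  have hJ : ∀ γ : J, (Iio γ).Countable := fun γ => by
    rw [Cardinal.countable_iff_lt_aleph_one]
    have := Cardinal.mk_Iio_toType_ord_lt (c := Cardinal.aleph.{0} 1) γ
    exact this
  have hunc : ¬ (univ : Set J).Countable := by
    intro h2
    rw [Cardinal.countable_iff_lt_aleph_one, Cardinal.mk_univ, hJc] at h2
    exact lt_irrefl _ h2
  have hinj : Nonempty (J ↪ (ℕ → Bool)) := by
    rw [← Cardinal.le_def, hJc]
    have h1 : Cardinal.mk (ℕ → Bool) = Cardinal.continuum := by simp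
    rw [h1]
    exact Cardinal.aleph_one_le_continuum
  obtain ⟨F⟩ := hinj
  let K : (n : ℕ) → (Fin n → Bool) → Set J := fun n s => {β | ∀ i : Fin n, F β i = s i}
  let N : Set J := ⋃ n : ℕ, ⋃ s : Fin n → Bool, if (K n s).Countable then K n s else ∅
  have hN : N.Countable := by
    refine countable_iUnion (fun n => countable_iUnion (fun s => ?_))
    split_ifs with h
    · exact h
    · exact countable_empty
  have hNV : ∀ α, α ∉ N → ∀ n, ¬ ({β | ∀ i < n, F β i = F α i} : Set J).Countable := by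
    intro α hα n hc
    apply hα
    have h1 : K n (fun i => F α i) = {β | ∀ i < n, F β i = F α i} := by
      ext β
      exact ⟨fun h i hi => h ⟨i, hi⟩, fun h i => h i i.2⟩
    refine mem_iUnion.2 ⟨n, mem_iUnion.2 ⟨fun i => F α i, ?_⟩⟩
    have h2 : (K n (fun i => F α i)).Countable := by rw [h1]; exact hc
    rw [if_pos h2]
    exact fun i => rfl
  let J' : Type := {α : J // α ∉ N}
  letI : LinearOrder J' := inferInstanceAs (LinearOrder {α : J // α ∉ N})
  haveI : WellFoundedLT J' := inferInstanceAs (WellFoundedLT {α : J // α ∉ N})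
  have hU : ∀ n (α : J'), ¬ (V (fun a : J' => F a.1) n α).Countable := by
    intro n α hc
    apply hNV α.1 α.2 n
    refine ((hc.image Subtype.val).union hN).mono ?_
    intro β hβ
    by_cases h : β ∈ N
    · exact Or.inr h
    · exact Or.inl ⟨⟨β, h⟩, hβ, rfl⟩
  have hne : Nonempty J' := by
    by_contra h
    apply hunc
    refine hN.mono (fun α _ => ?_)
    by_contra h2
    exact h ⟨⟨α, h2⟩⟩
  have hJ' : ∀ γ : J', (Iio γ).Countable := fun γ =>
    ((hJ γ.1).preimage_of_injOn (f := fun a : J' => a.1) Subtype.val_injective.injOn).mono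
      (fun a ha => ha)
  have hIic' : ∀ γ : J', (Iic γ).Countable := by
    intro γ
    have : Iic γ = insert γ (Iio γ) := by
      ext β
      simp [le_iff_eq_or_lt]
    rw [this]
    exact (hJ' γ).insert γ
  have hb' : ∀ s : Set J', s.Countable → ∃ η, ∀ x ∈ s, x < η := by
    intro s hs
    by_contra H
    push Not at H
    have h1 : (univ : Set J') ⊆ ⋃ x ∈ s, Iic x := by
      intro η _
      obtain ⟨x, hx, hle⟩ := H η
      exact mem_biUnion hx hle
    have h2 : (univ : Set J').Countable := (hs.biUnion (fun x _ => hIic' x)).mono h1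
    exact hU 0 (Classical.arbitrary J') (h2.mono (subset_univ _))
  obtain ⟨t, h1, h2⟩ := main_aux J' hJ' hb' (fun a => F a.1)
    (fun a b h => Subtype.ext (F.injective h)) hU
  exact ⟨J', t, hne, h1, h2⟩

end Pool.Agent.H15.OP
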