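import Pool.Agent.H15.OPDefs

set_option autoImplicit false

/-!
The selection game on dense subsets and its duality with the open-point game.
-/

namespace Pool.Agent.H15.OP

open Set

/-- ONE has a winning strategy in the game in which, in inning `n`, ONE picks a dense subset `Dₙ` of
`X` and TWO picks a point `xₙ ∈ Dₙ`, TWO winning if and only if `{x₀, x₁, …}` is dense. -/
def DOneWins (X : Type) [TopologicalSpace X] : Prop :=
  ∃ σ : List X → Set X, (∀ h, Dense (σ h)) ∧
    ∀ x : ℕ → X, (∀ n, x n ∈ σ ((List.range n).map x)) → ¬ Dense (Set.range x)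

/-- TWO has a winning strategy in the same game. -/
def DTwoWins (X : Type) [TopologicalSpace X] : Prop :=
  ∃ τ : List (Set X) → X,
    (∀ h D, (∀ E ∈ h, Dense E) → Dense D → τ (h ++ [D]) ∈ D) ∧
    ∀ D : ℕ → Set X, (∀ n, Dense (D n)) →
      Dense (Set.range (fun n => τ ((List.range (n+1)).map D)))

/-- The game on dense subsets is undetermined on `X`. -/
def DUndetermined (X : Type) [TopologicalSpace X] : Prop := ¬ DOneWins X ∧ ¬ DTwoWins X

variable {X : Type} [TopologicalSpace X]

theorem dual_one (x₀ : X) (h : DOneWins X) : TwoWins X := by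
  classical
  obtain ⟨σ, hσ1, hσ2⟩ := h
  have hpt : ∀ (l : List X) (O : Set X), ∃ y : X, IsOpen O → O.Nonempty → y ∈ O ∧ y ∈ σ l := by
    intro l O
    by_cases hO : IsOpen O ∧ O.Nonempty
    · obtain ⟨y, h1, h2⟩ := dense_iff_inter_open.1 (hσ1 l) O hO.1 hO.2
      exact ⟨y, fun _ _ => ⟨h1, h2⟩⟩
    · exact ⟨x₀, fun h1 h2 => absurd ⟨h1, h2⟩ hO⟩
  choose pt hpt using hpt
  let F : List (Set X) → List X := fun h => h.foldl (fun l O => l ++ [pt l O]) []
  have hF : ∀ h O, F (h ++ [O]) = F h ++ [pt (F h) O] := by
    intro h O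
    simp [F, List.foldl_append]
  let τ : List (Set X) → X := fun h => (F h).getLastD x₀
  have hτ : ∀ h O, τ (h ++ [O]) = pt (F h) O := by
    intro h O
    show (F (h ++ [O])).getLastD x₀ = _
    rw [hF]
    simp
  refine ⟨τ, ?_, ?_⟩
  · intro h O _ hO hne
    rw [hτ]
    exact (hpt _ _ hO hne).1
  · intro O hO
    have hx : ∀ n, τ ((List.range (n+1)).map O) = pt (F ((List.range n).map O)) (O n) := by
      intro n
      rw [List.range_succ, List.map_append]
      exact hτ _ _
    have hmap : ∀ n, F ((List.range n).map O) =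
        (List.range n).map (fun n => τ ((List.range (n+1)).map O)) := by
      intro n
      induction n with
      | zero => simp [F]
      | succ n ih =>
        rw [List.range_succ, List.map_append, List.map_append, ← ih]
        show F ((List.range n).map O ++ [O n]) = F ((List.range n).map O) ++
          [τ ((List.range (n+1)).map O)]
        rw [hF, hx]
    refine hσ2 _ (fun n => ?_)
    rw [← hmap]
    show τ ((List.range (n+1)).map O) ∈ _
    rw [hx]
    exact (hpt _ _ (hO n).1 (hO n).2).2

theorem dual_two (x₀ : X) (h : DTwoWins X) : OneWins X := by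
  classical
  obtain ⟨τ, hτ1, hτ2⟩ := h
  have h1 : ∀ h : List (Set X), ∃ U : Set X, (IsOpen U ∧ U.Nonempty) ∧
      ((∀ E ∈ h, Dense E) → ∀ x ∈ U, ∃ D, Dense D ∧ τ (h ++ [D]) = x) := by
    intro h
    by_cases hh : ∀ E ∈ h, Dense E
    · by_contra H
      let D : Set X := {x | ¬ ∃ D, Dense D ∧ τ (h ++ [D]) = x}
      have hD : Dense D := by
        rw [dense_iff_inter_open]
        intro U hU hne
        by_contra hc
        refine H ⟨U, ⟨hU, hne⟩, fun _ x hx => ?_⟩
        by_contra hx2
        exact hc ⟨x, hx, hx2⟩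
      have h2 := hτ1 h D hh hD
      exact h2 ⟨D, hD, rfl⟩
    · exact ⟨univ, ⟨isOpen_univ, ⟨x₀, trivial⟩⟩, fun h2 => absurd h2 hh⟩
  choose U hU hU2 using h1
  have h2 : ∀ (h : List (Set X)) (x : X), ∃ D : Set X,
      (∀ E ∈ h, Dense E) → x ∈ U h → Dense D ∧ τ (h ++ [D]) = x := by
    intro h x
    by_cases hc : (∀ E ∈ h, Dense E) ∧ x ∈ U h
    · obtain ⟨D, hD⟩ := hU2 h hc.1 x hc.2
      exact ⟨D, fun _ _ => hD⟩
    · exact ⟨univ, fun h3 h4 => absurd ⟨h3, h4⟩ hc⟩
  choose W hW using h2
  let F : List X → List (Set X) := fun l => l.foldl (fun h x => h ++ [W h x]) []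
  have hF : ∀ l x, F (l ++ [x]) = F l ++ [W (F l) x] := by
    intro l x
    simp [F, List.foldl_append]
  refine ⟨fun l => U (F l), fun l => hU _, ?_⟩
  intro x hx
  let D : ℕ → Set X := fun n => W (F ((List.range n).map x)) (x n)
  have hmap : ∀ n, F ((List.range n).map x) = (List.range n).map D := by
    intro n
    induction n with
    | zero => simp [F]
    | succ n ih =>
      rw [List.range_succ, List.map_append, List.map_append, ← ih]
      exact hF _ _
  have hdense : ∀ n, ∀ E ∈ F ((List.range n).map x), Dense E := by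
    intro n
    induction n with
    | zero => intro E hE; exact absurd hE (by simp [F])
    | succ n ih =>
      intro E hE
      rw [List.range_succ, List.map_append] at hE
      have hE' : E ∈ F ((List.range n).map x) ++ [W (F ((List.range n).map x)) (x n)] := by
        rw [← hF]
        exact hE
      rcases List.mem_append.1 hE' with h3 | h3
      · exact ih E h3
      · rw [List.mem_singleton.1 h3]
        exact (hW _ _ ih (hx n)).1
  have hres : ∀ n, Dense (D n) ∧ τ (F ((List.range n).map x) ++ [D n]) = x n := fun n =>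
    hW _ _ (hdense n) (hx n)
  have h3 := hτ2 D (fun n => (hres n).1)
  have h4 : (fun n => τ ((List.range (n+1)).map D)) = x := by
    funext n
    rw [List.range_succ, List.map_append, ← hmap]
    exact (hres n).2
  rw [h4] at h3
  exact h3

theorem dual (x₀ : X) (h : Undetermined X) : DUndetermined X :=
  ⟨fun h1 => h.2 (dual_one x₀ h1), fun h1 => h.1 (dual_two x₀ h1)⟩

end Pool.Agent.H15.OP
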