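import Mathlib

/-!
Definitions for the polarized partition relation for `ω`-covers.
-/

set_option autoImplicit false

namespace Pool.Agent.H15.Polar

open Set

/-- `𝒰` is an open `ω`-cover of the space `X`: it consists of open subsets of `X`, `X ∉ 𝒰`, and
every finite subset of `X` is contained in a member of `𝒰`. -/
def IsOmegaCover {X : Type} [TopologicalSpace X] (𝒰 : Set (Set X)) : Prop :=
  (∀ U ∈ 𝒰, IsOpen U) ∧ Set.univ ∉ 𝒰 ∧ ∀ F : Set X, F.Finite → ∃ U ∈ 𝒰, F ⊆ U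

/-- The property `P`: for every positive integer `k`, all open `ω`-covers `𝒰₁, 𝒰₂` and every
colouring `f` of `𝒰₁ × 𝒰₂` with `k` colours (written as the restriction of a colouring of all pairs
of sets) there are `ω`-covers `𝒱₁ ⊆ 𝒰₁`, `𝒱₂ ⊆ 𝒰₂` such that `f` takes fewer than 3 values on
`𝒱₁ × 𝒱₂`. -/
def PolarizedP (X : Type) [TopologicalSpace X] : Prop :=
  ∀ k : ℕ, 0 < k → ∀ 𝒰₁ 𝒰₂ : Set (Set X), IsOmegaCover 𝒰₁ → IsOmegaCover 𝒰₂ →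
    ∀ f : Set X → Set X → Fin k, ∃ 𝒱₁ ⊆ 𝒰₁, ∃ 𝒱₂ ⊆ 𝒰₂, IsOmegaCover 𝒱₁ ∧ IsOmegaCover 𝒱₂ ∧
      (Set.image2 f 𝒱₁ 𝒱₂).ncard < 3

/-- The selection principle `S₁(Ω,Ω)`. -/
def S1OmegaOmega (X : Type) [TopologicalSpace X] : Prop :=
  ∀ 𝒰 : ℕ → Set (Set X), (∀ n, IsOmegaCover (𝒰 n)) →
    ∃ U : ℕ → Set X, (∀ n, U n ∈ 𝒰 n) ∧ IsOmegaCover (Set.range U)

/-- The dominating number `𝔡`. -/
noncomputable def dominatingNumber : Cardinal.{0} :=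
  sInf {κ | ∃ D : Set (ℕ → ℕ), Cardinal.mk D = κ ∧
    ∀ g : ℕ → ℕ, ∃ f ∈ D, ∀ᶠ n in Filter.atTop, g n ≤ f n}

/-- The ultrafilter number `𝔲`: the least cardinality of a base of a nonprincipal ultrafilter
on `ℕ`. -/
noncomputable def ultrafilterNumber : Cardinal.{0} :=
  sInf {κ | ∃ (p : Ultrafilter ℕ) (B : Set (Set ℕ)), (p : Filter ℕ) ≤ Filter.cofinite ∧
    Cardinal.mk B = κ ∧ (∀ b ∈ B, b ∈ p) ∧ ∀ A ∈ p, ∃ b ∈ B, b ⊆ A}

/-- The critical cardinality `non(P)`: the least cardinality of a set of reals that fails `P`. -/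
noncomputable def nonP : Cardinal.{0} :=
  sInf {κ | ∃ X : Set ℝ, Cardinal.mk X = κ ∧ ¬ PolarizedP X}

end Pool.Agent.H15.Polar
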