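import Pool.Agent.H15.PolarDefs

set_option autoImplicit false

namespace Pool.Agent.H15.Polar

open Set

section lower

variable {X : Type} [TopologicalSpace X]

theorem countable_sub [SecondCountableTopology X] {𝒰 : Set (Set X)} (h : IsOmegaCover 𝒰) :
    ∃ u : ℕ → Set X, (∀ i, u i ∈ 𝒰) ∧ ∀ F : Set X, F.Finite → ∃ i, F ⊆ u i := by
  have hn : ∀ n : ℕ, ∃ T : Set 𝒰, T.Countable ∧ ∀ x : Fin n → X, ∃ U ∈ T, ∀ i, x i ∈ (U : Set X) := by
    intro n
    obtain ⟨T, hT, hTU⟩ := TopologicalSpace.isOpen_iUnion_countable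
      (fun U : 𝒰 => {x : Fin n → X | ∀ i, x i ∈ (U : Set X)}) (by
        intro U
        have : {x : Fin n → X | ∀ i, x i ∈ (U : Set X)} =
            ⋂ i, (fun x : Fin n → X => x i) ⁻¹' (U : Set X) := by
          ext x; simp
        rw [this]
        exact isOpen_iInter_of_finite fun i => (h.1 U U.2).preimage (continuous_apply i))
    refine ⟨T, hT, fun x => ?_⟩
    obtain ⟨U, hU, hxU⟩ := h.2.2 (Set.range x) (Set.finite_range x)
    have hx : x ∈ ⋃ U : 𝒰, {x : Fin n → X | ∀ i, x i ∈ (U : Set X)} := by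
      rw [Set.mem_iUnion]
      exact ⟨⟨U, hU⟩, fun i => hxU ⟨i, rfl⟩⟩
    rw [← hTU] at hx
    simp only [Set.mem_iUnion] at hx
    obtain ⟨U', hU', hx'⟩ := hx
    exact ⟨U', hU', hx'⟩
  choose T hTc hT using hn
  have hcount : (⋃ n, (Subtype.val '' (T n))).Countable :=
    Set.countable_iUnion fun n => (hTc n).image _
  have hne : (⋃ n, (Subtype.val '' (T n))).Nonempty := by
    obtain ⟨U, hU, _⟩ := hT 0 Fin.elim0
    exact ⟨U, Set.mem_iUnion.2 ⟨0, U, hU, rfl⟩⟩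
  obtain ⟨u, hu⟩ := hcount.exists_eq_range hne
  refine ⟨u, fun i => ?_, fun F hF => ?_⟩
  · have : u i ∈ ⋃ n, (Subtype.val '' (T n)) := by rw [hu]; exact ⟨i, rfl⟩
    rw [Set.mem_iUnion] at this
    obtain ⟨n, U, _, hU⟩ := this
    rw [← hU]
    exact U.2
  · obtain ⟨n, x, _, hx⟩ := hF.fin_param
    obtain ⟨U, hU, hxU⟩ := hT n x
    have : (U : Set X) ∈ ⋃ n, (Subtype.val '' (T n)) := Set.mem_iUnion.2 ⟨n, U, hU, rfl⟩
    rw [hu] at this
    obtain ⟨i, hi⟩ := this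
    refine ⟨i, ?_⟩
    rw [hi, ← hx]
    rintro _ ⟨j, rfl⟩
    exact hxU j

/-- The filter on the indices generated by the sets `{i | F ⊆ u i}`. -/
def filN (u : ℕ → Set X) : Filter ℕ where
  sets := {S | ∃ F : Set X, F.Finite ∧ ∀ i, F ⊆ u i → i ∈ S}
  univ_sets := ⟨∅, finite_empty, fun _ _ => trivial⟩
  sets_of_superset := by
    rintro S T ⟨F, hF, h⟩ hST
    exact ⟨F, hF, fun i hi => hST (h i hi)⟩
  inter_sets := by
    rintro S T ⟨F, hF, h⟩ ⟨G, hG, h'⟩
    exact ⟨F ∪ G, hF.union hG, fun i hi =>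
      ⟨h i (subset_union_left.trans hi), h' i (subset_union_right.trans hi)⟩⟩

theorem filN_neBot {u : ℕ → Set X} (h : ∀ F : Set X, F.Finite → ∃ i, F ⊆ u i) :
    (filN u).NeBot := by
  rw [Filter.neBot_iff]
  intro hbot
  have h0 : (∅ : Set ℕ) ∈ filN u := by rw [hbot]; trivial
  obtain ⟨F, hF, h'⟩ := h0
  obtain ⟨i, hi⟩ := h F hF
  exact h' i hi

theorem exists_colour {α : Type} (p : Ultrafilter α) {k : ℕ} (g : α → Fin k) :
    ∃ c, {x | g x = c} ∈ (p : Filter α) := by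
  have h : (⋃ i ∈ (Set.univ : Set (Fin k)), {x | g x = i}) ∈ p := by
    have : (⋃ i ∈ (Set.univ : Set (Fin k)), {x | g x = i}) = Set.univ := by
      ext x; simp
    rw [this]
    exact Filter.univ_mem
  obtain ⟨c, _, hc⟩ := (Ultrafilter.finite_biUnion_mem_iff Set.finite_univ).1 h
  exact ⟨c, hc⟩

/-- One half of the selection: sets `C m` of indices, all in an ultrafilter containing all
`{i | F ⊆ u i}`. The function `h F` gives least indices. -/
theorem exists_least {u : ℕ → Set X} (p : Ultrafilter ℕ)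
    (hp : ∀ F : Set X, F.Finite → {i | F ⊆ u i} ∈ (p : Filter ℕ)) (C : ℕ → Set ℕ)
    (hC : ∀ m, C m ∈ (p : Filter ℕ)) :
    ∃ h : Finset X → ℕ → ℕ, (∀ F m, h F m ∈ C m ∧ (F : Set X) ⊆ u (h F m)) ∧
      ∀ F F' m, F ⊆ F' → h F m ≤ h F' m := by
  have hne : ∀ (F : Finset X) m, {i | i ∈ C m ∧ (F : Set X) ⊆ u i}.Nonempty := fun F m =>
    Filter.nonempty_of_mem (Filter.inter_mem (hC m) (hp F F.finite_toSet))
  refine ⟨fun F m => sInf {i | i ∈ C m ∧ (F : Set X) ⊆ u i}, fun F m => Nat.sInf_mem (hne F m), ?_⟩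
  intro F F' m hFF
  apply Nat.sInf_le
  have := Nat.sInf_mem (hne F' m)
  exact ⟨this.1, Set.Subset.trans (Finset.coe_subset.2 hFF) this.2⟩

/-- Sets of size less than `𝔡` and `𝔲` satisfy `P`. -/
theorem polarized_of_card [SecondCountableTopology X] (hd : Cardinal.mk X < dominatingNumber)
    (hu : Cardinal.mk X < ultrafilterNumber) : PolarizedP X := by
  classical
  intro k _ 𝒰₁ 𝒰₂ h₁ h₂ f
  by_cases hfin : Finite X
  · exfalso
    obtain ⟨U, hU, hUU⟩ := h₁.2.2 Set.univ Set.finite_univ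
    rw [Set.univ_subset_iff] at hUU
    rw [hUU] at hU
    exact h₁.2.1 hU
  have hinfX : Infinite X := not_finite_iff_infinite.1 hfin
  have hcard : Cardinal.mk (Finset X) = Cardinal.mk X := Cardinal.mk_finset_of_infinite X
  obtain ⟨u, hu1, hu2⟩ := countable_sub h₁
  obtain ⟨v, hv1, hv2⟩ := countable_sub h₂
  have := filN_neBot hu2
  have := filN_neBot hv2
  let p : Ultrafilter ℕ := Ultrafilter.of (filN u)
  let q : Ultrafilter ℕ := Ultrafilter.of (filN v)
  have hp : ∀ F : Set X, F.Finite → {i | F ⊆ u i} ∈ (p : Filter ℕ) := fun F hF =>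
    Ultrafilter.of_le _ ⟨F, hF, fun i hi => hi⟩
  have hq : ∀ F : Set X, F.Finite → {i | F ⊆ v i} ∈ (q : Filter ℕ) := fun F hF =>
    Ultrafilter.of_le _ ⟨F, hF, fun i hi => hi⟩
  have ha : ∀ i, ∃ c, {j | f (u i) (v j) = c} ∈ (q : Filter ℕ) :=
    fun i => exists_colour q (fun j => f (u i) (v j))
  have hb : ∀ j, ∃ c, {i | f (u i) (v j) = c} ∈ (p : Filter ℕ) :=
    fun j => exists_colour p (fun i => f (u i) (v j))
  choose a ha using ha
  choose b hb using hb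
  obtain ⟨a0, ha0⟩ := exists_colour p a
  obtain ⟨b0, hb0⟩ := exists_colour q b
  let C : ℕ → Set ℕ := fun m => {i | a i = a0} ∩ ⋂ j ∈ Finset.range (m+1), {i | b j = b0 → f (u i) (v j) = b0}
  let D : ℕ → Set ℕ := fun m => {j | b j = b0} ∩ ⋂ i ∈ Finset.range (m+1), {j | a i = a0 → f (u i) (v j) = a0}
  have hC : ∀ m, C m ∈ (p : Filter ℕ) := by
    intro m
    refine Filter.inter_mem ha0 ((Filter.biInter_finset_mem _).2 fun j _ => ?_)
    by_cases h : b j = b0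
    · have h' := hb j
      rw [h] at h'
      exact Filter.mem_of_superset h' fun i hi _ => hi
    · exact Filter.mem_of_superset Filter.univ_mem fun i _ h' => absurd h' h
  have hD : ∀ m, D m ∈ (q : Filter ℕ) := by
    intro m
    refine Filter.inter_mem hb0 ((Filter.biInter_finset_mem _).2 fun i _ => ?_)
    by_cases h : a i = a0
    · have h' := ha i
      rw [h] at h'
      exact Filter.mem_of_superset h' fun i hi _ => hi
    · exact Filter.mem_of_superset Filter.univ_mem fun i _ h' => absurd h' h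
  have hCD : ∀ m m' i j, i ∈ C m → j ∈ D m' → j ≤ m → f (u i) (v j) = b0 := by
    intro m m' i j hi hj hjm
    have h1 := hi.2
    simp only [Set.mem_iInter] at h1
    exact h1 j (Finset.mem_range.2 (by omega)) hj.1
  have hDC : ∀ m m' i j, i ∈ C m → j ∈ D m' → i ≤ m' → f (u i) (v j) = a0 := by
    intro m m' i j hi hj hjm
    have h1 := hj.2
    simp only [Set.mem_iInter] at h1
    exact h1 i (Finset.mem_range.2 (by omega)) hi.1
  obtain ⟨h, hh1, hh2⟩ := exists_least p hp C hC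
  obtain ⟨e, he1, he2⟩ := exists_least q hq D hD
  -- a function not dominated
  obtain ⟨g0, hg0⟩ : ∃ g0 : ℕ → ℕ, ∀ F, ¬ ∀ᶠ m in Filter.atTop, g0 m ≤ max (h F m) (e F m) := by
    by_contra hcon
    push Not at hcon
    have hle : dominatingNumber ≤ Cardinal.mk (Set.range (fun F => fun m => max (h F m) (e F m))) := by
      apply csInf_le'
      refine ⟨_, rfl, fun g => ?_⟩
      obtain ⟨F, hF⟩ := hcon g
      exact ⟨_, ⟨F, rfl⟩, hF⟩
    have h2 := hle.trans Cardinal.mk_range_le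
    rw [hcard] at h2
    exact absurd hd (not_lt.2 h2)
  let g : ℕ → ℕ := fun m => m + (Finset.range (m+1)).sup g0
  have hgm : Monotone g := by
    intro m n hmn
    exact Nat.add_le_add hmn (Finset.sup_mono (Finset.range_subset_range.2 (by omega)))
  have hgid : ∀ m, m ≤ g m := fun m => Nat.le_add_right _ _
  have hgg : ∀ m, g0 m ≤ g m := fun m =>
    le_trans (Finset.le_sup (f := g0) (Finset.mem_range.2 (Nat.lt_succ_self m))) (Nat.le_add_left _ _)
  let S : Finset X → Set ℕ := fun F => {m | max (h F m) (e F m) ≤ g m}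
  have hS : ∀ F N, ∃ m ≥ N, m ∈ S F := by
    intro F N
    have := hg0 F
    rw [Filter.eventually_atTop] at this
    push Not at this
    obtain ⟨m, hm, hlt⟩ := this N
    exact ⟨m, hm, (hlt.le).trans (hgg m)⟩
  have hSm : ∀ F F', F ⊆ F' → S F' ⊆ S F := by
    intro F F' hFF m hm
    exact (max_le_max (hh2 F F' m hFF) (he2 F F' m hFF)).trans hm
  let t : ℕ → ℕ := fun n => Nat.rec 0 (fun _ s => g s + 1) n
  have ht0 : t 0 = 0 := rfl
  have htS : ∀ n, t (n+1) = g (t n) + 1 := fun _ => rfl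
  have htm : StrictMono t := strictMono_nat_of_lt_succ fun n => by
    rw [htS n]
    have := hgid (t n)
    omega
  have htid : ∀ n, n ≤ t n := fun n => htm.le_apply
  have hblk : ∀ m, ∃ n, t n ≤ m ∧ m < t (n+1) := by
    intro m
    have hex : ∃ n, m < t (n+1) := ⟨m, lt_of_lt_of_le (Nat.lt_succ_self m) (htid (m+1))⟩
    refine ⟨Nat.find hex, ?_, Nat.find_spec hex⟩
    by_contra hc
    push Not at hc
    rcases Nat.eq_zero_or_pos (Nat.find hex) with h0 | h0
    · rw [h0, ht0] at hc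
      omega
    · have h1 := Nat.find_min hex (m := Nat.find hex - 1) (by omega)
      apply h1
      rw [Nat.sub_add_cancel h0]
      exact hc
  let B : Finset X → Set ℕ := fun F => {n | ∃ m ∈ S F, t n ≤ m ∧ m < t (n+1)}
  have hBm : ∀ F F', F ⊆ F' → B F' ⊆ B F := by
    rintro F F' hFF n ⟨m, hm, h'⟩
    exact ⟨m, hSm F F' hFF hm, h'⟩
  have hB : ∀ F, (B F).Infinite := by
    intro F hfin
    obtain ⟨N, hN⟩ := hfin.bddAbove
    obtain ⟨m, hm, hmS⟩ := hS F (t (N+1))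
    obtain ⟨n, hn1, hn2⟩ := hblk m
    have h1 : n ≤ N := hN ⟨m, hmS, hn1, hn2⟩
    have h2 : t (n+1) ≤ t (N+1) := htm.monotone (show n + 1 ≤ N + 1 by omega)
    omega
  -- parity
  obtain ⟨r, hr2, hr⟩ : ∃ r < 2, ∀ F, {n | 2 * n + r ∈ B F}.Infinite := by
    by_contra hcon
    push Not at hcon
    obtain ⟨F0, hF0⟩ := hcon 0 (by norm_num)
    obtain ⟨F1, hF1⟩ := hcon 1 (by norm_num)
    have hfin : (B (F0 ∪ F1)).Finite := by
      refine Set.Finite.subset ((hF0.image (fun n => 2 * n + 0)).union (hF1.image (fun n => 2 * n + 1))) ?_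
      intro n hn
      rcases Nat.even_or_odd' n with ⟨c, hc | hc⟩
      · left
        refine ⟨c, ?_, by simp [hc]⟩
        show 2 * c + 0 ∈ B F0
        rw [add_zero, ← hc]
        exact hBm _ _ Finset.subset_union_left hn
      · right
        refine ⟨c, ?_, by simp [hc]⟩
        show 2 * c + 1 ∈ B F1
        rw [← hc]
        exact hBm _ _ Finset.subset_union_right hn
    exact hB _ hfin
  let E : Finset X → Set ℕ := fun F => {n | 2 * n + r ∈ B F}
  have hEm : ∀ F F', F ⊆ F' → E F' ⊆ E F := fun F F' hFF n hn => hBm F F' hFF hn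
  -- splitting
  obtain ⟨Z, hZ⟩ : ∃ Z : Set ℕ, ∀ F, (E F ∩ Z).Nonempty ∧ (E F \ Z).Nonempty := by
    by_contra hcon
    push Not at hcon
    have hcon' : ∀ Z : Set ℕ, ∃ F, E F ⊆ Zᶜ ∨ E F ⊆ Z := by
      intro Z
      obtain ⟨F, hF⟩ := hcon Z
      refine ⟨F, ?_⟩
      by_cases hne : (E F ∩ Z).Nonempty
      · right
        have := hF hne
        exact Set.sdiff_eq_empty.1 this
      · left
        intro n hn hnZ
        exact hne ⟨n, hn, hnZ⟩
    let 𝒢 : Filter ℕ :=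
      { sets := {A | ∃ F, E F ⊆ A}
        univ_sets := ⟨∅, Set.subset_univ _⟩
        sets_of_superset := by
          rintro A A' ⟨F, hF⟩ hAA
          exact ⟨F, hF.trans hAA⟩
        inter_sets := by
          rintro A A' ⟨F, hF⟩ ⟨F', hF'⟩
          exact ⟨F ∪ F', Set.subset_inter ((hEm _ _ Finset.subset_union_left).trans hF)
            ((hEm _ _ Finset.subset_union_right).trans hF')⟩ }
    let w : Ultrafilter ℕ := Ultrafilter.ofComplNotMemIff 𝒢 (by
      intro s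
      constructor
      · intro hs
        obtain ⟨F, hF | hF⟩ := hcon' s
        · exact absurd ⟨F, hF⟩ hs
        · exact ⟨F, hF⟩
      · rintro ⟨F, hF⟩ ⟨F', hF'⟩
        obtain ⟨n, hn⟩ := (hr (F ∪ F')).nonempty
        exact hF' (hEm _ _ Finset.subset_union_right hn) (hF (hEm _ _ Finset.subset_union_left hn)))
    have hw : ∀ A, A ∈ w ↔ ∃ F, E F ⊆ A := fun A => Iff.rfl
    have hle : ultrafilterNumber ≤ Cardinal.mk (Set.range E) := by
      apply csInf_le'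
      refine ⟨w, Set.range E, ?_, rfl, ?_, ?_⟩
      · intro s hs
        rw [Filter.mem_cofinite] at hs
        by_contra hsw
        have hsc : sᶜ ∈ w := Ultrafilter.compl_mem_iff_notMem.2 hsw
        obtain ⟨F, hF⟩ := (hw _).1 hsc
        exact hr F (hs.subset hF)
      · rintro _ ⟨F, rfl⟩
        exact (hw _).2 ⟨F, subset_rfl⟩
      · intro A hA
        obtain ⟨F, hF⟩ := (hw _).1 hA
        exact ⟨E F, ⟨F, rfl⟩, hF⟩
    have h2 := hle.trans Cardinal.mk_range_le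
    rw [hcard] at h2
    exact absurd hu (not_lt.2 h2)
  -- bounds on indices
  have hbd : ∀ n m, m < t (n+1) → g m < t (n+2) := by
    intro n m hm
    have h1 : g m ≤ g (t (n+1)) := hgm hm.le
    have h2 : t (n+2) = g (t (n+1)) + 1 := htS (n+1)
    omega
  let V₁ : Set (Set X) := {U | ∃ i n m, n ∈ Z ∧ t (2*n+r) ≤ m ∧ m < t (2*n+r+1) ∧ i ∈ C m ∧ i ≤ g m ∧ U = u i}
  let V₂ : Set (Set X) := {U | ∃ j n m, n ∉ Z ∧ t (2*n+r) ≤ m ∧ m < t (2*n+r+1) ∧ j ∈ D m ∧ j ≤ g m ∧ U = v j}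
  have hV1 : V₁ ⊆ 𝒰₁ := by
    rintro U ⟨i, n, m, _, _, _, _, _, rfl⟩
    exact hu1 i
  have hV2 : V₂ ⊆ 𝒰₂ := by
    rintro U ⟨i, n, m, _, _, _, _, _, rfl⟩
    exact hv1 i
  refine ⟨V₁, hV1, V₂, hV2, ⟨fun U hU => h₁.1 U (hV1 hU), fun hU => h₁.2.1 (hV1 hU), ?_⟩,
    ⟨fun U hU => h₂.1 U (hV2 hU), fun hU => h₂.2.1 (hV2 hU), ?_⟩, ?_⟩
  · intro F hF
    obtain ⟨n, ⟨m, hmS, hm1, hm2⟩, hnZ⟩ := (hZ hF.toFinset).1
    have hs := hh1 hF.toFinset m
    refine ⟨u (h hF.toFinset m), ⟨_, n, m, hnZ, hm1, hm2, hs.1, (le_max_left _ _).trans hmS, rfl⟩, ?_⟩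
    have := hs.2
    rwa [hF.coe_toFinset] at this
  · intro F hF
    obtain ⟨n, ⟨m, hmS, hm1, hm2⟩, hnZ⟩ := (hZ hF.toFinset).2
    have hs := he1 hF.toFinset m
    refine ⟨v (e hF.toFinset m), ⟨_, n, m, hnZ, hm1, hm2, hs.1, (le_max_right _ _).trans hmS, rfl⟩, ?_⟩
    have := hs.2
    rwa [hF.coe_toFinset] at this
  · have hsub : Set.image2 f V₁ V₂ ⊆ {a0, b0} := by
      rintro _ ⟨_, ⟨i, n, m, hnZ, hm1, hm2, hiC, hig, rfl⟩, _, ⟨j, n', m', hnZ', hm1', hm2', hjD, hjg, rfl⟩, rfl⟩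
      have hne : n ≠ n' := by
        rintro rfl
        exact hnZ' hnZ
      rcases lt_or_gt_of_ne hne with hlt | hlt
      · left
        apply hDC m m' i j hiC hjD
        have h1 := hbd (2*n+r) m hm2
        have h2 : t (2*n+r+2) ≤ t (2*n'+r) := htm.monotone (show 2*n+r+2 ≤ 2*n'+r by omega)
        omega
      · right
        apply hCD m m' i j hiC hjD
        have h1 := hbd (2*n'+r) m' hm2'
        have h2 : t (2*n'+r+2) ≤ t (2*n+r) := htm.monotone (show 2*n'+r+2 ≤ 2*n+r by omega)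
        omega
    have h1 := Set.ncard_le_ncard hsub (Set.toFinite _)
    have h2 : ({a0, b0} : Set (Fin k)).ncard ≤ 2 := Set.ncard_insert_le a0 {b0} |>.trans (by simp)
    omega

end lower

section upper

variable {X : Type} [TopologicalSpace X]

theorem not_polarized_of_ultrafilter (A : X → Set ℕ) (hA : ∀ n, IsOpen {x | n ∈ A x})
    (p : Ultrafilter ℕ) (hp : (p : Filter ℕ) ≤ Filter.cofinite) (h1 : ∀ x, A x ∈ p)
    (h2 : ∀ S ∈ p, ∃ x, A x ⊆ S) : ¬ PolarizedP X := by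
  classical
  intro hP
  let U : ℕ → Set X := fun n => {x | n ∈ A x}
  let ι : Set X → ℕ := fun V => if h : ∃ n, U n = V then h.choose else 0
  have hι : ∀ V ∈ Set.range U, U (ι V) = V := by
    rintro V ⟨n, hn⟩
    have hex : ∃ n, U n = V := ⟨n, hn⟩
    simp only [ι, dif_pos hex]
    exact hex.choose_spec
  have hcov : IsOmegaCover (Set.range U) := by
    refine ⟨?_, ?_, ?_⟩
    · rintro _ ⟨n, rfl⟩
      exact hA n
    · rintro ⟨n, hn⟩
      have hmem : ({n}ᶜ : Set ℕ) ∈ p := hp (by rw [Filter.mem_cofinite, compl_compl]; exact Set.finite_singleton n)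
      obtain ⟨x, hx⟩ := h2 _ hmem
      have : x ∈ U n := by rw [hn]; trivial
      exact hx this rfl
    · intro F hF
      have hmem : (⋂ x ∈ F, A x) ∈ p := (Filter.biInter_mem hF).2 fun x _ => h1 x
      obtain ⟨n, hn⟩ := p.nonempty_of_mem hmem
      refine ⟨U n, ⟨n, rfl⟩, fun x hx => ?_⟩
      simp only [Set.mem_iInter] at hn
      exact hn x hx
  let f : Set X → Set X → Fin 3 := fun V W => if ι V < ι W then 0 else if ι V = ι W then 1 else 2
  obtain ⟨𝒱₁, hs1, 𝒱₂, hs2, hc1, hc2, hcard⟩ := hP 3 (by norm_num) _ _ hcov hcov f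
  have hmem : ∀ 𝒱 ⊆ Set.range U, IsOmegaCover 𝒱 → {n | ∃ V ∈ 𝒱, ι V = n} ∈ p := by
    intro 𝒱 hs hc
    by_contra hn
    have hn' := Ultrafilter.compl_mem_iff_notMem.2 hn
    obtain ⟨x, hx⟩ := h2 _ hn'
    obtain ⟨V, hV, hxV⟩ := hc.2.2 {x} (Set.finite_singleton x)
    have hxU : x ∈ U (ι V) := by rw [hι V (hs hV)]; exact hxV rfl
    exact hx hxU ⟨V, hV, rfl⟩
  have hI := Filter.inter_mem (hmem 𝒱₁ hs1 hc1) (hmem 𝒱₂ hs2 hc2)
  obtain ⟨m0, ⟨V0, hV0, hV0'⟩, ⟨W0, hW0, hW0'⟩⟩ := p.nonempty_of_mem hI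
  have hcof : {n | m0 < n} ∈ p := hp (by
    rw [Filter.mem_cofinite]
    refine (Set.finite_Iic m0).subset ?_
    intro n hn
    simp only [Set.mem_compl_iff, Set.mem_ofPred_eq, not_lt] at hn
    exact hn)
  obtain ⟨m1, ⟨⟨V1, hV1, hV1'⟩, ⟨W1, hW1, hW1'⟩⟩, hm⟩ := p.nonempty_of_mem (Filter.inter_mem hI hcof)
  have hm' : m0 < m1 := hm
  have hall : Set.image2 f 𝒱₁ 𝒱₂ = Set.univ := by
    apply Set.eq_univ_of_forall
    intro c
    fin_cases c
    · refine ⟨V0, hV0, W1, hW1, ?_⟩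
      simp only [f, hV0', hW1', if_pos hm']
      rfl
    · refine ⟨V0, hV0, W0, hW0, ?_⟩
      simp only [f, hV0', hW0', lt_irrefl, if_false, if_true]
      rfl
    · refine ⟨V1, hV1, W0, hW0, ?_⟩
      simp only [f, hV1', hW0', if_neg (not_lt.2 hm'.le), if_neg (ne_of_gt hm')]
      rfl
  rw [hall, Set.ncard_univ] at hcard
  simp at hcard

theorem not_polarized_of_dominating (t : X → ℕ → ℕ) (hopen : ∀ n k, IsOpen {x | t x n ≤ k})
    (h : ∀ (j : ℕ) (g : ℕ → ℕ), ∃ x, t x 0 = j ∧ ∀ n, g n < t x (n+1)) : ¬ PolarizedP X := by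
  classical
  intro hP
  let U : ℕ × ℕ → Set X := fun a => {x | t x 0 ≤ a.1 ∧ t x (a.1+1) ≤ a.2}
  let ι : Set X → ℕ × ℕ := fun V => if h : ∃ n, U n = V then h.choose else 0
  have hι : ∀ V ∈ Set.range U, U (ι V) = V := by
    rintro V ⟨n, hn⟩
    have hex : ∃ n, U n = V := ⟨n, hn⟩
    simp only [ι, dif_pos hex]
    exact hex.choose_spec
  have hcov : IsOmegaCover (Set.range U) := by
    refine ⟨?_, ?_, ?_⟩
    · rintro _ ⟨a, rfl⟩
      exact (hopen 0 a.1).inter (hopen (a.1+1) a.2)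
    · rintro ⟨a, ha⟩
      obtain ⟨x, hx, _⟩ := h (a.1+1) (fun _ => 0)
      have : x ∈ U a := by rw [ha]; trivial
      have h1 : t x 0 ≤ a.1 := this.1
      omega
    · intro F hF
      let n := hF.toFinset.sup (fun x => t x 0)
      let k := hF.toFinset.sup (fun x => t x (n+1))
      refine ⟨U (n, k), ⟨_, rfl⟩, fun x hx => ⟨?_, ?_⟩⟩
      · exact Finset.le_sup (f := fun x => t x 0) (hF.mem_toFinset.2 hx)
      · exact Finset.le_sup (f := fun x => t x (n+1)) (hF.mem_toFinset.2 hx)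
  let f : Set X → Set X → Fin 4 := fun V W =>
    if (ι V).1 < (ι W).1 then (if (ι V).2 < (ι W).2 then 0 else 1)
    else (if (ι V).2 < (ι W).2 then 2 else 3)
  obtain ⟨𝒱₁, hs1, 𝒱₂, hs2, hc1, hc2, hcard⟩ := hP 4 (by norm_num) _ _ hcov hcov f
  have hcol : ∀ 𝒱 ⊆ Set.range U, IsOmegaCover 𝒱 → ∀ N, ∃ n ≥ N, ∀ K, ∃ k ≥ K, ∃ V ∈ 𝒱, ι V = (n, k) := by
    intro 𝒱 hs hc N
    by_contra hcon
    push Not at hcon
    have hcon' : ∀ n, ∃ K, n ≥ N → ∀ k ≥ K, ∀ V ∈ 𝒱, ι V ≠ (n, k) := by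
      intro n
      by_cases hn : n ≥ N
      · obtain ⟨K, hK⟩ := hcon n hn
        exact ⟨K, fun _ => hK⟩
      · exact ⟨0, fun h' => absurd h' hn⟩
    choose K hK using hcon'
    obtain ⟨x, hx0, hx⟩ := h N K
    obtain ⟨V, hV, hxV⟩ := hc.2.2 {x} (Set.finite_singleton x)
    have hxU : x ∈ U (ι V) := by rw [hι V (hs hV)]; exact hxV rfl
    have h1 : t x 0 ≤ (ι V).1 := hxU.1
    have h2 : t x ((ι V).1+1) ≤ (ι V).2 := hxU.2
    have h3 := hx (ι V).1
    exact hK (ι V).1 (by omega) (ι V).2 (by omega) V hV rfl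
  obtain ⟨n1, _, hn1⟩ := hcol 𝒱₁ hs1 hc1 0
  obtain ⟨n2, hn12, hn2⟩ := hcol 𝒱₂ hs2 hc2 (n1+1)
  obtain ⟨n3, hn23, hn3⟩ := hcol 𝒱₁ hs1 hc1 n2
  have h0 : (0 : Fin 4) ∈ Set.image2 f 𝒱₁ 𝒱₂ := by
    obtain ⟨k1, _, V, hV, hV'⟩ := hn1 0
    obtain ⟨k2, hk2, W, hW, hW'⟩ := hn2 (k1+1)
    refine ⟨V, hV, W, hW, ?_⟩
    simp only [f, hV', hW']
    rw [if_pos (by omega), if_pos (by omega)]
  have h1 : (1 : Fin 4) ∈ Set.image2 f 𝒱₁ 𝒱₂ := by
    obtain ⟨k2, _, W, hW, hW'⟩ := hn2 0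
    obtain ⟨k1, hk1, V, hV, hV'⟩ := hn1 k2
    refine ⟨V, hV, W, hW, ?_⟩
    simp only [f, hV', hW']
    rw [if_pos (by omega), if_neg (by omega)]
  have h2 : (2 : Fin 4) ∈ Set.image2 f 𝒱₁ 𝒱₂ := by
    obtain ⟨k1, _, V, hV, hV'⟩ := hn3 0
    obtain ⟨k2, hk2, W, hW, hW'⟩ := hn2 (k1+1)
    refine ⟨V, hV, W, hW, ?_⟩
    simp only [f, hV', hW']
    rw [if_neg (by omega), if_pos (by omega)]
  have hsub : ({0, 1, 2} : Set (Fin 4)) ⊆ Set.image2 f 𝒱₁ 𝒱₂ := by
    rintro c (rfl | rfl | rfl)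
    · exact h0
    · exact h1
    · exact h2
  have h3 := Set.ncard_le_ncard hsub (Set.toFinite _)
  have h4 : ({0, 1, 2} : Set (Fin 4)).ncard = 3 := by
    rw [Set.ncard_eq_toFinset_card']
    rfl
  omega

end upper

/-- Families of points of the Cantor space can be realised as sets of reals. -/
theorem exists_real (T : Type) (τ : T → ℕ → Bool) :
    ∃ X : Set ℝ, Cardinal.mk X ≤ Cardinal.mk T ∧ ∃ ψ : X → ℕ → Bool, Continuous ψ ∧
      (∀ x, ∃ t, ψ x = τ t) ∧ ∀ t, ∃ x, ψ x = τ t := by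
  let e : T → ℝ := fun t => ((cantorSetHomeomorphNatToBool.symm (τ t) : cantorSet) : ℝ)
  have hmem : ∀ x : Set.range e, (x : ℝ) ∈ cantorSet := by
    rintro ⟨_, t, rfl⟩
    exact (cantorSetHomeomorphNatToBool.symm (τ t)).2
  refine ⟨Set.range e, Cardinal.mk_range_le, fun x => cantorSetHomeomorphNatToBool ⟨x, hmem x⟩,
    ?_, ?_, ?_⟩
  · exact cantorSetHomeomorphNatToBool.continuous.comp
      (Continuous.subtype_mk continuous_subtype_val _)
  · rintro ⟨_, t, rfl⟩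
    refine ⟨t, ?_⟩
    exact cantorSetHomeomorphNatToBool.apply_symm_apply (τ t)
  · intro t
    exact ⟨⟨e t, t, rfl⟩, cantorSetHomeomorphNatToBool.apply_symm_apply (τ t)⟩

theorem exists_fail_u : ∃ X : Set ℝ, Cardinal.mk X ≤ ultrafilterNumber ∧ ¬ PolarizedP X := by
  classical
  have hne : {κ : Cardinal.{0} | ∃ (p : Ultrafilter ℕ) (B : Set (Set ℕ)), (p : Filter ℕ) ≤ Filter.cofinite ∧
    Cardinal.mk B = κ ∧ (∀ b ∈ B, b ∈ p) ∧ ∀ A ∈ p, ∃ b ∈ B, b ⊆ A}.Nonempty :=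
    ⟨_, Filter.hyperfilter ℕ, {b | b ∈ Filter.hyperfilter ℕ}, Filter.hyperfilter_le_cofinite, rfl,
      fun b hb => hb, fun A hA => ⟨A, hA, subset_rfl⟩⟩
  obtain ⟨p, B, hp, hB, hB1, hB2⟩ := csInf_mem hne
  obtain ⟨X, hX, ψ, hψ, h1, h2⟩ := exists_real B (fun b n => decide (n ∈ (b : Set ℕ)))
  refine ⟨X, hX.trans hB.le, ?_⟩
  refine not_polarized_of_ultrafilter (fun x => {n | ψ x n = true}) ?_ p hp ?_ ?_
  · intro n
    have : {x | n ∈ {n | ψ x n = true}} = (fun x => ψ x n) ⁻¹' {true} := rfl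
    rw [this]
    exact (isOpen_discrete _).preimage ((continuous_apply n).comp hψ)
  · intro x
    obtain ⟨b, hb⟩ := h1 x
    have : {n | ψ x n = true} = (b : Set ℕ) := by
      ext n
      rw [Set.mem_ofPred_eq, hb]
      simp
    rw [this]
    exact hB1 b b.2
  · intro S hS
    obtain ⟨b, hb, hbS⟩ := hB2 S hS
    obtain ⟨x, hx⟩ := h2 ⟨b, hb⟩
    refine ⟨x, ?_⟩
    intro n hn
    rw [Set.mem_ofPred_eq, hx] at hn
    exact hbS (by simpa using hn)

theorem exists_fail_d : ∃ X : Set ℝ, Cardinal.mk X ≤ dominatingNumber ∧ ¬ PolarizedP X := by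
  classical
  have hne : {κ : Cardinal.{0} | ∃ D : Set (ℕ → ℕ), Cardinal.mk D = κ ∧
    ∀ g : ℕ → ℕ, ∃ f ∈ D, ∀ᶠ n in Filter.atTop, g n ≤ f n}.Nonempty :=
    ⟨_, Set.univ, rfl, fun g => ⟨g, trivial, Filter.Eventually.of_forall fun n => le_rfl⟩⟩
  obtain ⟨D, hD, hdom⟩ := csInf_mem hne
  have hinf : Infinite D := by
    by_contra hfin
    rw [not_infinite_iff_finite] at hfin
    have hfin' : D.Finite := Set.toFinite D
    obtain ⟨f, hf, hev⟩ := hdom (fun n => hfin'.toFinset.sup (fun d => d n) + 1)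
    obtain ⟨n, hn⟩ := hev.exists
    have : f n ≤ hfin'.toFinset.sup (fun d => d n) :=
      Finset.le_sup (f := fun d => d n) (hfin'.mem_toFinset.2 hf)
    omega
  let T : Type := ℕ × D × ℕ
  let t : T → ℕ → ℕ := fun a n => match n with
    | 0 => a.1
    | n + 1 => max ((a.2.1 : ℕ → ℕ) n) a.2.2 + 1
  obtain ⟨X, hX, ψ, hψ, h1, h2⟩ := exists_real T (fun a m => decide (t a m.unpair.1 ≤ m.unpair.2))
  choose s hs using h1
  refine ⟨X, ?_, ?_⟩
  · refine hX.trans ?_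
    have hT : Cardinal.mk T = Cardinal.mk D := by
      have h0 : Cardinal.aleph0 ≤ Cardinal.mk D := Cardinal.aleph0_le_mk D
      simp only [T, Cardinal.mk_prod, Cardinal.lift_id, Cardinal.mk_nat]
      rw [Cardinal.mul_aleph0_eq h0, Cardinal.aleph0_mul_eq h0]
    rw [hT]
    exact hD.le
  · refine not_polarized_of_dominating (fun x => t (s x)) ?_ ?_
    · intro n k
      have : {x | t (s x) n ≤ k} = (fun x => ψ x (Nat.pair n k)) ⁻¹' {true} := by
        ext x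
        simp only [Set.mem_ofPred_eq, Set.mem_preimage, Set.mem_singleton_iff]
        rw [hs x]
        simp
      rw [this]
      exact (isOpen_discrete _).preimage ((continuous_apply _).comp hψ)
    · intro j g
      obtain ⟨f, hf, hev⟩ := hdom g
      rw [Filter.eventually_atTop] at hev
      obtain ⟨N, hN⟩ := hev
      let m := (Finset.range N).sup g
      obtain ⟨x, hx⟩ := h2 (j, ⟨f, hf⟩, m)
      have heq : ∀ n, t (s x) n = t (j, ⟨f, hf⟩, m) n := by
        intro n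
        have h3 : ∀ k, (t (s x) n ≤ k ↔ t (j, ⟨f, hf⟩, m) n ≤ k) := by
          intro k
          have h4 := congrFun ((hs x).symm.trans hx) (Nat.pair n k)
          simpa using h4
        exact le_antisymm ((h3 _).2 le_rfl) ((h3 _).1 le_rfl)
      refine ⟨x, heq 0, fun n => ?_⟩
      rw [heq (n+1)]
      show g n < max (f n) m + 1
      by_cases hn : n < N
      · have : g n ≤ m := Finset.le_sup (f := g) (Finset.mem_range.2 hn)
        have := le_max_right (f n) m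
        omega
      · have h5 := hN n (not_lt.1 hn)
        have := le_max_left (f n) m
        omega

theorem nonP_eq : nonP = min dominatingNumber ultrafilterNumber := by
  obtain ⟨X1, hX1, hP1⟩ := exists_fail_u
  obtain ⟨X2, hX2, hP2⟩ := exists_fail_d
  apply le_antisymm
  · apply le_min
    · have h : nonP ≤ Cardinal.mk X2 := csInf_le' ⟨X2, rfl, hP2⟩
      exact h.trans hX2
    · have h : nonP ≤ Cardinal.mk X1 := csInf_le' ⟨X1, rfl, hP1⟩
      exact h.trans hX1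
  · refine le_csInf ⟨_, X1, rfl, hP1⟩ ?_
    rintro κ ⟨X, rfl, hX⟩
    by_contra hlt
    rw [not_le, lt_min_iff] at hlt
    exact hX (polarized_of_card hlt.1 hlt.2)

end Pool.Agent.H15.Polar
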