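import Mathlib

set_option autoImplicit false

/-!
Helper file for MP_d06690_lc: the shift graph coded on `ω₂²`.
-/

namespace Pool.Agent.H15.Sq

open Set Cardinal Ordinal

noncomputable abbrev w2 : Ordinal.{0} := (Cardinal.aleph.{0} 2).ord

theorem reg2 : Cardinal.IsRegular (Cardinal.aleph.{0} 2) := by
  have := isRegular_aleph_add_one (1 : Ordinal.{0})
  rwa [one_add_one_eq_two] at this

theorem aleph_two : Cardinal.aleph.{0} 2 = Order.succ (Cardinal.aleph.{0} 1) := by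
  rw [← aleph_succ]
  congr 1
  rw [Ordinal.succ_one]

theorem card_lt {o : Ordinal.{0}} (h : o < w2) : o.card < Cardinal.aleph.{0} 2 :=
  Cardinal.lt_ord.1 h

theorem card_le {o : Ordinal.{0}} (h : o < w2) : o.card ≤ Cardinal.aleph.{0} 1 := by
  have := card_lt h
  rw [aleph_two] at this
  exact Order.lt_succ_iff.1 this

theorem w2_lim : Order.IsSuccLimit w2 := isSuccLimit_ord (aleph0_le_aleph 2)

theorem w2_pos : 0 < w2 := w2_lim.bot_lt

theorem reg_bound {η : Ordinal.{0}} (hη : η < w2) (g : Ordinal.{0} → Ordinal.{0})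
    (hg : ∀ v < η, g v < w2) : ∃ β < w2, ∀ v < η, g v < β := by
  let f : η.ToType → Ordinal.{0} := fun i => g (ToType.mk.symm i).1
  have h1 : iSup f < w2 :=
    iSup_lt_ord_of_isRegular reg2 (by rw [mk_toType]; exact card_lt hη)
      (fun i => hg _ (ToType.mk.symm i).2)
  refine ⟨Order.succ (iSup f), w2_lim.succ_lt h1, fun v hv => ?_⟩
  have h2 : g v = f (ToType.mk ⟨v, hv⟩) := by simp [f]
  rw [h2]
  exact Order.lt_succ_of_le (Ordinal.le_iSup f _)

theorem exists_inj (o : Ordinal.{0}) (T : Type) (h : o.card ≤ #(T → Bool)) :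
    ∃ e : Ordinal.{0} → (T → Bool), InjOn e (Iio o) := by
  classical
  rw [← mk_toType] at h
  obtain ⟨ι⟩ := (Cardinal.le_def _ _).1 h
  refine ⟨fun x => if hx : x < o then ι (ToType.mk ⟨x, hx⟩) else fun _ => true, ?_⟩
  intro x hx y hy hxy
  have hx' : x < o := hx
  have hy' : y < o := hy
  simp only [dif_pos hx', dif_pos hy'] at hxy
  have := ToType.mk.injective (ι.injective hxy)
  exact congrArg Subtype.val this

theorem exists_shift (o : Ordinal.{0}) (T : Type) [Nonempty T] (h : o.card ≤ #(T → Bool)) :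
    ∃ κ : Ordinal.{0} → Ordinal.{0} → T × Bool,
      ∀ a b c, a < b → b < c → c < o → κ a b ≠ κ b c := by
  obtain ⟨e, he⟩ := exists_inj o T h
  have h1 : ∀ a b, ∃ n : T, a < o → b < o → a ≠ b → e a n ≠ e b n := by
    intro a b
    by_cases hc : a < o ∧ b < o ∧ a ≠ b
    · have : e a ≠ e b := fun h => hc.2.2 (he hc.1 hc.2.1 h)
      obtain ⟨n, hn⟩ := Function.ne_iff.1 this
      exact ⟨n, fun _ _ _ => hn⟩
    · exact ⟨Classical.arbitrary T, fun h1 h2 h3 => absurd ⟨h1, h2, h3⟩ hc⟩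
  choose d hd using h1
  refine ⟨fun a b => (d a b, e a (d a b)), fun a b c hab hbc hco heq => ?_⟩
  have hb := hbc.trans hco
  have ha := hab.trans hb
  have h2 := hd a b ha hb hab.ne
  obtain ⟨h3, h4⟩ := Prod.mk.inj heq
  rw [← h3] at h4
  exact h2 h4

/-- arcs of the shift graph: `(a,b) → (b,c)`, the pair `(a,b)` being `ω₂·a+b` -/
def E (u v : Ordinal.{0}) : Prop := u / w2 < u % w2 ∧ v / w2 = u % w2 ∧ v / w2 < v % w2

def G : SimpleGraph (Set.Iio (w2 ^ 2)) where
  Adj x y := E x.1 y.1 ∨ E y.1 x.1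
  symm := ⟨fun x y h => h.symm⟩
  loopless := ⟨fun x h => by
    have h' : E x.1 x.1 := h.elim id id
    exact h'.1.ne h'.2.1⟩

theorem div_lt_w2 {x : Ordinal.{0}} (h : x < w2 ^ 2) : x / w2 < w2 := by
  rw [Ordinal.div_lt w2_pos.ne', ← sq]
  exact h

theorem mod_lt_w2 (x : Ordinal.{0}) : x % w2 < w2 := Ordinal.mod_lt x w2_pos.ne'

theorem pair_lt {a b : Ordinal.{0}} (ha : a < w2) (hb : b < w2) : w2 * a + b < w2 ^ 2 := by
  calc w2 * a + b < w2 * a + w2 := (add_lt_add_iff_left _).2 hb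
    _ = w2 * Order.succ a := by rw [Ordinal.mul_succ]
    _ ≤ w2 * w2 := mul_le_mul_right (Order.succ_le_of_lt ha) _
    _ = w2 ^ 2 := (sq w2).symm

theorem pair_div {a b : Ordinal.{0}} (hb : b < w2) : (w2 * a + b) / w2 = a := by
  rw [Ordinal.mul_add_div _ w2_pos.ne', Ordinal.div_eq_zero_of_lt hb, add_zero]

theorem pair_mod {a b : Ordinal.{0}} (hb : b < w2) : (w2 * a + b) % w2 = b := by
  rw [Ordinal.mul_add_mod_self, Ordinal.mod_eq_of_lt hb]

theorem col_aleph_one : Nonempty (G.Coloring (Set.Iio (Cardinal.aleph.{0} 1).ord)) := by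
  let Ω : Type := (Cardinal.aleph.{0} 1).ord.ToType
  have hΩ : #Ω = Cardinal.aleph 1 := by
    show #(Cardinal.aleph.{0} 1).ord.ToType = _
    rw [Cardinal.mk_ord_toType]
  have hne : Nonempty Ω := by
    rw [← mk_ne_zero_iff, hΩ]
    exact (aleph_pos 1).ne'
  have h1 : w2.card ≤ #(Ω → Bool) := by
    rw [Cardinal.card_ord, aleph_two]
    refine Order.succ_le_of_lt ?_
    have : #(Ω → Bool) = 2 ^ (Cardinal.aleph.{0} 1) := by
      rw [← hΩ]
      simp
    rw [this]
    exact cantor _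
  obtain ⟨κ, hκ⟩ := exists_shift w2 Ω h1
  have h2 : #(Ω × Bool) = #Ω := by
    rw [mk_prod, Cardinal.lift_id, Cardinal.lift_id, mk_bool]
    exact mul_eq_left (by rw [hΩ]; exact aleph0_le_aleph 1)
      ((nat_lt_aleph0 2).le.trans (by rw [hΩ]; exact aleph0_le_aleph 1)) (by simp)
  obtain ⟨φ⟩ := Cardinal.eq.1 h2
  let ψ : Ω ≃o Set.Iio (Cardinal.aleph.{0} 1).ord := ToType.mk.symm
  have key : ∀ x y : Set.Iio (w2 ^ 2), E x.1 y.1 →
      κ (x.1 / w2) (x.1 % w2) ≠ κ (y.1 / w2) (y.1 % w2) := by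
    rintro x y ⟨h3, h4, h5⟩
    rw [h4]
    rw [h4] at h5
    exact hκ _ _ _ h3 h5 (mod_lt_w2 _)
  refine ⟨SimpleGraph.Coloring.mk (fun x => ψ (φ (κ (x.1 / w2) (x.1 % w2)))) (fun {x y} h => ?_)⟩
  intro heq
  have h3 := φ.injective (ψ.injective heq)
  rcases h with h | h
  · exact key x y h h3
  · exact key y x h h3.symm

theorem no_nat_col (hCH : (2 : Cardinal.{0}) ^ ℵ₀ = Cardinal.aleph 1) :
    IsEmpty (G.Coloring ℕ) := by
  classical
  refine ⟨fun c => ?_⟩
  let C : Ordinal.{0} → Ordinal.{0} → ℕ := fun a b =>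
    if h : w2 * a + b < w2 ^ 2 then c ⟨w2 * a + b, h⟩ else 0
  let S : Ordinal.{0} → Set ℕ := fun b => {n | ∃ a, a < b ∧ C a b = n}
  have hS : ∀ b b', b < b' → b' < w2 → S b ≠ S b' := by
    intro b b' hbb hb' heq
    have hb := hbb.trans hb'
    have h1 : C b b' ∈ S b' := ⟨b, hbb, rfl⟩
    rw [← heq] at h1
    obtain ⟨a, hab, hC⟩ := h1
    have ha := hab.trans hb
    simp only [C, dif_pos (pair_lt ha hb), dif_pos (pair_lt hb hb')] at hC
    refine c.valid (v := ⟨w2 * a + b, pair_lt ha hb⟩) (w := ⟨w2 * b + b', pair_lt hb hb'⟩)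
      (Or.inl ?_) hC
    show E (w2 * a + b) (w2 * b + b')
    unfold E
    rw [pair_div hb, pair_mod hb, pair_div hb', pair_mod hb']
    exact ⟨hab, rfl, hbb⟩
  have hinj : Function.Injective (fun i : w2.ToType => S (ToType.mk.symm i).1) := by
    intro i i' hii
    rcases lt_trichotomy (ToType.mk.symm i).1 (ToType.mk.symm i').1 with h | h | h
    · exact absurd hii (hS _ _ h (ToType.mk.symm i').2)
    · exact ToType.mk.symm.injective (Subtype.ext h)
    · exact absurd hii.symm (hS _ _ h (ToType.mk.symm i).2)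
  have h1 := mk_le_of_injective hinj
  rw [mk_toType, Cardinal.card_ord, mk_set, mk_nat, hCH, aleph_two] at h1
  exact absurd (Order.lt_succ _) (not_lt.2 h1)

end Pool.Agent.H15.Sq
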