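import Pool.Agent.H15.SqA

set_option autoImplicit false

/-!
Helper file for MP_d06690_lc: small sets are countably chromatic.
-/

namespace Pool.Agent.H15.Sq

open Set Cardinal Ordinal

theorem small_bound {S : Set (Set.Iio (w2 ^ 2))} {γ : Ordinal.{0}} (hγ : γ < w2 ^ 2)
    (f : S → Ordinal.{0}) (hf : ∀ x y : S, x.1.1 < y.1.1 → f x < f y) (hfγ : ∀ x : S, f x < γ) :
    ∃ η' < w2, ∃ F : Ordinal.{0} → Ordinal.{0}, (∀ α < w2, F α < w2) ∧
      ∀ x : S, η' ≤ x.1.1 / w2 → x.1.1 % w2 < F (x.1.1 / w2) := by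
  classical
  let η : Ordinal.{0} := Order.succ (γ / w2)
  have hη : η < w2 := w2_lim.succ_lt (div_lt_w2 hγ)
  have hq : ∀ x : S, f x / w2 < η := fun x =>
    Order.lt_succ_of_le (Ordinal.div_le_left (hfγ x).le w2)
  have hinj : ∀ x y : S, f x = f y → x = y := by
    intro x y h
    rcases lt_trichotomy x.1.1 y.1.1 with h1 | h1 | h1
    · exact absurd h (hf x y h1).ne
    · exact Subtype.ext (Subtype.ext h1)
    · exact absurd h (hf y x h1).ne'
  let U : Ordinal.{0} → Ordinal.{0} → Prop := fun α v =>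
    ∀ β < w2, ∃ x : S, x.1.1 / w2 = α ∧ β ≤ x.1.1 % w2 ∧ f x / w2 = v
  let Unb : Ordinal.{0} → Prop := fun α => ∀ β < w2, ∃ x : S, x.1.1 / w2 = α ∧ β ≤ x.1.1 % w2
  have step1 : ∀ α, Unb α → ∃ v < η, U α v := by
    intro α hα
    by_contra H
    push Not at H
    have H' : ∀ v, ∃ g, v < η → g < w2 ∧ ∀ x : S, x.1.1 / w2 = α → g ≤ x.1.1 % w2 →
        f x / w2 ≠ v := by
      intro v
      by_cases hv : v < η
      · have h1 := H v hv
        have h2 : ¬ ∀ β < w2, ∃ x : S, x.1.1 / w2 = α ∧ β ≤ x.1.1 % w2 ∧ f x / w2 = v := h1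
        push Not at h2
        obtain ⟨β, hβ, h3⟩ := h2
        exact ⟨β, fun _ => ⟨hβ, h3⟩⟩
      · exact ⟨0, fun h => absurd h hv⟩
    choose g hg using H'
    obtain ⟨β, hβ, hgβ⟩ := reg_bound hη g (fun v hv => (hg v hv).1)
    obtain ⟨x, hx1, hx2⟩ := hα β hβ
    exact (hg _ (hq x)).2 x hx1 ((hgβ _ (hq x)).le.trans hx2) rfl
  have step2 : ∀ α α' v, α < α' → U α v → U α' v → False := by
    intro α α' v hlt h1 h2
    obtain ⟨x', hx'1, -, hx'2⟩ := h2 0 w2_pos
    let Q : Ordinal.{0} → S → Prop := fun ρ x => x.1.1 / w2 = α ∧ f x / w2 = v ∧ f x % w2 = ρ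
    let g : Ordinal.{0} → Ordinal.{0} := fun ρ =>
      if h : ∃ x : S, Q ρ x then h.choose.1.1 % w2 else 0
    obtain ⟨β, hβ, hgβ⟩ := reg_bound (mod_lt_w2 (f x')) g (by
      intro v _
      show (if h : ∃ x : S, Q v x then h.choose.1.1 % w2 else 0) < w2
      split_ifs
      · exact mod_lt_w2 _
      · exact w2_pos)
    obtain ⟨x, hx1, hx2, hx3⟩ := h1 β hβ
    have hxx : x.1.1 < x'.1.1 := by
      by_contra hle
      have := Ordinal.div_le_left (not_lt.1 hle) w2
      rw [hx1, hx'1] at this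
      exact absurd hlt (not_lt.2 this)
    have hr : f x % w2 < f x' % w2 := by
      have h3 := hf x x' hxx
      have e1 := Ordinal.div_add_mod (f x) w2
      have e2 := Ordinal.div_add_mod (f x') w2
      rw [hx3] at e1
      rw [hx'2] at e2
      rw [← e1, ← e2] at h3
      exact (add_lt_add_iff_left _).1 h3
    have h4 := hgβ _ hr
    have hex : ∃ y : S, Q (f x % w2) y := ⟨x, hx1, hx3, rfl⟩
    have h5 : g (f x % w2) = hex.choose.1.1 % w2 := by
      show (if h : ∃ y : S, Q (f x % w2) y then h.choose.1.1 % w2 else 0) = _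
      rw [dif_pos hex]
    obtain ⟨g1, g2, g3⟩ := hex.choose_spec
    have h6 : hex.choose = x := by
      apply hinj
      have e1 := Ordinal.div_add_mod (f hex.choose) w2
      have e2 := Ordinal.div_add_mod (f x) w2
      rw [g2, g3] at e1
      rw [hx3] at e2
      exact e1.symm.trans e2
    rw [h5, h6] at h4
    exact absurd h4 (not_lt.2 hx2)
  have step3 : ∃ η' < w2, ∀ α < w2, Unb α → α < η' := by
    let g : Ordinal.{0} → Ordinal.{0} := fun v =>
      if h : ∃ α < w2, U α v then h.choose else 0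
    obtain ⟨β, hβ, hgβ⟩ := reg_bound hη g (by
      intro v _
      show (if h : ∃ α < w2, U α v then h.choose else 0) < w2
      split_ifs with h
      · exact h.choose_spec.1
      · exact w2_pos)
    refine ⟨β, hβ, fun α hα hU => ?_⟩
    obtain ⟨v, hv, hUv⟩ := step1 α hU
    have hex : ∃ α < w2, U α v := ⟨α, hα, hUv⟩
    have h5 : g v = hex.choose := by
      show (if h : ∃ α < w2, U α v then h.choose else 0) = _
      rw [dif_pos hex]
    have h6 : hex.choose = α := by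
      rcases lt_trichotomy hex.choose α with h | h | h
      · exact (step2 _ _ _ h hex.choose_spec.2 hUv).elim
      · exact h
      · exact (step2 _ _ _ h hUv hex.choose_spec.2).elim
    have := hgβ v hv
    rwa [h5, h6] at this
  obtain ⟨η', hη', hη2⟩ := step3
  have step4 : ∀ α, ∃ β, β < w2 ∧ (α < w2 → η' ≤ α → ∀ x : S, x.1.1 / w2 = α → x.1.1 % w2 < β) := by
    intro α
    by_cases hα : α < w2 ∧ η' ≤ α
    · have h1 : ¬ Unb α := fun h => absurd (hη2 α hα.1 h) (not_lt.2 hα.2)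
      have h2 : ¬ ∀ β < w2, ∃ x : S, x.1.1 / w2 = α ∧ β ≤ x.1.1 % w2 := h1
      push Not at h2
      obtain ⟨β, hβ, h3⟩ := h2
      exact ⟨β, hβ, fun _ _ => h3⟩
    · exact ⟨0, w2_pos, fun h1 h2 => absurd ⟨h1, h2⟩ hα⟩
  choose F hF1 hF2 using step4
  refine ⟨η', hη', F, fun α _ => hF1 α, fun x hx => ?_⟩
  exact hF2 _ (div_lt_w2 x.1.2) hx x rfl

theorem exists_closed (F : Ordinal.{0} → Ordinal.{0}) (hF : ∀ α < w2, F α < w2) (a : Ordinal.{0})
    (ha : a < w2) : ∃ δ < w2, a < δ ∧ ∀ ξ < δ, F ξ ≤ δ := by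
  have hnb : ∀ a : Ordinal.{0}, ∃ β, a < w2 → β < w2 ∧ a < β ∧ ∀ ξ ≤ a, F ξ < β := by
    intro a
    by_cases ha : a < w2
    · obtain ⟨β, hβ, h1⟩ := reg_bound (w2_lim.succ_lt ha) F
        (fun v hv => hF v (hv.trans (w2_lim.succ_lt ha)))
      refine ⟨max β (Order.succ a), fun _ => ⟨max_lt hβ (w2_lim.succ_lt ha), ?_, ?_⟩⟩
      · exact (Order.lt_succ a).trans_le (le_max_right _ _)
      · exact fun ξ hξ => (h1 ξ (Order.lt_succ_of_le hξ)).trans_le (le_max_left _ _)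
    · exact ⟨0, fun h => absurd h ha⟩
  choose nb hnb using hnb
  let d : ℕ → Ordinal.{0} := fun i => nb^[i+1] a
  have hd1 : ∀ i, d (i+1) = nb (d i) := fun i => Function.iterate_succ_apply' nb (i+1) a
  have hd0 : d 0 = nb a := rfl
  have hdw : ∀ i, d i < w2 := by
    intro i
    induction i with
    | zero => exact (hnb a ha).1
    | succ i ih => rw [hd1]; exact (hnb _ ih).1
  have hsup : iSup d < w2 := by
    refine iSup_lt_ord_of_isRegular reg2 ?_ hdw
    rw [mk_nat, ← aleph_zero]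
    exact aleph_lt_aleph.2 (by simp)
  refine ⟨iSup d, hsup, ?_, ?_⟩
  · exact ((hnb a ha).2.1).trans_le (Ordinal.le_iSup d 0)
  · intro ξ hξ
    obtain ⟨i, hi⟩ := Ordinal.lt_iSup_iff.1 hξ
    have h1 := (hnb (d i) (hdw i)).2.2 ξ hi.le
    rw [← hd1] at h1
    exact h1.le.trans (Ordinal.le_iSup d (i+1))

theorem small_col (hCH : (2 : Cardinal.{0}) ^ ℵ₀ = Cardinal.aleph 1)
    (S : Set (Set.Iio (w2 ^ 2)))
    (hS : ∃ γ : Ordinal.{0}, γ < w2 ^ 2 ∧ ∃ f : S → Ordinal.{0},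
      (∀ x y : S, x.1.1 < y.1.1 → f x < f y) ∧ ∀ x : S, f x < γ) :
    Nonempty ((G.induce S).Coloring ℕ) := by
  classical
  obtain ⟨γ, hγ, f, hf, hfγ⟩ := hS
  obtain ⟨η', hη', F, hF1, hF2⟩ := small_bound hγ f hf hfγ
  have hcard : ∀ δ < w2, δ.card ≤ #(ℕ → Bool) := by
    intro δ hδ
    have : #(ℕ → Bool) = 2 ^ ℵ₀ := by simp
    rw [this, hCH]
    exact card_le hδ
  have hκ : ∀ δ : Ordinal.{0}, ∃ κ : Ordinal.{0} → Ordinal.{0} → ℕ × Bool,
      δ < w2 → ∀ a b c, a < b → b < c → c < δ → κ a b ≠ κ b c := by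
    intro δ
    by_cases hδ : δ < w2
    · obtain ⟨κ, h⟩ := exists_shift δ ℕ (hcard δ hδ)
      exact ⟨κ, fun _ => h⟩
    · exact ⟨fun _ _ => (0, true), fun h => absurd h hδ⟩
  choose κ hκ using hκ
  let T : Ordinal.{0} → Set Ordinal.{0} := fun a => {δ | a < δ ∧ ∀ ξ < δ, F ξ ≤ δ}
  have hT : ∀ a < w2, (T a).Nonempty := by
    intro a ha
    obtain ⟨δ, -, h1, h2⟩ := exists_closed F hF1 a ha
    exact ⟨δ, h1, h2⟩
  let cl : Ordinal.{0} → Ordinal.{0} := fun a => sInf (T a)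
  have hcl : ∀ a < w2, cl a ∈ T a := fun a ha => csInf_mem (hT a ha)
  have hclw : ∀ a < w2, cl a < w2 := by
    intro a ha
    obtain ⟨δ, hδ, h1, h2⟩ := exists_closed F hF1 a ha
    exact (csInf_le' (show δ ∈ T a from ⟨h1, h2⟩)).trans_lt hδ
  have hcle : ∀ a b, a < w2 → b < w2 → a < b → b < F a → cl a = cl b := by
    intro a b ha hb hab hbF
    have h1 := hcl a ha
    have h2 := hcl b hb
    refine le_antisymm (csInf_le' ⟨hab.trans h2.1, h2.2⟩) (csInf_le' ⟨?_, h1.2⟩)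
    exact hbF.trans_le (h1.2 a h1.1)
  let col : Ordinal.{0} → ℕ × (ℕ × Bool) := fun x =>
    if x / w2 < η' then (if x % w2 < η' then (0, κ η' (x / w2) (x % w2)) else (1, (0, true)))
    else (2, κ (cl (x / w2)) (x / w2) (x % w2))
  have key : ∀ u v : S, E u.1.1 v.1.1 → col u.1.1 ≠ col v.1.1 := by
    rintro u v ⟨h1, h2, h3⟩ heq
    simp only [col] at heq
    by_cases hu : u.1.1 / w2 < η'
    · by_cases hv : v.1.1 / w2 < η'
      · have hub : u.1.1 % w2 < η' := by rw [← h2]; exact hv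
        rw [if_pos hu, if_pos hv, if_pos hub] at heq
        by_cases hvb : v.1.1 % w2 < η'
        · rw [if_pos hvb] at heq
          have h5 := (Prod.mk.inj heq).2
          rw [h2] at h5 h3
          exact hκ η' hη' _ _ _ h1 h3 hvb h5
        · rw [if_neg hvb] at heq
          exact absurd (Prod.mk.inj heq).1 (by decide)
      · rw [if_pos hu, if_neg hv] at heq
        split_ifs at heq
        · exact absurd (Prod.mk.inj heq).1 (by decide)
        · exact absurd (Prod.mk.inj heq).1 (by decide)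
    · have hv : ¬ v.1.1 / w2 < η' := by
        rw [h2]
        exact fun h => hu (h1.trans h)
      rw [if_neg hu, if_neg hv] at heq
      have h5 := (Prod.mk.inj heq).2
      have ha := div_lt_w2 u.1.2
      have hb := mod_lt_w2 u.1.1
      have hbF := hF2 u (not_lt.1 hu)
      have hcF := hF2 v (not_lt.1 hv)
      have hc1 := hcle _ _ ha hb h1 hbF
      rw [h2] at h5 h3 hcF
      rw [hc1] at h5
      have hb2 := hcl _ hb
      refine hκ _ (hclw _ hb) _ _ _ h1 h3 ?_ h5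
      exact hcF.trans_le (hb2.2 _ hb2.1)
  obtain ⟨φ, hφ⟩ := exists_injective_nat (ℕ × (ℕ × Bool))
  refine ⟨SimpleGraph.Coloring.mk (fun x : S => φ (col x.1.1)) (fun {x y} h => ?_)⟩
  intro heq
  have h3 := hφ heq
  rcases h with h | h
  · exact key x y h h3
  · exact key y x h h3.symm

theorem final (hCH : (2 : Cardinal.{0}) ^ ℵ₀ = Cardinal.aleph 1) :
    ∃ G : SimpleGraph (Set.Iio ((Cardinal.aleph.{0} 2).ord ^ 2)),
      Nonempty (G.Coloring (Set.Iio (Cardinal.aleph.{0} 1).ord)) ∧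
      IsEmpty (G.Coloring ℕ) ∧
      ∀ S : Set (Set.Iio ((Cardinal.aleph.{0} 2).ord ^ 2)),
        (∃ γ : Ordinal.{0}, γ < (Cardinal.aleph.{0} 2).ord ^ 2 ∧
          ∃ f : S → Ordinal.{0},
            (∀ x y : S, x.1.1 < y.1.1 → f x < f y) ∧ ∀ x : S, f x < γ) →
        Nonempty ((G.induce S).Coloring ℕ) :=
  ⟨G, col_aleph_one, no_nat_col hCH, fun S hS => small_col hCH S hS⟩

end Pool.Agent.H15.Sq
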