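import Mathlib

set_option autoImplicit false

namespace Pool.Agent.H15.StringC

/-! ### monomial matrices of size 16 over the fourth roots of unity -/

@[ext] structure Mo where
  p : Equiv.Perm (Fin 16)
  e : Fin 16 → ZMod 4

namespace Mo

instance : Mul Mo := ⟨fun g h => ⟨g.p * h.p, fun j => h.e j + g.e (h.p j)⟩⟩
instance : One Mo := ⟨⟨1, fun _ => 0⟩⟩
instance : Inv Mo := ⟨fun g => ⟨g.p⁻¹, fun j => - g.e (g.p⁻¹ j)⟩⟩

theorem mul_p (g h : Mo) : (g * h).p = g.p * h.p := rfl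
theorem mul_e (g h : Mo) (j : Fin 16) : (g * h).e j = h.e j + g.e (h.p j) := rfl
theorem one_p : (1 : Mo).p = 1 := rfl
theorem one_e (j : Fin 16) : (1 : Mo).e j = 0 := rfl
theorem inv_p (g : Mo) : (g⁻¹).p = g.p⁻¹ := rfl
theorem inv_e (g : Mo) (j : Fin 16) : (g⁻¹).e j = - g.e (g.p⁻¹ j) := rfl

theorem ext' {g h : Mo} (h1 : ∀ i, g.p i = h.p i) (h2 : ∀ i, g.e i = h.e i) : g = h :=
  Mo.ext (Equiv.ext h1) (funext h2)

instance : Group Mo := Group.ofLeftAxioms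
  (by
    intro g h k
    apply ext'
    · intro i; rfl
    · intro i
      simp only [mul_e, mul_p, Equiv.Perm.mul_apply]
      ring)
  (by
    intro g
    apply ext'
    · intro i; rfl
    · intro i
      simp only [mul_e, one_e, add_zero])
  (by
    intro g
    apply ext'
    · intro i
      simp [mul_p, inv_p, one_p]
    · intro i
      simp [mul_e, inv_e, one_e])

instance : Finite Mo := by
  refine Finite.of_injective (fun g : Mo => (g.p, g.e)) ?_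
  intro g h hgh
  have h1 : g.p = h.p := congrArg Prod.fst hgh
  have h2 : g.e = h.e := congrArg Prod.snd hgh
  exact Mo.ext h1 h2

/-- entrywise complex conjugation -/
def conj : Mo →* Mo where
  toFun g := ⟨g.p, fun j => - g.e j⟩
  map_one' := by
    apply ext'
    · intro i; rfl
    · intro i; simp [one_e]
  map_mul' g h := by
    apply ext'
    · intro i; rfl
    · intro i
      simp only [mul_e]
      ring

end Mo

/-- fourth roots of unity -/
noncomputable def z (k : ZMod 4) : ℂ := Complex.I ^ k.val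

theorem z_add (a b : ZMod 4) : z (a + b) = z a * z b := by
  unfold z
  rw [ZMod.val_add, ← pow_add, ← Complex.I_pow_eq_pow_mod]

theorem z_zero : z 0 = 1 := by simp [z]

theorem z_ne (a : ZMod 4) : z a ≠ 0 := pow_ne_zero _ Complex.I_ne_zero

theorem z_two : z 2 = -1 := by
  have : (2 : ZMod 4).val = 2 := rfl
  rw [z, this, Complex.I_sq]

theorem z_inj {a : ZMod 4} (h : z a = 1) : a = 0 := by
  by_contra h0
  have h1 : a = 1 ∨ a = 2 ∨ a = 3 :=
    (by decide : ∀ a : ZMod 4, a ≠ 0 → a = 1 ∨ a = 2 ∨ a = 3) a h0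
  rcases h1 with rfl | rfl | rfl
  · have : (1 : ZMod 4).val = 1 := rfl
    rw [z, this, pow_one] at h
    have := congrArg Complex.im h
    simp at this
  · rw [z_two] at h
    norm_num at h
  · have : (3 : ZMod 4).val = 3 := rfl
    rw [z, this, Complex.I_pow_three] at h
    have := congrArg Complex.im h
    simp at this

theorem z_conj (a : ZMod 4) : (starRingEnd ℂ) (z a) = z (-a) := by
  have h1 : z a * z (-a) = 1 := by rw [← z_add, add_neg_cancel, z_zero]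
  have h2 : z a * (starRingEnd ℂ) (z a) = 1 := by
    rw [Complex.mul_conj, z, map_pow, Complex.normSq_I, one_pow, Complex.ofReal_one]
  exact mul_left_cancel₀ (z_ne a) (h2.trans h1.symm)

/-- the monomial matrix -/
noncomputable def mat : Mo →* Matrix (Fin 16) (Fin 16) ℂ where
  toFun g := Matrix.of fun i j => if i = g.p j then z (g.e j) else 0
  map_one' := by
    ext i j
    simp only [Matrix.of_apply, Mo.one_p, Mo.one_e, z_zero, Equiv.Perm.one_apply, Matrix.one_apply]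
  map_mul' g h := by
    ext i j
    rw [Matrix.mul_apply]
    simp only [Matrix.of_apply]
    change (if i = g.p (h.p j) then z (h.e j + g.e (h.p j)) else 0) = _
    rw [Finset.sum_eq_single (h.p j)]
    · by_cases h1 : i = g.p (h.p j)
      · rw [if_pos h1, if_pos h1, if_pos rfl, z_add, mul_comm]
      · rw [if_neg h1, if_neg h1, zero_mul]
    · intro b _ hb
      simp [hb]
    · intro h1
      exact absurd (Finset.mem_univ _) h1

theorem mat_apply (g : Mo) (i j : Fin 16) :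
    mat g i j = if i = g.p j then z (g.e j) else 0 := rfl

theorem mat_mul_apply (g : Mo) (X : Matrix (Fin 16) (Fin 16) ℂ) (i j : Fin 16) :
    (mat g * X) (g.p i) j = z (g.e i) * X i j := by
  rw [Matrix.mul_apply, Finset.sum_eq_single i]
  · simp [mat_apply]
  · intro b _ hb
    rw [mat_apply, if_neg (fun h => hb (g.p.injective h.symm)), zero_mul]
  · intro h1
    exact absurd (Finset.mem_univ _) h1

theorem mul_mat_apply (g : Mo) (X : Matrix (Fin 16) (Fin 16) ℂ) (i j : Fin 16) :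
    (X * mat g) i j = X i (g.p j) * z (g.e j) := by
  rw [Matrix.mul_apply, Finset.sum_eq_single (g.p j)]
  · simp [mat_apply]
  · intro b _ hb
    rw [mat_apply, if_neg hb, mul_zero]
  · intro h1
    exact absurd (Finset.mem_univ _) h1

theorem comm_entry {g : Mo} {X : Matrix (Fin 16) (Fin 16) ℂ} (h : mat g * X = X * mat g)
    (i j : Fin 16) : X (g.p i) (g.p j) * z (g.e j) = z (g.e i) * X i j := by
  rw [← mat_mul_apply, ← mul_mat_apply, h]

/-! ### the data -/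

def fA : Fin 16 → Fin 16 := ![1, 0, 3, 2, 5, 4, 7, 6, 9, 8, 11, 10, 13, 12, 15, 14]
def fB : Fin 16 → Fin 16 := ![0, 10, 14, 15, 4, 7, 12, 5, 8, 11, 1, 9, 6, 13, 2, 3]
def fC : Fin 16 → Fin 16 := ![2, 3, 0, 1, 6, 7, 4, 5, 10, 11, 8, 9, 14, 15, 12, 13]
def fJ : Fin 16 → Fin 16 := ![13, 12, 15, 14, 8, 9, 10, 11, 4, 5, 6, 7, 1, 0, 3, 2]
def eB : Fin 16 → ZMod 4 := ![0, 1, 2, 0, 2, 1, 3, 3, 2, 3, 3, 1, 1, 0, 2, 0]
def eJ : Fin 16 → ZMod 4 := ![0, 0, 0, 0, 0, 0, 0, 0, 2, 2, 2, 2, 2, 2, 2, 2]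

def A : Mo := ⟨Function.Involutive.toPerm fA (by unfold Function.Involutive; decide), fun _ => 0⟩
def B : Mo := ⟨Function.Involutive.toPerm fB (by unfold Function.Involutive; decide), eB⟩
def C : Mo := ⟨Function.Involutive.toPerm fC (by unfold Function.Involutive; decide), fun _ => 0⟩
def J : Mo := ⟨Function.Involutive.toPerm fJ (by unfold Function.Involutive; decide), eJ⟩

/-- the three generators -/
def gen : Fin 3 → Mo := ![A, B, C]

theorem A_sq : A * A = 1 := Mo.ext' (by decide) (by decide)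
theorem B_sq : B * B = 1 := Mo.ext' (by decide) (by decide)
theorem C_sq : C * C = 1 := Mo.ext' (by decide) (by decide)
theorem AC : A * C = C * A := Mo.ext' (by decide) (by decide)
theorem J_A : J * A = Mo.conj A * J := Mo.ext' (by decide) (by decide)
theorem J_B : J * B = Mo.conj B * J := Mo.ext' (by decide) (by decide)
theorem J_C : J * C = Mo.conj C * J := Mo.ext' (by decide) (by decide)
theorem A_ne : A ≠ 1 := fun h => absurd (congrArg (fun g : Mo => g.p 0) h) (by decide)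
theorem B_ne : B ≠ 1 := fun h => absurd (congrArg (fun g : Mo => g.p 1) h) (by decide)
theorem A_ne_B : A ≠ B := fun h => absurd (congrArg (fun g : Mo => g.p 0) h) (by decide)

theorem J_J : mat J * mat (Mo.conj J) = -1 := by
  rw [← map_mul]
  have h1 : ∀ i, (J * Mo.conj J).p i = i := by decide
  have h2 : ∀ i, (J * Mo.conj J).e i = 2 := by decide
  ext i j
  rw [mat_apply, h1, h2, z_two, Matrix.neg_apply, Matrix.one_apply]
  split_ifs <;> simp

def words : List (List (List (Fin 3))) := [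
  [[], [0,1,0,1,0,2,1,0,1], [0,1,2,1,2,1,0], [1,0,1,2,1,2,1,0,1], [1], [1,0,2,1,0,1,2], [0,2,1,2,1,0,2,1,2], [0,2,1,0,1,2,1], [1], [1,0,2,1,0,1,2], [0,1,0,1,0,1,2,1,0], [0,2,1,0,1,2,1], [1,0,2,1,2,1,0,2,1,2,1], [0,1,0,1,0,2,1,0], [1,0,1,2,1,2,1,0,1], [0,1,2,1,2,1,0]],
  [[0,1,0,1,0,2,1,0,1], [0], [0,1,0,1,0,1,2,1,0,2,1], [1,2,1,2,1], [0,1,0,2,1,0,1,0,2], [0,1,0], [0,1,2,1,0,1,2], [0,2,1,0,2,1,2,1,2], [1,0,1,0,2,1], [0,1,0], [0,1,2,1,0,1,2], [1,0,1,0,1,2,1], [1,0,1,0,2,1], [1,0,2,1,2,1,0,2,1,2,1], [1,2,1,2,1], [1,2,1,0,1,0,2,1,2,1]],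
  [[0,1,2,1,2,1,0], [0,1,0,1,0,1,2,1,0,2,1], [2], [0,2,1,0,1,0,2,1,0,1,2], [0,1,2,1,0,2,1], [0,1,0,1,2,1,2], [2,1,2], [1,0,1,0,2,1,2], [0,1,2,1,0,2,1], [0,1,0,1,2,1,2], [2,1,2], [1,0,1,0,2,1,2], [1,2,1,0,1,0,2,1,2,1], [0,1,2,1,2,1,0], [2,1,0,2,1,2,1,0,2,1,2,1,2], [0,2,1,0,1,0,2,1,0,2]],
  [[1,0,1,2,1,2,1,0,1], [1,2,1,2,1], [0,2,1,0,1,0,2,1,0,1,2], [0,2], [0,2,1,2,1,0,1], [0,1,0,2,1,2,1], [0,1,0,1,0,2,1,0,2], [0,2,1,0,2], [0,2,1,2,1,0,1], [0,1,0,2,1,2,1], [2,1,0,1,0,2,1,2], [0,2,1,0,2], [1,2,1,2,1], [1,0,1,2,1,2,1,0,1], [2,1,0,1,0,2,1,2], [2,1,0,2,1,2,1,0,2,1,2,1,2]],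
  [[1], [0,1,0,2,1,0,1,0,2], [0,1,2,1,0,2,1], [0,2,1,2,1,0,1], [2,1,2,1,2], [0,1,0,2,1], [0,1,0,2], [0,2,1,0,1], [0,1,0,2], [2,1,0,1,0,1,2], [1,0,1,0,2,1,0,1,0,2,1], [1,2,1,0,1,0,1,2,1], [1,0,1,0,2,1], [1], [0,2,1,2,1,0,1], [0,1,2,1,0,2,1]],
  [[1,0,2,1,0,1,2], [0,1,0], [0,1,0,1,2,1,2], [0,1,0,2,1,2,1], [0,1,0,2,1], [2,1,2,1,0,1], [0,1,0,1,2], [1,2], [2,1,0,1,0,1,2], [1,2], [0,1,2,1,0,1,0,1,2,1,0], [0,1,0,1,0,2,1,0,1,0,2,1,0], [0,1,0], [1,0,2,1,0,1,2], [0,1,0,2,1,2,1], [0,1,0,1,2,1,2]],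
  [[0,2,1,2,1,0,2,1,2], [0,1,2,1,0,1,2], [2,1,2], [0,1,0,1,0,2,1,0,2], [0,1,0,2], [0,1,0,1,2], [2,1,2,1], [1,0,1,0,1], [1,0,1,0,2,1,0,1,0,2,1], [0,1,2,1,0,1,0,1,2,1,0], [0,1,0,2], [1,0,1,0,1], [0,1,2,1,0,1,2], [0,1,0,1,0,1,2,1,0], [2,1,0,1,0,2,1,2], [2,1,2]],
  [[0,2,1,0,1,2,1], [0,2,1,0,2,1,2,1,2], [1,0,1,0,2,1,2], [0,2,1,0,2], [0,2,1,0,1], [1,2], [1,0,1,0,1], [2,1,2,1,0], [1,2,1,0,1,0,1,2,1], [0,1,0,1,0,2,1,0,1,0,2,1,0], [1,0,1,0,1], [1,2], [1,0,1,0,1,2,1], [0,2,1,0,1,2,1], [0,2,1,0,2], [1,0,1,0,2,1,2]],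
  [[1], [1,0,1,0,2,1], [0,1,2,1,0,2,1], [0,2,1,2,1,0,1], [0,1,0,2], [2,1,0,1,0,1,2], [1,0,1,0,2,1,0,1,0,2,1], [1,2,1,0,1,0,1,2,1], [0,1,2], [0,1,0,2,1], [0,1,0,2], [0,2,1,0,1], [0,1,0,2,1,0,1,0,2], [1], [0,2,1,2,1,0,1], [0,1,2,1,0,2,1]],
  [[1,0,2,1,0,1,2], [0,1,0], [0,1,0,1,2,1,2], [0,1,0,2,1,2,1], [2,1,0,1,0,1,2], [1,2], [0,1,2,1,0,1,0,1,2,1,0], [0,1,0,1,0,2,1,0,1,0,2,1,0], [0,1,0,2,1], [0,1,0,1], [0,1,0,1,2], [1,2], [0,1,0], [1,0,2,1,0,1,2], [0,1,0,2,1,2,1], [0,1,0,1,2,1,2]],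
  [[0,1,0,1,0,1,2,1,0], [0,1,2,1,0,1,2], [2,1,2], [2,1,0,1,0,2,1,2], [1,0,1,0,2,1,0,1,0,2,1], [0,1,2,1,0,1,0,1,2,1,0], [0,1,0,2], [1,0,1,0,1], [0,1,0,2], [0,1,0,1,2], [0,1], [1,0,1,0,1], [0,1,2,1,0,1,2], [0,2,1,2,1,0,2,1,2], [0,1,0,1,0,2,1,0,2], [2,1,2]],
  [[0,2,1,0,1,2,1], [1,0,1,0,1,2,1], [1,0,1,0,2,1,2], [0,2,1,0,2], [1,2,1,0,1,0,1,2,1], [0,1,0,1,0,2,1,0,1,0,2,1,0], [1,0,1,0,1], [1,2], [0,2,1,0,1], [1,2], [1,0,1,0,1], [0,1,0], [0,2,1,0,2,1,2,1,2], [0,2,1,0,1,2,1], [0,2,1,0,2], [1,0,1,0,2,1,2]],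
  [[1,0,2,1,2,1,0,2,1,2,1], [1,0,1,0,2,1], [1,2,1,0,1,0,2,1,2,1], [1,2,1,2,1], [1,0,1,0,2,1], [0,1,0], [0,1,2,1,0,1,2], [1,0,1,0,1,2,1], [0,1,0,2,1,0,1,0,2], [0,1,0], [0,1,2,1,0,1,2], [0,2,1,0,2,1,2,1,2], [2,1,2], [0,1,0,1,0,2,1,0,1], [1,2,1,2,1], [0,1,0,1,0,1,2,1,0,2,1]],
  [[0,1,0,1,0,2,1,0], [1,0,2,1,2,1,0,2,1,2,1], [0,1,2,1,2,1,0], [1,0,1,2,1,2,1,0,1], [1], [1,0,2,1,0,1,2], [0,1,0,1,0,1,2,1,0], [0,2,1,0,1,2,1], [1], [1,0,2,1,0,1,2], [0,2,1,2,1,0,2,1,2], [0,2,1,0,1,2,1], [0,1,0,1,0,2,1,0,1], [0,2,1,2], [1,0,1,2,1,2,1,0,1], [0,1,2,1,2,1,0]],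
  [[1,0,1,2,1,2,1,0,1], [1,2,1,2,1], [2,1,0,2,1,2,1,0,2,1,2,1,2], [2,1,0,1,0,2,1,2], [0,2,1,2,1,0,1], [0,1,0,2,1,2,1], [2,1,0,1,0,2,1,2], [0,2,1,0,2], [0,2,1,2,1,0,1], [0,1,0,2,1,2,1], [0,1,0,1,0,2,1,0,2], [0,2,1,0,2], [1,2,1,2,1], [1,0,1,2,1,2,1,0,1], [2,1], [0,2,1,0,1,0,2,1,0,1,2]],
  [[0,1,2,1,2,1,0], [1,2,1,0,1,0,2,1,2,1], [0,2,1,0,1,0,2,1,0,2], [2,1,0,2,1,2,1,0,2,1,2,1,2], [0,1,2,1,0,2,1], [0,1,0,1,2,1,2], [2,1,2], [1,0,1,0,2,1,2], [0,1,2,1,0,2,1], [0,1,0,1,2,1,2], [2,1,2], [1,0,1,0,2,1,2], [0,1,0,1,0,1,2,1,0,2,1], [0,1,2,1,2,1,0], [0,2,1,0,1,0,2,1,0,1,2], [0,2,1]]]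

def word (i j : Fin 16) : List (Fin 3) := (words.getD i.val []).getD j.val []

def pp : Fin 3 → Fin 16 → Fin 16 := ![fA, fB, fC]
def ee : Fin 3 → Fin 16 → ZMod 4 := ![fun _ => 0, eB, fun _ => 0]

theorem gen_p (g : Fin 3) (i : Fin 16) : (gen g).p i = pp g i := by
  fin_cases g <;> rfl
theorem gen_e (g : Fin 3) (i : Fin 16) : (gen g).e i = ee g i := by
  fin_cases g <;> rfl

def step (s : Fin 16 × Fin 16 × ZMod 4) (g : Fin 3) : Fin 16 × Fin 16 × ZMod 4 :=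
  (pp g s.1, pp g s.2.1, s.2.2 + ee g s.1 - ee g s.2.1)

set_option maxRecDepth 100000 in
theorem words_off : ∀ i j : Fin 16, i ≠ j →
    ((word i j).foldl step (i, j, 0)).1 = i ∧ ((word i j).foldl step (i, j, 0)).2.1 = j ∧
    ((word i j).foldl step (i, j, 0)).2.2 ≠ 0 := by decide

set_option maxRecDepth 100000 in
theorem words_diag : ∀ i : Fin 16, (word i i).foldl step (0, 0, 0) = (i, i, 0) := by decide

theorem run_inv {X : Matrix (Fin 16) (Fin 16) ℂ} (h : ∀ g, mat (gen g) * X = X * mat (gen g))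
    (w : List (Fin 3)) : ∀ s : Fin 16 × Fin 16 × ZMod 4,
    X (w.foldl step s).1 (w.foldl step s).2.1 * z (-(w.foldl step s).2.2) =
      X s.1 s.2.1 * z (-s.2.2) := by
  induction w with
  | nil => intro s; rfl
  | cons g w ih =>
    intro s
    rw [List.foldl_cons, ih]
    have h1 := comm_entry (h g) s.1 s.2.1
    rw [gen_p, gen_p, gen_e, gen_e] at h1
    change X (pp g s.1) (pp g s.2.1) * z (-(s.2.2 + ee g s.1 - ee g s.2.1)) = _
    have h2 : -(s.2.2 + ee g s.1 - ee g s.2.1) = ee g s.2.1 + (-ee g s.1 + -s.2.2) := by ring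
    rw [h2, z_add, ← mul_assoc, h1, z_add]
    have h3 : z (ee g s.1) * z (-ee g s.1) = 1 := by rw [← z_add, add_neg_cancel, z_zero]
    calc z (ee g s.1) * X s.1 s.2.1 * (z (-ee g s.1) * z (-s.2.2))
        = (z (ee g s.1) * z (-ee g s.1)) * (X s.1 s.2.1 * z (-s.2.2)) := by ring
      _ = X s.1 s.2.1 * z (-s.2.2) := by rw [h3, one_mul]

theorem commutant {X : Matrix (Fin 16) (Fin 16) ℂ} (h : ∀ g, mat (gen g) * X = X * mat (gen g)) :
    ∃ c : ℂ, X = c • (1 : Matrix (Fin 16) (Fin 16) ℂ) := by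
  refine ⟨X 0 0, ?_⟩
  ext i j
  by_cases hij : i = j
  · subst hij
    have h1 := run_inv h (word i i) (0, 0, 0)
    rw [words_diag i] at h1
    simp only [neg_zero, z_zero, mul_one] at h1
    simp [h1]
  · have h1 := run_inv h (word i j) (i, j, 0)
    obtain ⟨h2, h3, h4⟩ := words_off i j hij
    rw [h2, h3] at h1
    simp only [neg_zero, z_zero, mul_one] at h1
    have h5 : z (-((word i j).foldl step (i, j, 0)).2.2) ≠ 1 := by
      intro h6
      exact h4 (neg_eq_zero.1 (z_inj h6))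
    have h6 : X i j = 0 := by
      by_contra h7
      exact h5 (mul_left_cancel₀ h7 (h1.trans (mul_one _).symm))
    rw [h6]
    simp [hij]

/-! ### irreducibility from the commutant -/

theorem irred {Γ : Type} [Group Γ] [Finite Γ] {n : ℕ} (T : Γ →* Matrix (Fin n) (Fin n) ℂ)
    (h : ∀ X : Matrix (Fin n) (Fin n) ℂ, (∀ g, T g * X = X * T g) →
      ∃ c : ℂ, X = c • (1 : Matrix (Fin n) (Fin n) ℂ))
    (W : Submodule ℂ (Fin n → ℂ)) (hW : ∀ g : Γ, ∀ v ∈ W, Matrix.mulVec (T g) v ∈ W) :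
    W = ⊥ ∨ W = ⊤ := by
  classical
  have := Fintype.ofFinite Γ
  by_cases hbot : W = ⊥
  · exact Or.inl hbot
  right
  obtain ⟨π, hπ⟩ := LinearMap.exists_leftInverse_of_injective W.subtype
    (LinearMap.ker_eq_bot.2 W.subtype_injective)
  let P : Matrix (Fin n) (Fin n) ℂ := LinearMap.toMatrix' (W.subtype ∘ₗ π)
  have hP1 : ∀ v, P.mulVec v ∈ W := by
    intro v
    have : P.mulVec v = (W.subtype ∘ₗ π) v := by
      rw [← Matrix.toLin'_apply, Matrix.toLin'_toMatrix']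
    rw [this]
    exact (π v).2
  have hP2 : ∀ v ∈ W, P.mulVec v = v := by
    intro v hv
    have : P.mulVec v = (W.subtype ∘ₗ π) v := by
      rw [← Matrix.toLin'_apply, Matrix.toLin'_toMatrix']
    rw [this]
    have := LinearMap.congr_fun hπ ⟨v, hv⟩
    exact congrArg Subtype.val this
  let X : Matrix (Fin n) (Fin n) ℂ := ∑ g : Γ, T g * P * T g⁻¹
  obtain ⟨c, hc⟩ := h X (by
    intro k
    rw [Finset.mul_sum, Finset.sum_mul]
    refine Fintype.sum_equiv (Equiv.mulLeft k) _ _ ?_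
    intro g
    rw [Equiv.coe_mulLeft, map_mul, mul_inv_rev, map_mul]
    have : T k⁻¹ * T k = 1 := by rw [← map_mul, inv_mul_cancel, map_one]
    simp only [mul_assoc]
    rw [this, mul_one])
  have hX1 : ∀ v, X.mulVec v ∈ W := by
    intro v
    rw [Matrix.sum_mulVec]
    refine Submodule.sum_mem _ (fun g _ => ?_)
    rw [← Matrix.mulVec_mulVec, ← Matrix.mulVec_mulVec]
    exact hW g _ (hP1 _)
  have hX2 : ∀ v ∈ W, X.mulVec v = (Fintype.card Γ : ℂ) • v := by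
    intro v hv
    rw [Matrix.sum_mulVec]
    have : ∀ g : Γ, (T g * P * T g⁻¹).mulVec v = v := by
      intro g
      rw [← Matrix.mulVec_mulVec, ← Matrix.mulVec_mulVec, hP2 _ (hW g⁻¹ v hv),
        Matrix.mulVec_mulVec, ← map_mul, mul_inv_cancel, map_one, Matrix.one_mulVec]
    simp only [this, Finset.sum_const, Finset.card_univ]
    rw [Nat.cast_smul_eq_nsmul]
  obtain ⟨v, hv, hv0⟩ := Submodule.exists_mem_ne_zero_of_ne_bot hbot
  have hcard : c = (Fintype.card Γ : ℂ) := by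
    have h1 := hX2 v hv
    rw [hc, Matrix.smul_mulVec, Matrix.one_mulVec] at h1
    exact smul_left_injective ℂ hv0 h1
  have hc0 : c ≠ 0 := by
    rw [hcard]
    exact_mod_cast Fintype.card_ne_zero
  rw [eq_top_iff]
  intro u _
  have h1 := hX1 u
  rw [hc, Matrix.smul_mulVec, Matrix.one_mulVec] at h1
  exact (Submodule.smul_mem_iff W hc0).1 h1

/-! ### the string C-group -/

/-- the ambient group -/
abbrev Amb : Type := Mo × Mo × ℤˣ

def rho0 : Fin 3 → Amb := ![(A, A, 1), (B, B, 1), (C, 1, -1)]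

/-- the group -/
def Gam : Subgroup Amb := Subgroup.closure (Set.range rho0)

def rho (i : Fin 3) : Gam := ⟨rho0 i, Subgroup.subset_closure ⟨i, rfl⟩⟩

def al : Gam →* Mo := (MonoidHom.fst Mo (Mo × ℤˣ)).comp Gam.subtype
def be : Gam →* Mo := (MonoidHom.fst Mo ℤˣ).comp ((MonoidHom.snd Mo (Mo × ℤˣ)).comp Gam.subtype)
def sg : Gam →* ℤˣ := (MonoidHom.snd Mo ℤˣ).comp ((MonoidHom.snd Mo (Mo × ℤˣ)).comp Gam.subtype)

theorem Gam_ext {g h : Gam} (h1 : al g = al h) (h2 : be g = be h) (h3 : sg g = sg h) : g = h :=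
  Subtype.ext (Prod.ext h1 (Prod.ext h2 h3))

theorem rho_sq (i : Fin 3) : rho i * rho i = 1 := by
  fin_cases i
  · exact Gam_ext A_sq A_sq (by rfl)
  · exact Gam_ext B_sq B_sq (by rfl)
  · exact Gam_ext C_sq (by exact one_mul _) (by rfl)

theorem rho_ne (i : Fin 3) : rho i ≠ 1 := by
  fin_cases i
  · exact fun h => A_ne (congrArg al h)
  · exact fun h => B_ne (congrArg al h)
  · exact fun h => absurd (congrArg sg h) (by decide : (-1 : ℤˣ) ≠ 1)

theorem rho_02 : rho 0 * rho 2 = rho 2 * rho 0 :=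
  Gam_ext AC ((mul_one A).trans (one_mul A).symm) (by rfl)

theorem rho_top : Subgroup.closure (Set.range rho) = ⊤ := by
  have h := Subgroup.closure_closure_coe_preimage (k := Set.range rho0)
  have h2 : Set.range rho = (Subtype.val : Gam → Amb) ⁻¹' (Set.range rho0) := by
    ext g
    constructor
    · rintro ⟨i, rfl⟩
      exact ⟨i, rfl⟩
    · rintro ⟨i, hi⟩
      exact ⟨i, Subtype.ext hi⟩
  rw [h2]
  exact h

def HH (I : Set (Fin 3)) : Subgroup Gam := Subgroup.closure (rho '' I)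

theorem mem_HH {I : Set (Fin 3)} {i : Fin 3} (h : i ∈ I) : rho i ∈ HH I :=
  Subgroup.subset_closure ⟨i, h, rfl⟩

theorem L1 {I : Set (Fin 3)} (h2 : (2 : Fin 3) ∉ I) {g : Gam} (hg : g ∈ HH I) :
    sg g = 1 ∧ al g = be g := by
  have : HH I ≤ sg.ker ⊓ MonoidHom.eqLocus al be := by
    refine (Subgroup.closure_le _).2 ?_
    rintro _ ⟨i, hi, rfl⟩
    fin_cases i
    · exact ⟨rfl, rfl⟩
    · exact ⟨rfl, rfl⟩
    · exact absurd hi h2
  exact this hg

theorem L2 {I : Set (Fin 3)} (h0 : (0 : Fin 3) ∉ I) {g : Gam} (hg : g ∈ HH I) :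
    be g = 1 ∨ be g = B := by
  unfold HH at hg
  induction hg using Subgroup.closure_induction with
  | mem g hg =>
    obtain ⟨i, hi, rfl⟩ := hg
    fin_cases i
    · exact absurd hi h0
    · exact Or.inr rfl
    · exact Or.inl rfl
  | one => exact Or.inl (map_one be)
  | mul a b _ _ ha hb =>
    rw [map_mul]
    rcases ha with ha | ha <;> rcases hb with hb | hb
    · left; rw [ha, hb, one_mul]
    · right; rw [ha, hb, one_mul]
    · right; rw [ha, hb, mul_one]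
    · left; rw [ha, hb, B_sq]
  | inv a _ ha =>
    rw [map_inv]
    rcases ha with ha | ha
    · left; rw [ha, inv_one]
    · right; rw [ha]; exact inv_eq_of_mul_eq_one_left B_sq

theorem L3 {I : Set (Fin 3)} (h1 : (1 : Fin 3) ∉ I) {g : Gam} (hg : g ∈ HH I) :
    g = 1 ∨ g = rho 0 ∨ g = rho 2 ∨ g = rho 0 * rho 2 := by
  have hcl : ∀ i : Fin 3, i ≠ 1 → ∀ g : Gam,
      (g = 1 ∨ g = rho 0 ∨ g = rho 2 ∨ g = rho 0 * rho 2) →
      (rho i * g = 1 ∨ rho i * g = rho 0 ∨ rho i * g = rho 2 ∨ rho i * g = rho 0 * rho 2) := by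
    intro i hi g hg
    have hi' : i = 0 ∨ i = 2 := by revert i; decide
    rcases hi' with rfl | rfl <;> rcases hg with rfl | rfl | rfl | rfl
    · right; left; rw [mul_one]
    · left; exact rho_sq 0
    · right; right; right; rfl
    · right; right; left; rw [← mul_assoc, rho_sq, one_mul]
    · right; right; left; rw [mul_one]
    · right; right; right; exact rho_02.symm
    · left; exact rho_sq 2
    · right; left; rw [← mul_assoc, ← rho_02, mul_assoc, rho_sq, mul_one]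
  unfold HH at hg
  induction hg using Subgroup.closure_induction_left with
  | one => exact Or.inl rfl
  | mul_left x hx y _ hy =>
    obtain ⟨i, hi, rfl⟩ := hx
    exact hcl i (fun h => h1 (h ▸ hi)) y hy
  | inv_mul_cancel x hx y _ hy =>
    obtain ⟨i, hi, rfl⟩ := hx
    have : (rho i)⁻¹ = rho i := inv_eq_of_mul_eq_one_left (rho_sq i)
    rw [this]
    exact hcl i (fun h => h1 (h ▸ hi)) y hy

theorem inter_aux {I J : Set (Fin 3)} (h1 : (1 : Fin 3) ∉ I) {g : Gam} (hI : g ∈ HH I)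
    (hJ : g ∈ HH J) : g ∈ HH (I ∩ J) := by
  have hb0 : be (rho 0) = A := rfl
  have hs2 : sg (rho 2) = -1 := rfl
  have k0 : ∀ {K : Set (Fin 3)} {g : Gam}, be g = A → g ∈ HH K → (0 : Fin 3) ∈ K := by
    intro K g hg hK
    by_contra h0
    rcases L2 h0 hK with h | h
    · exact A_ne (hg.symm.trans h)
    · exact A_ne_B (hg.symm.trans h)
  have k2 : ∀ {K : Set (Fin 3)} {g : Gam}, sg g = -1 → g ∈ HH K → (2 : Fin 3) ∈ K := by
    intro K g hg hK
    by_contra h0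
    exact absurd (hg.symm.trans (L1 h0 hK).1) (by decide)
  rcases L3 h1 hI with h | h | h | h
  · rw [h]; exact Subgroup.one_mem _
  · have hg : be g = A := by rw [h]; rfl
    rw [h]
    exact mem_HH ⟨k0 hg hI, k0 hg hJ⟩
  · have hg : sg g = -1 := by rw [h]; rfl
    rw [h]
    exact mem_HH ⟨k2 hg hI, k2 hg hJ⟩
  · have hg : be g = A := by rw [h, map_mul]; exact mul_one A
    have hg2 : sg g = -1 := by rw [h, map_mul]; rfl
    rw [h]
    exact Subgroup.mul_mem _ (mem_HH ⟨k0 hg hI, k0 hg hJ⟩) (mem_HH ⟨k2 hg2 hI, k2 hg2 hJ⟩)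

theorem inter_aux2 {I J : Set (Fin 3)} (h1 : (1 : Fin 3) ∈ I) (h1' : (1 : Fin 3) ∈ J)
    {g : Gam} (hI : g ∈ HH I)
    (hJ : g ∈ HH J) : g ∈ HH (I ∩ J) := by
  -- g in both, 2 missing from one and 0 missing from one
  have key : ∀ {K K' : Set (Fin 3)}, (2 : Fin 3) ∉ K → (0 : Fin 3) ∉ K' → g ∈ HH K → g ∈ HH K' →
      g ∈ HH (I ∩ J) := by
    intro K K' h2 h0 hK hK'
    obtain ⟨a1, a2⟩ := L1 h2 hK
    rcases L2 h0 hK' with h | h
    · have : g = 1 := Gam_ext (a2.trans h) h a1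
      rw [this]; exact Subgroup.one_mem _
    · have : g = rho 1 := Gam_ext (a2.trans h) h a1
      rw [this]; exact mem_HH ⟨h1, h1'⟩
  have all : ∀ i : Fin 3, i = 0 ∨ i = 1 ∨ i = 2 := by decide
  have sub : ∀ {K K' : Set (Fin 3)}, (1 : Fin 3) ∈ K' → ((0 : Fin 3) ∈ K → (0 : Fin 3) ∈ K') →
      ((2 : Fin 3) ∈ K → (2 : Fin 3) ∈ K') → K ⊆ K' := by
    intro K K' a0 a1 a2 i hi
    rcases all i with rfl | rfl | rfl
    · exact a1 hi
    · exact a0
    · exact a2 hi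
  by_cases h2I : (2 : Fin 3) ∈ I
  · by_cases h0I : (0 : Fin 3) ∈ I
    · have : J ⊆ I := sub h1 (fun _ => h0I) (fun _ => h2I)
      rw [Set.inter_eq_right.2 this]; exact hJ
    · by_cases h2J : (2 : Fin 3) ∈ J
      · have : I ⊆ J := sub h1' (fun h => absurd h h0I) (fun _ => h2J)
        rw [Set.inter_eq_left.2 this]; exact hI
      · exact key h2J h0I hJ hI
  · by_cases h0J : (0 : Fin 3) ∈ J
    · have : I ⊆ J := sub h1' (fun _ => h0J) (fun h => absurd h h2I)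
      rw [Set.inter_eq_left.2 this]; exact hI
    · exact key h2I h0J hI hJ

theorem inter (I J : Set (Fin 3)) : HH I ⊓ HH J = HH (I ∩ J) := by
  apply le_antisymm
  · rintro g ⟨hI, hJ⟩
    by_cases h1 : (1 : Fin 3) ∈ I
    · by_cases h1' : (1 : Fin 3) ∈ J
      · exact inter_aux2 h1 h1' hI hJ
      · rw [Set.inter_comm]; exact inter_aux h1' hJ hI
    · exact inter_aux h1 hI hJ
  · exact le_inf (Subgroup.closure_mono (Set.image_mono Set.inter_subset_left))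
      (Subgroup.closure_mono (Set.image_mono Set.inter_subset_right))

/-! ### the representation -/

noncomputable def TM : Gam →* Matrix (Fin 16) (Fin 16) ℂ := mat.comp al

theorem TM_irred (W : Submodule ℂ (Fin 16 → ℂ))
    (hW : ∀ g : Gam, ∀ v ∈ W, Matrix.mulVec (TM g) v ∈ W) : W = ⊥ ∨ W = ⊤ := by
  refine irred TM ?_ W hW
  intro X hX
  refine commutant (fun g => ?_)
  have := hX (rho g)
  fin_cases g <;> exact this

theorem J_conj (g : Gam) : J * al g = Mo.conj (al g) * J := by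
  have h : ∀ g : Gam, (MulAut.conj J) (al g) = Mo.conj (al g) := by
    have h1 : (MulAut.conj J).toMonoidHom.comp al = Mo.conj.comp al := by
      apply MonoidHom.eq_of_eqOn_dense (s := Set.range rho) rho_top
      rintro _ ⟨i, rfl⟩
      change J * al (rho i) * J⁻¹ = Mo.conj (al (rho i))
      rw [mul_inv_eq_iff_eq_mul]
      fin_cases i
      · exact J_A
      · exact J_B
      · exact J_C
    intro g
    exact DFunLike.congr_fun h1 g
  have h2 := h g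
  rw [MulAut.conj_apply, mul_inv_eq_iff_eq_mul] at h2
  exact h2

theorem mat_conj (g : Mo) : mat (Mo.conj g) = (mat g).map (starRingEnd ℂ) := by
  ext i j
  rw [Matrix.map_apply, mat_apply, mat_apply]
  change (if i = g.p j then z (-g.e j) else 0) = _
  split_ifs
  · rw [z_conj]
  · rw [map_zero]

theorem trace_real (g : Gam) : (Matrix.trace (TM g)).im = 0 := by
  have h1 : mat J * TM g = (TM g).map (starRingEnd ℂ) * mat J := by
    have := congrArg mat (J_conj g)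
    rw [map_mul, map_mul, mat_conj] at this
    exact this
  have hJ : mat J * mat J⁻¹ = 1 := by rw [← map_mul, mul_inv_cancel, map_one]
  have hJ' : mat J⁻¹ * mat J = 1 := by rw [← map_mul, inv_mul_cancel, map_one]
  have h2 : Matrix.trace ((TM g).map (starRingEnd ℂ)) = Matrix.trace (TM g) := by
    calc Matrix.trace ((TM g).map (starRingEnd ℂ))
        = Matrix.trace ((TM g).map (starRingEnd ℂ) * mat J * mat J⁻¹) := by
          rw [mul_assoc, hJ, mul_one]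
      _ = Matrix.trace (mat J * TM g * mat J⁻¹) := by rw [h1]
      _ = Matrix.trace (mat J⁻¹ * (mat J * TM g)) := Matrix.trace_mul_comm _ _
      _ = Matrix.trace (TM g) := by rw [← mul_assoc, hJ', one_mul]
  have h3 : Matrix.trace ((TM g).map (starRingEnd ℂ)) = (starRingEnd ℂ) (Matrix.trace (TM g)) := by
    simp [Matrix.trace]
  rw [h3] at h2
  exact Complex.conj_eq_iff_im.1 h2

theorem not_real (P P' : Matrix (Fin 16) (Fin 16) ℂ) (hP : P * P' = 1)
    (h : ∀ g : Gam, (P * TM g * P').map (starRingEnd ℂ) = P * TM g * P') : False := by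
  have hP' : P' * P = 1 := mul_eq_one_comm.1 hP
  set c : Matrix (Fin 16) (Fin 16) ℂ →+* Matrix (Fin 16) (Fin 16) ℂ :=
    (starRingEnd ℂ).mapMatrix with hc
  have hcc : ∀ M, c (c M) = M := by
    intro M
    ext i j
    simp [hc]
  have h' : ∀ g : Gam, c P * c (TM g) * c P' = P * TM g * P' := by
    intro g
    rw [← map_mul, ← map_mul]
    exact h g
  have hcP : c P * c P' = 1 := by rw [← map_mul, hP, map_one]
  have hcP' : c P' * c P = 1 := by rw [← map_mul, hP', map_one]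
  have hJ : mat J * mat J⁻¹ = 1 := by rw [← map_mul, mul_inv_cancel, map_one]
  have hJ' : mat J⁻¹ * mat J = 1 := by rw [← map_mul, inv_mul_cancel, map_one]
  set Q := c P' * P with hQ
  have hQT : ∀ g : Gam, Q * TM g = c (TM g) * Q := by
    intro g
    calc Q * TM g = c P' * (P * TM g * P') * P := by
          rw [hQ]; simp only [mul_assoc]; rw [hP', mul_one]
      _ = c P' * (c P * c (TM g) * c P') * P := by rw [h' g]
      _ = (c P' * c P) * c (TM g) * (c P' * P) := by simp only [mul_assoc]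
      _ = c (TM g) * Q := by rw [hcP', one_mul]
  have hJT : ∀ g : Gam, mat J * TM g = c (TM g) * mat J := by
    intro g
    have := congrArg mat (J_conj g)
    rw [map_mul, map_mul, mat_conj] at this
    exact this
  have hX : ∀ g : Gam, TM g * (mat J⁻¹ * Q) = (mat J⁻¹ * Q) * TM g := by
    intro g
    calc TM g * (mat J⁻¹ * Q) = (mat J⁻¹ * mat J) * TM g * (mat J⁻¹ * Q) := by
          rw [hJ', one_mul]
      _ = mat J⁻¹ * (mat J * TM g) * (mat J⁻¹ * Q) := by simp only [mul_assoc]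
      _ = mat J⁻¹ * (c (TM g) * mat J) * (mat J⁻¹ * Q) := by rw [hJT]
      _ = mat J⁻¹ * c (TM g) * ((mat J * mat J⁻¹) * Q) := by simp only [mul_assoc]
      _ = mat J⁻¹ * (c (TM g) * Q) := by rw [hJ, one_mul, mul_assoc]
      _ = mat J⁻¹ * (Q * TM g) := by rw [hQT]
      _ = (mat J⁻¹ * Q) * TM g := (mul_assoc _ _ _).symm
  obtain ⟨l, hl⟩ := commutant (X := mat J⁻¹ * Q) (fun g => by
    have := hX (rho g)
    fin_cases g <;> exact this)
  have hQl : Q = l • mat J := by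
    calc Q = (mat J * mat J⁻¹) * Q := by rw [hJ, one_mul]
      _ = mat J * (mat J⁻¹ * Q) := by rw [mul_assoc]
      _ = l • mat J := by rw [hl, Matrix.mul_smul, mul_one]
  have hQQ : Q * c Q = 1 := by
    rw [hQ, map_mul, hcc]
    calc c P' * P * (P' * c P) = c P' * (P * P') * c P := by simp only [mul_assoc]
      _ = 1 := by rw [hP, mul_one, hcP']
  have hcJ : c (mat J) = mat (Mo.conj J) := (mat_conj J).symm
  have hcQ : c Q = (starRingEnd ℂ l) • mat (Mo.conj J) := by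
    rw [hQl, ← hcJ]
    ext i j
    simp [hc]
  rw [hcQ, hQl, Matrix.smul_mul, Matrix.mul_smul, J_J, smul_smul] at hQQ
  have h00 := congrFun (congrFun hQQ 0) 0
  simp only [Matrix.smul_apply, Matrix.neg_apply, Matrix.one_apply_eq, smul_eq_mul] at h00
  rw [Complex.mul_conj] at h00
  have h01 := congrArg Complex.re h00
  simp at h01
  have := Complex.normSq_nonneg l
  linarith

end Pool.Agent.H15.StringC
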