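import Mathlib

set_option autoImplicit false

namespace Pool.Agent.H15.Tau

/-- `𝒰` is a cover of the space `Y` by open sets, none of which is the whole space. -/
def IsCov (Y : Type) [TopologicalSpace Y] (𝒰 : Set (Set Y)) : Prop :=
  (∀ U ∈ 𝒰, IsOpen U) ∧ ⋃₀ 𝒰 = Set.univ ∧ Set.univ ∉ 𝒰

/-- `𝒰` is a `τ`-cover of `Y`: it is a large cover, and any two points of `Y` are comparable. -/
def TauCov (Y : Type) [TopologicalSpace Y] (𝒰 : Set (Set Y)) : Prop :=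
  IsCov Y 𝒰 ∧ (∀ x, {U ∈ 𝒰 | x ∈ U}.Infinite) ∧
    ∀ x y, {U ∈ 𝒰 | x ∈ U ∧ y ∉ U}.Finite ∨ {U ∈ 𝒰 | y ∈ U ∧ x ∉ U}.Finite

/-- `𝒰` is a `γ`-cover of `Y`: it is infinite and every point is in all but finitely many
members. -/
def GammaCov (Y : Type) [TopologicalSpace Y] (𝒰 : Set (Set Y)) : Prop :=
  IsCov Y 𝒰 ∧ 𝒰.Infinite ∧ ∀ x, {U ∈ 𝒰 | x ∉ U}.Finite

/-- `Split(T,T)`: every `τ`-cover of `Y` is the union of two disjoint subfamilies, each of which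
has a subfamily which is a `τ`-cover of `Y`. -/
def SplitTT (Y : Type) [TopologicalSpace Y] : Prop :=
  ∀ 𝒰, TauCov Y 𝒰 → ∃ 𝒱 𝒲 : Set (Set Y), 𝒱 ∪ 𝒲 = 𝒰 ∧ Disjoint 𝒱 𝒲 ∧
    (∃ 𝒱' ⊆ 𝒱, TauCov Y 𝒱') ∧ ∃ 𝒲' ⊆ 𝒲, TauCov Y 𝒲'

/-- `(T choose Γ)`: every `τ`-cover of `Y` has a subfamily which is a `γ`-cover of `Y`. -/
def TauGamma (Y : Type) [TopologicalSpace Y] : Prop :=
  ∀ 𝒰, TauCov Y 𝒰 → ∃ 𝒱 ⊆ 𝒰, GammaCov Y 𝒱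

end Pool.Agent.H15.Tau
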