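import Pool.Agent.H15.DimC
import Pool.Agent.H15.TauDefs

set_option autoImplicit false

/-!
Helper file for MP_f722f0_gt: Luzin sets satisfy `(T choose Γ)` and `Split(T,T)`.
-/

namespace Pool.Agent.H15.Tau

open Set
open Pool.Agent.H15.Dim (X Pfx pre pfx_pre pre_length isClopen_pfx extendByFalse pfx_extend)

theorem pre_of_pfx {τ : List Bool} {x : X} (h : Pfx τ x) {n : ℕ} (hn : τ.length ≤ n) :
    τ <+: pre x n :=
  h.pfxOf (pfx_pre x n) (by rw [pre_length]; exact hn)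

theorem pfx_pre_iff {x z : X} {n : ℕ} : Pfx (pre x n) z ↔ ∀ i < n, x i = z i := by
  constructor
  · intro h i hi
    have h1 := h i (by rw [pre_length]; exact hi)
    simpa [pre] using h1
  · intro h i hi
    rw [pre_length] at hi
    simpa [pre] using h i hi

theorem open_basic {U : Set X} (hU : IsOpen U) {x : X} (hx : x ∈ U) :
    ∃ n, ∀ z, Pfx (pre x n) z → z ∈ U := by
  obtain ⟨I, u, hu, hI⟩ := isOpen_pi_iff.1 hU x hx
  obtain ⟨n, hn⟩ : ∃ n, ∀ i ∈ I, i < n := by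
    obtain ⟨n, hn⟩ := I.bddAbove
    exact ⟨n + 1, fun i hi => Nat.lt_succ_of_le (hn hi)⟩
  refine ⟨n, fun z hz => hI ?_⟩
  intro i hi
  rw [pfx_pre_iff] at hz
  rw [← hz i (hn i hi)]
  exact (hu i hi).2

theorem pseudo {κ : Type} {Z : Set κ} (hZ : Z.Countable) (h : κ → Set ℕ)
    (hinf : ∀ z ∈ Z, (h z).Infinite)
    (hcomp : ∀ z ∈ Z, ∀ w ∈ Z, (h z \ h w).Finite ∨ (h w \ h z).Finite) :
    ∃ A : Set ℕ, A.Infinite ∧ ∀ z ∈ Z, (A \ h z).Finite := by
  rcases Z.eq_empty_or_nonempty with rfl | hne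
  · exact ⟨univ, infinite_univ, by simp⟩
  obtain ⟨z, hz⟩ := hZ.exists_eq_range hne
  have hzZ : ∀ i, z i ∈ Z := fun i => by rw [hz]; exact mem_range_self i
  have hmin : ∀ n, ∃ j ≤ n, ∀ i ≤ n, (h (z j) \ h (z i)).Finite := by
    intro n
    induction n with
    | zero =>
      refine ⟨0, le_rfl, fun i hi => ?_⟩
      obtain rfl : i = 0 := by omega
      simp
    | succ n ih =>
      obtain ⟨j, hj, hj'⟩ := ih
      rcases hcomp (z j) (hzZ j) (z (n+1)) (hzZ _) with H | H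
      · refine ⟨j, by omega, fun i hi => ?_⟩
        rcases Nat.lt_or_ge n i with h1 | h1
        · obtain rfl : i = n+1 := by omega
          exact H
        · exact hj' i h1
      · refine ⟨n+1, le_rfl, fun i hi => ?_⟩
        rcases Nat.lt_or_ge n i with h1 | h1
        · obtain rfl : i = n+1 := by omega
          simp
        · refine (H.union (hj' i h1)).subset ?_
          rintro m ⟨hm1, hm2⟩
          by_cases hm : m ∈ h (z j)
          · exact Or.inr ⟨hm, hm2⟩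
          · exact Or.inl ⟨hm1, hm⟩
  have hfreq : ∀ n, ∃ᶠ k in Filter.atTop, ∀ i ≤ n, k ∈ h (z i) := by
    intro n
    obtain ⟨j, hj, hj'⟩ := hmin n
    rw [Nat.frequently_atTop_iff_infinite]
    have hfin : (⋃ i ∈ Iic n, (h (z j) \ h (z i))).Finite :=
      (finite_Iic n).biUnion (fun i hi => hj' i hi)
    refine ((hinf _ (hzZ j)).sdiff hfin).mono ?_
    rintro k ⟨hk1, hk2⟩ i hi
    by_contra hki
    exact hk2 (mem_biUnion (show i ∈ Iic n from hi) ⟨hk1, hki⟩)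
  obtain ⟨φ, hφ, hφ'⟩ := Filter.extraction_forall_of_frequently hfreq
  refine ⟨range φ, infinite_range_of_injective hφ.injective, ?_⟩
  intro w hw
  rw [hz] at hw
  obtain ⟨i, rfl⟩ := hw
  refine ((finite_Iio i).image φ).subset ?_
  rintro _ ⟨⟨n, rfl⟩, hn⟩
  refine ⟨n, ?_, rfl⟩
  by_contra hni
  exact hn (hφ' n i (not_lt.1 hni))

/-- nowhere dense sets -/
def ND (N : Set X) : Prop := ∀ σ : List Bool, ∃ τ, σ <+: τ ∧ ∀ x, Pfx τ x → x ∉ N

/-- Luzin sets which are uncountable in every basic open set -/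
def Luz (L : Set X) : Prop :=
  (∀ N, ND N → (L ∩ N).Countable) ∧ ∀ σ, ¬ (L ∩ {x | Pfx σ x}).Countable

theorem nd_local {σ : List Bool} {N : Set X}
    (h : ∀ q, σ <+: q → ∃ q', q <+: q' ∧ ∀ x, Pfx q' x → x ∉ N) : ND (N ∩ {x | Pfx σ x}) := by
  intro q
  by_cases H : ∃ x, Pfx q x ∧ Pfx σ x
  · obtain ⟨x, hx1, hx2⟩ := H
    rcases le_total q.length σ.length with hle | hle
    · obtain ⟨q', hq1, hq2⟩ := h σ List.prefix_rfl
      exact ⟨q', (hx1.pfxOf hx2 hle).trans hq1, fun x hx hxN => hq2 x hx hxN.1⟩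
    · obtain ⟨q', hq1, hq2⟩ := h q (hx2.pfxOf hx1 hle)
      exact ⟨q', hq1, fun x hx hxN => hq2 x hx hxN.1⟩
  · exact ⟨q, List.prefix_rfl, fun x hx hxN => H ⟨x, hx, hxN.2⟩⟩

theorem escape {L : Set X} (hL : Luz L) (σ : List Bool) {κ : Type} [Countable κ] (N : κ → Set X)
    (hN : ∀ k q, σ <+: q → ∃ q', q <+: q' ∧ ∀ x, Pfx q' x → x ∉ N k) :
    ∃ y ∈ L, Pfx σ y ∧ ∀ k, y ∉ N k := by
  by_contra H
  push Not at H
  refine hL.2 σ ((countable_iUnion (fun k => hL.1 _ (nd_local (hN k)))).mono ?_)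
  rintro y ⟨hy, hyσ⟩
  obtain ⟨k, hk⟩ := H y hy hyσ
  exact mem_iUnion.2 ⟨k, hy, hk, hyσ⟩

theorem key {L : Set X} (hL : Luz L) (O : ℕ → Set X) (hO : ∀ n, IsOpen (O n))
    (hinf : ∀ x ∈ L, {n | x ∈ O n}.Infinite)
    (hcomp : ∀ x ∈ L, ∀ y ∈ L, ({n | x ∈ O n} \ {n | y ∈ O n}).Finite ∨
      ({n | y ∈ O n} \ {n | x ∈ O n}).Finite) :
    ∃ A : Set ℕ, A.Infinite ∧ ∀ x ∈ L, (A \ {n | x ∈ O n}).Finite := by
  classical
  let A : List Bool → Set ℕ := fun σ => {n | ∃ x, Pfx σ x ∧ x ∈ O n}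
  let B : List Bool → Set ℕ := fun σ => {n | ∀ τ, σ <+: τ → ∃ x, Pfx τ x ∧ x ∈ O n}
  have hshrink : ∀ n (q : List Bool) x, Pfx q x → x ∈ O n →
      ∃ q', q <+: q' ∧ ∀ z, Pfx q' z → z ∈ O n := by
    intro n q x hx hxn
    obtain ⟨k, hk⟩ := open_basic (hO n) hxn
    refine ⟨pre x (max k q.length), pre_of_pfx hx (le_max_right _ _), fun z hz => hk z ?_⟩
    rw [pfx_pre_iff] at hz ⊢
    exact fun i hi => hz i (lt_of_lt_of_le hi (le_max_left _ _))
  have step1 : ∀ σ : List Bool, ∃ σ', σ <+: σ' ∧ (B σ').Infinite := by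
    intro σ
    by_contra H
    push Not at H
    have hBfin : ∀ σ', σ <+: σ' → (B σ').Finite := fun σ' h => by
      simpa using H σ' h
    have h1 : ∀ x ∈ L, ∃ q : List Bool, ∃ m : ℕ, σ <+: q ∧ ∀ n ∈ A q, m ≤ n → x ∈ O n := by
      intro x hx
      by_contra H1
      push Not at H1
      obtain ⟨y, hy, hyσ, hyN⟩ := escape hL σ
        (Sum.elim (fun m : ℕ => {y | ∀ n, m ≤ n → x ∉ O n → y ∉ O n})
          (fun m : ℕ => {y | ∀ n, m ≤ n → x ∈ O n → y ∈ O n})) (by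
          rintro (m | m) q hq
          · obtain ⟨n, ⟨z, hz1, hz2⟩, hn2, hn3⟩ := H1 q m hq
            obtain ⟨q', hq1, hq2⟩ := hshrink n q z hz1 hz2
            exact ⟨q', hq1, fun w hw hwN => hwN n hn2 hn3 (hq2 w hw)⟩
          · obtain ⟨n, hn1, hn2⟩ := ((hinf x hx).sdiff ((hBfin q hq).union (finite_Iio m))).nonempty
            have hn3 : n ∉ B q := fun h => hn2 (Or.inl h)
            have hn4 : m ≤ n := by
              by_contra h
              exact hn2 (Or.inr (not_le.1 h))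
            have hn5 : ∃ τ, q <+: τ ∧ ∀ x, Pfx τ x → x ∉ O n := by
              by_contra h
              push Not at h
              exact hn3 h
            obtain ⟨τ, hτ1, hτ2⟩ := hn5
            exact ⟨τ, hτ1, fun w hw hwN => hτ2 w hw (hwN n hn4 hn1)⟩)
      have hy1 : ({n | y ∈ O n} \ {n | x ∈ O n}).Infinite := by
        refine infinite_of_forall_exists_gt (fun m => ?_)
        have h := hyN (Sum.inl (m+1))
        simp only [Sum.elim_inl] at h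
        have h' : ∃ n, m + 1 ≤ n ∧ x ∉ O n ∧ y ∈ O n := by
          by_contra hc
          push Not at hc
          exact h hc
        obtain ⟨n, hn1, hn2, hn3⟩ := h'
        exact ⟨n, ⟨hn3, hn2⟩, hn1⟩
      have hy2 : ({n | x ∈ O n} \ {n | y ∈ O n}).Infinite := by
        refine infinite_of_forall_exists_gt (fun m => ?_)
        have h := hyN (Sum.inr (m+1))
        simp only [Sum.elim_inr] at h
        have h' : ∃ n, m + 1 ≤ n ∧ x ∈ O n ∧ y ∉ O n := by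
          by_contra hc
          push Not at hc
          exact h hc
        obtain ⟨n, hn1, hn2, hn3⟩ := h'
        exact ⟨n, ⟨hn2, hn3⟩, hn1⟩
      rcases hcomp x hx y hy with h | h
      · exact hy2 h
      · exact hy1 h
    have h2 : ∃ q : List Bool, ∃ m : ℕ, σ <+: q ∧
        ¬ (L ∩ {x | Pfx σ x ∧ ∀ n ∈ A q, m ≤ n → x ∈ O n}).Countable := by
      by_contra H2
      push Not at H2
      refine hL.2 σ ((countable_iUnion
        (fun k : {k : List Bool × ℕ // σ <+: k.1} => H2 k.1.1 k.1.2 k.2)).mono ?_)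
      rintro x ⟨hx, hxσ⟩
      obtain ⟨q, m, hq, hqm⟩ := h1 x hx
      exact mem_iUnion.2 ⟨⟨(q, m), hq⟩, hx, hxσ, hqm⟩
    obtain ⟨q, m, hq, hqm⟩ := h2
    have h3 : ∃ σ'' : List Bool, ∀ τ, σ'' <+: τ →
        ∃ x, Pfx τ x ∧ x ∈ L ∩ {x | Pfx σ x ∧ ∀ n ∈ A q, m ≤ n → x ∈ O n} := by
      by_contra H3
      push Not at H3
      refine hqm ((hL.1 _ H3).mono ?_)
      rintro x hx
      exact ⟨hx.1, hx⟩
    obtain ⟨σ'', hσ''⟩ := h3
    obtain ⟨x₀, hx₀, hx₀L, hx₀σ, -⟩ := hσ'' σ'' List.prefix_rfl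
    let ρ := pre x₀ (max σ.length σ''.length)
    have hρ1 : σ <+: ρ := pre_of_pfx hx₀σ (le_max_left _ _)
    have hρ2 : σ'' <+: ρ := pre_of_pfx hx₀ (le_max_right _ _)
    have hAq : (A q).Infinite := by
      obtain ⟨y, hy, hyq, -⟩ := escape hL q (fun _ : ℕ => (∅ : Set X))
        (fun k q _ => ⟨q, List.prefix_rfl, fun x _ h => h⟩)
      refine (hinf y hy).mono (fun n hn => ⟨y, hyq, hn⟩)
    refine (hAq.sdiff (finite_Iio m)) ((hBfin ρ hρ1).subset ?_)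
    rintro n ⟨hn1, hn2⟩ τ hτ
    obtain ⟨x, hx1, hx2, hx3, hx4⟩ := hσ'' τ (hρ2.trans hτ)
    exact ⟨x, hx1, hx4 n hn1 (not_lt.1 hn2)⟩
  -- step 2
  let C₀ : Set X := {x ∈ L | ¬ ∃ σ, Pfx σ x ∧ (B σ).Infinite ∧ ∀ n ∈ B σ, x ∈ O n}
  have hC₀ : C₀.Countable := by
    have h1 : (L ∩ {x | ∀ σ, Pfx σ x → ¬ (B σ).Infinite}).Countable := by
      refine hL.1 _ ?_
      intro σ
      obtain ⟨σ', h1, h2⟩ := step1 σ
      exact ⟨σ', h1, fun x hx hxN => hxN σ' hx h2⟩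
    have h2 : (⋃ k : {k : List Bool × ℕ // k.2 ∈ B k.1},
        L ∩ ({x | x ∉ O k.1.2} ∩ {x | Pfx k.1.1 x})).Countable := by
      refine countable_iUnion (fun k => hL.1 _ (nd_local ?_))
      intro q hq
      obtain ⟨x, hx1, hx2⟩ := k.2 q hq
      obtain ⟨q', hq1, hq2⟩ := hshrink _ q x hx1 hx2
      exact ⟨q', hq1, fun z hz hzN => hzN (hq2 z hz)⟩
    refine (h1.union h2).mono ?_
    rintro x ⟨hxL, hx⟩
    by_cases hN : ∀ σ, Pfx σ x → ¬ (B σ).Infinite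
    · exact Or.inl ⟨hxL, hN⟩
    · right
      push Not at hN
      obtain ⟨σ, hσ1, hσ2⟩ := hN
      have h3 : ∃ n ∈ B σ, x ∉ O n := by
        by_contra hc
        push Not at hc
        exact hx ⟨σ, hσ1, hσ2, hc⟩
      obtain ⟨n, hn1, hn2⟩ := h3
      exact mem_iUnion.2 ⟨⟨(σ, n), hn1⟩, hxL, hn2, hσ1⟩
  -- step 3
  by_cases Hc : ∃ σ, (B σ).Infinite ∧ ∀ z ∈ L, ∃ x ∈ L, (∀ n ∈ B σ, x ∈ O n) ∧
      ({n | x ∈ O n} \ {n | z ∈ O n}).Finite
  · obtain ⟨σ, hσ1, hσ2⟩ := Hc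
    refine ⟨B σ, hσ1, fun z hz => ?_⟩
    obtain ⟨x, hx, hxB, hfin⟩ := hσ2 z hz
    exact hfin.subset (fun n hn => ⟨hxB n hn.1, hn.2⟩)
  · push Not at Hc
    choose! z hz using Hc
    let Z : Set X := C₀ ∪ z '' {σ | (B σ).Infinite}
    have hZc : Z.Countable := hC₀.union ((to_countable _).image z)
    have hZL : ∀ w ∈ Z, w ∈ L := by
      rintro w (hw | ⟨σ, hσ, rfl⟩)
      · exact hw.1
      · exact (hz σ hσ).1
    obtain ⟨P, hP1, hP2⟩ := pseudo hZc (fun x => {n | x ∈ O n}) (fun w hw => hinf w (hZL w hw))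
      (fun w hw v hv => hcomp w (hZL w hw) v (hZL v hv))
    refine ⟨P, hP1, fun x hx => ?_⟩
    by_cases hxC : x ∈ C₀
    · exact hP2 x (Or.inl hxC)
    · have h4 : ∃ σ, Pfx σ x ∧ (B σ).Infinite ∧ ∀ n ∈ B σ, x ∈ O n := by
        by_contra hc
        exact hxC ⟨hx, hc⟩
      obtain ⟨σ, -, hσ2, hσ3⟩ := h4
      have h5 := (hz σ hσ2).2 x hx hσ3
      have h6 : ({n | z σ ∈ O n} \ {n | x ∈ O n}).Finite := by
        rcases hcomp x hx (z σ) (hz σ hσ2).1 with h | h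
        · exact absurd h h5
        · exact h
      refine ((hP2 (z σ) (Or.inr ⟨σ, hσ2, rfl⟩)).union h6).subset ?_
      rintro n ⟨hn1, hn2⟩
      by_cases hn : z σ ∈ O n
      · exact Or.inr ⟨hn, hn2⟩
      · exact Or.inl ⟨hn1, hn⟩

end Pool.Agent.H15.Tau
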