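import Pool.Agent.H15.TauA

set_option autoImplicit false

/-!
Helper file for MP_f722f0_gt: from `τ`-covers to sequences of open sets.
-/

namespace Pool.Agent.H15.Tau

open Set
open Pool.Agent.H15.Dim (X Pfx pre pfx_pre pre_length isClopen_pfx extendByFalse pfx_extend)

variable {Y : Type} [TopologicalSpace Y]

theorem GammaCov.tauCov {𝒰 : Set (Set Y)} (h : GammaCov Y 𝒰) : TauCov Y 𝒰 := by
  obtain ⟨h1, h2, h3⟩ := h
  refine ⟨h1, fun x => ?_, fun x y => Or.inl ((h3 y).subset ?_)⟩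
  · refine (h2.sdiff (h3 x)).mono ?_
    rintro U ⟨hU1, hU2⟩
    refine ⟨hU1, ?_⟩
    by_contra hxU
    exact hU2 ⟨hU1, hxU⟩
  · rintro U ⟨hU, -, hyU⟩
    exact ⟨hU, hyU⟩

theorem fin_min [Nonempty Y] {𝒰 : Set (Set Y)} (h : TauCov Y 𝒰) (F : Finset Y) :
    ∃ x, {U ∈ 𝒰 | x ∈ U ∧ ¬ ∀ y ∈ F, y ∈ U}.Finite := by
  classical
  induction F using Finset.induction_on with
  | empty =>
    obtain ⟨x⟩ := ‹Nonempty Y›
    refine ⟨x, ?_⟩
    simp
  | insert b F _ ih =>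
    obtain ⟨x, hx⟩ := ih
    rcases h.2.2 x b with H | H
    · refine ⟨x, (H.union hx).subset ?_⟩
      rintro U ⟨hU, hxU, hn⟩
      by_cases hb : b ∈ U
      · right
        refine ⟨hU, hxU, fun hF => hn ?_⟩
        intro y hy
        rcases Finset.mem_insert.1 hy with rfl | hy
        · exact hb
        · exact hF y hy
      · exact Or.inl ⟨hU, hxU, hb⟩
    · refine ⟨b, (H.union hx).subset ?_⟩
      rintro U ⟨hU, hbU, hn⟩
      by_cases hxU : x ∈ U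
      · right
        refine ⟨hU, hxU, fun hF => hn ?_⟩
        intro y hy
        rcases Finset.mem_insert.1 hy with rfl | hy
        · exact hbU
        · exact hF y hy
      · exact Or.inl ⟨hU, hbU, hxU⟩

theorem omega_cover [Nonempty Y] {𝒰 : Set (Set Y)} (h : TauCov Y 𝒰) (F : Finset Y) :
    ∃ U ∈ 𝒰, ∀ y ∈ F, y ∈ U := by
  obtain ⟨x, hx⟩ := fin_min h F
  obtain ⟨U, ⟨hU, hxU⟩, hn⟩ := ((h.2.1 x).sdiff hx).nonempty
  refine ⟨U, hU, ?_⟩
  by_contra hc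
  exact hn ⟨hU, hxU, hc⟩

/-- A `τ`-cover of a second countable space has a countable `τ`-subcover, given by an injective
sequence. -/
theorem countable_sub [Nonempty Y] [SecondCountableTopology Y] {𝒰 : Set (Set Y)}
    (h : TauCov Y 𝒰) : ∃ U : ℕ → Set Y, Function.Injective U ∧ (∀ n, U n ∈ 𝒰) ∧
      (∀ y, {n | y ∈ U n}.Infinite) ∧
      ∀ x y, {n | x ∈ U n ∧ y ∉ U n}.Finite ∨ {n | y ∈ U n ∧ x ∉ U n}.Finite := by
  classical
  let b := TopologicalSpace.countableBasis Y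
  have hb : TopologicalSpace.IsTopologicalBasis b := TopologicalSpace.isBasis_countableBasis Y
  let S : Set (Set (Set Y)) := {s | s.Finite ∧ s ⊆ b}
  have hS : S.Countable :=
    countable_ofPred_finite_subset (TopologicalSpace.countable_countableBasis Y)
  let S' : Set (Set (Set Y)) := {s ∈ S | ∃ U ∈ 𝒰, ⋃₀ s ⊆ U}
  have hS' : S'.Countable := hS.mono (fun s hs => hs.1)
  have hg : ∀ s : Set (Set Y), ∃ U, (∃ U ∈ 𝒰, ⋃₀ s ⊆ U) → U ∈ 𝒰 ∧ ⋃₀ s ⊆ U := by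
    intro s
    by_cases H : ∃ U ∈ 𝒰, ⋃₀ s ⊆ U
    · obtain ⟨U, hU⟩ := H
      exact ⟨U, fun _ => hU⟩
    · exact ⟨∅, fun h => absurd h H⟩
  choose g hg using hg
  let 𝒰' : Set (Set Y) := g '' S'
  have hc' : 𝒰'.Countable := hS'.image g
  have hsub : 𝒰' ⊆ 𝒰 := by
    rintro _ ⟨s, hs, rfl⟩
    exact (hg s hs.2).1
  have hω : ∀ F : Finset Y, ∃ U ∈ 𝒰', ∀ y ∈ F, y ∈ U := by
    intro F
    obtain ⟨U, hU, hFU⟩ := omega_cover h F
    have h1 : ∀ y : Y, ∃ V, y ∈ F → V ∈ b ∧ y ∈ V ∧ V ⊆ U := by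
      intro y
      by_cases hy : y ∈ F
      · obtain ⟨V, hV1, hV2, hV3⟩ := hb.exists_subset_of_mem_open (hFU y hy) (h.1.1 U hU)
        exact ⟨V, fun _ => ⟨hV1, hV2, hV3⟩⟩
      · exact ⟨∅, fun h => absurd h hy⟩
    choose V hV using h1
    have h2 : (V '' (F : Set Y)) ∈ S' := by
      refine ⟨⟨F.finite_toSet.image V, ?_⟩, U, hU, ?_⟩
      · rintro _ ⟨y, hy, rfl⟩
        exact (hV y hy).1
      · rintro z ⟨_, ⟨y, hy, rfl⟩, hz⟩
        exact (hV y hy).2.2 hz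
    refine ⟨g (V '' (F : Set Y)), ⟨_, h2, rfl⟩, fun y hy => ?_⟩
    exact (hg _ h2.2).2 ⟨V y, ⟨y, hy, rfl⟩, (hV y hy).2.1⟩
  have hlarge : ∀ y, {U ∈ 𝒰' | y ∈ U}.Infinite := by
    intro y hfin
    have hw : ∀ U : Set Y, ∃ w, U ∈ 𝒰' → w ∉ U := by
      intro U
      by_cases hU : U ∈ 𝒰'
      · have : U ≠ univ := fun h0 => h.1.2.2 (h0 ▸ hsub hU)
        obtain ⟨w, hw⟩ := (ne_univ_iff_exists_notMem U).1 this
        exact ⟨w, fun _ => hw⟩
      · exact ⟨y, fun h => absurd h hU⟩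
    choose w hw using hw
    obtain ⟨U, hU, hF⟩ := hω (insert y (hfin.toFinset.image w))
    have hyU : y ∈ U := hF y (Finset.mem_insert_self _ _)
    refine hw U hU (hF (w U) (Finset.mem_insert_of_mem (Finset.mem_image_of_mem w ?_)))
    rw [Set.Finite.mem_toFinset]
    exact ⟨hU, hyU⟩
  obtain ⟨y₀⟩ := ‹Nonempty Y›
  have hinf : 𝒰'.Infinite := (hlarge y₀).mono (fun U hU => hU.1)
  have : Infinite 𝒰' := hinf.to_subtype
  have : Countable 𝒰' := hc'.to_subtype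
  obtain ⟨hden⟩ := nonempty_denumerable 𝒰'
  let e : 𝒰' ≃ ℕ := Denumerable.eqv 𝒰'
  let U : ℕ → Set Y := fun n => (e.symm n).1
  have hUinj : Function.Injective U := Subtype.val_injective.comp e.symm.injective
  have hUmem : ∀ n, U n ∈ 𝒰' := fun n => (e.symm n).2
  have hUsurj : ∀ V ∈ 𝒰', ∃ n, U n = V := by
    intro V hV
    refine ⟨e ⟨V, hV⟩, ?_⟩
    simp [U]
  refine ⟨U, hUinj, fun n => hsub (hUmem n), ?_, ?_⟩
  · intro y hfin
    refine hlarge y ((hfin.image U).subset ?_)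
    rintro V ⟨hV1, hV2⟩
    obtain ⟨n, rfl⟩ := hUsurj V hV1
    exact ⟨n, hV2, rfl⟩
  · intro x y
    rcases h.2.2 x y with H | H
    · left
      refine (H.preimage (f := U) hUinj.injOn).subset ?_
      rintro n ⟨hn1, hn2⟩
      exact ⟨hsub (hUmem n), hn1, hn2⟩
    · right
      refine (H.preimage (f := U) hUinj.injOn).subset ?_
      rintro n ⟨hn1, hn2⟩
      exact ⟨hsub (hUmem n), hn1, hn2⟩

/-- The main positive result: on a space homeomorphic to a Luzin set, each `τ`-cover contains an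
infinite sequence of distinct sets every infinite subset of which is a `γ`-cover. -/
theorem pos_main {j : Y → X} (hj : Topology.IsInducing j) (hL : Luz (range j))
    {𝒰 : Set (Set Y)} (h : TauCov Y 𝒰) :
    ∃ (U : ℕ → Set Y) (A : Set ℕ), Function.Injective U ∧ (∀ n, U n ∈ 𝒰) ∧ A.Infinite ∧
      ∀ A' ⊆ A, A'.Infinite → GammaCov Y (U '' A') := by
  have : Nonempty Y := by
    obtain ⟨_, ⟨y, -⟩, -⟩ := escape hL [] (fun _ : ℕ => (∅ : Set X))
      (fun k q _ => ⟨q, List.prefix_rfl, fun x _ h => h⟩)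
    exact ⟨y⟩
  have : SecondCountableTopology Y := hj.secondCountableTopology
  obtain ⟨U, hU1, hU2, hU3, hU4⟩ := countable_sub h
  have hO : ∀ n, ∃ O : Set X, IsOpen O ∧ j ⁻¹' O = U n := fun n =>
    hj.isOpen_iff.1 (h.1.1 _ (hU2 n))
  choose O hO1 hO2 using hO
  have hmem : ∀ n y, j y ∈ O n ↔ y ∈ U n := by
    intro n y
    rw [← hO2 n]
    rfl
  obtain ⟨A, hA1, hA2⟩ := key hL O hO1
    (by
      rintro _ ⟨y, rfl⟩
      simp only [hmem]
      exact hU3 y)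
    (by
      rintro _ ⟨x, rfl⟩ _ ⟨y, rfl⟩
      simp only [hmem]
      exact hU4 x y)
  refine ⟨U, A, hU1, hU2, hA1, fun A' hA' hinf => ?_⟩
  have hfin : ∀ y, {n ∈ A' | y ∉ U n}.Finite := by
    intro y
    refine (hA2 (j y) ⟨y, rfl⟩).subset ?_
    rintro n ⟨hn1, hn2⟩
    exact ⟨hA' hn1, fun hn => hn2 ((hmem n y).1 hn)⟩
  refine ⟨⟨?_, ?_, ?_⟩, ?_, ?_⟩
  · rintro _ ⟨n, -, rfl⟩
    exact h.1.1 _ (hU2 n)
  · refine eq_univ_of_forall (fun y => ?_)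
    obtain ⟨n, hn1, hn2⟩ := (hinf.sdiff (hfin y)).nonempty
    refine ⟨U n, ⟨n, hn1, rfl⟩, ?_⟩
    by_contra hc
    exact hn2 ⟨hn1, hc⟩
  · rintro ⟨n, -, hn⟩
    exact h.1.2.2 (hn ▸ hU2 n)
  · exact hinf.image hU1.injOn
  · intro y
    refine ((hfin y).image U).subset ?_
    rintro _ ⟨⟨n, hn, rfl⟩, hy⟩
    exact ⟨n, ⟨hn, hy⟩, rfl⟩

theorem split_set {A : Set ℕ} (hA : A.Infinite) : ∃ A₁ A₂ : Set ℕ, A₁ ⊆ A ∧ A₂ ⊆ A ∧
    A₁.Infinite ∧ A₂.Infinite ∧ Disjoint A₁ A₂ := by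
  let f : ℕ ↪ A := hA.natEmbedding
  have hf : Function.Injective (fun n => (f n : ℕ)) := Subtype.val_injective.comp f.injective
  refine ⟨range (fun n => (f (2*n) : ℕ)), range (fun n => (f (2*n+1) : ℕ)), ?_, ?_, ?_, ?_, ?_⟩
  · rintro _ ⟨n, rfl⟩
    exact (f (2*n)).2
  · rintro _ ⟨n, rfl⟩
    exact (f (2*n+1)).2
  · refine infinite_range_of_injective (fun a b hab => ?_)
    have := hf hab
    omega
  · refine infinite_range_of_injective (fun a b hab => ?_)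
    have := hf hab
    omega
  · rw [Set.disjoint_left]
    rintro _ ⟨n, rfl⟩ ⟨m, hm⟩
    have := hf hm
    omega

theorem pos_tg {j : Y → X} (hj : Topology.IsInducing j) (hL : Luz (range j)) : TauGamma Y := by
  intro 𝒰 h
  obtain ⟨U, A, hU1, hU2, hA, hA'⟩ := pos_main hj hL h
  refine ⟨U '' A, ?_, hA' A le_rfl hA⟩
  rintro _ ⟨n, -, rfl⟩
  exact hU2 n

theorem pos_split {j : Y → X} (hj : Topology.IsInducing j) (hL : Luz (range j)) : SplitTT Y := by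
  intro 𝒰 h
  obtain ⟨U, A, hU1, hU2, hA, hA'⟩ := pos_main hj hL h
  obtain ⟨A₁, A₂, h1, h2, h3, h4, h5⟩ := split_set hA
  refine ⟨U '' A₁, 𝒰 \ (U '' A₁), ?_, disjoint_sdiff_self_right, ⟨U '' A₁, le_rfl,
    (hA' A₁ h1 h3).tauCov⟩, U '' A₂, ?_, (hA' A₂ h2 h4).tauCov⟩
  · refine union_sdiff_cancel ?_
    rintro _ ⟨n, -, rfl⟩
    exact hU2 n
  · rintro _ ⟨n, hn, rfl⟩
    refine ⟨hU2 n, ?_⟩
    rintro ⟨m, hm, hmn⟩
    rw [hU1 hmn] at hm
    exact Set.disjoint_left.1 h5 hm hn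

end Pool.Agent.H15.Tau
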