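import Pool.Agent.H15.TauB
import Pool.Agent.H15.ConjA

set_option autoImplicit false

/-!
Helper file for MP_f722f0_gt: the construction under CH.
-/

namespace Pool.Agent.H15.Tau

open Set
open Pool.Agent.H15.Dim (X Pfx pre pfx_pre pre_length isClopen_pfx extendByFalse pfx_extend)

/-- switch the odd coordinates `2n+1` with `n ∈ T` -/
noncomputable def sw (T : Set ℕ) (x : X) : X :=
  open Classical in fun i => if i % 2 = 1 ∧ i / 2 ∈ T then !(x i) else x i

theorem sw_sw (T : Set ℕ) (x : X) : sw T (sw T x) = x := by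
  funext i
  by_cases h : i % 2 = 1 ∧ i / 2 ∈ T
  · simp [sw, h]
  · simp [sw, h]

theorem sw_even (T : Set ℕ) (x : X) (k : ℕ) : sw T x (2*k) = x (2*k) := by
  have h : ¬ ((2*k) % 2 = 1 ∧ (2*k) / 2 ∈ T) := by omega
  simp [sw]

theorem sw_odd (T : Set ℕ) (x : X) (n : ℕ) : x (2*n+1) ≠ sw T x (2*n+1) ↔ n ∈ T := by
  have h1 : (2*n+1) % 2 = 1 := by omega
  have h2 : (2*n+1) / 2 = n := by omega
  by_cases h : n ∈ T
  · simp [sw, h1, h2, h]
  · simp [sw, h1, h2, h]

theorem continuous_sw (T : Set ℕ) : Continuous (sw T) := by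
  classical
  refine continuous_pi (fun i => ?_)
  by_cases h : i % 2 = 1 ∧ i / 2 ∈ T
  · have : (fun x : X => sw T x i) = fun x => !(x i) := by
      funext x
      simp [sw, h]
    rw [this]
    exact (continuous_of_discreteTopology (f := Bool.not)).comp (continuous_apply i)
  · have : (fun x : X => sw T x i) = fun x => x i := by
      funext x
      simp [sw, h]
    rw [this]
    exact continuous_apply i

noncomputable def swHomeo (T : Set ℕ) : X ≃ₜ X where
  toFun := sw T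
  invFun := sw T
  left_inv := sw_sw T
  right_inv := sw_sw T
  continuous_toFun := continuous_sw T
  continuous_invFun := continuous_sw T

theorem dense_of {G : Set X} (h : ∀ σ : List Bool, ∃ z, Pfx σ z ∧ z ∈ G) : Dense G := by
  rw [dense_iff_inter_open]
  rintro U hU ⟨x, hx⟩
  obtain ⟨n, hn⟩ := open_basic hU hx
  obtain ⟨z, hz1, hz2⟩ := h (pre x n)
  exact ⟨z, hn z hz1, hz2⟩

/-- codes for dense open sets -/
def Den (c : Set (List Bool)) : Prop := ∀ σ : List Bool, ∃ τ ∈ c, σ <+: τ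

def G (c : Set (List Bool)) : Set X := {z | ∃ τ ∈ c, Pfx τ z}

theorem isOpen_G (c : Set (List Bool)) : IsOpen (G c) := by
  have : G c = ⋃ τ ∈ c, {z | Pfx τ z} := by
    ext z
    simp [G]
  rw [this]
  exact isOpen_biUnion (fun τ _ => (isClopen_pfx τ).isOpen)

theorem dense_G {c : Set (List Bool)} (h : Den c) : Dense (G c) := by
  refine dense_of (fun σ => ?_)
  obtain ⟨τ, hτ, hστ⟩ := h σ
  exact ⟨extendByFalse τ, (pfx_extend τ).mono hστ, τ, hτ, pfx_extend τ⟩

theorem step_pt (σ : List Bool) (T : Set ℕ) {C : Set (Set (List Bool))} (hC : C.Countable)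
    (hCd : ∀ c ∈ C, Den c) {D : Set X} (hD : D.Countable) :
    ∃ z, Pfx σ z ∧ (∀ c ∈ C, z ∈ G c ∧ sw T z ∈ G c) ∧ ∀ d ∈ D, ∃ k, z (2*k) ≠ d (2*k) := by
  classical
  let S : Set (Set X) := (G '' C) ∪ ((fun c => sw T ⁻¹' G c) '' C) ∪
    ((fun d => {z : X | ∃ k, z (2*k) ≠ d (2*k)}) '' D)
  have hdense : Dense (⋂₀ S) := by
    refine dense_sInter_of_isOpen ?_ (((hC.image _).union (hC.image _)).union (hD.image _)) ?_
    · rintro s ((⟨c, hc, rfl⟩ | ⟨c, hc, rfl⟩) | ⟨d, hd, rfl⟩)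
      · exact isOpen_G c
      · exact (isOpen_G c).preimage (continuous_sw T)
      · show IsOpen {z : X | ∃ k, z (2*k) ≠ d (2*k)}
        have : {z : X | ∃ k, z (2*k) ≠ d (2*k)} = ⋃ k, (fun z : X => z (2*k)) ⁻¹' {d (2*k)}ᶜ := by
          ext z
          rw [mem_iUnion]
          exact Iff.rfl
        rw [this]
        exact isOpen_iUnion (fun k => (isOpen_discrete _).preimage (continuous_apply _))
    · rintro s ((⟨c, hc, rfl⟩ | ⟨c, hc, rfl⟩) | ⟨d, hd, rfl⟩)
      · exact dense_G (hCd c hc)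
      · exact (dense_G (hCd c hc)).preimage (swHomeo T).isOpenMap
      · refine dense_of (fun τ => ?_)
        refine ⟨Function.update (extendByFalse τ) (2 * τ.length) (!(d (2 * τ.length))), ?_,
          τ.length, ?_⟩
        · intro i hi
          rw [Function.update_of_ne (by omega)]
          exact pfx_extend τ i hi
        · rw [Function.update_self]
          simp
  obtain ⟨z, hz1, hz2⟩ := hdense.inter_open_nonempty _ (isClopen_pfx σ).isOpen
    ⟨extendByFalse σ, pfx_extend σ⟩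
  refine ⟨z, hz1, fun c hc => ⟨?_, ?_⟩, fun d hd => ?_⟩
  · exact hz2 _ (Or.inl (Or.inl ⟨c, hc, rfl⟩))
  · exact hz2 _ (Or.inl (Or.inr ⟨c, hc, rfl⟩))
  · exact hz2 _ (Or.inr ⟨d, hd, rfl⟩)

section constr

variable {J : Type} [LinearOrder J]

theorem tower [WellFoundedLT J] (hJ : ∀ γ : J, (Iio γ).Countable) (S : J → Set ℕ) :
    ∃ t : J → Set ℕ, ∀ γ, (t γ).Infinite ∧ (∀ β < γ, (t γ \ t β).Finite) ∧
      ((t γ \ S γ).Finite ∨ (t γ ∩ S γ).Finite) := by
  classical
  refine Conj.exists_rec (fun (t : J → Set ℕ) γ => (t γ).Infinite ∧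
    (∀ β < γ, (t γ \ t β).Finite) ∧ ((t γ \ S γ).Finite ∨ (t γ ∩ S γ).Finite)) ?_ ?_
  · rintro f f' γ hff ⟨h1, h2, h3⟩
    rw [hff γ le_rfl] at h1 h2 h3
    refine ⟨h1, fun β hβ => ?_, h3⟩
    rw [← hff β hβ.le]
    exact h2 β hβ
  · intro t γ ht
    obtain ⟨A, hA1, hA2⟩ := pseudo (hJ γ) t (fun β hβ => (ht β hβ).1) (by
      intro β hβ α hα
      rcases lt_trichotomy β α with H | H | H
      · exact Or.inr ((ht α hα).2.1 β H)
      · subst H
        left
        simp
      · exact Or.inl ((ht β hβ).2.1 α H))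
    by_cases h : (A ∩ S γ).Infinite
    · refine ⟨A ∩ S γ, ?_⟩
      simp only [Function.update_self]
      refine ⟨h, fun β hβ => ?_, Or.inl ?_⟩
      · rw [Function.update_of_ne hβ.ne]
        exact (hA2 β hβ).subset (fun n hn => ⟨hn.1.1, hn.2⟩)
      · have : (A ∩ S γ) \ S γ = ∅ := by
          ext n
          simp
        rw [this]
        exact finite_empty
    · have h' : (A \ S γ).Infinite := by
        rw [not_infinite] at h
        refine (hA1.sdiff h).mono (fun n hn => ⟨hn.1, fun hS => hn.2 ⟨hn.1, hS⟩⟩)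
      refine ⟨A \ S γ, ?_⟩
      simp only [Function.update_self]
      refine ⟨h', fun β hβ => ?_, Or.inr ?_⟩
      · rw [Function.update_of_ne hβ.ne]
        exact (hA2 β hβ).subset (fun n hn => ⟨hn.1.1, hn.2⟩)
      · have : (A \ S γ) ∩ S γ = ∅ := by
          ext n
          simp
        rw [this]
        exact finite_empty

theorem points [WellFoundedLT J] (hJ : ∀ γ : J, (Iio γ).Countable) (t : J → Set ℕ)
    (en : J → Set (List Bool) × List Bool × Bool) :
    ∃ x : J → X, ∀ γ, ((en γ).2.2 = true → Pfx (en γ).2.1 (x γ)) ∧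
      ((en γ).2.2 = false → Pfx (en γ).2.1 (sw (t γ) (x γ))) ∧
      (∀ β ≤ γ, Den (en β).1 → x γ ∈ G (en β).1 ∧ sw (t γ) (x γ) ∈ G (en β).1) ∧
      ∀ β < γ, ∃ k, x γ (2*k) ≠ x β (2*k) := by
  classical
  refine Conj.exists_rec (fun (x : J → X) γ => ((en γ).2.2 = true → Pfx (en γ).2.1 (x γ)) ∧
      ((en γ).2.2 = false → Pfx (en γ).2.1 (sw (t γ) (x γ))) ∧
      (∀ β ≤ γ, Den (en β).1 → x γ ∈ G (en β).1 ∧ sw (t γ) (x γ) ∈ G (en β).1) ∧
      ∀ β < γ, ∃ k, x γ (2*k) ≠ x β (2*k)) ?_ ?_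
  · rintro f f' γ hff ⟨h1, h2, h3, h4⟩
    rw [hff γ le_rfl] at h1 h2 h3 h4
    refine ⟨h1, h2, h3, fun β hβ => ?_⟩
    rw [← hff β hβ.le]
    exact h4 β hβ
  · intro x γ _
    have hc : {c | ∃ β ≤ γ, (en β).1 = c ∧ Den c}.Countable := by
      have h1 : (Iic γ).Countable := by
        have : Iic γ = insert γ (Iio γ) := by
          ext β
          simp [le_iff_eq_or_lt]
        rw [this]
        exact (hJ γ).insert γ
      refine (h1.image (fun β => (en β).1)).mono ?_
      rintro c ⟨β, hβ, rfl, -⟩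
      exact ⟨β, hβ, rfl⟩
    obtain ⟨z, hz1, hz2, hz3⟩ := step_pt (en γ).2.1 (t γ) hc (by
      rintro c ⟨β, hβ, -, h⟩
      exact h) ((hJ γ).image x)
    by_cases hb : (en γ).2.2 = true
    · refine ⟨z, ?_⟩
      simp only [Function.update_self]
      refine ⟨fun _ => hz1, fun h => by rw [hb] at h; exact absurd h (by simp),
        fun β hβ hd => hz2 _ ⟨β, hβ, rfl, hd⟩, fun β hβ => ?_⟩
      rw [Function.update_of_ne hβ.ne]
      exact hz3 _ ⟨β, hβ, rfl⟩
    · refine ⟨sw (t γ) z, ?_⟩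
      simp only [Function.update_self, sw_sw]
      refine ⟨fun h => absurd h hb, fun _ => hz1,
        fun β hβ hd => (hz2 _ ⟨β, hβ, rfl, hd⟩).symm, fun β hβ => ?_⟩
      rw [Function.update_of_ne hβ.ne]
      obtain ⟨k, hk⟩ := hz3 _ ⟨β, hβ, rfl⟩
      exact ⟨k, by rw [sw_even]; exact hk⟩

theorem luz_of (hJ : ∀ γ : J, (Iio γ).Countable) (en : J → Set (List Bool) × List Bool × Bool)
    (hen : Function.Surjective en) (w : J → X) (hinj : Function.Injective w) (b : Bool)
    (h1 : ∀ γ, (en γ).2.2 = b → Pfx (en γ).2.1 (w γ))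
    (h2 : ∀ γ, ∀ β ≤ γ, Den (en β).1 → w γ ∈ G (en β).1) : Luz (range w) := by
  constructor
  · intro N hN
    let c : Set (List Bool) := {τ | ∀ x, Pfx τ x → x ∉ N}
    obtain ⟨β, hβ⟩ := hen (c, [], true)
    have hc : Den (en β).1 := by
      rw [hβ]
      intro σ
      obtain ⟨τ, hτ1, hτ2⟩ := hN σ
      exact ⟨τ, hτ2, hτ1⟩
    refine ((hJ β).image w).mono ?_
    rintro _ ⟨⟨γ, rfl⟩, hγN⟩
    refine ⟨γ, ?_, rfl⟩
    by_contra hlt
    obtain ⟨τ, hτ1, hτ2⟩ := h2 γ β (not_lt.1 hlt) hc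
    rw [hβ] at hτ1
    exact hτ1 _ hτ2 hγN
  · intro σ hcount
    have h3 : (w '' {γ | (en γ).2 = (σ, b)}).Countable := by
      refine hcount.mono ?_
      rintro _ ⟨γ, hγ, rfl⟩
      have hγ' : (en γ).2 = (σ, b) := hγ
      refine ⟨⟨γ, rfl⟩, ?_⟩
      have h4 := h1 γ (by rw [hγ'])
      rw [hγ'] at h4
      exact h4
    have h4 : {γ | (en γ).2 = (σ, b)}.Countable :=
      countable_of_injective_of_countable_image hinj.injOn h3
    have h5 : (univ : Set (Set (List Bool))).Countable := by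
      refine (h4.image (fun γ => (en γ).1)).mono ?_
      rintro c -
      obtain ⟨γ, hγ⟩ := hen (c, σ, b)
      exact ⟨γ, by show (en γ).2 = _; rw [hγ], by show (en γ).1 = _; rw [hγ]⟩
    rw [countable_univ_iff, ← Cardinal.mk_le_aleph0_iff, Cardinal.mk_set,
      Cardinal.mk_eq_aleph0 (List Bool)] at h5
    exact absurd h5 (not_le.2 (Cardinal.cantor _))

end constr

end Pool.Agent.H15.Tau
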