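import Pool.Agent.H15.TauC

set_option autoImplicit false

/-!
Helper file for MP_f722f0_gt: the product.
-/

namespace Pool.Agent.H15.Tau

open Set
open Pool.Agent.H15.Dim (X Pfx pre pfx_pre pre_length isClopen_pfx extendByFalse pfx_extend)

/-- the members of the cover of the product -/
def V (n : ℕ) : Set (X × X) := {p | p.1 (2*n+1) ≠ p.2 (2*n+1) ∨ ∃ k, k ≤ n ∧ p.1 (2*k) ≠ p.2 (2*k)}

theorem isOpen_V (n : ℕ) : IsOpen (V n) := by
  have h1 : ∀ i : ℕ, IsOpen {p : X × X | p.1 i ≠ p.2 i} := fun i =>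
    isOpen_ne_fun ((continuous_apply i).comp continuous_fst)
      ((continuous_apply i).comp continuous_snd)
  have : V n = {p : X × X | p.1 (2*n+1) ≠ p.2 (2*n+1)} ∪
      ⋃ k, ⋃ _ : k ≤ n, {p : X × X | p.1 (2*k) ≠ p.2 (2*k)} := by
    ext p
    simp [V]
  rw [this]
  exact (h1 _).union (isOpen_iUnion (fun k => isOpen_iUnion (fun _ => h1 _)))

theorem neg_part {Y J : Type} [TopologicalSpace Y] [LinearOrder J] (t : J → Set ℕ) (x y : J → X)
    (j : Y → X × X) (hj : Continuous j) (hr : range j = range x ×ˢ range y)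
    (hx : Luz (range x)) (hy : Luz (range y))
    (ht1 : ∀ γ, (t γ).Infinite) (ht2 : ∀ γ, ∀ β < γ, (t γ \ t β).Finite)
    (ht3 : ∀ S : Set ℕ, ∃ γ, (t γ \ S).Finite ∨ (t γ ∩ S).Finite)
    (hodd : ∀ γ n, x γ (2*n+1) ≠ y γ (2*n+1) ↔ n ∈ t γ) (heven : ∀ γ k, x γ (2*k) = y γ (2*k))
    (hne : ∀ β γ, β ≠ γ → ∃ k, x β (2*k) ≠ x γ (2*k)) : ¬ SplitTT Y ∧ ¬ TauGamma Y := by
  classical
  have hjx : ∀ β γ, ∃ q : Y, j q = (x β, y γ) := by
    intro β γ
    have : (x β, y γ) ∈ range j := by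
      rw [hr]
      exact ⟨⟨β, rfl⟩, ⟨γ, rfl⟩⟩
    exact this
  have hdiag : ∀ γ n, (x γ, y γ) ∈ V n ↔ n ∈ t γ := by
    intro γ n
    rw [← hodd γ n]
    constructor
    · rintro (h | ⟨k, -, hk⟩)
      · exact h
      · exact absurd (heven γ k) hk
    · exact fun h => Or.inl h
  have hdich : ∀ q : Y, (∃ γ, j q = (x γ, y γ)) ∨ {n | j q ∉ V n}.Finite := by
    intro q
    have h1 : j q ∈ range x ×ˢ range y := by
      rw [← hr]
      exact ⟨q, rfl⟩
    obtain ⟨⟨β, hβ⟩, ⟨γ, hγ⟩⟩ := h1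
    by_cases hβγ : β = γ
    · subst hβγ
      exact Or.inl ⟨β, Prod.ext hβ.symm hγ.symm⟩
    · right
      obtain ⟨k, hk⟩ := hne β γ hβγ
      refine (finite_Iio k).subset ?_
      intro n hn
      by_contra hnk
      refine hn (Or.inr ⟨k, not_lt.1 hnk, ?_⟩)
      rw [← hβ, ← hγ, ← heven]
      exact hk
  let U : ℕ → Set Y := fun n => j ⁻¹' (V n)
  have hpt : ∀ σ τ : List Bool, ∃ q : Y, Pfx σ (j q).1 ∧ Pfx τ (j q).2 := by
    intro σ τ
    obtain ⟨_, ⟨β, rfl⟩, hβ, -⟩ := escape hx σ (fun _ : ℕ => (∅ : Set X))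
      (fun k q _ => ⟨q, List.prefix_rfl, fun x _ h => h⟩)
    obtain ⟨_, ⟨γ, rfl⟩, hγ, -⟩ := escape hy τ (fun _ : ℕ => (∅ : Set X))
      (fun k q _ => ⟨q, List.prefix_rfl, fun x _ h => h⟩)
    obtain ⟨q, hq⟩ := hjx β γ
    exact ⟨q, by rw [hq]; exact hβ, by rw [hq]; exact hγ⟩
  have hUlt : ∀ n m, n < m → U n ≠ U m := by
    intro n m hnm heq
    let z₀ : X := fun _ => false
    let z₁ : X := Function.update z₀ (2*m+1) true
    obtain ⟨q, hq1, hq2⟩ := hpt (pre z₀ (2*m+2)) (pre z₁ (2*m+2))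
    rw [pfx_pre_iff] at hq1 hq2
    have h1 : q ∈ U m := by
      refine Or.inl ?_
      rw [← hq1 (2*m+1) (by omega), ← hq2 (2*m+1) (by omega)]
      simp [z₀, z₁]
    rw [← heq] at h1
    rcases h1 with h | ⟨k, hk, h⟩
    · apply h
      rw [← hq1 (2*n+1) (by omega), ← hq2 (2*n+1) (by omega)]
      simp only [z₁]
      rw [Function.update_of_ne (by omega)]
    · apply h
      rw [← hq1 (2*k) (by omega), ← hq2 (2*k) (by omega)]
      simp only [z₁]
      rw [Function.update_of_ne (by omega)]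
  have hUinj : Function.Injective U := by
    intro n m hnm
    rcases lt_trichotomy n m with h | h | h
    · exact absurd hnm (hUlt n m h)
    · exact h
    · exact absurd hnm.symm (hUlt m n h)
  have hUuniv : ∀ n, U n ≠ univ := by
    intro n heq
    let z₀ : X := fun _ => false
    obtain ⟨q, hq1, hq2⟩ := hpt (pre z₀ (2*n+2)) (pre z₀ (2*n+2))
    rw [pfx_pre_iff] at hq1 hq2
    have h1 : q ∈ U n := by rw [heq]; exact mem_univ q
    rcases h1 with h | ⟨k, hk, h⟩
    · apply h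
      rw [← hq1 (2*n+1) (by omega), ← hq2 (2*n+1) (by omega)]
    · apply h
      rw [← hq1 (2*k) (by omega), ← hq2 (2*k) (by omega)]
  have hhinf : ∀ q : Y, {n | q ∈ U n}.Infinite := by
    intro q
    rcases hdich q with ⟨γ, hγ⟩ | hfin
    · refine (ht1 γ).mono ?_
      intro n hn
      show j q ∈ V n
      rw [hγ]
      exact (hdiag γ n).2 hn
    · intro h
      have h2 := h.union hfin
      refine infinite_univ (h2.subset ?_)
      intro n _
      by_cases hn : j q ∈ V n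
      · exact Or.inl hn
      · exact Or.inr hn
  have hcomp : ∀ p q : Y, {n | p ∈ U n ∧ q ∉ U n}.Finite ∨ {n | q ∈ U n ∧ p ∉ U n}.Finite := by
    intro p q
    rcases hdich q with ⟨γ, hγ⟩ | hfin
    · rcases hdich p with ⟨β, hβ⟩ | hfin
      · have hp : ∀ n, p ∈ U n ↔ n ∈ t β := by
          intro n
          rw [← hdiag β n, ← hβ]
          rfl
        have hq : ∀ n, q ∈ U n ↔ n ∈ t γ := by
          intro n
          rw [← hdiag γ n, ← hγ]
          rfl
        rcases lt_trichotomy β γ with h | h | h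
        · right
          refine (ht2 γ β h).subset ?_
          rintro n ⟨hn1, hn2⟩
          exact ⟨(hq n).1 hn1, fun hn => hn2 ((hp n).2 hn)⟩
        · left
          subst h
          refine finite_empty.subset ?_
          rintro n ⟨hn1, hn2⟩
          exact hn2 ((hq n).2 ((hp n).1 hn1))
        · left
          refine (ht2 β γ h).subset ?_
          rintro n ⟨hn1, hn2⟩
          exact ⟨(hp n).1 hn1, fun hn => hn2 ((hq n).2 hn)⟩
      · exact Or.inr (hfin.subset (fun n hn => hn.2))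
    · exact Or.inl (hfin.subset (fun n hn => hn.2))
  have htau : TauCov Y (range U) := by
    refine ⟨⟨?_, ?_, ?_⟩, ?_, ?_⟩
    · rintro _ ⟨n, rfl⟩
      exact (isOpen_V n).preimage hj
    · refine eq_univ_of_forall (fun q => ?_)
      obtain ⟨n, hn⟩ := (hhinf q).nonempty
      exact ⟨U n, ⟨n, rfl⟩, hn⟩
    · rintro ⟨n, hn⟩
      exact hUuniv n hn
    · intro q
      refine ((hhinf q).image hUinj.injOn).mono ?_
      rintro _ ⟨n, hn, rfl⟩
      exact ⟨⟨n, rfl⟩, hn⟩
    · intro p q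
      rcases hcomp p q with h | h
      · left
        refine (h.image U).subset ?_
        rintro _ ⟨⟨n, rfl⟩, hn⟩
        exact ⟨n, hn, rfl⟩
      · right
        refine (h.image U).subset ?_
        rintro _ ⟨⟨n, rfl⟩, hn⟩
        exact ⟨n, hn, rfl⟩
  constructor
  · intro hS
    obtain ⟨𝒱, 𝒲, hu, hd, ⟨𝒱', hV1, hV2⟩, ⟨𝒲', hW1, hW2⟩⟩ := hS _ htau
    obtain ⟨γ, hγ⟩ := ht3 {n | U n ∈ 𝒱}
    obtain ⟨q, hq⟩ := hjx γ γ
    have hqU : ∀ n, q ∈ U n → n ∈ t γ := by
      intro n hn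
      rw [← hdiag γ n, ← hq]
      exact hn
    rcases hγ with hγ | hγ
    · refine hW2.2.1 q ((hγ.image U).subset ?_)
      rintro W ⟨hW, hqW⟩
      have hWr : W ∈ range U := by
        rw [← hu]
        exact Or.inr (hW1 hW)
      obtain ⟨n, rfl⟩ := hWr
      exact ⟨n, ⟨hqU n hqW, fun hn => Set.disjoint_left.1 hd hn (hW1 hW)⟩, rfl⟩
    · refine hV2.2.1 q ((hγ.image U).subset ?_)
      rintro W ⟨hW, hqW⟩
      have hWr : W ∈ range U := by
        rw [← hu]
        exact Or.inl (hV1 hW)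
      obtain ⟨n, rfl⟩ := hWr
      exact ⟨n, ⟨hqU n hqW, hV1 hW⟩, rfl⟩
  · intro hT
    obtain ⟨𝒱, hV, hG⟩ := hT _ htau
    let A : Set ℕ := {n | U n ∈ 𝒱}
    have hA : A.Infinite := by
      intro h
      refine hG.2.1 ((h.image U).subset ?_)
      intro W hW
      obtain ⟨n, rfl⟩ := hV hW
      exact ⟨n, hW, rfl⟩
    have hAt : ∀ γ, (A \ t γ).Finite := by
      intro γ
      obtain ⟨q, hq⟩ := hjx γ γ
      refine ((hG.2.2 q).preimage (f := U) hUinj.injOn).subset ?_
      rintro n ⟨hn1, hn2⟩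
      refine ⟨hn1, fun hn => hn2 ?_⟩
      rw [← hdiag γ n, ← hq]
      exact hn
    obtain ⟨A₁, A₂, h1, h2, h3, h4, h5⟩ := split_set hA
    obtain ⟨γ, hγ⟩ := ht3 A₁
    rcases hγ with hγ | hγ
    · refine h4 ((hγ.union (hAt γ)).subset ?_)
      intro n hn
      by_cases hnt : n ∈ t γ
      · exact Or.inl ⟨hnt, fun hn1 => Set.disjoint_left.1 h5 hn1 hn⟩
      · exact Or.inr ⟨h2 hn, hnt⟩
    · refine h3 ((hγ.union (hAt γ)).subset ?_)
      intro n hn
      by_cases hnt : n ∈ t γ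
      · exact Or.inl ⟨hnt, hn⟩
      · exact Or.inr ⟨h1 hn, hnt⟩

theorem card_en : Cardinal.mk (Set (List Bool) × List Bool × Bool) ≤ Cardinal.continuum := by
  have h2 : Cardinal.mk (Set (List Bool)) ≤ Cardinal.continuum := by
    rw [Cardinal.mk_set, Cardinal.mk_eq_aleph0 (List Bool), Cardinal.two_power_aleph0]
  have h3 : Cardinal.mk (List Bool × Bool) ≤ Cardinal.continuum :=
    (Cardinal.mk_le_aleph0_iff.2 inferInstance).trans Cardinal.aleph0_le_continuum
  rw [Cardinal.mk_prod, Cardinal.lift_id, Cardinal.lift_id]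
  calc _ ≤ Cardinal.continuum * Cardinal.continuum := mul_le_mul' h2 h3
    _ = Cardinal.continuum := Cardinal.continuum_mul_self

theorem final (CH : Cardinal.continuum.{0} = Cardinal.aleph.{0} 1) :
    ∃ X₁ X₂ : Set ℝ, (SplitTT X₁ ∧ TauGamma X₁) ∧ (SplitTT X₂ ∧ TauGamma X₂) ∧
      ¬ SplitTT (X₁ ×ˢ X₂ : Set (ℝ × ℝ)) ∧ ¬ TauGamma (X₁ ×ˢ X₂ : Set (ℝ × ℝ)) := by
  classical
  let J : Type := (Cardinal.aleph.{0} 1).ord.ToType
  have hJ : Cardinal.mk J = Cardinal.continuum := by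
    show Cardinal.mk (Cardinal.aleph.{0} 1).ord.ToType = _
    rw [Cardinal.mk_ord_toType, ← CH]
  have hcount : ∀ γ : J, (Iio γ).Countable := fun γ => by
    rw [Cardinal.countable_iff_lt_aleph_one]
    have := Cardinal.mk_Iio_toType_ord_lt (c := Cardinal.aleph.{0} 1) γ
    exact this
  have hne : Nonempty (Set (List Bool) × List Bool × Bool) := ⟨(∅, [], true)⟩
  obtain ⟨e⟩ : Nonempty ((Set (List Bool) × List Bool × Bool) ↪ J) := by
    rw [← Cardinal.le_def, hJ]
    exact card_en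
  obtain ⟨e'⟩ : Nonempty (Set ℕ ↪ J) := by
    rw [← Cardinal.le_def, hJ, Cardinal.mk_set, Cardinal.mk_nat, Cardinal.two_power_aleph0]
  let en := Function.invFun e
  have hen : Function.Surjective en := Function.invFun_surjective e.injective
  let S := Function.invFun e'
  have hS : Function.Surjective S := Function.invFun_surjective e'.injective
  obtain ⟨t, ht⟩ := tower hcount S
  obtain ⟨x, hx⟩ := points hcount t en
  let y : J → X := fun γ => sw (t γ) (x γ)
  have hne : ∀ β γ, β ≠ γ → ∃ k, x β (2*k) ≠ x γ (2*k) := by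
    intro β γ hβγ
    rcases lt_or_gt_of_ne hβγ with h | h
    · obtain ⟨k, hk⟩ := (hx γ).2.2.2 β h
      exact ⟨k, hk.symm⟩
    · exact (hx β).2.2.2 γ h
  have hxinj : Function.Injective x := by
    intro β γ h
    by_contra hβγ
    obtain ⟨k, hk⟩ := hne β γ hβγ
    exact hk (by rw [h])
  have hyinj : Function.Injective y := by
    intro β γ h
    by_contra hβγ
    obtain ⟨k, hk⟩ := hne β γ hβγ
    apply hk
    rw [← sw_even (t β) (x β) k, ← sw_even (t γ) (x γ) k]
    exact congrFun h (2*k)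
  have hL₁ : Luz (range x) := luz_of hcount en hen x hxinj true (fun γ => (hx γ).1)
    (fun γ β hβ hd => ((hx γ).2.2.1 β hβ hd).1)
  have hL₂ : Luz (range y) := luz_of hcount en hen y hyinj false (fun γ => (hx γ).2.1)
    (fun γ β hβ hd => ((hx γ).2.2.1 β hβ hd).2)
  let ε : X → ℝ := fun z => (cantorSetHomeomorphNatToBool.symm z : ℝ)
  have hε : Topology.IsEmbedding ε :=
    Topology.IsEmbedding.subtypeVal.comp cantorSetHomeomorphNatToBool.symm.isEmbedding
  let j₁ : (ε '' range x) → X := fun z => ((hε.homeomorphImage (range x)).symm z : X)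
  let j₂ : (ε '' range y) → X := fun z => ((hε.homeomorphImage (range y)).symm z : X)
  have hj₁ : Topology.IsInducing j₁ :=
    (Topology.IsEmbedding.subtypeVal.comp (hε.homeomorphImage (range x)).symm.isEmbedding).isInducing
  have hj₂ : Topology.IsInducing j₂ :=
    (Topology.IsEmbedding.subtypeVal.comp (hε.homeomorphImage (range y)).symm.isEmbedding).isInducing
  have hr₁ : range j₁ = range x := by
    have : j₁ = Subtype.val ∘ (hε.homeomorphImage (range x)).symm := rfl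
    rw [this, range_comp, (hε.homeomorphImage (range x)).symm.surjective.range_eq, image_univ,
      Subtype.range_val]
  have hr₂ : range j₂ = range y := by
    have : j₂ = Subtype.val ∘ (hε.homeomorphImage (range y)).symm := rfl
    rw [this, range_comp, (hε.homeomorphImage (range y)).symm.surjective.range_eq, image_univ,
      Subtype.range_val]
  have hL₁' : Luz (range j₁) := by rw [hr₁]; exact hL₁
  have hL₂' : Luz (range j₂) := by rw [hr₂]; exact hL₂
  refine ⟨ε '' range x, ε '' range y, ⟨pos_split hj₁ hL₁', pos_tg hj₁ hL₁'⟩,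
    ⟨pos_split hj₂ hL₂', pos_tg hj₂ hL₂'⟩, ?_⟩
  refine neg_part (J := J) t x y
    (fun q : ↥((ε '' range x) ×ˢ (ε '' range y)) => (j₁ ⟨q.1.1, q.2.1⟩, j₂ ⟨q.1.2, q.2.2⟩)) ?_ ?_
    hL₁ hL₂ (fun γ => (ht γ).1) (fun γ => (ht γ).2.1) ?_ ?_ ?_ hne
  · refine (hj₁.continuous.comp ?_).prodMk (hj₂.continuous.comp ?_)
    · exact (continuous_fst.comp continuous_subtype_val).subtype_mk _
    · exact (continuous_snd.comp continuous_subtype_val).subtype_mk _
  · ext ⟨a, b⟩
    constructor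
    · rintro ⟨q, hq⟩
      rw [Prod.mk.injEq] at hq
      refine ⟨?_, ?_⟩
      · show a ∈ range x
        rw [← hr₁]
        exact ⟨_, hq.1⟩
      · show b ∈ range y
        rw [← hr₂]
        exact ⟨_, hq.2⟩
    · rintro ⟨ha, hb⟩
      have ha' : a ∈ range j₁ := by rw [hr₁]; exact ha
      have hb' : b ∈ range j₂ := by rw [hr₂]; exact hb
      obtain ⟨u, rfl⟩ := ha'
      obtain ⟨v, rfl⟩ := hb'
      exact ⟨⟨(u.1, v.1), u.2, v.2⟩, rfl⟩
  · intro A
    obtain ⟨γ, hγ⟩ := hS A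
    have h := (ht γ).2.2
    rw [hγ] at h
    exact ⟨γ, h⟩
  · exact fun γ n => sw_odd (t γ) (x γ) n
  · exact fun γ k => (sw_even (t γ) (x γ) k).symm

end Pool.Agent.H15.Tau
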