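import Pool.Agent.H15.TauD

set_option autoImplicit false

/-!
Helper file for MP_bc74b8_gt: the square of a single set of reals.
-/

namespace Pool.Agent.H15.Tau

open Set
open Pool.Agent.H15.Dim (X Pfx pre pfx_pre pre_length isClopen_pfx extendByFalse pfx_extend)

theorem neg_part2 {Y J : Type} [TopologicalSpace Y] [LinearOrder J] (t : J → Set ℕ) (x y : J → X)
    (j : Y → X × X) (hj : Continuous j) (hjx : ∀ β γ, ∃ q : Y, j q = (x β, y γ))
    (hr : ∀ q : Y, j q ∈ range x ×ˢ range y ∨ ∃ k, (j q).1 (2*k) ≠ (j q).2 (2*k))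
    (hx : Luz (range x)) (hy : Luz (range y))
    (ht1 : ∀ γ, (t γ).Infinite) (ht2 : ∀ γ, ∀ β < γ, (t γ \ t β).Finite)
    (ht3 : ∀ S : Set ℕ, ∃ γ, (t γ \ S).Finite ∨ (t γ ∩ S).Finite)
    (hodd : ∀ γ n, x γ (2*n+1) ≠ y γ (2*n+1) ↔ n ∈ t γ) (heven : ∀ γ k, x γ (2*k) = y γ (2*k))
    (hne : ∀ β γ, β ≠ γ → ∃ k, x β (2*k) ≠ x γ (2*k)) : ¬ SplitTT Y ∧ ¬ TauGamma Y := by
  classical
  have hdiag : ∀ γ n, (x γ, y γ) ∈ V n ↔ n ∈ t γ := by
    intro γ n
    rw [← hodd γ n]
    constructor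
    · rintro (h | ⟨k, -, hk⟩)
      · exact h
      · exact absurd (heven γ k) hk
    · exact fun h => Or.inl h
  have hdich : ∀ q : Y, (∃ γ, j q = (x γ, y γ)) ∨ {n | j q ∉ V n}.Finite := by
    intro q
    rcases hr q with h1 | ⟨k, hk⟩
    swap
    · right
      refine (finite_Iio k).subset ?_
      intro n hn
      by_contra hnk
      exact hn (Or.inr ⟨k, not_lt.1 hnk, hk⟩)
    obtain ⟨⟨β, hβ⟩, ⟨γ, hγ⟩⟩ := h1
    by_cases hβγ : β = γ
    · subst hβγ
      exact Or.inl ⟨β, Prod.ext hβ.symm hγ.symm⟩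
    · right
      obtain ⟨k, hk⟩ := hne β γ hβγ
      refine (finite_Iio k).subset ?_
      intro n hn
      by_contra hnk
      refine hn (Or.inr ⟨k, not_lt.1 hnk, ?_⟩)
      rw [← hβ, ← hγ, ← heven]
      exact hk
  let U : ℕ → Set Y := fun n => j ⁻¹' (V n)
  have hpt : ∀ σ τ : List Bool, ∃ q : Y, Pfx σ (j q).1 ∧ Pfx τ (j q).2 := by
    intro σ τ
    obtain ⟨_, ⟨β, rfl⟩, hβ, -⟩ := escape hx σ (fun _ : ℕ => (∅ : Set X))
      (fun k q _ => ⟨q, List.prefix_rfl, fun x _ h => h⟩)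
    obtain ⟨_, ⟨γ, rfl⟩, hγ, -⟩ := escape hy τ (fun _ : ℕ => (∅ : Set X))
      (fun k q _ => ⟨q, List.prefix_rfl, fun x _ h => h⟩)
    obtain ⟨q, hq⟩ := hjx β γ
    exact ⟨q, by rw [hq]; exact hβ, by rw [hq]; exact hγ⟩
  have hUlt : ∀ n m, n < m → U n ≠ U m := by
    intro n m hnm heq
    let z₀ : X := fun _ => false
    let z₁ : X := Function.update z₀ (2*m+1) true
    obtain ⟨q, hq1, hq2⟩ := hpt (pre z₀ (2*m+2)) (pre z₁ (2*m+2))
    rw [pfx_pre_iff] at hq1 hq2
    have h1 : q ∈ U m := by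
      refine Or.inl ?_
      rw [← hq1 (2*m+1) (by omega), ← hq2 (2*m+1) (by omega)]
      simp [z₀, z₁]
    rw [← heq] at h1
    rcases h1 with h | ⟨k, hk, h⟩
    · apply h
      rw [← hq1 (2*n+1) (by omega), ← hq2 (2*n+1) (by omega)]
      simp only [z₁]
      rw [Function.update_of_ne (by omega)]
    · apply h
      rw [← hq1 (2*k) (by omega), ← hq2 (2*k) (by omega)]
      simp only [z₁]
      rw [Function.update_of_ne (by omega)]
  have hUinj : Function.Injective U := by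
    intro n m hnm
    rcases lt_trichotomy n m with h | h | h
    · exact absurd hnm (hUlt n m h)
    · exact h
    · exact absurd hnm.symm (hUlt m n h)
  have hUuniv : ∀ n, U n ≠ univ := by
    intro n heq
    let z₀ : X := fun _ => false
    obtain ⟨q, hq1, hq2⟩ := hpt (pre z₀ (2*n+2)) (pre z₀ (2*n+2))
    rw [pfx_pre_iff] at hq1 hq2
    have h1 : q ∈ U n := by rw [heq]; exact mem_univ q
    rcases h1 with h | ⟨k, hk, h⟩
    · apply h
      rw [← hq1 (2*n+1) (by omega), ← hq2 (2*n+1) (by omega)]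
    · apply h
      rw [← hq1 (2*k) (by omega), ← hq2 (2*k) (by omega)]
  have hhinf : ∀ q : Y, {n | q ∈ U n}.Infinite := by
    intro q
    rcases hdich q with ⟨γ, hγ⟩ | hfin
    · refine (ht1 γ).mono ?_
      intro n hn
      show j q ∈ V n
      rw [hγ]
      exact (hdiag γ n).2 hn
    · intro h
      have h2 := h.union hfin
      refine infinite_univ (h2.subset ?_)
      intro n _
      by_cases hn : j q ∈ V n
      · exact Or.inl hn
      · exact Or.inr hn
  have hcomp : ∀ p q : Y, {n | p ∈ U n ∧ q ∉ U n}.Finite ∨ {n | q ∈ U n ∧ p ∉ U n}.Finite := by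
    intro p q
    rcases hdich q with ⟨γ, hγ⟩ | hfin
    · rcases hdich p with ⟨β, hβ⟩ | hfin
      · have hp : ∀ n, p ∈ U n ↔ n ∈ t β := by
          intro n
          rw [← hdiag β n, ← hβ]
          rfl
        have hq : ∀ n, q ∈ U n ↔ n ∈ t γ := by
          intro n
          rw [← hdiag γ n, ← hγ]
          rfl
        rcases lt_trichotomy β γ with h | h | h
        · right
          refine (ht2 γ β h).subset ?_
          rintro n ⟨hn1, hn2⟩
          exact ⟨(hq n).1 hn1, fun hn => hn2 ((hp n).2 hn)⟩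
        · left
          subst h
          refine finite_empty.subset ?_
          rintro n ⟨hn1, hn2⟩
          exact hn2 ((hq n).2 ((hp n).1 hn1))
        · left
          refine (ht2 β γ h).subset ?_
          rintro n ⟨hn1, hn2⟩
          exact ⟨(hp n).1 hn1, fun hn => hn2 ((hq n).2 hn)⟩
      · exact Or.inr (hfin.subset (fun n hn => hn.2))
    · exact Or.inl (hfin.subset (fun n hn => hn.2))
  have htau : TauCov Y (range U) := by
    refine ⟨⟨?_, ?_, ?_⟩, ?_, ?_⟩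
    · rintro _ ⟨n, rfl⟩
      exact (isOpen_V n).preimage hj
    · refine eq_univ_of_forall (fun q => ?_)
      obtain ⟨n, hn⟩ := (hhinf q).nonempty
      exact ⟨U n, ⟨n, rfl⟩, hn⟩
    · rintro ⟨n, hn⟩
      exact hUuniv n hn
    · intro q
      refine ((hhinf q).image hUinj.injOn).mono ?_
      rintro _ ⟨n, hn, rfl⟩
      exact ⟨⟨n, rfl⟩, hn⟩
    · intro p q
      rcases hcomp p q with h | h
      · left
        refine (h.image U).subset ?_
        rintro _ ⟨⟨n, rfl⟩, hn⟩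
        exact ⟨n, hn, rfl⟩
      · right
        refine (h.image U).subset ?_
        rintro _ ⟨⟨n, rfl⟩, hn⟩
        exact ⟨n, hn, rfl⟩
  constructor
  · intro hS
    obtain ⟨𝒱, 𝒲, hu, hd, ⟨𝒱', hV1, hV2⟩, ⟨𝒲', hW1, hW2⟩⟩ := hS _ htau
    obtain ⟨γ, hγ⟩ := ht3 {n | U n ∈ 𝒱}
    obtain ⟨q, hq⟩ := hjx γ γ
    have hqU : ∀ n, q ∈ U n → n ∈ t γ := by
      intro n hn
      rw [← hdiag γ n, ← hq]
      exact hn
    rcases hγ with hγ | hγ
    · refine hW2.2.1 q ((hγ.image U).subset ?_)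
      rintro W ⟨hW, hqW⟩
      have hWr : W ∈ range U := by
        rw [← hu]
        exact Or.inr (hW1 hW)
      obtain ⟨n, rfl⟩ := hWr
      exact ⟨n, ⟨hqU n hqW, fun hn => Set.disjoint_left.1 hd hn (hW1 hW)⟩, rfl⟩
    · refine hV2.2.1 q ((hγ.image U).subset ?_)
      rintro W ⟨hW, hqW⟩
      have hWr : W ∈ range U := by
        rw [← hu]
        exact Or.inl (hV1 hW)
      obtain ⟨n, rfl⟩ := hWr
      exact ⟨n, ⟨hqU n hqW, hV1 hW⟩, rfl⟩
  · intro hT
    obtain ⟨𝒱, hV, hG⟩ := hT _ htau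
    let A : Set ℕ := {n | U n ∈ 𝒱}
    have hA : A.Infinite := by
      intro h
      refine hG.2.1 ((h.image U).subset ?_)
      intro W hW
      obtain ⟨n, rfl⟩ := hV hW
      exact ⟨n, hW, rfl⟩
    have hAt : ∀ γ, (A \ t γ).Finite := by
      intro γ
      obtain ⟨q, hq⟩ := hjx γ γ
      refine ((hG.2.2 q).preimage (f := U) hUinj.injOn).subset ?_
      rintro n ⟨hn1, hn2⟩
      refine ⟨hn1, fun hn => hn2 ?_⟩
      rw [← hdiag γ n, ← hq]
      exact hn
    obtain ⟨A₁, A₂, h1, h2, h3, h4, h5⟩ := split_set hA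
    obtain ⟨γ, hγ⟩ := ht3 A₁
    rcases hγ with hγ | hγ
    · refine h4 ((hγ.union (hAt γ)).subset ?_)
      intro n hn
      by_cases hnt : n ∈ t γ
      · exact Or.inl ⟨hnt, fun hn1 => Set.disjoint_left.1 h5 hn1 hn⟩
      · exact Or.inr ⟨h2 hn, hnt⟩
    · refine h3 ((hγ.union (hAt γ)).subset ?_)
      intro n hn
      by_cases hnt : n ∈ t γ
      · exact Or.inl ⟨hnt, hn⟩
      · exact Or.inr ⟨h1 hn, hnt⟩


def cons (b : Bool) (x : X) : X := fun i => Nat.casesOn i b x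

theorem cons_inj (b : Bool) : Function.Injective (cons b) := by
  intro x y h
  funext i
  exact congrFun h (i+1)

theorem pfx_cons {b : Bool} {σ : List Bool} {x : X} (h : Pfx σ x) : Pfx (b :: σ) (cons b x) := by
  intro i hi
  rcases i with _ | i
  · rfl
  · exact h i (by simpa using hi)

theorem luz_union {L₁ L₂ : Set X} (h₁ : Luz L₁) (h₂ : Luz L₂) :
    Luz (cons false '' L₁ ∪ cons true '' L₂) := by
  constructor
  · intro N hN
    have hb : ∀ b, ND {x | cons b x ∈ N} := by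
      intro b σ
      obtain ⟨τ, ⟨r, rfl⟩, hτ⟩ := hN (b :: σ)
      exact ⟨σ ++ r, List.prefix_append _ _, fun x hx hxN => hτ _ (pfx_cons hx) hxN⟩
    refine (((h₁.1 _ (hb false)).image (cons false)).union
      ((h₂.1 _ (hb true)).image (cons true))).mono ?_
    rintro _ ⟨⟨x, hx, rfl⟩ | ⟨x, hx, rfl⟩, hN'⟩
    · exact Or.inl ⟨x, ⟨hx, hN'⟩, rfl⟩
    · exact Or.inr ⟨x, ⟨hx, hN'⟩, rfl⟩
  · intro σ hc
    have hfalse : ∀ σ' : List Bool, (∀ x, Pfx σ' x → Pfx σ (cons false x)) → False := by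
      intro σ' h
      refine h₁.2 σ' ?_
      have h3 : (cons false '' (L₁ ∩ {x | Pfx σ' x})).Countable := by
        refine hc.mono ?_
        rintro _ ⟨x, ⟨hx1, hx2⟩, rfl⟩
        exact ⟨Or.inl ⟨x, hx1, rfl⟩, h x hx2⟩
      exact countable_of_injective_of_countable_image (cons_inj false).injOn h3
    have htrue : ∀ σ' : List Bool, (∀ x, Pfx σ' x → Pfx σ (cons true x)) → False := by
      intro σ' h
      refine h₂.2 σ' ?_
      have h3 : (cons true '' (L₂ ∩ {x | Pfx σ' x})).Countable := by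
        refine hc.mono ?_
        rintro _ ⟨x, ⟨hx1, hx2⟩, rfl⟩
        exact ⟨Or.inr ⟨x, hx1, rfl⟩, h x hx2⟩
      exact countable_of_injective_of_countable_image (cons_inj true).injOn h3
    rcases σ with _ | ⟨b, σ⟩
    · exact hfalse [] (fun x _ i hi => absurd hi (by simp))
    · cases b
      · exact hfalse σ (fun x hx => pfx_cons hx)
      · exact htrue σ (fun x hx => pfx_cons hx)

/-- the map extracting the mixed pairs -/
def mix (p : X × X) : X × X :=
  (fun i => (!(p.1 0) && p.2 0) && p.1 (i+1), fun i => !(!(p.1 0) && p.2 0) || p.2 (i+1))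

theorem continuous_mix : Continuous mix := by
  have h1 : ∀ i, Continuous (fun p : X × X => p.1 i) := fun i =>
    (continuous_apply i).comp continuous_fst
  have h2 : ∀ i, Continuous (fun p : X × X => p.2 i) := fun i =>
    (continuous_apply i).comp continuous_snd
  refine Continuous.prodMk (continuous_pi (fun i => ?_)) (continuous_pi (fun i => ?_))
  · exact (continuous_of_discreteTopology
      (f := fun q : Bool × Bool × Bool => (!q.1 && q.2.1) && q.2.2)).comp
      ((h1 0).prodMk ((h2 0).prodMk (h1 (i+1))))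
  · exact (continuous_of_discreteTopology
      (f := fun q : Bool × Bool × Bool => !(!q.1 && q.2.1) || q.2.2)).comp
      ((h1 0).prodMk ((h2 0).prodMk (h2 (i+1))))

theorem mix_cons (x y : X) : mix (cons false x, cons true y) = (x, y) := by
  refine Prod.ext ?_ ?_
  · funext i
    simp [mix, cons]
  · funext i
    simp [mix, cons]

theorem final2 (CH : Cardinal.continuum.{0} = Cardinal.aleph.{0} 1) :
    ∃ A : Set ℝ, SplitTT A ∧ TauGamma A ∧
      ¬ SplitTT (A ×ˢ A : Set (ℝ × ℝ)) ∧ ¬ TauGamma (A ×ˢ A : Set (ℝ × ℝ)) := by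
  classical
  let J : Type := (Cardinal.aleph.{0} 1).ord.ToType
  have hJ : Cardinal.mk J = Cardinal.continuum := by
    show Cardinal.mk (Cardinal.aleph.{0} 1).ord.ToType = _
    rw [Cardinal.mk_ord_toType, ← CH]
  have hcount : ∀ γ : J, (Iio γ).Countable := fun γ => by
    rw [Cardinal.countable_iff_lt_aleph_one]
    have := Cardinal.mk_Iio_toType_ord_lt (c := Cardinal.aleph.{0} 1) γ
    exact this
  have hne : Nonempty (Set (List Bool) × List Bool × Bool) := ⟨(∅, [], true)⟩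
  obtain ⟨e⟩ : Nonempty ((Set (List Bool) × List Bool × Bool) ↪ J) := by
    rw [← Cardinal.le_def, hJ]
    exact card_en
  obtain ⟨e'⟩ : Nonempty (Set ℕ ↪ J) := by
    rw [← Cardinal.le_def, hJ, Cardinal.mk_set, Cardinal.mk_nat, Cardinal.two_power_aleph0]
  let en := Function.invFun e
  have hen : Function.Surjective en := Function.invFun_surjective e.injective
  let S := Function.invFun e'
  have hS : Function.Surjective S := Function.invFun_surjective e'.injective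
  obtain ⟨t, ht⟩ := tower hcount S
  obtain ⟨x, hx⟩ := points hcount t en
  let y : J → X := fun γ => sw (t γ) (x γ)
  have hne : ∀ β γ, β ≠ γ → ∃ k, x β (2*k) ≠ x γ (2*k) := by
    intro β γ hβγ
    rcases lt_or_gt_of_ne hβγ with h | h
    · obtain ⟨k, hk⟩ := (hx γ).2.2.2 β h
      exact ⟨k, hk.symm⟩
    · exact (hx β).2.2.2 γ h
  have hxinj : Function.Injective x := by
    intro β γ h
    by_contra hβγ
    obtain ⟨k, hk⟩ := hne β γ hβγ
    exact hk (by rw [h])
  have hyinj : Function.Injective y := by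
    intro β γ h
    by_contra hβγ
    obtain ⟨k, hk⟩ := hne β γ hβγ
    apply hk
    rw [← sw_even (t β) (x β) k, ← sw_even (t γ) (x γ) k]
    exact congrFun h (2*k)
  have hL₁ : Luz (range x) := luz_of hcount en hen x hxinj true (fun γ => (hx γ).1)
    (fun γ β hβ hd => ((hx γ).2.2.1 β hβ hd).1)
  have hL₂ : Luz (range y) := luz_of hcount en hen y hyinj false (fun γ => (hx γ).2.1)
    (fun γ β hβ hd => ((hx γ).2.2.1 β hβ hd).2)
  let ε : X → ℝ := fun z => (cantorSetHomeomorphNatToBool.symm z : ℝ)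
  have hε : Topology.IsEmbedding ε :=
    Topology.IsEmbedding.subtypeVal.comp cantorSetHomeomorphNatToBool.symm.isEmbedding
  let L : Set X := cons false '' range x ∪ cons true '' range y
  have hL : Luz L := luz_union hL₁ hL₂
  let j₁ : (ε '' L) → X := fun z => ((hε.homeomorphImage L).symm z : X)
  have hj₁ : Topology.IsInducing j₁ :=
    (Topology.IsEmbedding.subtypeVal.comp (hε.homeomorphImage L).symm.isEmbedding).isInducing
  have hr₁ : range j₁ = L := by
    have : j₁ = Subtype.val ∘ (hε.homeomorphImage L).symm := rfl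
    rw [this, range_comp, (hε.homeomorphImage L).symm.surjective.range_eq, image_univ,
      Subtype.range_val]
  have hL' : Luz (range j₁) := by rw [hr₁]; exact hL
  refine ⟨ε '' L, pos_split hj₁ hL', pos_tg hj₁ hL', ?_⟩
  refine neg_part2 (J := J) t x y
    (fun q : ↥((ε '' L) ×ˢ (ε '' L)) => mix (j₁ ⟨q.1.1, q.2.1⟩, j₁ ⟨q.1.2, q.2.2⟩)) ?_ ?_ ?_
    hL₁ hL₂ (fun γ => (ht γ).1) (fun γ => (ht γ).2.1) ?_ ?_ ?_ hne
  · refine continuous_mix.comp ((hj₁.continuous.comp ?_).prodMk (hj₁.continuous.comp ?_))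
    · exact (continuous_fst.comp continuous_subtype_val).subtype_mk _
    · exact (continuous_snd.comp continuous_subtype_val).subtype_mk _
  · intro β γ
    have ha' : cons false (x β) ∈ range j₁ := by rw [hr₁]; exact Or.inl ⟨_, ⟨β, rfl⟩, rfl⟩
    have hb' : cons true (y γ) ∈ range j₁ := by rw [hr₁]; exact Or.inr ⟨_, ⟨γ, rfl⟩, rfl⟩
    obtain ⟨u, hu⟩ := ha'
    obtain ⟨v, hv⟩ := hb'
    refine ⟨⟨(u.1, v.1), u.2, v.2⟩, ?_⟩
    show mix (j₁ u, j₁ v) = _
    rw [hu, hv, mix_cons]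
  · intro q
    show mix (j₁ ⟨q.1.1, q.2.1⟩, j₁ ⟨q.1.2, q.2.2⟩) ∈ range x ×ˢ range y ∨
      ∃ k, (mix (j₁ ⟨q.1.1, q.2.1⟩, j₁ ⟨q.1.2, q.2.2⟩)).1 (2*k) ≠
        (mix (j₁ ⟨q.1.1, q.2.1⟩, j₁ ⟨q.1.2, q.2.2⟩)).2 (2*k)
    have hu : j₁ ⟨q.1.1, q.2.1⟩ ∈ L := hr₁.subset ⟨_, rfl⟩
    have hv : j₁ ⟨q.1.2, q.2.2⟩ ∈ L := hr₁.subset ⟨_, rfl⟩
    generalize j₁ ⟨q.1.1, q.2.1⟩ = u at hu ⊢
    generalize j₁ ⟨q.1.2, q.2.2⟩ = v at hv ⊢
    rcases hu with ⟨_, ⟨β, rfl⟩, rfl⟩ | ⟨_, ⟨β, rfl⟩, rfl⟩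
    · rcases hv with ⟨_, ⟨γ, rfl⟩, rfl⟩ | ⟨_, ⟨γ, rfl⟩, rfl⟩
      · right
        exact ⟨0, by simp [mix, cons]⟩
      · left
        rw [mix_cons]
        exact ⟨⟨β, rfl⟩, ⟨γ, rfl⟩⟩
    · right
      exact ⟨0, by simp [mix, cons]⟩
  · intro A
    obtain ⟨γ, hγ⟩ := hS A
    have h := (ht γ).2.2
    rw [hγ] at h
    exact ⟨γ, h⟩
  · exact fun γ n => sw_odd (t γ) (x γ) n
  · exact fun γ k => (sw_even (t γ) (x γ) k).symm

end Pool.Agent.H15.Tau
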