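import Mathlib

set_option autoImplicit false

namespace Pool.Agent.H15.TwoTrans

open MvPolynomial

/-- the field `ℚ(x_i : i ∈ ℚ)` -/
abbrev KK : Type := FractionRing (MvPolynomial ℚ ℚ)

noncomputable def x (i : ℚ) : KK := algebraMap (MvPolynomial ℚ ℚ) KK (X i)

theorem x_ind : AlgebraicIndependent ℚ x := by
  have h := (MvPolynomial.algebraicIndependent_X ℚ ℚ).map'
    (f := IsScalarTower.toAlgHom ℚ (MvPolynomial ℚ ℚ) KK) (IsFractionRing.injective _ _)
  exact h

theorem x_ne (i : ℚ) : x i ≠ 0 := x_ind.ne_zero i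

theorem mem_of_x (F : Subfield KK) (h : ∀ i, x i ∈ F) (z : KK) : z ∈ F := by
  have key : ∀ p : MvPolynomial ℚ ℚ, algebraMap (MvPolynomial ℚ ℚ) KK p ∈ F := by
    intro p
    induction p using MvPolynomial.induction_on with
    | C a =>
      have : algebraMap (MvPolynomial ℚ ℚ) KK (C a) = (a : KK) :=
        eq_ratCast ((algebraMap (MvPolynomial ℚ ℚ) KK).comp C) a
      rw [this]
      exact SubfieldClass.ratCast_mem F a
    | add p q hp hq => rw [map_add]; exact F.add_mem hp hq
    | mul_X p i hp => rw [map_mul]; exact F.mul_mem hp (h i)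
  obtain ⟨a, b, hb, rfl⟩ := IsFractionRing.div_surjective (A := MvPolynomial ℚ ℚ) z
  exact F.div_mem (key a) (key b)

theorem hom_ext {f g : KK →+* KK} (h : ∀ i, f (x i) = g (x i)) : f = g := by
  ext1 z
  exact mem_of_x (f.eqLocusField g) h z

theorem aut_ext {f g : RingAut KK} (h : ∀ i, f (x i) = g (x i)) : f = g := by
  have : (f : KK →+* KK) = (g : KK →+* KK) := hom_ext h
  ext z
  exact congrArg (fun k : KK →+* KK => k z) this

/-- the subfield generated by the `x j`, `j < i`. -/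
noncomputable def Kl (i : ℚ) : Subfield KK := Subfield.closure (x '' Set.Iio i)

theorem x_mem {j i : ℚ} (h : j < i) : x j ∈ Kl i := Subfield.subset_closure ⟨j, h, rfl⟩

theorem Kl_mono {i j : ℚ} (h : i ≤ j) : Kl i ≤ Kl j :=
  Subfield.closure_mono (Set.image_mono (Set.Iio_subset_Iio h))

theorem Kl_exists {i : ℚ} {u : KK} (hu : u ∈ Kl i) : ∃ j < i, u ∈ Kl j := by
  unfold Kl at hu
  induction hu using Subfield.closure_induction with
  | mem z hz =>
    obtain ⟨k, hk, rfl⟩ := hz
    obtain ⟨j, h1, h2⟩ := exists_between (show k < i from hk)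
    exact ⟨j, h2, x_mem h1⟩
  | one => exact ⟨i - 1, by linarith, Subfield.one_mem _⟩
  | add a b _ _ ha hb =>
    obtain ⟨j, h1, h2⟩ := ha
    obtain ⟨k, h3, h4⟩ := hb
    exact ⟨max j k, max_lt h1 h3, Subfield.add_mem _ (Kl_mono (le_max_left _ _) h2)
      (Kl_mono (le_max_right _ _) h4)⟩
  | neg a _ ha =>
    obtain ⟨j, h1, h2⟩ := ha
    exact ⟨j, h1, Subfield.neg_mem _ h2⟩
  | inv a _ ha =>
    obtain ⟨j, h1, h2⟩ := ha
    exact ⟨j, h1, Subfield.inv_mem _ h2⟩
  | mul a b _ _ ha hb =>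
    obtain ⟨j, h1, h2⟩ := ha
    obtain ⟨k, h3, h4⟩ := hb
    exact ⟨max j k, max_lt h1 h3, Subfield.mul_mem _ (Kl_mono (le_max_left _ _) h2)
      (Kl_mono (le_max_right _ _) h4)⟩

/-- the union of the `Kl i` -/
theorem Kl_top (z : KK) : ∃ i, z ∈ Kl i := by
  let F : Subfield KK :=
    { carrier := {z | ∃ i, z ∈ Kl i}
      mul_mem' := by
        rintro a b ⟨j, h2⟩ ⟨k, h4⟩
        exact ⟨max j k, Subfield.mul_mem _ (Kl_mono (le_max_left _ _) h2)
          (Kl_mono (le_max_right _ _) h4)⟩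
      one_mem' := ⟨0, Subfield.one_mem _⟩
      add_mem' := by
        rintro a b ⟨j, h2⟩ ⟨k, h4⟩
        exact ⟨max j k, Subfield.add_mem _ (Kl_mono (le_max_left _ _) h2)
          (Kl_mono (le_max_right _ _) h4)⟩
      zero_mem' := ⟨0, Subfield.zero_mem _⟩
      neg_mem' := by
        rintro a ⟨j, h⟩
        exact ⟨j, Subfield.neg_mem _ h⟩
      inv_mem' := by
        rintro a ⟨j, h⟩
        exact ⟨j, Subfield.inv_mem _ h⟩ }
  exact mem_of_x F (fun i => ⟨i + 1, x_mem (by linarith)⟩) z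

theorem alg_of_mem (i : ℚ) (u : KK) (hu : u ∈ Subfield.closure (x '' {i}ᶜ)) :
    IsAlgebraic (Algebra.adjoin ℚ (x '' {i}ᶜ)) u := by
  induction hu using Subfield.closure_induction with
  | mem z hz =>
    exact isAlgebraic_algebraMap (⟨z, Algebra.subset_adjoin hz⟩ : Algebra.adjoin ℚ (x '' {i}ᶜ))
  | one => exact isAlgebraic_one
  | add a b _ _ ha hb => exact ha.add hb
  | neg a _ ha => exact ha.neg
  | inv a _ ha => exact ha.inv
  | mul a b _ _ ha hb => exact ha.mul hb

theorem Kl_le (i : ℚ) : Kl i ≤ Subfield.closure (x '' {i}ᶜ) :=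
  Subfield.closure_mono (Set.image_mono (fun j (hj : j < i) => by
    simpa using hj.ne))

theorem y_ind (i : ℚ) (u : KK) (hu0 : u ≠ 0) (hu : u ∈ Kl i) :
    AlgebraicIndependent ℚ (Function.update x i (u * x i)) := by
  have hx := (AlgebraicIndependent.iff_transcendental_adjoin_image i).1 x_ind
  rw [AlgebraicIndependent.iff_transcendental_adjoin_image i]
  have himg : (Function.update x i (u * x i)) '' {i}ᶜ = x '' {i}ᶜ := by
    apply Set.image_congr
    intro j hj
    simp only [Set.mem_compl_iff, Set.mem_singleton_iff] at hj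
    simp [Function.update_of_ne hj]
  constructor
  · convert hx.1 using 1
    ext j
    simp [Function.update_of_ne j.2]
  · rw [himg]
    simp only [Function.update_self]
    intro hal
    apply hx.2
    have h1 := alg_of_mem i u (Kl_le i hu)
    have h2 := h1.inv.mul hal
    rwa [← mul_assoc, inv_mul_cancel₀ hu0, one_mul] at h2

theorem exists_hom (i : ℚ) (u : KK) (hu0 : u ≠ 0) (hu : u ∈ Kl i) :
    ∃ f : KK →+* KK, f (x i) = u * x i ∧ ∀ j, j ≠ i → f (x j) = x j := by
  have h := y_ind i u hu0 hu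
  refine ⟨(IsFractionRing.liftAlgHom (K := KK)
    (algebraicIndependent_iff_injective_aeval.1 h) : KK →ₐ[ℚ] KK).toRingHom, ?_, ?_⟩
  · simp [x]
  · intro j hj
    simp [x, Function.update_of_ne hj]

theorem fix_of (i : ℚ) (f : KK →+* KK) (h : ∀ j < i, f (x j) = x j) {z : KK} (hz : z ∈ Kl i) :
    f z = z := by
  have : Kl i ≤ f.eqLocusField (RingHom.id KK) := by
    apply Subfield.closure_le.2
    rintro _ ⟨j, hj, rfl⟩
    exact h j hj
  exact this hz

theorem exists_theta (i : ℚ) (u : KK) (hu : u ≠ 0 ∧ u ∈ Kl i) :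
    ∃ f : RingAut KK, f (x i) = u * x i ∧ ∀ j, j ≠ i → f (x j) = x j := by
  obtain ⟨f, hf1, hf2⟩ := exists_hom i u hu.1 hu.2
  obtain ⟨g, hg1, hg2⟩ := exists_hom i u⁻¹ (inv_ne_zero hu.1) (Subfield.inv_mem _ hu.2)
  have hfu : f u = u := fix_of i f (fun j hj => hf2 j hj.ne) hu.2
  have hgu : g u = u := fix_of i g (fun j hj => hg2 j hj.ne) hu.2
  have e1 : f.comp g = RingHom.id KK := by
    apply hom_ext
    intro j
    by_cases hj : j = i
    · subst hj
      simp [hg1, hf1, hfu, hu.1]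
    · simp [hg2 j hj, hf2 j hj]
  have e2 : g.comp f = RingHom.id KK := by
    apply hom_ext
    intro j
    by_cases hj : j = i
    · subst hj
      simp [hg1, hf1, hgu, hu.1]
    · simp [hg2 j hj, hf2 j hj]
  exact ⟨RingEquiv.ofRingHom f g e1 e2, hf1, hf2⟩

noncomputable def thA (i : ℚ) (u : KK) (hu : u ≠ 0 ∧ u ∈ Kl i) : RingAut KK :=
  (exists_theta i u hu).choose

theorem thA_self (i : ℚ) (u : KK) (hu : u ≠ 0 ∧ u ∈ Kl i) : thA i u hu (x i) = u * x i :=
  (exists_theta i u hu).choose_spec.1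

theorem thA_ne (i : ℚ) (u : KK) (hu : u ≠ 0 ∧ u ∈ Kl i) (j : ℚ) (hj : j ≠ i) :
    thA i u hu (x j) = x j :=
  (exists_theta i u hu).choose_spec.2 j hj

theorem thA_fix (i : ℚ) (u : KK) (hu : u ≠ 0 ∧ u ∈ Kl i) {z : KK} (hz : z ∈ Kl i) :
    thA i u hu z = z :=
  fix_of i (thA i u hu : KK →+* KK) (fun j hj => thA_ne i u hu j hj.ne) hz

/-- the generating set -/
noncomputable def gens : Set (RingAut KK) := {σ | ∃ (i : ℚ) (u : KK) (hu : u ≠ 0 ∧ u ∈ Kl i), σ = thA i u hu}

/-- the group `L` -/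
noncomputable def L : Subgroup (RingAut KK) := Subgroup.closure gens

noncomputable def th (i : ℚ) (u : KK) (hu : u ≠ 0 ∧ u ∈ Kl i) : L :=
  ⟨thA i u hu, Subgroup.subset_closure ⟨i, u, hu, rfl⟩⟩

/-- triangularity -/
def Tri (σ : RingAut KK) : Prop := ∀ j, ∃ w ∈ Kl j, σ (x j) = w * x j

theorem Tri.map {σ : RingAut KK} (h : Tri σ) {j : ℚ} {z : KK} (hz : z ∈ Kl j) : σ z ∈ Kl j := by
  have : Kl j ≤ (Kl j).comap (σ : KK →+* KK) := by
    apply Subfield.closure_le.2
    rintro _ ⟨k, hk, rfl⟩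
    obtain ⟨w, hw, hw2⟩ := h k
    change σ (x k) ∈ Kl j
    rw [hw2]
    exact Subfield.mul_mem _ (Kl_mono (le_of_lt hk) hw) (x_mem hk)
  exact this hz

theorem Tri.mul {σ τ : RingAut KK} (h : Tri σ) (h' : Tri τ) : Tri (σ * τ) := by
  intro j
  obtain ⟨w, hw, hw2⟩ := h j
  obtain ⟨v, hv, hv2⟩ := h' j
  refine ⟨σ v * w, Subfield.mul_mem _ (h.map hv) hw, ?_⟩
  rw [RingAut.mul_apply, hv2, map_mul, hw2]
  ring

theorem thA_tri (i : ℚ) (u : KK) (hu : u ≠ 0 ∧ u ∈ Kl i) : Tri (thA i u hu) := by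
  intro j
  by_cases hj : j = i
  · subst hj
    exact ⟨u, hu.2, thA_self _ _ _⟩
  · exact ⟨1, Subfield.one_mem _, by rw [thA_ne i u hu j hj, one_mul]⟩

theorem thA_inv_self (i : ℚ) (u : KK) (hu : u ≠ 0 ∧ u ∈ Kl i) :
    (thA i u hu)⁻¹ (x i) = u⁻¹ * x i := by
  have : thA i u hu (u⁻¹ * x i) = x i := by
    rw [map_mul, thA_self, thA_fix i u hu (Subfield.inv_mem _ hu.2), ← mul_assoc,
      inv_mul_cancel₀ hu.1, one_mul]
  rw [RingAut.inv_apply, RingEquiv.symm_apply_eq, this]

theorem inv_fix {σ : RingAut KK} {z : KK} (h : σ z = z) : σ⁻¹ z = z := by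
  rw [RingAut.inv_apply, RingEquiv.symm_apply_eq, h]

theorem thA_inv_tri (i : ℚ) (u : KK) (hu : u ≠ 0 ∧ u ∈ Kl i) : Tri (thA i u hu)⁻¹ := by
  intro j
  by_cases hj : j = i
  · subst hj
    exact ⟨u⁻¹, Subfield.inv_mem _ hu.2, thA_inv_self _ _ _⟩
  · exact ⟨1, Subfield.one_mem _, by rw [inv_fix (thA_ne i u hu j hj), one_mul]⟩

theorem L_tri {σ : RingAut KK} (h : σ ∈ L) : Tri σ ∧ Tri σ⁻¹ := by
  unfold L at h
  induction h using Subgroup.closure_induction with
  | mem σ hσ =>
    obtain ⟨i, u, hu, rfl⟩ := hσ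
    exact ⟨thA_tri i u hu, thA_inv_tri i u hu⟩
  | one =>
    have : Tri 1 := fun j => ⟨1, Subfield.one_mem _, by simp⟩
    exact ⟨this, by simpa using this⟩
  | mul a b _ _ ha hb => exact ⟨ha.1.mul hb.1, by rw [mul_inv_rev]; exact hb.2.mul ha.2⟩
  | inv a _ ha => exact ⟨ha.2, by simpa using ha.1⟩

theorem L_supp {σ : RingAut KK} (h : σ ∈ L) : ∃ s : Finset ℚ, ∀ j ∉ s, σ (x j) = x j := by
  unfold L at h
  induction h using Subgroup.closure_induction with
  | mem σ hσ =>
    obtain ⟨i, u, hu, rfl⟩ := hσ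
    exact ⟨{i}, fun j hj => thA_ne i u hu j (by simpa using hj)⟩
  | one => exact ⟨∅, by simp⟩
  | mul a b _ _ ha hb =>
    obtain ⟨s, hs⟩ := ha
    obtain ⟨t, ht⟩ := hb
    refine ⟨s ∪ t, fun j hj => ?_⟩
    rw [Finset.mem_union, not_or] at hj
    rw [RingAut.mul_apply, ht j hj.2, hs j hj.1]
  | inv a _ ha =>
    obtain ⟨s, hs⟩ := ha
    exact ⟨s, fun j hj => inv_fix (hs j hj)⟩

theorem solvable_of_commutator (Γ : Type) [Group Γ] (h : Group.IsSolvable (commutator Γ)) :
    Group.IsSolvable Γ := by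
  have := h
  apply Group.isSolvable_of_ker_le_range (commutator Γ).subtype (Abelianization.of : Γ →* Abelianization Γ)
  rw [Abelianization.ker_of, Subgroup.range_subtype]

theorem solv_aux (s : Finset ℚ) : ∀ (Γ : Type) [Group Γ] (ι : Γ →* RingAut KK),
    Function.Injective ι → (∀ g, Tri (ι g)) → (∀ g, ∀ j ∉ s, ι g (x j) = x j) →
    Group.IsSolvable Γ := by
  induction s using Finset.induction_on_min with
  | empty =>
    intro Γ _ ι hι _ h
    have : Subsingleton Γ := ⟨fun a b => hι (aut_ext (fun j => by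
      rw [h a j (by simp), h b j (by simp)]))⟩
    infer_instance
  | insert a s has ih =>
    intro Γ _ ι hι htri h
    apply solvable_of_commutator
    apply ih (commutator Γ) (ι.comp (commutator Γ).subtype)
      (hι.comp (Subgroup.subtype_injective _)) (fun g => htri g)
    have hfix : ∀ g : Γ, ∀ z ∈ Kl a, ι g z = z := by
      intro g z hz
      refine fix_of a (ι g : KK →+* KK) (fun j hj => h g j ?_) hz
      intro hj'
      rcases Finset.mem_insert.1 hj' with h1 | h1
      · exact hj.ne h1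
      · exact lt_asymm hj (has j h1)
    have hcomm : commutator Γ ≤ (MulAction.stabilizer (RingAut KK) (x a)).comap ι := by
      rw [commutator_def, Subgroup.commutator_le]
      intro g _ k _
      rw [Subgroup.mem_comap, MulAction.mem_stabilizer_iff, commutatorElement_def]
      change ι (g * k * g⁻¹ * k⁻¹) (x a) = x a
      obtain ⟨v, hv, hv2⟩ := htri g a
      obtain ⟨v', hv', hv2'⟩ := htri g⁻¹ a
      obtain ⟨w, hw, hw2⟩ := htri k a
      obtain ⟨w', hw', hw2'⟩ := htri k⁻¹ a
      have e1 : v' * v * x a = x a := by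
        have : ι (g * g⁻¹) (x a) = x a := by simp
        rw [map_mul, RingAut.mul_apply, hv2', map_mul, hfix g v' hv', hv2, ← mul_assoc] at this
        exact this
      have e2 : w' * w * x a = x a := by
        have : ι (k * k⁻¹) (x a) = x a := by simp
        rw [map_mul, RingAut.mul_apply, hw2', map_mul, hfix k w' hw', hw2, ← mul_assoc] at this
        exact this
      rw [map_mul, map_mul, map_mul, RingAut.mul_apply, RingAut.mul_apply, RingAut.mul_apply,
        hw2', map_mul, hv2', hfix _ _ hw', map_mul, map_mul, hfix _ _ hw', hfix _ _ hw',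
        map_mul, hfix _ _ hv', hw2, map_mul, map_mul, hfix _ _ hv', hfix _ _ hw, hv2]
      calc w' * (v' * (w * (v * x a))) = (v' * v) * (w' * w * x a) := by ring
        _ = x a := by rw [e2, e1]
    intro g j hj
    by_cases hja : j = a
    · subst hja
      exact hcomm g.2
    · exact h g j (by simp [hja, hj])


/-! ### equations in `L` -/

theorem L_ext {σ τ : L} (h : ∀ j, σ.1 (x j) = τ.1 (x j)) : σ = τ := Subtype.ext (aut_ext h)

theorem key {b c : ℚ} (hbc : b < c) (u : KK) (hu : u ≠ 0 ∧ u ∈ Kl b)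
    (hu' : u ≠ 0 ∧ u ∈ Kl c) (hx : x b ≠ 0 ∧ x b ∈ Kl c) :
    th b u hu * th c (x b) hx = th c u hu' * th c (x b) hx * th b u hu := by
  apply L_ext
  intro j
  simp only [th, Subgroup.coe_mul, RingAut.mul_apply]
  by_cases hjc : j = c
  · subst hjc
    rw [thA_self, map_mul, thA_self, thA_ne b u hu j hbc.ne', thA_self, map_mul,
      thA_ne j u hu' b hbc.ne, thA_self]
    ring
  · by_cases hjb : j = b
    · subst hjb
      rw [thA_ne c _ hx j hjc, thA_self, map_mul, thA_ne c _ hx j hjc,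
        thA_fix c _ hx hu'.2, map_mul, thA_fix c _ hu' hu'.2, thA_ne c _ hu' j hjc]
    · rw [thA_ne c _ hx j hjc, thA_ne b _ hu j hjb, thA_ne c _ hx j hjc, thA_ne c _ hu' j hjc]

theorem comm {i j a b : ℚ} (ha : x a ≠ 0 ∧ x a ∈ Kl i) (hb : x b ≠ 0 ∧ x b ∈ Kl j)
    (hij : i ≠ j) (hbi : b ≠ i) (haj : a ≠ j) :
    Commute (th i (x a) ha) (th j (x b) hb) := by
  apply L_ext
  intro k
  simp only [th, Subgroup.coe_mul, RingAut.mul_apply]
  by_cases hki : k = i
  · subst hki
    rw [thA_self, map_mul, thA_ne j _ hb k hij, thA_ne j _ hb a haj, thA_self]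
  · by_cases hkj : k = j
    · subst hkj
      rw [thA_self, map_mul, thA_ne i _ ha k hki, thA_ne i _ ha b hbi, thA_self]
    · rw [thA_ne i _ ha k hki, thA_ne j _ hb k hkj, thA_ne i _ ha k hki]

/-! ### chain lemma -/

theorem chain {R A : Type*} [Field R] [Ring A] [Algebra R A] [FiniteDimensional R A]
    (a b : ℕ → A) (h : ∀ l k, l < k → Commute (a k) (b l)) : ∃ k, Commute (a k) (b k) := by
  let C : ℕ →o (Submodule R A)ᵒᵈ :=
    { toFun := fun n => OrderDual.toDual
        (Subalgebra.toSubmodule (Subalgebra.centralizer R {z | ∃ l < n, z = b l}))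
      monotone' := by
        intro m n hmn
        rw [OrderDual.toDual_le_toDual]
        intro z hz
        rw [Subalgebra.mem_toSubmodule, Subalgebra.mem_centralizer_iff] at hz ⊢
        rintro y ⟨l, hl, rfl⟩
        exact hz _ ⟨l, hl.trans_le hmn, rfl⟩ }
  obtain ⟨n, hn⟩ := monotone_stabilizes_iff_artinian.2 (inferInstance : IsArtinian R A) C
  refine ⟨n, ?_⟩
  have h1 : a n ∈ Subalgebra.toSubmodule (Subalgebra.centralizer R {z | ∃ l < n, z = b l}) := by
    rw [Subalgebra.mem_toSubmodule, Subalgebra.mem_centralizer_iff]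
    rintro y ⟨l, hl, rfl⟩
    exact (h l n hl).symm
  have h2 : Subalgebra.toSubmodule (Subalgebra.centralizer R {z | ∃ l < n, z = b l}) =
      Subalgebra.toSubmodule (Subalgebra.centralizer R {z | ∃ l < n + 1, z = b l}) :=
    hn (n + 1) (Nat.le_succ n)
  rw [h2, Subalgebra.mem_toSubmodule, Subalgebra.mem_centralizer_iff] at h1
  exact (h1 (b n) ⟨n, Nat.lt_succ_self n, rfl⟩).symm

theorem rep_gen {R A : Type*} [Field R] [Ring A] [Algebra R A] [FiniteDimensional R A]
    (ρ : L →* A) (i : ℚ) (u : KK) (hu : u ≠ 0 ∧ u ∈ Kl i) : ρ (th i u hu) = 1 := by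
  obtain ⟨j, hji, huj⟩ := Kl_exists hu.2
  -- the sequence
  obtain ⟨s, hs, hs1, hs2⟩ : ∃ s : ℕ → ℚ, StrictMono s ∧ (∀ n, j < s n) ∧ (∀ n, s n < i) := by
    refine ⟨fun n => i - (i - j) / (n + 2), ?_, ?_, ?_⟩
    · intro m n hmn
      have h1 : (0:ℚ) < i - j := by linarith
      have h2 : (m:ℚ) < n := by exact_mod_cast hmn
      have h3 : (i - j) / ((n:ℚ) + 2) < (i - j) / ((m:ℚ) + 2) := by
        apply div_lt_div_of_pos_left h1 (by positivity) (by linarith)
      simp only
      linarith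
    · intro n
      have h1 : (0:ℚ) < i - j := by linarith
      have h3 : (i - j) / ((n:ℚ) + 2) < i - j := by
        rw [div_lt_iff₀ (by positivity)]
        have : (0:ℚ) ≤ n := Nat.cast_nonneg n
        nlinarith
      simp only
      linarith
    · intro n
      have h1 : (0:ℚ) < i - j := by linarith
      have : 0 < (i - j) / ((n:ℚ) + 2) := by positivity
      simp only
      linarith
  have hx : ∀ {m n : ℕ}, m < n → x (s m) ≠ 0 ∧ x (s m) ∈ Kl (s n) :=
    fun {m n} h => ⟨x_ne _, x_mem (hs h)⟩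
  have hinj := hs.injective
  obtain ⟨k, hk⟩ := chain (R := R)
    (fun k => ρ (th (s (3 * k + 1)) (x (s (3 * k))) (hx (by omega))))
    (fun k => ρ (th (s (3 * k + 2)) (x (s (3 * k + 1))) (hx (by omega))))
    (fun l k hlk => by
      apply Commute.map
      apply comm
      · exact fun h => by have := hinj h; omega
      · exact fun h => by have := hinj h; omega
      · exact fun h => by have := hinj h; omega)
  set a := s (3 * k) with ha
  set b := s (3 * k + 1) with hb
  set c := s (3 * k + 2) with hc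
  have hab : a < b := hs (by omega)
  have hbc : b < c := hs (by omega)
  have hja : j < a := hs1 _
  have hci : c < i := hs2 _
  have inv : ∀ g : L, ρ g * ρ g⁻¹ = 1 := fun g => by rw [← map_mul]; simp
  -- cancellation
  have canc : ∀ (p q r : L), ρ (p * q) = ρ (r * q * p) → ρ p = ρ 1 → ρ r = 1 := by
    intro p q r h1 h2
    rw [map_mul, map_mul, map_mul, h2, map_one, one_mul, mul_one] at h1
    calc ρ r = ρ r * (ρ q * ρ q⁻¹) := by rw [inv, mul_one]
      _ = (ρ r * ρ q) * ρ q⁻¹ := by rw [mul_assoc]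
      _ = ρ q * ρ q⁻¹ := by rw [← h1]
      _ = 1 := inv q
  have canc2 : ∀ (p q r : L), ρ (p * q) = ρ (r * q * p) → ρ q = ρ 1 → ρ r = 1 := by
    intro p q r h1 h2
    rw [map_mul, map_mul, map_mul, h2, map_one, mul_one, mul_one] at h1
    calc ρ r = ρ r * (ρ p * ρ p⁻¹) := by rw [inv, mul_one]
      _ = (ρ r * ρ p) * ρ p⁻¹ := by rw [mul_assoc]
      _ = ρ p * ρ p⁻¹ := by rw [← h1]
      _ = 1 := inv p
  -- step 1
  have hxab : x a ≠ 0 ∧ x a ∈ Kl b := ⟨x_ne _, x_mem hab⟩
  have hxac : x a ≠ 0 ∧ x a ∈ Kl c := ⟨x_ne _, x_mem (hab.trans hbc)⟩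
  have hxbc : x b ≠ 0 ∧ x b ∈ Kl c := ⟨x_ne _, x_mem hbc⟩
  have hxci : x c ≠ 0 ∧ x c ∈ Kl i := ⟨x_ne _, x_mem hci⟩
  have s1 : ρ (th c (x a) hxac) = 1 := by
    have e := congrArg ρ (key hbc (x a) hxab hxac hxbc)
    have hk' : ρ (th b (x a) hxab) * ρ (th c (x b) hxbc) =
      ρ (th c (x b) hxbc) * ρ (th b (x a) hxab) := hk
    rw [map_mul, map_mul, map_mul, hk', mul_assoc] at e
    have e2 : ρ (th c (x b) hxbc * th b (x a) hxab) * ρ (th c (x b) hxbc * th b (x a) hxab)⁻¹ = 1 :=
      inv _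
    calc ρ (th c (x a) hxac) = ρ (th c (x a) hxac) *
        (ρ (th c (x b) hxbc * th b (x a) hxab) * ρ (th c (x b) hxbc * th b (x a) hxab)⁻¹) := by
          rw [e2, mul_one]
      _ = (ρ (th c (x a) hxac) * (ρ (th c (x b) hxbc) * ρ (th b (x a) hxab))) *
        ρ (th c (x b) hxbc * th b (x a) hxab)⁻¹ := by
          rw [map_mul ρ (th c (x b) hxbc) (th b (x a) hxab)]; simp only [mul_assoc]
      _ = ρ (th c (x b) hxbc * th b (x a) hxab) * ρ (th c (x b) hxbc * th b (x a) hxab)⁻¹ := by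
          rw [← e, map_mul]
      _ = 1 := e2
  -- step 2
  have hua : u ≠ 0 ∧ u ∈ Kl a := ⟨hu.1, Kl_mono hja.le huj⟩
  have huc : u ≠ 0 ∧ u ∈ Kl c := ⟨hu.1, Kl_mono (hab.trans hbc).le hua.2⟩
  have s2 : ρ (th c u huc) = 1 := by
    have e := congrArg ρ (key (hab.trans hbc) u hua huc hxac)
    exact canc2 _ _ _ e (by rw [s1, map_one])
  -- step 3
  have e := congrArg ρ (key hci u huc hu hxci)
  exact canc _ _ _ e (by rw [s2, map_one])

theorem rep_L {R A : Type*} [Field R] [Ring A] [Algebra R A] [FiniteDimensional R A]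
    (ρ : L →* A) (σ : L) : ρ σ = 1 := by
  obtain ⟨σ, hσ⟩ := σ
  have := hσ
  unfold L at this
  induction this using Subgroup.closure_induction with
  | mem σ h =>
    obtain ⟨i, u, hu, rfl⟩ := h
    exact rep_gen (R := R) ρ i u hu
  | one => exact map_one ρ
  | mul a b ha hb iha ihb =>
    have : (⟨a * b, hσ⟩ : L) = ⟨a, ha⟩ * ⟨b, hb⟩ := rfl
    rw [this, map_mul, iha ha, ihb hb, one_mul]
  | inv a ha iha =>
    have h1 := iha ha
    have : ρ (⟨a⁻¹, hσ⟩ : L) * ρ (⟨a, ha⟩ : L) = 1 := by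
      rw [← map_mul]
      have : (⟨a⁻¹, hσ⟩ : L) * (⟨a, ha⟩ : L) = 1 := Subtype.ext (inv_mul_cancel a)
      rw [this, map_one]
    rwa [h1, mul_one] at this


/-! ### the affine group -/

attribute [local instance] Units.mulDistribMulActionRight

/-- `z ↦ b + u * (s • z)` -/
@[ext] structure Aff where
  b : KK
  u : KKˣ
  s : L

namespace Aff

noncomputable instance : Mul Aff := ⟨fun g h => ⟨g.b + g.u * (g.s • h.b), g.u * (g.s • h.u), g.s * h.s⟩⟩
noncomputable instance : One Aff := ⟨⟨0, 1, 1⟩⟩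
noncomputable instance : Inv Aff :=
  ⟨fun g => ⟨-(g.s⁻¹ • ((g.u⁻¹ : KKˣ) * g.b)), g.s⁻¹ • g.u⁻¹, g.s⁻¹⟩⟩

theorem mul_b (g h : Aff) : (g * h).b = g.b + g.u * (g.s • h.b) := rfl
theorem mul_u (g h : Aff) : (g * h).u = g.u * (g.s • h.u) := rfl
theorem mul_s (g h : Aff) : (g * h).s = g.s * h.s := rfl
theorem one_b : (1 : Aff).b = 0 := rfl
theorem one_u : (1 : Aff).u = 1 := rfl
theorem one_s : (1 : Aff).s = 1 := rfl
theorem inv_b (g : Aff) : (g⁻¹).b = -(g.s⁻¹ • (((g.u⁻¹ : KKˣ) : KK) * g.b)) := rfl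
theorem inv_u (g : Aff) : (g⁻¹).u = g.s⁻¹ • g.u⁻¹ := rfl
theorem inv_s (g : Aff) : (g⁻¹).s = g.s⁻¹ := rfl

noncomputable instance : Group Aff := Group.ofLeftAxioms
  (by
    intro g h k
    ext1
    · simp only [mul_b, mul_u, mul_s, Units.val_mul, Units.coe_smul, smul_add, smul_mul', mul_smul]
      ring
    · simp only [mul_u, mul_s, smul_mul', mul_smul, mul_assoc]
    · simp only [mul_s, mul_assoc])
  (by
    intro g
    ext1
    · simp only [mul_b, one_b, one_u, one_s, one_smul, Units.val_one, one_mul, zero_add]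
    · simp only [mul_u, one_u, one_s, one_smul, one_mul]
    · simp only [mul_s, one_s, one_mul])
  (by
    intro g
    ext1
    · simp only [mul_b, inv_b, inv_u, inv_s, one_b, Units.coe_smul, smul_mul']
      ring
    · simp only [mul_u, inv_u, inv_s, one_u]
      rw [← smul_mul', inv_mul_cancel, smul_one]
    · simp only [mul_s, inv_s, one_s, inv_mul_cancel])

noncomputable instance : MulAction Aff KK where
  smul g z := g.b + g.u * (g.s • z)
  one_smul z := by
    change (1 : Aff).b + (1 : Aff).u * ((1 : Aff).s • z) = z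
    simp only [one_b, one_u, one_s, one_smul, Units.val_one, one_mul, zero_add]
  mul_smul g h z := by
    change (g * h).b + (g * h).u * ((g * h).s • z) = g.b + g.u * (g.s • (h.b + h.u * (h.s • z)))
    simp only [mul_b, mul_u, mul_s, Units.val_mul, Units.coe_smul, smul_add, smul_mul', mul_smul]
    ring

theorem smul_def (g : Aff) (z : KK) : g • z = g.b + g.u * (g.s • z) := rfl

instance : FaithfulSMul Aff KK where
  eq_of_smul_eq_smul := by
    intro g h hgh
    have h0 : g.b = h.b := by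
      have := hgh 0
      simpa [smul_def] using this
    have h1 : g.u = h.u := by
      have := hgh 1
      simp only [smul_def, smul_one, mul_one, h0] at this
      exact Units.ext (add_left_cancel this)
    have h2 : g.s = h.s := by
      apply L_ext
      intro j
      have := hgh (x j)
      simp only [smul_def, h0, h1] at this
      have := mul_left_cancel₀ (Units.ne_zero h.u) (add_left_cancel this)
      exact this
    ext1 <;> assumption

/-- embedding of `L` -/
noncomputable def incL : L →* Aff where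
  toFun s := ⟨0, 1, s⟩
  map_one' := rfl
  map_mul' a b := by
    ext1
    · simp [mul_b]
    · simp [mul_u]
    · rfl

/-- embedding of `Kˣ` -/
noncomputable def incU : KKˣ →* Aff where
  toFun u := ⟨0, u, 1⟩
  map_one' := rfl
  map_mul' a b := by
    ext1
    · simp [mul_b]
    · simp [mul_u]
    · simp [mul_s]

/-- translation -/
noncomputable def tr (b : KK) : Aff := ⟨b, 1, 1⟩

theorem decomp (g : Aff) : g = tr g.b * incU g.u * incL g.s := by
  ext1
  · simp [mul_b, mul_u, mul_s, tr, incU, incL]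
  · simp [mul_b, mul_u, mul_s, tr, incU, incL]
  · simp [mul_b, mul_u, mul_s, tr, incU, incL]

/-- projection -/
noncomputable def proj : Aff →* L where
  toFun g := g.s
  map_one' := rfl
  map_mul' _ _ := rfl

theorem rep_triv {R A : Type*} [Field R] [Ring A] [Algebra R A] [FiniteDimensional R A]
    (ρ : Aff →* A) (g : Aff) : ρ g = 1 := by
  have hL : ∀ σ : L, ρ (incL σ) = 1 := fun σ => rep_L (R := R) (ρ.comp incL) σ
  have inv : ∀ g : Aff, ρ g * ρ g⁻¹ = 1 := fun g => by rw [← map_mul]; simp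
  have hU : ∀ u : KKˣ, ρ (incU u) = 1 := by
    intro u
    obtain ⟨i, hi⟩ := Kl_top (u : KK)
    have hu : (u : KK) ≠ 0 ∧ (u : KK) ∈ Kl i := ⟨u.ne_zero, hi⟩
    let X : KKˣ := Units.mk0 (x i) (x_ne i)
    have e : incL (th i u hu) * incU X = incU u * incU X * incL (th i u hu) := by
      ext1
      · simp [mul_b, mul_u, mul_s, incU, incL]
      · simp only [mul_u, mul_s, incU, incL, MonoidHom.coe_mk, OneHom.coe_mk, one_mul, one_smul,
          smul_one, mul_one]
        apply Units.ext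
        rw [Units.coe_smul, Units.val_mul]
        exact thA_self i u hu
      · simp [mul_b, mul_u, mul_s, incU, incL]
    have e' := congrArg ρ e
    rw [map_mul, map_mul, map_mul, hL, one_mul, mul_one] at e'
    calc ρ (incU u) = ρ (incU u) * (ρ (incU X) * ρ (incU X)⁻¹) := by rw [inv, mul_one]
      _ = (ρ (incU u) * ρ (incU X)) * ρ (incU X)⁻¹ := by rw [mul_assoc]
      _ = ρ (incU X) * ρ (incU X)⁻¹ := by rw [← e']
      _ = 1 := inv _
  have hT : ∀ b : KK, ρ (tr b) = 1 := by
    intro b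
    let T : KKˣ := Units.mk0 (2 : KK) two_ne_zero
    have e : incU T * tr b = tr b * tr b * incU T := by
      ext1
      · simp [mul_b, mul_u, mul_s, incU, tr, T]
        ring
      · simp [mul_b, mul_u, mul_s, incU, tr, T]
      · simp [mul_b, mul_u, mul_s, incU, tr, T]
    have e' := congrArg ρ e
    rw [map_mul, map_mul, map_mul, hU, one_mul, mul_one] at e'
    calc ρ (tr b) = ρ (tr b) * (ρ (tr b) * ρ (tr b)⁻¹) := by rw [inv, mul_one]
      _ = (ρ (tr b) * ρ (tr b)) * ρ (tr b)⁻¹ := by rw [mul_assoc]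
      _ = ρ (tr b) * ρ (tr b)⁻¹ := by rw [← e']
      _ = 1 := inv _
  rw [decomp g, map_mul, map_mul, hL, hU, hT, one_mul, one_mul]

theorem two_trans : MulAction.IsMultiplyPretransitive Aff KK 2 := by
  rw [MulAction.is_two_pretransitive_iff]
  intro a b c d hab hcd
  have h1 : a - b ≠ 0 := sub_ne_zero.2 hab
  have h2 : c - d ≠ 0 := sub_ne_zero.2 hcd
  refine ⟨⟨c - (c - d) / (a - b) * a, Units.mk0 ((c - d) / (a - b)) (div_ne_zero h2 h1), 1⟩,
    ?_, ?_⟩
  · simp [smul_def]
  · simp only [smul_def, Units.val_mk0, one_smul]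
    field_simp
    ring

theorem infinite : Infinite Aff := by
  refine Infinite.of_injective (fun n : ℕ => tr (n : KK)) ?_
  intro m n hmn
  have : ((m : ℕ) : KK) = n := congrArg Aff.b hmn
  exact_mod_cast this

theorem solv_L (S : Finset L) : Group.IsSolvable (Subgroup.closure (S : Set L)) := by
  classical
  -- common support
  have hsup : ∀ σ : L, ∃ s : Finset ℚ, ∀ j ∉ s, σ.1 (x j) = x j := fun σ => L_supp σ.2
  choose f hf using hsup
  let s := S.biUnion f
  have hfix : ∀ g ∈ Subgroup.closure (S : Set L), ∀ j ∉ s, g.1 (x j) = x j := by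
    intro g hg
    induction hg using Subgroup.closure_induction with
    | mem g hg =>
      intro j hj
      exact hf g j (fun h => hj (Finset.mem_biUnion.2 ⟨g, hg, h⟩))
    | one => intro j _; rfl
    | mul a b _ _ ha hb =>
      intro j hj
      rw [Subgroup.coe_mul, RingAut.mul_apply, hb j hj, ha j hj]
    | inv a _ ha =>
      intro j hj
      exact inv_fix (ha j hj)
  exact solv_aux s (Subgroup.closure (S : Set L))
    (L.subtype.comp (Subgroup.closure (S : Set L)).subtype)
    ((Subgroup.subtype_injective _).comp (Subgroup.subtype_injective _))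
    (fun g => (L_tri g.1.2).1) (fun g j hj => hfix g.1 g.2 j hj)

theorem solv (z : KK) (S : Finset Aff) (hS : (S : Set Aff) ⊆ MulAction.stabilizer Aff z) :
    Group.IsSolvable (Subgroup.closure (S : Set Aff)) := by
  classical
  set H := Subgroup.closure (S : Set Aff) with hH
  have hle : H ≤ MulAction.stabilizer Aff z := (Subgroup.closure_le _).2 hS
  have hmap : H.map proj = Subgroup.closure ((S.image proj : Finset L) : Set L) := by
    rw [hH, MonoidHom.map_closure, Finset.coe_image]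
  have hsol : Group.IsSolvable (H.map proj) := by
    rw [hmap]
    exact solv_L _
  let π : H →* H.map proj := proj.subgroupMap H
  have hker : Group.IsSolvable π.ker := by
    apply Group.isSolvable_of_comm
    rintro ⟨⟨g, hg⟩, hg'⟩ ⟨⟨h, hh⟩, hh'⟩
    have hgs : g.s = 1 := congrArg Subtype.val (MonoidHom.mem_ker.1 hg')
    have hhs : h.s = 1 := congrArg Subtype.val (MonoidHom.mem_ker.1 hh')
    have hgz : g.b + g.u * z = z := by
      have := hle hg
      rw [MulAction.mem_stabilizer_iff, smul_def, hgs, one_smul] at this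
      exact this
    have hhz : h.b + h.u * z = z := by
      have := hle hh
      rw [MulAction.mem_stabilizer_iff, smul_def, hhs, one_smul] at this
      exact this
    apply Subtype.ext
    apply Subtype.ext
    change g * h = h * g
    ext1
    · simp only [mul_b, hgs, hhs, one_smul]
      have e1 : g.b = z - g.u * z := eq_sub_of_add_eq hgz
      have e2 : h.b = z - h.u * z := eq_sub_of_add_eq hhz
      rw [e1, e2]
      ring
    · simp only [mul_u, hgs, hhs, one_smul]
      exact mul_comm _ _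
    · simp only [mul_s, hgs, hhs]
  apply Group.isSolvable_of_ker_le_range π.ker.subtype π
  rw [Subgroup.range_subtype]

end Aff

end Pool.Agent.H15.TwoTrans
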