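import Mathlib

set_option autoImplicit false
set_option linter.unusedSectionVars false
set_option linter.unusedVariables false

namespace Pool.Agent.H15.UDec

open Finset

variable {V : Type} [Fintype V] [DecidableEq V]

/-- `Steps r E E' R R'`: removing `r` successive pairs of isomorphic subgraphs from `(E, E')` leads
to `(R, R')`. -/
inductive Steps : ℕ → Finset (Sym2 V) → Finset (Sym2 V) → Finset (Sym2 V) → Finset (Sym2 V) → Prop
  | refl (E E' : Finset (Sym2 V)) : Steps 0 E E' E E'
  | step {r : ℕ} {E E' R R' : Finset (Sym2 V)} (σ : Equiv.Perm V) (F : Finset (Sym2 V))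
      (h1 : F ⊆ E) (h2 : F.image (Sym2.map σ) ⊆ E')
      (h3 : Steps r (E \ F) (E' \ F.image (Sym2.map σ)) R R') : Steps (r + 1) E E' R R'

theorem map_inj (σ : Equiv.Perm V) : Function.Injective (Sym2.map σ) :=
  Sym2.map.injective σ.injective

theorem Steps.trans {a b : ℕ} {E E' R R' Q Q' : Finset (Sym2 V)} (h : Steps a E E' R R')
    (h' : Steps b R R' Q Q') : Steps (a + b) E E' Q Q' := by
  induction h with
  | refl E E' => simpa using h'
  | step σ F h1 h2 h3 ih =>
    have := Steps.step σ F h1 h2 (ih h')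
    rwa [add_right_comm] at this

theorem Steps.single {E E' : Finset (Sym2 V)} (σ : Equiv.Perm V) (F : Finset (Sym2 V))
      (h1 : F ⊆ E) (h2 : F.image (Sym2.map σ) ⊆ E') :
      Steps 1 E E' (E \ F) (E' \ F.image (Sym2.map σ)) :=
  Steps.step σ F h1 h2 (Steps.refl _ _)

theorem Steps.pad {a : ℕ} {E E' R R' : Finset (Sym2 V)} (h : Steps a E E' R R') (b : ℕ) :
    Steps (a + b) E E' R R' := by
  induction b with
  | zero => exact h
  | succ b ih =>
    have h1 : Steps 1 E E' E E' := by
      have := Steps.single (E := E) (E' := E') 1 ∅ (by simp) (by simp)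
      simpa using this
    have := h1.trans ih
    rwa [show 1 + (a + b) = a + (b + 1) by ring] at this

theorem Steps.mono {a b : ℕ} {E E' R R' : Finset (Sym2 V)} (h : Steps a E E' R R') (hab : a ≤ b) :
    Steps b E E' R R' := by
  have := h.pad (b - a)
  rwa [Nat.add_sub_cancel' hab] at this

theorem Steps.sub {a : ℕ} {E E' R R' : Finset (Sym2 V)} (h : Steps a E E' R R') :
    R ⊆ E ∧ R' ⊆ E' ∧ E'.card + R.card = E.card + R'.card := by
  induction h with
  | refl E E' => exact ⟨Subset.refl _, Subset.refl _, by ring⟩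
  | step σ F h1 h2 h3 ih =>
    obtain ⟨i1, i2, i3⟩ := ih
    refine ⟨i1.trans sdiff_subset, i2.trans sdiff_subset, ?_⟩
    rw [card_sdiff_of_subset h1, card_sdiff_of_subset h2, card_image_of_injective _ (map_inj σ)] at i3
    have h4 := card_le_card h1
    have h5 := card_le_card h2
    rw [card_image_of_injective _ (map_inj σ)] at h5
    omega

theorem image_symm (σ : Equiv.Perm V) (F : Finset (Sym2 V)) :
    (F.image (Sym2.map σ)).image (Sym2.map σ.symm) = F := by
  rw [image_image]
  have : Sym2.map σ.symm ∘ Sym2.map σ = (id : Sym2 V → Sym2 V) := by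
    rw [← Sym2.map_comp]
    simp
  rw [this, image_id]

theorem Steps.symm {a : ℕ} {E E' R R' : Finset (Sym2 V)} (h : Steps a E E' R R') :
    Steps a E' E R' R := by
  induction h with
  | refl E E' => exact Steps.refl _ _
  | step σ F h1 h2 h3 ih =>
    refine Steps.step σ.symm (F.image (Sym2.map σ)) h2 ?_ ?_
    · rw [image_symm]; exact h1
    · rw [image_symm]; exact ih

/-- conversion to colourings -/
theorem Steps.color {a : ℕ} {E E' R R' : Finset (Sym2 V)} (h : Steps a E E' R R') (hR : R = ∅)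
    (hR' : R' = ∅) : ∃ c c' : Sym2 V → Fin (a + 1), ∀ i, ∃ σ : Equiv.Perm V,
      Sym2.map σ '' {e | e ∈ E ∧ c e = i} = {e | e ∈ E' ∧ c' e = i} := by
  induction h with
  | refl E E' =>
    subst hR; subst hR'
    exact ⟨fun _ => 0, fun _ => 0, fun i => ⟨1, by simp⟩⟩
  | @step r E E' R R' σ F h1 h2 h3 ih =>
    obtain ⟨c, c', hc⟩ := ih hR hR'
    refine ⟨fun e => if e ∈ F then Fin.last _ else (c e).castSucc,
      fun e => if e ∈ F.image (Sym2.map σ) then Fin.last _ else (c' e).castSucc, ?_⟩
    intro i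
    refine Fin.lastCases ?_ (fun j => ?_) i
    · refine ⟨σ, ?_⟩
      have e1 : {e | e ∈ E ∧ (if e ∈ F then Fin.last (r + 1) else (c e).castSucc) =
          Fin.last (r + 1)} = (F : Set (Sym2 V)) := by
        ext e
        constructor
        · rintro ⟨_, h⟩
          by_contra he
          rw [if_neg (by simpa using he)] at h
          exact absurd h (Fin.castSucc_ne_last _)
        · intro h
          have h' : e ∈ F := by simpa using h
          exact ⟨h1 h', if_pos h'⟩
      have e2 : {e | e ∈ E' ∧ (if e ∈ F.image (Sym2.map σ) then Fin.last (r + 1)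
          else (c' e).castSucc) = Fin.last (r + 1)} = (F.image (Sym2.map σ) : Set (Sym2 V)) := by
        ext e
        constructor
        · rintro ⟨_, h⟩
          by_contra he
          rw [if_neg (by simpa using he)] at h
          exact absurd h (Fin.castSucc_ne_last _)
        · intro h
          have h' : e ∈ F.image (Sym2.map σ) := by simpa using h
          exact ⟨h2 h', if_pos h'⟩
      rw [e1, e2]
      simp
    · obtain ⟨τ, hτ⟩ := hc j
      refine ⟨τ, ?_⟩
      have e1 : {e | e ∈ E ∧ (if e ∈ F then Fin.last (r + 1) else (c e).castSucc) =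
          j.castSucc} = {e | e ∈ E \ F ∧ c e = j} := by
        ext e
        simp only [Set.mem_ofPred_eq, mem_sdiff]
        constructor
        · rintro ⟨h3, h4⟩
          split_ifs at h4 with h5
          · exact absurd h4.symm (Fin.castSucc_ne_last _)
          · exact ⟨⟨h3, h5⟩, Fin.castSucc_injective _ h4⟩
        · rintro ⟨⟨h3, h4⟩, h5⟩
          exact ⟨h3, by rw [if_neg h4, h5]⟩
      have e2 : {e | e ∈ E' ∧ (if e ∈ F.image (Sym2.map σ) then Fin.last (r + 1)
          else (c' e).castSucc) = j.castSucc} =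
          {e | e ∈ E' \ F.image (Sym2.map σ) ∧ c' e = j} := by
        ext e
        simp only [Set.mem_ofPred_eq, mem_sdiff]
        constructor
        · rintro ⟨h3, h4⟩
          split_ifs at h4 with h5
          · exact absurd h4.symm (Fin.castSucc_ne_last _)
          · exact ⟨⟨h3, h5⟩, Fin.castSucc_injective _ h4⟩
        · rintro ⟨⟨h3, h4⟩, h5⟩
          exact ⟨h3, by rw [if_neg h4, h5]⟩
      rw [e1, e2]
      exact hτ

/-! ### degrees -/

def nb (E : Finset (Sym2 V)) (x : V) : Finset V := univ.filter (fun z => s(x, z) ∈ E)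

def deg (E : Finset (Sym2 V)) (x : V) : ℕ := (nb E x).card

theorem mem_nb {E : Finset (Sym2 V)} {x z : V} : z ∈ nb E x ↔ s(x, z) ∈ E := by simp [nb]

theorem deg_mono {E F : Finset (Sym2 V)} (h : E ⊆ F) (x : V) : deg E x ≤ deg F x :=
  card_le_card (fun z hz => mem_nb.2 (h (mem_nb.1 hz)))

theorem deg_le (E : Finset (Sym2 V)) (x : V) : deg E x ≤ Fintype.card V := card_le_univ _

theorem deg_union (E F : Finset (Sym2 V)) (x : V) : deg (E ∪ F) x ≤ deg E x + deg F x := by
  unfold deg
  refine le_trans (card_le_card ?_) (card_union_le _ _)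
  intro z hz
  rw [mem_union, mem_nb, mem_nb]
  exact mem_union.1 (mem_nb.1 hz)

theorem inc_le (E : Finset (Sym2 V)) (x : V) : (E.filter (fun e => x ∈ e)).card ≤ deg E x := by
  have : E.filter (fun e => x ∈ e) ⊆ (nb E x).image (fun z => s(x, z)) := by
    intro e he
    rw [mem_filter] at he
    obtain ⟨z, rfl⟩ := he.2
    exact mem_image.2 ⟨z, mem_nb.2 he.1, rfl⟩
  exact (card_le_card this).trans card_image_le

theorem card_pairs (E : Finset (Sym2 V)) :
    ((univ : Finset (V × V)).filter (fun q => s(q.1, q.2) ∈ E)).card = ∑ x, deg E x := by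
  rw [← univ_product_univ, card_filter, sum_product]
  refine sum_congr rfl (fun x _ => ?_)
  rw [deg, nb, card_filter]

theorem sum_deg_ge (E : Finset (Sym2 V)) : E.card ≤ ∑ x, deg E x := by
  rw [← card_pairs]
  have : E ⊆ ((univ : Finset (V × V)).filter (fun q => s(q.1, q.2) ∈ E)).image
      (fun q => s(q.1, q.2)) := by
    intro e he
    induction e using Sym2.ind with
    | h a b => exact mem_image.2 ⟨(a, b), by simpa using he, rfl⟩
  exact (card_le_card this).trans card_image_le

theorem sum_deg_le (E : Finset (Sym2 V)) : ∑ x, deg E x ≤ 2 * E.card := by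
  rw [← card_pairs]
  refine card_le_mul_card_image_of_maps_to (f := fun q : V × V => s(q.1, q.2)) ?_ 2 ?_
  · intro q hq
    exact (mem_filter.1 hq).2
  · intro e _
    induction e using Sym2.ind with
    | h a b =>
      refine le_trans (card_le_card (t := {(a, b), (b, a)}) ?_) card_le_two
      intro q hq
      rw [mem_filter] at hq
      have := hq.2
      rw [Sym2.eq_iff] at this
      rw [mem_insert, mem_singleton]
      rcases this with ⟨h1, h2⟩ | ⟨h1, h2⟩
      · exact Or.inl (Prod.ext h1 h2)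
      · exact Or.inr (Prod.ext h1 h2)

/-! ### the reserved subgraph -/

theorem reserve (E : Finset (Sym2 V)) (D : ℕ) (hD : 0 < D) :
    ∃ E2 ⊆ E, (∀ x, deg E2 x ≤ D) ∧
      E.card * D ≤ E2.card * D + 2 * E2.card * Fintype.card V := by
  classical
  let S : Finset (Finset (Sym2 V)) := E.powerset.filter (fun E2 => ∀ x, deg E2 x ≤ D)
  have hne : S.Nonempty := ⟨∅, mem_filter.2 ⟨empty_mem_powerset _, fun x => by simp [deg, nb]⟩⟩
  obtain ⟨E2, hE2, hmax⟩ := S.exists_max_image card hne
  rw [mem_filter, mem_powerset] at hE2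
  obtain ⟨hsub, hdeg⟩ := hE2
  refine ⟨E2, hsub, hdeg, ?_⟩
  let T : Finset V := univ.filter (fun x => deg E2 x = D)
  have hcov : E \ E2 ⊆ T.biUnion (fun x => E.filter (fun e => x ∈ e)) := by
    intro e he
    rw [mem_sdiff] at he
    by_contra hcon
    have hnot : ∀ x ∈ e, deg E2 x < D := by
      intro x hx
      refine lt_of_le_of_ne (hdeg x) ?_
      intro hxD
      exact hcon (mem_biUnion.2 ⟨x, by simp [T, hxD], mem_filter.2 ⟨he.1, hx⟩⟩)
    have hins : insert e E2 ∈ S := by
      rw [mem_filter, mem_powerset]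
      refine ⟨insert_subset he.1 hsub, ?_⟩
      intro x
      by_cases hx : x ∈ e
      · obtain ⟨z, rfl⟩ := hx
        have : nb (insert s(x, z) E2) x ⊆ insert z (nb E2 x) := by
          intro w hw
          rw [mem_nb, mem_insert] at hw
          rw [mem_insert, mem_nb]
          rcases hw with hw | hw
          · left
            rw [Sym2.eq_iff] at hw
            rcases hw with ⟨_, h2⟩ | ⟨h1, h2⟩
            · exact h2
            · rw [h2, h1]
          · exact Or.inr hw
        have h1 := (card_le_card this).trans (card_insert_le _ _)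
        have h2 := hnot x (Sym2.mem_mk_left x z)
        unfold deg at h2 ⊢
        omega
      · have : nb (insert e E2) x = nb E2 x := by
          ext w
          rw [mem_nb, mem_nb, mem_insert]
          constructor
          · rintro (h | h)
            · exact absurd (h ▸ Sym2.mem_mk_left x w) hx
            · exact h
          · exact Or.inr
        unfold deg
        rw [this]
        exact hdeg x
    have := hmax _ hins
    rw [card_insert_of_notMem he.2] at this
    omega
  have h1 : (E \ E2).card ≤ T.card * Fintype.card V := by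
    refine (card_le_card hcov).trans (card_biUnion_le_card_mul _ _ _ ?_)
    intro x _
    exact (inc_le E x).trans (deg_le E x)
  have h2 : T.card * D ≤ 2 * E2.card := by
    refine le_trans ?_ (sum_deg_le E2)
    calc T.card * D = ∑ x ∈ T, deg E2 x := by
          rw [sum_congr rfl (fun x hx => (mem_filter.1 hx).2), sum_const, smul_eq_mul]
      _ ≤ ∑ x, deg E2 x := sum_le_sum_of_subset (subset_univ _)
  have h3 : E.card = E2.card + (E \ E2).card := by
    rw [card_sdiff_of_subset hsub]
    have := card_le_card hsub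
    omega
  calc E.card * D = E2.card * D + (E \ E2).card * D := by rw [h3, add_mul]
    _ ≤ E2.card * D + (T.card * Fintype.card V) * D := by
        exact Nat.add_le_add_left (Nat.mul_le_mul_right _ h1) _
    _ = E2.card * D + (T.card * D) * Fintype.card V := by ring
    _ ≤ E2.card * D + 2 * E2.card * Fintype.card V := by
        exact Nat.add_le_add_left (Nat.mul_le_mul_right _ h2) _


/-! ### one round -/

/-- number of shifts bringing `w` into `B` -/
theorem shift_count {N : ℕ} [NeZero N] (A B : Finset (ZMod N)) :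
    ∑ s : ZMod N, (A.filter (fun w => w + s ∈ B)).card = A.card * B.card := by
  simp_rw [card_filter]
  rw [sum_comm]
  have : ∀ w ∈ A, (∑ s : ZMod N, if w + s ∈ B then 1 else 0) = B.card := by
    intro w _
    rw [← card_filter]
    refine card_bij (fun s _ => w + s) (fun s hs => (mem_filter.1 hs).2)
      (fun s _ t _ h => add_left_cancel h) (fun b hb => ⟨b - w, ?_, by ring⟩)
    rw [mem_filter]
    exact ⟨mem_univ _, by rwa [add_sub_cancel]⟩
  rw [sum_congr rfl this, sum_const, smul_eq_mul]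

theorem round (E1 E' : Finset (Sym2 V)) (X Y : Finset V) (k a b : ℕ) (hX : X.card = k)
    (hY : Y.card = k) (hk : k < Fintype.card V) (hE1 : ∀ x ∈ X, a + k ≤ deg E1 x)
    (hE' : ∀ y ∈ Y, b + k ≤ deg E' y) :
    ∃ (σ : Equiv.Perm V) (F : Finset (Sym2 V)), F ⊆ E1 ∧ F.image (Sym2.map σ) ⊆ E' ∧
      (∀ e ∈ F, ∃ x ∈ X, ∃ z, z ∉ X ∧ e = s(x, z)) ∧
      k * (a * b) ≤ F.card * (Fintype.card V - k) := by
  classical
  -- a bijection taking `X` to `Y`
  obtain ⟨ψ, hψ⟩ : ∃ ψ : Equiv.Perm V, ∀ x, ψ x ∈ Y ↔ x ∈ X := by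
    have e : {x // x ∈ X} ≃ {y // y ∈ Y} := Finset.equivOfCardEq (hX.trans hY.symm)
    refine ⟨e.extendSubtype, fun x => ?_⟩
    constructor
    · intro h
      by_contra hx
      exact (e.extendSubtype_not_mem x hx) h
    · intro h
      exact e.extendSubtype_mem x h
  -- cyclic structure on the complement of `Y`
  obtain ⟨N, hN⟩ : ∃ N, N = Fintype.card V - k := ⟨_, rfl⟩
  have hNpos : 0 < N := by omega
  have : NeZero N := ⟨hNpos.ne'⟩
  have hcard : Fintype.card {y // y ∉ Y} = Fintype.card (ZMod N) := by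
    rw [ZMod.card, Fintype.card_subtype_compl, Fintype.card_coe, hY, hN]
  let eY : {y // y ∉ Y} ≃ ZMod N := Fintype.equivOfCardEq hcard
  let sh : ZMod N → Equiv.Perm {y // y ∉ Y} := fun s => (eY.trans (Equiv.addRight s)).trans eY.symm
  let τ : ZMod N → Equiv.Perm V := fun s => Equiv.Perm.ofSubtype (sh s)
  have τY : ∀ s, ∀ y ∈ Y, τ s y = y := by
    intro s y hy
    exact Equiv.Perm.ofSubtype_apply_of_not_mem _ (not_not.2 hy)
  have τN : ∀ s, ∀ y, ∀ hy : y ∉ Y, τ s y = (eY.symm (eY ⟨y, hy⟩ + s)).1 := by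
    intro s y hy
    exact Equiv.Perm.ofSubtype_apply_of_mem (p := fun y => y ∉ Y) _ hy
  let A : V → Finset V := fun x => (nb E1 x) \ X
  let B : V → Finset V := fun y => (nb E' y) \ Y
  have hA : ∀ x ∈ X, a ≤ (A x).card := by
    intro x hx
    have h1 := hE1 x hx
    have h2 : (nb E1 x).card ≤ (A x).card + X.card := by
      have : (nb E1 x).card - X.card ≤ (A x).card := le_card_sdiff X (nb E1 x)
      omega
    unfold deg at h1
    omega
  have hB : ∀ y ∈ Y, b ≤ (B y).card := by
    intro x hx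
    have h1 := hE' x hx
    have h2 : (nb E' x).card ≤ (B x).card + Y.card := by
      have : (nb E' x).card - Y.card ≤ (B x).card := le_card_sdiff Y (nb E' x)
      omega
    unfold deg at h1
    omega
  let Cs : ZMod N → V → Finset V := fun s x => (A x).filter (fun z => τ s (ψ z) ∈ B (ψ x))
  have hsum : ∀ x ∈ X, a * b ≤ ∑ s : ZMod N, (Cs s x).card := by
    intro x hx
    have hy : ψ x ∈ Y := (hψ x).2 hx
    -- transport to `ZMod N`
    let A' : Finset (ZMod N) := univ.filter (fun w => ψ.symm (eY.symm w).1 ∈ A x)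
    let B' : Finset (ZMod N) := univ.filter (fun w => (eY.symm w).1 ∈ B (ψ x))
    have hA' : A'.card = (A x).card := by
      refine card_bij (fun w _ => ψ.symm (eY.symm w).1) (fun w hw => (mem_filter.1 hw).2) ?_ ?_
      · intro w _ w' _ h
        exact eY.symm.injective (Subtype.ext (ψ.symm.injective h))
      · intro z hz
        have hz' : ψ z ∉ Y := fun h => (mem_sdiff.1 hz).2 ((hψ z).1 h)
        refine ⟨eY ⟨ψ z, hz'⟩, ?_, by simp⟩
        rw [mem_filter]
        exact ⟨mem_univ _, by simpa using hz⟩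
    have hB' : B'.card = (B (ψ x)).card := by
      refine card_bij (fun w _ => (eY.symm w).1) (fun w hw => (mem_filter.1 hw).2) ?_ ?_
      · intro w _ w' _ h
        exact eY.symm.injective (Subtype.ext h)
      · intro z hz
        have hz' : z ∉ Y := (mem_sdiff.1 hz).2
        refine ⟨eY ⟨z, hz'⟩, ?_, by simp⟩
        rw [mem_filter]
        exact ⟨mem_univ _, by simpa using hz⟩
    have hC : ∀ s, (A'.filter (fun w => w + s ∈ B')).card = (Cs s x).card := by
      intro s
      refine card_bij (fun w _ => ψ.symm (eY.symm w).1) ?_ ?_ ?_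
      · intro w hw
        rw [mem_filter] at hw
        have h1 := (mem_filter.1 hw.1).2
        have h2 := (mem_filter.1 hw.2).2
        rw [mem_filter]
        refine ⟨h1, ?_⟩
        rw [Equiv.apply_symm_apply, τN s _ (eY.symm w).2]
        simpa using h2
      · intro w _ w' _ h
        exact eY.symm.injective (Subtype.ext (ψ.symm.injective h))
      · intro z hz
        rw [mem_filter] at hz
        have hz' : ψ z ∉ Y := fun h => (mem_sdiff.1 hz.1).2 ((hψ z).1 h)
        refine ⟨eY ⟨ψ z, hz'⟩, ?_, by simp⟩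
        have h2 := hz.2
        rw [τN s _ hz'] at h2
        rw [mem_filter, mem_filter, mem_filter]
        exact ⟨⟨mem_univ _, by simpa using hz.1⟩, mem_univ _, h2⟩
    rw [← sum_congr rfl (fun s _ => hC s), shift_count, hA', hB']
    exact Nat.mul_le_mul (hA x hx) (hB _ hy)
  have htot : k * (a * b) ≤ ∑ s : ZMod N, ∑ x ∈ X, (Cs s x).card := by
    rw [sum_comm]
    calc k * (a * b) = ∑ x ∈ X, a * b := by rw [sum_const, smul_eq_mul, hX]
      _ ≤ _ := sum_le_sum hsum
  obtain ⟨s, hs⟩ : ∃ s : ZMod N, k * (a * b) ≤ (∑ x ∈ X, (Cs s x).card) * N := by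
    by_contra hcon
    push Not at hcon
    have h1 : (∑ s : ZMod N, (∑ x ∈ X, (Cs s x).card)) * N < N * (k * (a * b)) := by
      rw [sum_mul]
      calc ∑ s : ZMod N, (∑ x ∈ X, (Cs s x).card) * N < ∑ s : ZMod N, k * (a * b) :=
            sum_lt_sum_of_nonempty univ_nonempty (fun s _ => hcon s)
        _ = N * (k * (a * b)) := by rw [sum_const, card_univ, ZMod.card, smul_eq_mul]
    have h2 := Nat.mul_le_mul_right N htot
    rw [mul_comm N] at h1
    omega
  -- the removed graph
  let P : Finset (V × V) := (X ×ˢ (univ : Finset V)).filter (fun q => q.2 ∈ Cs s q.1)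
  have hPmem : ∀ q ∈ P, q.1 ∈ X ∧ q.2 ∉ X ∧ s(q.1, q.2) ∈ E1 ∧
      s(ψ q.1, τ s (ψ q.2)) ∈ E' := by
    intro q hq
    rw [mem_filter, mem_product] at hq
    obtain ⟨⟨h1, _⟩, h2⟩ := hq
    rw [mem_filter, mem_sdiff, mem_nb, mem_sdiff, mem_nb] at h2
    exact ⟨h1, h2.1.2, h2.1.1, h2.2.1⟩
  have hPcard : P.card = ∑ x ∈ X, (Cs s x).card := by
    rw [card_filter, sum_product]
    refine sum_congr rfl (fun x _ => ?_)
    rw [← card_filter]
    congr 1
    ext z
    simp
  have hinj : Set.InjOn (fun q : V × V => s(q.1, q.2)) (P : Set (V × V)) := by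
    intro q hq q' hq' h
    have h1 := hPmem q hq
    have h2 := hPmem q' hq'
    rcases Sym2.eq_iff.1 h with ⟨h3, h4⟩ | ⟨h3, h4⟩
    · exact Prod.ext h3 h4
    · exact absurd (h3 ▸ h1.1) h2.2.1
  refine ⟨τ s * ψ, P.image (fun q => s(q.1, q.2)), ?_, ?_, ?_, ?_⟩
  · intro e he
    obtain ⟨q, hq, rfl⟩ := mem_image.1 he
    exact (hPmem q hq).2.2.1
  · intro e he
    obtain ⟨f, hf, rfl⟩ := mem_image.1 he
    obtain ⟨q, hq, rfl⟩ := mem_image.1 hf
    have h := hPmem q hq
    have h2 : (τ s * ψ) q.1 = ψ q.1 := τY s _ ((hψ _).2 h.1)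
    rw [Sym2.map_mk]
    change s((τ s * ψ) q.1, (τ s * ψ) q.2) ∈ E'
    rw [h2]
    exact h.2.2.2
  · intro e he
    obtain ⟨q, hq, rfl⟩ := mem_image.1 he
    have h := hPmem q hq
    exact ⟨q.1, h.1, q.2, h.2.1, rfl⟩
  · rw [card_image_of_injOn hinj, hPcard, ← hN]
    exact hs


/-- a dense graph has many vertices of large degree -/
theorem many_high (E' : Finset (Sym2 V)) (K b : ℕ)
    (hM : Fintype.card V * (2 * K + b) < E'.card) :
    ∃ Y : Finset V, Y.card = K ∧ ∀ y ∈ Y, b + K ≤ deg E' y := by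
  classical
  let T : Finset V := univ.filter (fun y => b + K ≤ deg E' y)
  have hT : K ≤ T.card := by
    by_contra hcon
    push Not at hcon
    have h1 := sum_deg_ge E'
    have h2 : ∑ x, deg E' x ≤ T.card * Fintype.card V + Fintype.card V * (b + K) := by
      rw [← sum_filter_add_sum_filter_not univ (fun y => b + K ≤ deg E' y)]
      refine Nat.add_le_add ?_ ?_
      · calc ∑ x ∈ T, deg E' x ≤ ∑ x ∈ T, Fintype.card V := sum_le_sum (fun x _ => deg_le _ _)
          _ = _ := by rw [sum_const, smul_eq_mul]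
      · calc ∑ x ∈ univ.filter (fun y => ¬ (b + K ≤ deg E' y)), deg E' x
            ≤ ∑ x ∈ univ.filter (fun y => ¬ (b + K ≤ deg E' y)), (b + K) :=
              sum_le_sum (fun x hx => by
                have := (mem_filter.1 hx).2
                omega)
          _ ≤ _ := by
              rw [sum_const, smul_eq_mul]
              exact Nat.mul_le_mul_right _ (card_le_univ _)
    have h3 : T.card * Fintype.card V ≤ K * Fintype.card V := Nat.mul_le_mul_right _ hcon.le
    have h4 : Fintype.card V * (2 * K + b) = K * Fintype.card V + Fintype.card V * (b + K) := by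
      ring
    omega
  obtain ⟨Y, hY1, hY2⟩ := exists_subset_card_eq hT
  exact ⟨Y, hY2, fun y hy => (mem_filter.1 (hY1 hy)).2⟩

theorem phase1 (E2 : Finset (Sym2 V)) (D K a b : ℕ) (ha : 0 < a) (hb : 0 < b) (hK : 0 < K)
    (haD : a + K ≤ D + 1) (hKn : K < Fintype.card V)
    (hM : Fintype.card V * (2 * K + b) < E2.card) (m : ℕ) :
    ∀ E E' : Finset (Sym2 V), E2 ⊆ E → E.card = E'.card → (E \ E2).card ≤ m →
    ∃ r R R', Steps r E E' R R' ∧ E2 ⊆ R ∧
      r * (K * (a * b)) ≤ (E \ E2).card * Fintype.card V ∧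
      (univ.filter (fun x => D < deg (R \ E2) x)).card < K := by
  classical
  induction m with
  | zero =>
    intro E E' hE2 hcard hm
    refine ⟨0, E, E', Steps.refl _ _, hE2, by simp, ?_⟩
    have h0 : E \ E2 = ∅ := card_eq_zero.1 (Nat.le_zero.1 hm)
    have : univ.filter (fun x => D < deg (E \ E2) x) = ∅ := by
      rw [filter_eq_empty_iff]
      intro x _
      rw [h0]
      simp [deg, nb]
    rw [this, card_empty]
    exact hK
  | succ m ih =>
    intro E E' hE2 hcard hm
    by_cases hH : (univ.filter (fun x => D < deg (E \ E2) x)).card < K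
    · exact ⟨0, E, E', Steps.refl _ _, hE2, by simp, hH⟩
    · push Not at hH
      obtain ⟨X, hX1, hX2⟩ := exists_subset_card_eq hH
      have hE'card : Fintype.card V * (2 * K + b) < E'.card :=
        lt_of_lt_of_le hM ((card_le_card hE2).trans hcard.le)
      obtain ⟨Y, hY1, hY2⟩ := many_high E' K b hE'card
      obtain ⟨σ, F, hF1, hF2, -, hF4⟩ := round (E \ E2) E' X Y K a b hX2 hY1 hKn
        (fun x hx => haD.trans (mem_filter.1 (hX1 hx)).2) hY2
      have hFpos : 0 < F.card := by
        by_contra h0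
        have h1 : F.card = 0 := by omega
        rw [h1, zero_mul] at hF4
        have : 0 < K * (a * b) := by positivity
        omega
      have hFE : F ⊆ E := hF1.trans sdiff_subset
      have hE2F : E2 ⊆ E \ F := by
        intro e he
        rw [mem_sdiff]
        exact ⟨hE2 he, fun h => (mem_sdiff.1 (hF1 h)).2 he⟩
      have hsd : (E \ F) \ E2 = (E \ E2) \ F := by
        rw [sdiff_right_comm]
      have hcF : ((E \ E2) \ F).card + F.card = (E \ E2).card := by
        rw [card_sdiff_of_subset hF1]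
        have := card_le_card hF1
        omega
      obtain ⟨r, R, R', h1, h2, h3, h4⟩ := ih (E \ F) (E' \ F.image (Sym2.map σ)) hE2F (by
          rw [card_sdiff_of_subset hFE, card_sdiff_of_subset hF2,
            card_image_of_injective _ (map_inj σ), hcard])
          (by rw [hsd]; omega)
      refine ⟨r + 1, R, R', Steps.step σ F hFE hF2 h1, h2, ?_, h4⟩
      rw [hsd] at h3
      have h5 : F.card * (Fintype.card V - K) ≤ F.card * Fintype.card V :=
        Nat.mul_le_mul_left _ (Nat.sub_le _ _)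
      calc (r + 1) * (K * (a * b)) = r * (K * (a * b)) + K * (a * b) := by ring
        _ ≤ ((E \ E2) \ F).card * Fintype.card V + F.card * Fintype.card V := by omega
        _ = (E \ E2).card * Fintype.card V := by rw [← hcF]; ring

theorem deg_sdiff (E F : Finset (Sym2 V)) (x : V) (hF : F ⊆ E)
    (hx : ∀ e ∈ F, ∃ z, e = s(x, z)) : deg (E \ F) x + F.card ≤ deg E x := by
  classical
  have h1 : nb (E \ F) x ∪ nb F x ⊆ nb E x := by
    intro z hz
    rw [mem_union, mem_nb, mem_nb] at hz
    rw [mem_nb]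
    rcases hz with h | h
    · exact (mem_sdiff.1 h).1
    · exact hF h
  have h2 : Disjoint (nb (E \ F) x) (nb F x) := by
    rw [disjoint_left]
    intro z hz hz'
    rw [mem_nb] at hz hz'
    exact (mem_sdiff.1 hz).2 hz'
  have h3 : F.card ≤ (nb F x).card := by
    have : F ⊆ (nb F x).image (fun z => s(x, z)) := by
      intro e he
      obtain ⟨z, rfl⟩ := hx e he
      exact mem_image.2 ⟨z, mem_nb.2 he, rfl⟩
    exact (card_le_card this).trans card_image_le
  have h4 := card_le_card h1
  rw [card_union_of_disjoint h2] at h4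
  unfold deg
  omega

theorem phase2 (E2 : Finset (Sym2 V)) (H0 : Finset V) (D K a b : ℕ) (ha : 0 < a) (hb : 0 < b)
    (hK : 0 < K) (haD : a + K ≤ D + 1) (hKn : K < Fintype.card V)
    (hM : Fintype.card V * (2 * K + b) < E2.card) (m : ℕ) :
    ∀ E E' : Finset (Sym2 V), E2 ⊆ E → E.card = E'.card → (∑ x ∈ H0, deg (E \ E2) x) ≤ m →
    (∀ x, x ∉ H0 → deg (E \ E2) x ≤ D) →
    ∃ r R R', Steps r E E' R R' ∧ E2 ⊆ R ∧
      r * (a * b) ≤ (∑ x ∈ H0, deg (E \ E2) x) * Fintype.card V ∧
      ∀ x, deg (R \ E2) x ≤ D := by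
  classical
  induction m with
  | zero =>
    intro E E' hE2 hcard hm hD
    refine ⟨0, E, E', Steps.refl _ _, hE2, by simp, ?_⟩
    intro x
    by_cases hx : x ∈ H0
    · have : deg (E \ E2) x ≤ ∑ x ∈ H0, deg (E \ E2) x :=
        single_le_sum (f := fun x => deg (E \ E2) x) (fun _ _ => Nat.zero_le _) hx
      omega
    · exact hD x hx
  | succ m ih =>
    intro E E' hE2 hcard hm hD
    by_cases hH : ∀ x, deg (E \ E2) x ≤ D
    · exact ⟨0, E, E', Steps.refl _ _, hE2, by simp, hH⟩
    · push Not at hH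
      obtain ⟨x, hx⟩ := hH
      have hxH : x ∈ H0 := by
        by_contra h
        exact absurd (hD x h) (by omega)
      have hE'card : Fintype.card V * (2 * 1 + b) < E'.card := by
        refine lt_of_le_of_lt (Nat.mul_le_mul_left _ ?_)
          (lt_of_lt_of_le hM ((card_le_card hE2).trans hcard.le))
        omega
      obtain ⟨Y, hY1, hY2⟩ := many_high E' 1 b hE'card
      obtain ⟨σ, F, hF1, hF2, hF3, hF4⟩ := round (E \ E2) E' {x} Y 1 a b (card_singleton x) hY1
        (by omega) (fun y hy => by rw [mem_singleton.1 hy]; omega) hY2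
      have hFx : ∀ e ∈ F, ∃ z, e = s(x, z) := by
        intro e he
        obtain ⟨y, hy, z, -, hz⟩ := hF3 e he
        rw [mem_singleton.1 hy] at hz
        exact ⟨z, hz⟩
      have hFpos : 0 < F.card := by
        by_contra h0
        have h1 : F.card = 0 := by omega
        rw [h1, zero_mul] at hF4
        have : 0 < 1 * (a * b) := by positivity
        omega
      have hFE : F ⊆ E := hF1.trans sdiff_subset
      have hE2F : E2 ⊆ E \ F := by
        intro e he
        rw [mem_sdiff]
        exact ⟨hE2 he, fun h => (mem_sdiff.1 (hF1 h)).2 he⟩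
      have hsd : (E \ F) \ E2 = (E \ E2) \ F := by
        rw [sdiff_right_comm]
      have hcF : (∑ y ∈ H0, deg ((E \ E2) \ F) y) + F.card ≤ ∑ y ∈ H0, deg (E \ E2) y := by
        rw [← add_sum_erase _ _ hxH, ← add_sum_erase H0 (fun y => deg (E \ E2) y) hxH]
        have h1 := deg_sdiff (E \ E2) F x hF1 hFx
        have h2 : ∑ y ∈ H0.erase x, deg ((E \ E2) \ F) y ≤ ∑ y ∈ H0.erase x, deg (E \ E2) y :=
          sum_le_sum (fun y _ => deg_mono sdiff_subset y)
        omega
      obtain ⟨r, R, R', h1, h2, h3, h4⟩ := ih (E \ F) (E' \ F.image (Sym2.map σ)) hE2F (by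
          rw [card_sdiff_of_subset hFE, card_sdiff_of_subset hF2,
            card_image_of_injective _ (map_inj σ), hcard])
          (by rw [hsd]; omega)
          (fun y hy => by rw [hsd]; exact (deg_mono sdiff_subset y).trans (hD y hy))
      refine ⟨r + 1, R, R', Steps.step σ F hFE hF2 h1, h2, ?_, h4⟩
      rw [hsd] at h3
      have h5 : F.card * (Fintype.card V - 1) ≤ F.card * Fintype.card V :=
        Nat.mul_le_mul_left _ (Nat.sub_le _ _)
      calc (r + 1) * (a * b) = r * (a * b) + 1 * (a * b) := by ring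
        _ ≤ (∑ y ∈ H0, deg ((E \ E2) \ F) y) * Fintype.card V + F.card * Fintype.card V := by
            omega
        _ = ((∑ y ∈ H0, deg ((E \ E2) \ F) y) + F.card) * Fintype.card V := by ring
        _ ≤ (∑ y ∈ H0, deg (E \ E2) y) * Fintype.card V := Nat.mul_le_mul_right _ hcF

theorem card_le_sq (E : Finset (Sym2 V)) : E.card ≤ Fintype.card V ^ 2 := by
  refine (sum_deg_ge E).trans ?_
  calc ∑ x, deg E x ≤ ∑ x : V, Fintype.card V := sum_le_sum (fun x _ => deg_le _ _)
    _ = Fintype.card V ^ 2 := by rw [sum_const, card_univ, smul_eq_mul, sq]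

theorem phase (E E' : Finset (Sym2 V)) (hEE : E.card = E'.card) (D K a b M : ℕ) (hD : 0 < D)
    (ha : 0 < a) (hb : 0 < b) (hK : 0 < K) (haD : a + K ≤ D + 1) (hKn : K < Fintype.card V)
    (hM : Fintype.card V * (2 * K + b) < M)
    (hM2 : M * (D + 2 * Fintype.card V) ≤ E.card * D) :
    ∃ r R R', Steps r E E' R R' ∧ (∀ x, deg R x ≤ 2 * D) ∧ M ≤ R.card ∧
      r * (K * (a * b)) ≤ Fintype.card V ^ 3 + K ^ 2 * Fintype.card V ^ 2 := by
  classical
  obtain ⟨E2, hE2, hE2D, hE2c⟩ := reserve E D hD
  have hME2 : M ≤ E2.card := by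
    have h1 : M * (D + 2 * Fintype.card V) ≤ E2.card * (D + 2 * Fintype.card V) := by
      refine hM2.trans (hE2c.trans (le_of_eq ?_))
      ring
    exact Nat.le_of_mul_le_mul_right h1 (by omega)
  have hM' : Fintype.card V * (2 * K + b) < E2.card := lt_of_lt_of_le hM hME2
  obtain ⟨r1, R1, R1', s1, s2, s3, s4⟩ := phase1 E2 D K a b ha hb hK haD hKn hM' _ E E' hE2 hEE
    le_rfl
  have hsub := s1.sub
  obtain ⟨r2, R2, R2', t1, t2, t3, t4⟩ := phase2 E2 (univ.filter (fun x => D < deg (R1 \ E2) x))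
    D K a b ha hb hK haD hKn hM' _ R1 R1' s2 (by omega) le_rfl
    (fun x hx => by
      by_contra h
      exact hx (mem_filter.2 ⟨mem_univ _, by omega⟩))
  refine ⟨r1 + r2, R2, R2', s1.trans t1, ?_, hME2.trans (card_le_card t2), ?_⟩
  · intro x
    have h1 : R2 ⊆ (R2 \ E2) ∪ E2 := by
      rw [sdiff_union_self_eq_union]
      exact subset_union_left
    have h2 := (deg_mono h1 x).trans (deg_union _ _ _)
    have h3 := t4 x
    have h4 := hE2D x
    omega
  · have h1 : (E \ E2).card ≤ Fintype.card V ^ 2 := card_le_sq _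
    have h2 : ∑ x ∈ univ.filter (fun x => D < deg (R1 \ E2) x), deg (R1 \ E2) x ≤
        K * Fintype.card V := by
      calc _ ≤ ∑ x ∈ univ.filter (fun x => D < deg (R1 \ E2) x), Fintype.card V :=
            sum_le_sum (fun x _ => deg_le _ _)
        _ = _ := by rw [sum_const, smul_eq_mul]
        _ ≤ _ := Nat.mul_le_mul_right _ s4.le
    calc (r1 + r2) * (K * (a * b)) = r1 * (K * (a * b)) + K * (r2 * (a * b)) := by ring
      _ ≤ (E \ E2).card * Fintype.card V +
          K * ((∑ x ∈ univ.filter (fun x => D < deg (R1 \ E2) x), deg (R1 \ E2) x) *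
            Fintype.card V) := Nat.add_le_add s3 (Nat.mul_le_mul_left _ t3)
      _ ≤ Fintype.card V ^ 2 * Fintype.card V + K * ((K * Fintype.card V) * Fintype.card V) :=
          Nat.add_le_add (Nat.mul_le_mul_right _ h1)
            (Nat.mul_le_mul_left _ (Nat.mul_le_mul_right _ h2))
      _ = _ := by ring

/-! ### final stage: edge colouring -/

def Proper (E : Finset (Sym2 V)) (c : Sym2 V → ℕ) : Prop :=
  ∀ e ∈ E, ∀ f ∈ E, e ≠ f → (∃ x, x ∈ e ∧ x ∈ f) → c e ≠ c f

theorem coloring (Δ : ℕ) (E : Finset (Sym2 V)) : (∀ e ∈ E, ¬ e.IsDiag) →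
    (∀ x, deg E x ≤ Δ) → ∃ c : Sym2 V → ℕ, (∀ e ∈ E, c e < 2 * Δ) ∧ Proper E c := by
  classical
  induction E using Finset.induction_on with
  | empty => exact fun _ _ => ⟨fun _ => 0, by simp, by intro e he; simp at he⟩
  | insert e E he ih =>
    intro hnd hdeg
    obtain ⟨c, hc1, hc2⟩ := ih (fun f hf => hnd f (mem_insert_of_mem hf))
      (fun x => (deg_mono (subset_insert _ _) x).trans (hdeg x))
    have hlt : ∀ x ∈ e, deg E x + 1 ≤ Δ := by
      intro x hx
      obtain ⟨z, rfl⟩ := hx
      refine le_trans ?_ (hdeg x)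
      have h1 : insert z (nb E x) ⊆ nb (insert s(x, z) E) x := by
        intro w hw
        rw [mem_insert, mem_nb] at hw
        rw [mem_nb, mem_insert]
        rcases hw with rfl | hw
        · exact Or.inl rfl
        · exact Or.inr hw
      have h2 : z ∉ nb E x := fun h => he (mem_nb.1 h)
      have h3 := card_le_card h1
      rw [card_insert_of_notMem h2] at h3
      exact h3
    obtain ⟨k, hk1, hk2⟩ : ∃ k < 2 * Δ, ∀ f ∈ E, (∃ x, x ∈ e ∧ x ∈ f) → c f ≠ k := by
      induction e using Sym2.ind with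
      | h u v =>
        let B : Finset ℕ := ((E.filter (fun f => u ∈ f)) ∪ (E.filter (fun f => v ∈ f))).image c
        have hB : B.card < 2 * Δ := by
          have h1 := hlt u (Sym2.mem_mk_left u v)
          have h2 := hlt v (Sym2.mem_mk_right u v)
          have h3 := inc_le E u
          have h4 := inc_le E v
          have h5 : B.card ≤ (E.filter (fun f => u ∈ f)).card + (E.filter (fun f => v ∈ f)).card :=
            card_image_le.trans (card_union_le _ _)
          omega
        obtain ⟨k, hk, hkB⟩ : ∃ k ∈ range (2 * Δ), k ∉ B := by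
          by_contra hcon
          push Not at hcon
          have := card_le_card (show range (2 * Δ) ⊆ B from hcon)
          rw [card_range] at this
          omega
        refine ⟨k, mem_range.1 hk, ?_⟩
        rintro f hf ⟨x, hx1, hx2⟩ hck
        apply hkB
        refine mem_image.2 ⟨f, ?_, hck⟩
        rw [mem_union, mem_filter, mem_filter]
        rcases Sym2.mem_iff.1 hx1 with rfl | rfl
        · exact Or.inl ⟨hf, hx2⟩
        · exact Or.inr ⟨hf, hx2⟩
    refine ⟨Function.update c e k, ?_, ?_⟩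
    · intro f hf
      rcases mem_insert.1 hf with rfl | hf
      · simpa using hk1
      · have : f ≠ e := fun h => he (h ▸ hf)
        rw [Function.update_of_ne this]
        exact hc1 f hf
    · intro f hf g hg hfg hx
      rcases mem_insert.1 hf with rfl | hf'
      · rcases mem_insert.1 hg with rfl | hg'
        · exact absurd rfl hfg
        · rw [Function.update_self, Function.update_of_ne hfg.symm]
          exact (hk2 g hg' hx).symm
      · have hfe : f ≠ e := fun h => he (h ▸ hf')
        rcases mem_insert.1 hg with rfl | hg'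
        · rw [Function.update_self, Function.update_of_ne hfe]
          exact hk2 f hf' (by obtain ⟨x, h1, h2⟩ := hx; exact ⟨x, h2, h1⟩)
        · have hge : g ≠ e := fun h => he (h ▸ hg')
          rw [Function.update_of_ne hfe, Function.update_of_ne hge]
          exact hc2 f hf' g hg' hfg hx

def Matching (F : Finset (Sym2 V)) : Prop :=
  ∀ e ∈ F, ∀ f ∈ F, (∃ x, x ∈ e ∧ x ∈ f) → e = f

theorem matching_iso (F F' : Finset (Sym2 V)) (hF : Matching F) (hF' : Matching F')
    (hd : ∀ e ∈ F, ¬ e.IsDiag) (hd' : ∀ e ∈ F', ¬ e.IsDiag) (hc : F.card = F'.card) :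
    ∃ σ : Equiv.Perm V, F.image (Sym2.map σ) = F' := by
  classical
  have hrep : ∀ e : Sym2 V, ∃ q : Bool → V, e = s(q true, q false) := by
    intro e
    induction e using Sym2.ind with
    | h u v => exact ⟨fun b => if b then u else v, by simp⟩
  choose q hq using hrep
  have hqm : ∀ e b, q e b ∈ e := by
    intro e b
    have h : q e b ∈ s(q e true, q e false) := by
      cases b
      · exact Sym2.mem_mk_right _ _
      · exact Sym2.mem_mk_left _ _
    rwa [← hq e] at h
  have hinj : ∀ G : Finset (Sym2 V), Matching G → (∀ e ∈ G, ¬ e.IsDiag) →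
      Function.Injective (fun u : {e // e ∈ G} × Bool => q u.1.1 u.2) := by
    rintro G hG hGd ⟨⟨e, he⟩, b⟩ ⟨⟨f, hf⟩, c⟩ h
    simp only at h
    have h1 : e = f := hG e he f hf ⟨q e b, hqm e b, h ▸ hqm f c⟩
    subst h1
    have h2 : q e true ≠ q e false := by
      intro h3
      apply hGd e he
      rw [hq e]
      exact h3
    have h3 : b = c := by
      cases b <;> cases c
      · rfl
      · exact absurd h.symm h2
      · exact absurd h h2
      · rfl
    rw [h3]
  let g : {e // e ∈ F} ≃ {e // e ∈ F'} := Finset.equivOfCardEq hc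
  let i : {e // e ∈ F} × Bool → V := fun u => q u.1.1 u.2
  let j : {e // e ∈ F} × Bool → V := fun u => q (g u.1).1 u.2
  have hi : Function.Injective i := hinj F hF hd
  have hj : Function.Injective j := by
    intro u v huv
    have := hinj F' hF' hd' (a₁ := (g u.1, u.2)) (a₂ := (g v.1, v.2)) huv
    have h1 := g.injective (congrArg Prod.fst this)
    have h2 := congrArg Prod.snd this
    exact Prod.ext h1 h2
  let e0 : {x // x ∈ Set.range i} ≃ {x // x ∈ Set.range j} :=
    (Equiv.ofInjective i hi).symm.trans (Equiv.ofInjective j hj)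
  let σ : Equiv.Perm V := e0.extendSubtype
  have hσ : ∀ u, σ (i u) = j u := by
    intro u
    have h1 : σ (i u) = e0 ⟨i u, ⟨u, rfl⟩⟩ := Equiv.extendSubtype_apply_of_mem e0 _ ⟨u, rfl⟩
    rw [h1]
    have h2 : (Equiv.ofInjective i hi).symm ⟨i u, ⟨u, rfl⟩⟩ = u := by
      rw [Equiv.symm_apply_eq]
      rfl
    change ((Equiv.ofInjective j hj) ((Equiv.ofInjective i hi).symm ⟨i u, ⟨u, rfl⟩⟩)).1 = j u
    rw [h2]
    rfl
  refine ⟨σ, ?_⟩
  apply eq_of_subset_of_card_le
  · intro e he
    obtain ⟨f, hf, rfl⟩ := mem_image.1 he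
    have h1 := hσ (⟨f, hf⟩, true)
    have h2 := hσ (⟨f, hf⟩, false)
    have h3 : Sym2.map σ f = (g ⟨f, hf⟩).1 := by
      rw [hq (g ⟨f, hf⟩).1]
      conv_lhs => rw [hq f]
      rw [Sym2.map_mk]
      change s(σ (q f true), σ (q f false)) = _
      rw [show σ (q f true) = q (g ⟨f, hf⟩).1 true from h1,
        show σ (q f false) = q (g ⟨f, hf⟩).1 false from h2]
    rw [h3]
    exact (g ⟨f, hf⟩).2
  · rw [card_image_of_injective _ (map_inj σ), hc]

theorem final (k : ℕ) : ∀ (p q : ℕ) (E E' : Finset (Sym2 V)) (c c' : Sym2 V → ℕ), p + q = k →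
    E.card = E'.card → (∀ e ∈ E, ¬ e.IsDiag) → (∀ e ∈ E', ¬ e.IsDiag) →
    (∀ e ∈ E, c e < p) → (∀ e ∈ E', c' e < q) → Proper E c → Proper E' c' →
    Steps k E E' ∅ ∅ := by
  classical
  induction k with
  | zero =>
    intro p q E E' c c' hpq hcard hd hd' hc hc' hP hP'
    have h1 : E = ∅ := by
      rw [eq_empty_iff_forall_notMem]
      intro e he
      have := hc e he
      omega
    have h2 : E' = ∅ := by
      rw [eq_empty_iff_forall_notMem]
      intro e he
      have := hc' e he
      omega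
    rw [h1, h2]
    exact Steps.refl _ _
  | succ k ih =>
    intro p q E E' c c' hpq hcard hd hd' hc hc' hP hP'
    by_cases hp : p = 0
    · have h1 : E = ∅ := by
        rw [eq_empty_iff_forall_notMem]
        intro e he
        have := hc e he
        omega
      have h2 : E' = ∅ := by
        rw [h1, card_empty] at hcard
        exact card_eq_zero.1 hcard.symm
      rw [h1, h2]
      exact (Steps.refl _ _).mono (Nat.zero_le _)
    by_cases hq : q = 0
    · have h1 : E' = ∅ := by
        rw [eq_empty_iff_forall_notMem]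
        intro e he
        have := hc' e he
        omega
      have h2 : E = ∅ := by
        rw [h1, card_empty] at hcard
        exact card_eq_zero.1 hcard
      rw [h1, h2]
      exact (Steps.refl _ _).mono (Nat.zero_le _)
    -- main step
    let M := E.filter (fun e => c e = p - 1)
    let M' := E'.filter (fun e => c' e = q - 1)
    have hM : Matching M := by
      intro e he f hf hx
      by_contra hne
      rw [mem_filter] at he hf
      exact hP e he.1 f hf.1 hne hx (he.2.trans hf.2.symm)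
    have hM' : Matching M' := by
      intro e he f hf hx
      by_contra hne
      rw [mem_filter] at he hf
      exact hP' e he.1 f hf.1 hne hx (he.2.trans hf.2.symm)
    have sub_match : ∀ {A B : Finset (Sym2 V)}, A ⊆ B → Matching B → Matching A :=
      fun h hB e he f hf hx => hB e (h he) f (h hf) hx
    have sub_proper : ∀ {A B : Finset (Sym2 V)} {c : Sym2 V → ℕ}, A ⊆ B → Proper B c →
        Proper A c := fun h hB e he f hf hx => hB e (h he) f (h hf) hx
    rcases le_total M.card M'.card with hle | hle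
    · obtain ⟨F', hF'1, hF'2⟩ := exists_subset_card_eq hle
      have hME : M ⊆ E := filter_subset _ _
      have hF'E : F' ⊆ E' := hF'1.trans (filter_subset _ _)
      obtain ⟨σ, hσ⟩ := matching_iso M F' hM (sub_match hF'1 hM') (fun e he => hd e (hME he))
        (fun e he => hd' e (hF'E he)) hF'2.symm
      have h3 := ih (p - 1) q (E \ M) (E' \ F') c c' (by omega) (by
          rw [card_sdiff_of_subset hME, card_sdiff_of_subset hF'E, hF'2, hcard])
        (fun e he => hd e (mem_sdiff.1 he).1) (fun e he => hd' e (mem_sdiff.1 he).1)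
        (fun e he => by
          rw [mem_sdiff] at he
          have h4 := hc e he.1
          have h5 : c e ≠ p - 1 := fun h => he.2 (mem_filter.2 ⟨he.1, h⟩)
          omega)
        (fun e he => hc' e (mem_sdiff.1 he).1)
        (sub_proper sdiff_subset hP) (sub_proper sdiff_subset hP')
      rw [← hσ] at h3
      exact Steps.step σ M hME (by rw [hσ]; exact hF'E) h3
    · obtain ⟨F, hF1, hF2⟩ := exists_subset_card_eq hle
      have hME : M' ⊆ E' := filter_subset _ _
      have hFE : F ⊆ E := hF1.trans (filter_subset _ _)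
      obtain ⟨σ, hσ⟩ := matching_iso F M' (sub_match hF1 hM) hM' (fun e he => hd e (hFE he))
        (fun e he => hd' e (hME he)) hF2
      have h3 := ih p (q - 1) (E \ F) (E' \ M') c c' (by omega) (by
          rw [card_sdiff_of_subset hFE, card_sdiff_of_subset hME, hF2, hcard])
        (fun e he => hd e (mem_sdiff.1 he).1) (fun e he => hd' e (mem_sdiff.1 he).1)
        (fun e he => hc e (mem_sdiff.1 he).1)
        (fun e he => by
          rw [mem_sdiff] at he
          have h4 := hc' e he.1
          have h5 : c' e ≠ q - 1 := fun h => he.2 (mem_filter.2 ⟨he.1, h⟩)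
          omega)
        (sub_proper sdiff_subset hP) (sub_proper sdiff_subset hP')
      rw [← hσ] at h3
      exact Steps.step σ F hFE (by rw [hσ]; exact hME) h3


theorem phase_real (ε η κ : ℝ) (hε : 0 < ε) (hη : 0 < η) (hη1 : η ≤ 1) (hκ : 0 < κ) :
    ∃ μ : ℝ, 0 < μ ∧ ∃ N : ℕ, ∀ (n : ℕ), N ≤ n →
      ∀ E E' : Finset (Sym2 (Fin n)), E.card = E'.card → ε * (n : ℝ) ^ 2 ≤ (E.card : ℝ) →
      ∃ r R R', Steps r E E' R R' ∧ (∀ x, deg R x ≤ 2 * ⌊η * (n : ℝ)⌋₊) ∧
        μ * (n : ℝ) ^ 2 ≤ (R.card : ℝ) ∧ (r : ℝ) ≤ κ * (n : ℝ) := by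
  obtain ⟨μ, hμ⟩ : ∃ μ, μ = ε * η / 6 := ⟨_, rfl⟩
  have hμ0 : 0 < μ := by rw [hμ]; positivity
  obtain ⟨K, hK⟩ := exists_nat_ge (64 / (η * μ * κ) + 1)
  have hK1 : (1 : ℝ) ≤ K := by
    have : 0 < 64 / (η * μ * κ) := by positivity
    linarith
  have hKpos : 0 < K := by exact_mod_cast (lt_of_lt_of_le one_pos hK1)
  have hK64 : 64 ≤ κ * K * η * μ := by
    have h1 : 64 / (η * μ * κ) ≤ K := by linarith
    rw [div_le_iff₀ (by positivity)] at h1
    linarith
  obtain ⟨N, hN⟩ := exists_nat_ge (4 + 4 * K / η + 16 * K / μ + 8 / μ + 64 * K / (η * μ * κ) + K)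
  refine ⟨μ / 2, by positivity, N, ?_⟩
  intro n hn E E' hEE hE
  have hnN : (N : ℝ) ≤ n := by exact_mod_cast hn
  have p1 : 0 < 4 * K / η := by positivity
  have p2 : 0 < 16 * K / μ := by positivity
  have p3 : 0 < 8 / μ := by positivity
  have p4 : 0 < 64 * K / (η * μ * κ) := by positivity
  have q0 : (4 : ℝ) ≤ n := by linarith
  have q1 : 4 * K ≤ η * n := by
    have : 4 * K / η ≤ n := by linarith
    rw [div_le_iff₀ hη] at this
    linarith
  have q2 : 16 * K ≤ μ * n := by
    have : 16 * K / μ ≤ n := by linarith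
    rw [div_le_iff₀ hμ0] at this
    linarith
  have q3 : 8 ≤ μ * n := by
    have : 8 / μ ≤ n := by linarith
    rw [div_le_iff₀ hμ0] at this
    linarith
  have q4 : 64 * K ≤ κ * η * μ * n := by
    have : 64 * K / (η * μ * κ) ≤ n := by linarith
    rw [div_le_iff₀ (by positivity)] at this
    linarith
  have q5 : (K : ℝ) < n := by linarith
  have hnpos : (0 : ℝ) < n := by linarith
  obtain ⟨D, hD⟩ : ∃ D, D = ⌊η * (n : ℝ)⌋₊ := ⟨_, rfl⟩
  have hD1 : (D : ℝ) ≤ η * n := by rw [hD]; exact Nat.floor_le (by positivity)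
  have hD2 : η * n < D + 1 := by rw [hD]; exact Nat.lt_floor_add_one _
  have hDK : 4 * K ≤ D := by
    have : (4 * K : ℝ) < D + 1 := by linarith
    have : 4 * K < D + 1 := by exact_mod_cast this
    omega
  obtain ⟨a, ha⟩ : ∃ a, a = D + 1 - K := ⟨_, rfl⟩
  have ha' : (a : ℝ) = D + 1 - K := by
    rw [ha, Nat.cast_sub (by omega)]
    push_cast
    ring
  have ha2 : η * n / 2 ≤ a := by rw [ha']; linarith
  obtain ⟨b, hb⟩ : ∃ b, b = ⌊μ * (n : ℝ) / 4⌋₊ := ⟨_, rfl⟩
  have hb1 : (b : ℝ) ≤ μ * n / 4 := by rw [hb]; exact Nat.floor_le (by positivity)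
  have hb2 : μ * n / 4 < b + 1 := by rw [hb]; exact Nat.lt_floor_add_one _
  have hb3 : μ * n / 8 ≤ b := by linarith
  have hbpos : 0 < b := by
    have : (0 : ℝ) < b := by linarith
    exact_mod_cast this
  obtain ⟨M, hM⟩ : ∃ M, M = ⌊μ * (n : ℝ) ^ 2⌋₊ := ⟨_, rfl⟩
  have hM1 : (M : ℝ) ≤ μ * n ^ 2 := by rw [hM]; exact Nat.floor_le (by positivity)
  have hM2 : μ * n ^ 2 < M + 1 := by rw [hM]; exact Nat.lt_floor_add_one _
  have hcard : Fintype.card (Fin n) = n := Fintype.card_fin n
  have hμn2 : 8 * (n : ℝ) ≤ μ * n ^ 2 := by nlinarith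
  have c1 : Fintype.card (Fin n) * (2 * K + b) < M := by
    rw [hcard]
    have : (n : ℝ) * (2 * K + b) < M := by
      have h1 : (n : ℝ) * (2 * K) ≤ μ * n ^ 2 / 8 := by nlinarith
      have h2 : (n : ℝ) * b ≤ μ * n ^ 2 / 4 := by nlinarith
      nlinarith
    exact_mod_cast this
  have c2 : M * (D + 2 * Fintype.card (Fin n)) ≤ E.card * D := by
    rw [hcard]
    have : (M : ℝ) * (D + 2 * n) ≤ E.card * D := by
      have h1 : (M : ℝ) * (D + 2 * n) ≤ (μ * n ^ 2) * (3 * n) := by
        apply mul_le_mul hM1 _ (by positivity) (by positivity)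
        nlinarith
      have h2 : (ε * n ^ 2) * (η * n / 2) ≤ E.card * D := by
        apply mul_le_mul hE _ (by positivity) (by positivity)
        linarith
      have h3 : (μ * (n : ℝ) ^ 2) * (3 * n) = (ε * n ^ 2) * (η * n / 2) := by
        rw [hμ]; ring
      linarith
    exact_mod_cast this
  have hKn : K < Fintype.card (Fin n) := by
    rw [hcard]; exact_mod_cast q5
  obtain ⟨r, R, R', s1, s2, s3, s4⟩ := phase E E' hEE D K a b M (by omega) (by omega) hbpos hKpos
    (by omega) hKn c1 c2
  refine ⟨r, R, R', s1, ?_, ?_, ?_⟩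
  · intro x
    rw [← hD]
    exact s2 x
  · have : (M : ℝ) ≤ R.card := by exact_mod_cast s3
    nlinarith
  · rw [hcard] at s4
    have s4' : (r : ℝ) * (K * (a * b)) ≤ (n : ℝ) ^ 3 + K ^ 2 * n ^ 2 := by exact_mod_cast s4
    by_contra hcon
    push Not at hcon
    have h1 : (η * n / 2) * (μ * n / 8) ≤ (a : ℝ) * b :=
      mul_le_mul ha2 hb3 (by positivity) (by positivity)
    have h2 : (K : ℝ) * ((η * n / 2) * (μ * n / 8)) ≤ K * (a * b) :=
      mul_le_mul_of_nonneg_left h1 (by positivity)
    have h3 : (κ * n) * (K * ((η * n / 2) * (μ * n / 8))) ≤ r * (K * (a * b)) :=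
      mul_le_mul hcon.le h2 (by positivity) (by positivity)
    have h4 : (κ * n) * (K * ((η * n / 2) * (μ * n / 8))) = (κ * K * η * μ) * n ^ 3 / 16 := by
      ring
    have h5 : 4 * (n : ℝ) ^ 3 ≤ (κ * K * η * μ) * n ^ 3 / 16 := by
      have : 64 * (n : ℝ) ^ 3 ≤ (κ * K * η * μ) * n ^ 3 :=
        mul_le_mul_of_nonneg_right hK64 (by positivity)
      linarith
    have h6 : 4 * ((K : ℝ) ^ 2 * n ^ 2) ≤ (κ * K * η * μ) * n ^ 3 / 16 := by
      have : (64 * K) * (K * (n : ℝ) ^ 2) ≤ (κ * η * μ * n) * (K * (n : ℝ) ^ 2) :=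
        mul_le_mul_of_nonneg_right q4 (by positivity)
      nlinarith
    have h7 : 0 < (n : ℝ) ^ 3 := by positivity
    have h8 : 0 ≤ (K : ℝ) ^ 2 * n ^ 2 := by positivity
    linarith

theorem main (ε : ℝ) (hε : 0 < ε) (δ : ℝ) (hδ : 0 < δ) : ∃ N : ℕ, ∀ n : ℕ, N ≤ n →
    ∀ E E' : Finset (Sym2 (Fin n)), (∀ e ∈ E, ¬ e.IsDiag) → (∀ e ∈ E', ¬ e.IsDiag) →
      E.card = E'.card → ε * (n : ℝ) ^ 2 ≤ (E.card : ℝ) →
      ∃ r : ℕ, ((r + 1 : ℕ) : ℝ) ≤ δ * (n : ℝ) ∧ Steps r E E' ∅ ∅ := by
  obtain ⟨η, hη⟩ : ∃ η, η = min (δ / 32) 1 := ⟨_, rfl⟩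
  have hη0 : 0 < η := by rw [hη]; positivity
  have hη1 : η ≤ 1 := by rw [hη]; exact min_le_right _ _
  have hη2 : η ≤ δ / 32 := by rw [hη]; exact min_le_left _ _
  obtain ⟨μ, hμ, N1, hN1⟩ := phase_real ε η (δ / 8) hε hη0 hη1 (by positivity)
  obtain ⟨μ', hμ', N2, hN2⟩ := phase_real μ η (δ / 8) hμ hη0 hη1 (by positivity)
  obtain ⟨N3, hN3⟩ := exists_nat_ge (4 / δ)
  refine ⟨max N1 (max N2 N3), ?_⟩
  intro n hn E E' hd hd' hEE hE
  obtain ⟨r, R, R', s1, s2, s3, s4⟩ := hN1 n (le_trans (le_max_left _ _) hn) E E' hEE hE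
  have hsub := s1.sub
  have hRR : R.card = R'.card := by omega
  obtain ⟨t, Q', Q, t1, t2, t3, t4⟩ := hN2 n
    (le_trans (le_trans (le_max_left _ _) (le_max_right _ _)) hn) R' R hRR.symm
    (by rw [← hRR]; exact s3)
  have t1' := t1.symm
  have hsub' := t1'.sub
  have hQQ : Q.card = Q'.card := by omega
  obtain ⟨D, hD⟩ : ∃ D, D = ⌊η * (n : ℝ)⌋₊ := ⟨_, rfl⟩
  rw [← hD] at s2 t2
  have hdQ : ∀ e ∈ Q, ¬ e.IsDiag := fun e he => hd e (hsub.1 (hsub'.1 he))
  have hdQ' : ∀ e ∈ Q', ¬ e.IsDiag := fun e he => hd' e (hsub.2.1 (hsub'.2.1 he))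
  obtain ⟨c, hc1, hc2⟩ := coloring (2 * D) Q hdQ
    (fun x => (deg_mono hsub'.1 x).trans (s2 x))
  obtain ⟨c', hc1', hc2'⟩ := coloring (2 * D) Q' hdQ' t2
  have hfin := final (2 * (2 * D) + 2 * (2 * D)) (2 * (2 * D)) (2 * (2 * D)) Q Q' c c' rfl hQQ
    hdQ hdQ' hc1 hc1' hc2 hc2'
  refine ⟨r + (t + (2 * (2 * D) + 2 * (2 * D))), ?_, s1.trans (t1'.trans hfin)⟩
  have hD1 : (D : ℝ) ≤ η * n := by rw [hD]; exact Nat.floor_le (by positivity)
  have hn3 : 4 / δ ≤ (n : ℝ) := by
    refine hN3.trans ?_
    exact_mod_cast le_trans (le_trans (le_max_right _ _) (le_max_right _ _)) hn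
  have hn4 : 4 ≤ δ * n := by
    rw [div_le_iff₀ hδ] at hn3
    linarith
  have hDn : (D : ℝ) ≤ δ / 32 * n := hD1.trans (mul_le_mul_of_nonneg_right hη2 (by positivity))
  push_cast
  linarith

end Pool.Agent.H15.UDec
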